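/-
Groups of bounded exponent have no Schreier graph quasi-isometric to a line: definitions.
-/
import Pool.Agent.Lib.SCH.Lim

set_option autoImplicit false

namespace Pool.Agent.QLN

open Pool.Agent.SCH

/-- the ball of radius `R` around `x` in the Schreier graph -/
def ball {X ι : Type*} (τ : ι → Equiv.Perm X) (x : X) (R : ℕ) : Set X :=
  {y | ∃ w : List ι, w.length ≤ R ∧ wd τ w x = y}

/-- A system: permutations `τ s` of the integers with displacement at most `D`, trivial outside the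
set `Ω`, with exponent `n`, such that two points of `Ω` are connected by a word of length at most
`r (|x - y| + 1)`, and the balls of radius `R` have at most `c R + B` points. -/
structure QPre {ι : Type*} (inv : ι → ι) (n D r c B : ℕ) (τ : ι → Equiv.Perm ℤ) (Ω : Set ℤ) :
    Prop where
  inv : ∀ s, τ (inv s) = (τ s)⁻¹
  disp : ∀ s i, |τ s i - i| ≤ (D : ℤ)
  supp : ∀ s i, i ∉ Ω → τ s i = i
  conn : ∀ x ∈ Ω, ∀ y ∈ Ω, ∃ w : List ι, (w.length : ℤ) ≤ r * (|x - y| + 1) ∧ wd τ w x = y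
  exp : ∀ w : List ι, wd τ w ^ n = 1
  gr : ∀ x ∈ Ω, ∀ R : ℕ, (ball τ x R).encard ≤ ((c * R + B : ℕ) : ℕ∞)

/-- A system whose set `Ω` is syndetic in the integers. -/
structure QSys {ι : Type*} (inv : ι → ι) (n D r c B : ℕ) (τ : ι → Equiv.Perm ℤ) (Ω : Set ℤ) : Prop
    extends QPre inv n D r c B τ Ω where
  synd : ∀ x : ℤ, ∃ y ∈ Ω, |y - x| ≤ (D : ℤ)

/-- a coarse coordinate -/
structure QB {ι : Type*} (D c₁ : ℕ) (τ : ι → Equiv.Perm ℤ) (Ω : Set ℤ) (β : ℤ → ℤ) : Prop where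
  lip : ∀ s, ∀ i ∈ Ω, |β (τ s i) - β i| ≤ 1
  coarse : ∀ x ∈ Ω, ∀ y ∈ Ω, x ≤ y → y - x ≤ D * (β y - β x + c₁)

/-- no cycle of length `L` has a unique highest point -/
def Top {ι : Type*} (L : ℕ) (τ : ι → Equiv.Perm ℤ) (Ω : Set ℤ) (β : ℤ → ℤ) : Prop :=
  ∀ (w : List ι), ∀ x ∈ Ω, Function.minimalPeriod (wd τ w) x = L →
    (∀ j : ℕ, β ((wd τ w ^ j) x) ≤ β x) → ∃ j : ℕ, 0 < j ∧ j < L ∧ β ((wd τ w ^ j) x) = β x

/-- all cycles have length at most `L` -/
def LeL {ι : Type*} (L : ℕ) (τ : ι → Equiv.Perm ℤ) : Prop :=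
  ∀ (w : List ι) (x : ℤ), Function.minimalPeriod (wd τ w) x ≤ L

theorem QPre.mem {ι : Type*} {inv : ι → ι} {n D r c B : ℕ} {τ : ι → Equiv.Perm ℤ} {Ω : Set ℤ}
    (h : QPre inv n D r c B τ Ω) (s : ι) {i : ℤ} (hi : i ∈ Ω) : τ s i ∈ Ω := by
  by_contra hc
  have h1 := h.supp s _ hc
  have h2 := (τ s).injective h1
  rw [h2] at hc
  exact hc hi

theorem QPre.wd_mem {ι : Type*} {inv : ι → ι} {n D r c B : ℕ} {τ : ι → Equiv.Perm ℤ} {Ω : Set ℤ}
    (h : QPre inv n D r c B τ Ω) (w : List ι) {i : ℤ} (hi : i ∈ Ω) : wd τ w i ∈ Ω := by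
  induction w with
  | nil => simpa [wd_nil] using hi
  | cons s w ih => rw [wd_cons, Equiv.Perm.mul_apply]; exact h.mem s ih

theorem QPre.wd_disp {ι : Type*} {inv : ι → ι} {n D r c B : ℕ} {τ : ι → Equiv.Perm ℤ} {Ω : Set ℤ}
    (h : QPre inv n D r c B τ Ω) (w : List ι) (i : ℤ) : |wd τ w i - i| ≤ D * w.length := by
  induction w with
  | nil => simp [wd_nil]
  | cons s w ih =>
    rw [wd_cons, Equiv.Perm.mul_apply, List.length_cons]
    have h1 := abs_le.1 ih
    have h2 := abs_le.1 (h.disp s (wd τ w i))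
    rw [abs_le]
    push_cast
    constructor <;> nlinarith [h1.1, h1.2, h2.1, h2.2]

/-- the inverse word -/
def winv {ι : Type*} (inv : ι → ι) (w : List ι) : List ι := (w.map inv).reverse

theorem length_winv {ι : Type*} (inv : ι → ι) (w : List ι) : (winv inv w).length = w.length := by
  simp [winv]

theorem wd_winv {X ι : Type*} {inv : ι → ι} {τ : ι → Equiv.Perm X}
    (h : ∀ s, τ (inv s) = (τ s)⁻¹) (w : List ι) : wd τ (winv inv w) = (wd τ w)⁻¹ := by
  induction w with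
  | nil => simp [winv, wd_nil]
  | cons s w ih =>
    have e : winv inv (s :: w) = winv inv w ++ [inv s] := by simp [winv]
    rw [e, wd_append, ih, wd_singleton, h, wd_cons, mul_inv_rev]

/-- two systems which agree near the origin -/
theorem agree {ι : Type*} {inv : ι → ι} {n D r c B : ℕ} {τ τ' : ι → Equiv.Perm ℤ} {Ω : Set ℤ}
    (h : QPre inv n D r c B τ Ω) {m R : ℤ} (hR : ∀ s i, |i| ≤ R → τ s i = τ' s (m + i) - m)
    (w : List ι) (i : ℤ) (hi : |i| + D * w.length ≤ R) : wd τ w i = wd τ' w (m + i) - m := by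
  induction w with
  | nil => simp [wd_nil]
  | cons s w ih =>
    rw [List.length_cons] at hi
    push_cast at hi
    have hD : (0 : ℤ) ≤ D := by positivity
    have h1 := ih (by nlinarith)
    have h2 := h.wd_disp w i
    have h3 : |wd τ w i| ≤ R := by
      have := abs_sub_abs_le_abs_sub (wd τ w i) i
      nlinarith
    rw [wd_cons, Equiv.Perm.mul_apply, hR s _ h3, h1, wd_cons, Equiv.Perm.mul_apply]
    congr 2
    ring

end Pool.Agent.QLN
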