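/-
Rows of the theorem on quasi-linear Schreier graphs of groups of bounded exponent.
-/
import Pool.Agent.Lib.QLN.Defs
import Pool.Agent.Lib.SCH.Growth

set_option autoImplicit false

namespace Pool.Agent.QLN

open Pool.Agent.SCH

/-- The functions `T s` look like a system in the window `|x| ≤ K`. -/
structure QWin {ι : Type} (inv : ι → ι) (n D r c B K : ℕ) (T : ι → ℤ → ℤ) (Ω : Set ℤ) : Prop where
  inv_left : ∀ s i, |i| ≤ (K : ℤ) → T (inv s) (T s i) = i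
  inv_right : ∀ s i, |i| ≤ (K : ℤ) → T s (T (inv s) i) = i
  disp : ∀ s i, |i| ≤ (K : ℤ) → |T s i - i| ≤ (D : ℤ)
  supp : ∀ s i, |i| ≤ (K : ℤ) → i ∉ Ω → T s i = i
  conn : ∀ x ∈ Ω, ∀ y ∈ Ω, |x| ≤ (K : ℤ) → |y| ≤ (K : ℤ) →
    ∃ w : List ι, (w.length : ℤ) ≤ r * (|x - y| + 1) ∧ wf T w x = y
  exp : ∀ (w : List ι) (i : ℤ), |i| + D * n * w.length ≤ (K : ℤ) → (wf T w)^[n] i = i
  gr : ∀ x ∈ Ω, ∀ R : ℕ, |x| + D * R ≤ (K : ℤ) →
    {y | ∃ w : List ι, w.length ≤ R ∧ wf T w x = y}.encard ≤ ((c * R + B : ℕ) : ℕ∞)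
  synd : ∀ x : ℤ, |x| ≤ (K : ℤ) → ∃ y ∈ Ω, |y - x| ≤ (D : ℤ)

/-- Row LIM: limits of windows. -/
def RowLIM : Prop :=
  ∀ (ι : Type) [Finite ι] (inv : ι → ι) (n D r c B b : ℕ) (T : ℕ → ι → ℤ → ℤ) (Ω : ℕ → Set ℤ)
    (β : ℕ → ℤ → ℤ), (∀ K, QWin inv n D r c B K (T K) (Ω K)) →
    (∀ K x, |β K x| ≤ b * (|x| + 1)) →
    ∃ (τ : ι → Equiv.Perm ℤ) (Ω' : Set ℤ) (β' : ℤ → ℤ), QSys inv n D r c B τ Ω' ∧
      ∀ R m : ℕ, ∃ K, m ≤ K ∧ ∀ i : ℤ, |i| ≤ (R : ℤ) →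
        (∀ s, τ s i = T K s i) ∧ (i ∈ Ω' ↔ i ∈ Ω K) ∧ β' i = β K i

/-- Row DEPTH: long gaps give a coordinate such that no longest cycle has a unique highest point. -/
def RowDEPTH : Prop :=
  ∀ (ι : Type) [Finite ι] (inv : ι → ι) (n D r c B L : ℕ) (τ : ι → Equiv.Perm ℤ) (Ω : Set ℤ),
    0 < n → QSys inv n D r c B τ Ω → LeL L τ →
    (∀ W : ℕ, ∃ (a : ℤ) (v : List ι), (∀ x : ℤ, a ≤ x → x < a + W → wd τ v x = x) ∧
      ∃ y : ℤ, a + W ≤ y ∧ wd τ v y ≠ y) →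
    ∃ (τ' : ι → Equiv.Perm ℤ) (Ω' : Set ℤ) (β : ℤ → ℤ), QSys inv n D r c B τ' Ω' ∧ LeL L τ' ∧
      QB D (r * (D + 1)) τ' Ω' β ∧ Top L τ' Ω' β

/-- Row CLUSTER: two points which move in parallel. -/
def RowCLUSTER : Prop :=
  ∀ (ι : Type) [Finite ι] (inv : ι → ι) (n D r c B L c₁ : ℕ), 0 < n → 2 ≤ L →
    (∀ (τ : ι → Equiv.Perm ℤ) (Ω : Set ℤ), QSys inv n D r c B τ Ω →
      ∃ (w : List ι) (x : ℤ), L ≤ Function.minimalPeriod (wd τ w) x) →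
    ∀ (τ : ι → Equiv.Perm ℤ) (Ω : Set ℤ) (β : ℤ → ℤ), QSys inv n D r c B τ Ω → LeL L τ →
      QB D c₁ τ Ω β → Top L τ Ω β →
    ∃ (τ' : ι → Equiv.Perm ℤ) (Ω' : Set ℤ) (β' : ℤ → ℤ) (R₁ : ℕ) (e : ℤ),
      QSys inv n D r c B τ' Ω' ∧ QB D c₁ τ' Ω' β' ∧ (0 : ℤ) ∈ Ω' ∧ e ∈ Ω' ∧ e ≠ 0 ∧
      ∀ u : List ι, |β' (wd τ' u 0) - β' (wd τ' u e)| ≤ (R₁ : ℤ)

/-- Row QUOT: the quotient by an invariant equivalence relation with bounded classes, all of at least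
two elements, has smaller growth. -/
def RowQUOT : Prop :=
  ∀ (ι : Type) [Finite ι] (inv : ι → ι) (n D r c B P : ℕ) (τ : ι → Equiv.Perm ℤ) (Ω : Set ℤ)
    (E : ℤ → ℤ → Prop), QSys inv n D r c B τ Ω → (∀ x ∈ Ω, E x x) → (∀ x y, E x y → E y x) →
    (∀ x y z, E x y → E y z → E x z) → (∀ x y, E x y → x ∈ Ω) →
    (∀ s x y, E x y → E (τ s x) (τ s y)) → (∀ x y, E x y → |x - y| ≤ (P : ℤ)) →
    (∀ x ∈ Ω, ∃ y, y ≠ x ∧ E x y) →
    ∃ (D' r' c' B' : ℕ) (τ' : ι → Equiv.Perm ℤ) (Ω' : Set ℤ), c' < c ∧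
      QSys inv n D' r' c' B' τ' Ω'

/-- Row PAR: two points which move in parallel give a system of smaller growth. -/
def RowPAR : Prop :=
  ∀ (ι : Type) [Finite ι] (inv : ι → ι) (n D r c B c₁ R₁ : ℕ) (τ : ι → Equiv.Perm ℤ) (Ω : Set ℤ)
    (β : ℤ → ℤ) (e : ℤ), 0 < n → QSys inv n D r c B τ Ω → QB D c₁ τ Ω β → (0 : ℤ) ∈ Ω → e ∈ Ω →
    e ≠ 0 → (∀ u : List ι, |β (wd τ u 0) - β (wd τ u e)| ≤ (R₁ : ℤ)) →
    ∃ (D' r' c' B' : ℕ) (τ' : ι → Equiv.Perm ℤ) (Ω' : Set ℤ), c' < c ∧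
      QSys inv n D' r' c' B' τ' Ω'

/-- Row FLOW: the unit flow between two points of a finite connected weighted graph. -/
def RowFLOW : Prop :=
  ∀ (F : Type) [Fintype F] [DecidableEq F] (k : F → F → ℝ), (∀ x y, k x y = k y x) →
    (∀ x y, k x y ≠ 0 → 1 ≤ k x y) → (∀ x y, Relation.ReflTransGen (fun u v => k u v ≠ 0) x y) →
    ∀ a b : F, a ≠ b → ∃ f : F → ℝ,
      (∀ x, ∑ y, k x y * (f x - f y) = (if x = a then 1 else 0) - (if x = b then 1 else 0)) ∧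
      (∀ x y, k x y ≠ 0 → |f x - f y| ≤ 1) ∧
      ∀ U : Finset F, a ∈ U → b ∉ U → ∑ x ∈ U, ∑ y ∈ Uᶜ, k x y * (f x - f y) = 1

/-- A locally finite weighted graph. -/
structure WG {Y : Type} (k : Y → Y → ℝ) (N : Y → Finset Y) : Prop where
  symm : ∀ x y, k x y = k y x
  one : ∀ x y, k x y ≠ 0 → 1 ≤ k x y
  mem : ∀ x y, k x y ≠ 0 → y ∈ N x
  conn : ∀ x y, Relation.ReflTransGen (fun u v => k u v ≠ 0) x y

/-- Row FLOWI: unit flows in infinite graphs, exact on a given finite set. -/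
def RowFLOWI : Prop :=
  ∀ (Y : Type) [DecidableEq Y] (k : Y → Y → ℝ) (N : Y → Finset Y), WG k N →
    ∀ (F : Finset Y) (a b : Y), a ≠ b → ∃ f : Y → ℝ,
      (∀ x ∈ F, ∀ y, k x y ≠ 0 → |f x - f y| ≤ 1) ∧
      (∀ x ∈ F, ∑ y ∈ N x, k x y * (f x - f y) =
        (if x = a then 1 else 0) - (if x = b then 1 else 0)) ∧
      ∀ (U : Set Y) [DecidablePred (· ∈ U)], a ∈ U → b ∉ U →
        (∀ x ∈ U, ∀ y, y ∉ U → k x y ≠ 0 → x ∈ F) →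
        ∑ x ∈ F with x ∈ U, ∑ y ∈ N x with y ∉ U, k x y * (f x - f y) = 1

/-- Row LIMH: limits of harmonic functions. -/
def RowLIMH : Prop :=
  ∀ (Y : Type) (k : Y → Y → ℝ) (N : Y → Finset Y) (x₀ : Y) (T : Finset Y) (ε : ℝ), WG k N → 0 < ε →
    (∀ F : Finset Y, ∃ f : Y → ℝ, f x₀ = 0 ∧ (∀ x ∈ F, ∀ y, k x y ≠ 0 → |f x - f y| ≤ 1) ∧
      (∀ x ∈ F, ∑ y ∈ N x, k x y * (f x - f y) = 0) ∧ ∃ t ∈ T, ε ≤ |f t|) →
    ∃ f : Y → ℝ, (∀ x y, k x y ≠ 0 → |f x - f y| ≤ 1) ∧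
      (∀ x, ∑ y ∈ N x, k x y * (f x - f y) = 0) ∧ ∃ t ∈ T, f t ≠ f x₀

/-- Row HARM: a nonconstant harmonic function with bounded gradient on a system. -/
def RowHARM : Prop :=
  ∀ (ι : Type) [Fintype ι] (inv : ι → ι) (n D r c B : ℕ) (τ : ι → Equiv.Perm ℤ) (Ω : Set ℤ),
    QSys inv n D r c B τ Ω →
    ∃ f : ℤ → ℝ, (∀ s y, |f (τ s y) - f y| ≤ 1) ∧
      (∀ y, ∑ g ∈ gS τ, (f ((g : Equiv.Perm ℤ) y) - f y) = 0) ∧ ∃ x ∈ Ω, ∃ y ∈ Ω, f x ≠ f y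

/-- An infinite connected graph with vertices at distinct integers and edges of bounded length, on
which a group of exponent `n` acts transitively. -/
structure VG (Y H : Type) [Group H] [MulAction H Y] (adj : Y → Y → Prop) (N : Y → Finset Y)
    (pos : Y → ℤ) (P n : ℕ) : Prop where
  inf : Infinite Y
  exp : ∀ h : H, h ^ n = 1
  trans : ∀ x y : Y, ∃ h : H, h • x = y
  aut : ∀ (h : H) (x y : Y), adj x y → adj (h • x) (h • y)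
  symm : ∀ x y, adj x y → adj y x
  irr : ∀ x, ¬ adj x x
  conn : ∀ x y, Relation.ReflTransGen adj x y
  inj : Function.Injective pos
  len : ∀ x y, adj x y → |pos x - pos y| ≤ (P : ℤ)
  mem : ∀ x y, y ∈ N x ↔ adj x y

/-- Row EXVT: a nonconstant harmonic function on a transitive graph. -/
def RowEXVT : Prop :=
  ∀ (Y H : Type) [Group H] [MulAction H Y] (adj : Y → Y → Prop) (N : Y → Finset Y) (pos : Y → ℤ)
    (P n : ℕ), VG Y H adj N pos P n →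
    ∃ f : Y → ℝ, (∀ x, ∑ y ∈ N x, (f x - f y) = 0) ∧ ∃ x y, f x ≠ f y

/-- Row DIM: there are few harmonic functions. -/
def RowDIM : Prop :=
  ∀ (Y H : Type) [Group H] [MulAction H Y] (adj : Y → Y → Prop) (N : Y → Finset Y) (pos : Y → ℤ)
    (P n : ℕ), VG Y H adj N pos P n →
    ∀ (m : ℕ) (f : Fin m → Y → ℝ), LinearIndependent ℝ f →
      (∀ j x, ∑ y ∈ N x, (f j x - f j y) = 0) → m ≤ 2 * P

/-- Row LIN: finitely generated linear groups of finite exponent are finite. -/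
def RowLIN : Prop :=
  ∀ (G : Type) [Group G] (d n : ℕ) (μ : G →* Matrix (Fin d) (Fin d) ℝ), 0 < n →
    (∀ g : G, g ^ n = 1) → Group.FG G → (Set.range μ).Finite

/-- Row FV: a finite dimensional invariant space of functions, finitely generated group of finite
exponent. -/
def RowFV : Prop :=
  ∀ (G Z : Type) [Group G] (ρ : G →* Equiv.Perm Z) (n : ℕ), 0 < n → (∀ g : G, g ^ n = 1) →
    Group.FG G → ∀ W : Submodule ℝ (Z → ℝ), FiniteDimensional ℝ W →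
    (∀ g, ∀ f ∈ W, (fun z => f (ρ g z)) ∈ W) →
    ∀ f ∈ W, (Set.range fun g : G => fun z => f (ρ g z)).Finite

/-- Row VT: there is no such transitive graph. -/
def RowVT : Prop :=
  ∀ (Y H : Type) [Group H] [MulAction H Y] (adj : Y → Y → Prop) (N : Y → Finset Y) (pos : Y → ℤ)
    (P n : ℕ), 0 < n → ¬ VG Y H adj N pos P n

/-- Row NOGAP: a system in which only the identity fixes a long interval does not exist. -/
def RowNOGAP : Prop :=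
  ∀ (ι : Type) [Finite ι] (inv : ι → ι) (n D r c B W : ℕ) (τ : ι → Equiv.Perm ℤ) (Ω : Set ℤ),
    0 < n → QSys inv n D r c B τ Ω →
    (∀ v : List ι, (∀ x : ℤ, 0 ≤ x → x < W → wd τ v x = x) → wd τ v = 1) → False

/-- Row EMBED: long quasi-linear balls give a system. -/
def RowEMBED.{u} : Prop :=
  ∀ (X : Type u) (ι : Type) [Finite ι] (inv : ι → ι) (n K : ℕ) (σ : ι → Equiv.Perm X), 0 < n →
    (∀ s, σ (inv s) = (σ s)⁻¹) → (∀ w, wd σ w ^ n = 1) →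
    (∀ R : ℕ, ∃ (x : X) (φ : X → ℤ), (∃ u : List ι, wd σ u x ∉ ball σ x R) ∧
      (∀ y ∈ ball σ x R, ∀ s, σ s y ∈ ball σ x R → |φ (σ s y) - φ y| ≤ (K : ℤ)) ∧
      ∀ y ∈ ball σ x R, ∀ z ∈ ball σ x R,
        ∃ w : List ι, (w.length : ℤ) ≤ K * (|φ y - φ z| + 1) ∧ wd σ w y = z) →
    ∃ (D r c B : ℕ) (τ : ι → Equiv.Perm ℤ) (Ω : Set ℤ), QSys inv n D r c B τ Ω

end Pool.Agent.QLN
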