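/-
Assembly: there is no system of finite exponent.
-/
import Pool.Agent.Lib.QLN.Rows

set_option autoImplicit false

namespace Pool.Agent.QLN

open Pool.Agent.SCH

/-- reflection -/
def rfl' {ι : Type*} (τ : ι → Equiv.Perm ℤ) : ι → Equiv.Perm ℤ :=
  fun s => (Equiv.neg ℤ).trans ((τ s).trans (Equiv.neg ℤ))

theorem wd_rfl' {ι : Type*} (τ : ι → Equiv.Perm ℤ) (w : List ι) (x : ℤ) :
    wd (rfl' τ) w x = -wd τ w (-x) := by
  unfold rfl'
  rw [wd_refl]
  simp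

theorem wd_rfl'_pow {ι : Type*} (τ : ι → Equiv.Perm ℤ) (w : List ι) (k : ℕ) (x : ℤ) :
    (wd (rfl' τ) w ^ k) x = -(wd τ w ^ k) (-x) := by
  rw [← wd_wpow, ← wd_wpow, wd_rfl']

theorem QSys.reflect {ι : Type*} {inv : ι → ι} {n D r c B : ℕ} {τ : ι → Equiv.Perm ℤ} {Ω : Set ℤ}
    (h : QSys inv n D r c B τ Ω) : QSys inv n D r c B (rfl' τ) {x | -x ∈ Ω} where
  inv s := by
    refine Equiv.ext fun x => ?_
    have h1 : (τ (inv s)) (-x) = (τ s)⁻¹ (-x) := by rw [h.inv]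
    change -(τ (inv s)) (-x) = ((rfl' τ s)⁻¹) x
    rw [h1, Equiv.Perm.eq_inv_iff_eq]
    change -(τ s) (- -(τ s)⁻¹ (-x)) = x
    simp
  disp s i := by
    change |-(τ s) (-i) - i| ≤ _
    have := h.disp s (-i)
    rw [abs_le] at this ⊢
    constructor <;> linarith [this.1, this.2]
  supp s i hi := by
    change -(τ s) (-i) = i
    rw [h.supp s (-i) hi, neg_neg]
  conn x hx y hy := by
    obtain ⟨w, h1, h2⟩ := h.conn (-x) hx (-y) hy
    refine ⟨w, ?_, ?_⟩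
    · have e : |(-x) - (-y)| = |x - y| := by rw [← abs_neg]; congr 1; ring
      rwa [e] at h1
    · rw [wd_rfl', h2, neg_neg]
  exp w := by
    refine Equiv.ext fun x => ?_
    rw [wd_rfl'_pow, h.exp]
    simp
  gr x hx R := by
    have h1 := h.gr (-x) hx R
    refine le_trans (le_of_eq ?_) h1
    have e : ball (rfl' τ) x R = (fun y : ℤ => -y) '' ball τ (-x) R := by
      ext y
      constructor
      · rintro ⟨w, hw, rfl⟩
        exact ⟨wd τ w (-x), ⟨w, hw, rfl⟩, (wd_rfl' τ w x).symm⟩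
      · rintro ⟨_, ⟨w, hw, rfl⟩, rfl⟩
        exact ⟨w, hw, wd_rfl' τ w x⟩
    rw [e, Function.Injective.encard_image neg_injective]
  synd x := by
    obtain ⟨y, hy, hxy⟩ := h.synd (-x)
    refine ⟨-y, by simpa using hy, ?_⟩
    rw [abs_le] at hxy ⊢
    constructor <;> linarith [hxy.1, hxy.2]

theorem QPre.period_pos {ι : Type*} {inv : ι → ι} {n D r c B : ℕ} {τ : ι → Equiv.Perm ℤ} {Ω : Set ℤ}
    (h : QPre inv n D r c B τ Ω) (hn : 0 < n) (w : List ι) (x : ℤ) :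
    0 < Function.minimalPeriod (wd τ w) x := by
  refine Function.IsPeriodicPt.minimalPeriod_pos hn ?_
  have := h.exp w
  change (wd τ w)^[n] x = x
  rw [Equiv.Perm.iterate_eq_pow, this]
  rfl

theorem QPre.period_le {ι : Type*} {inv : ι → ι} {n D r c B : ℕ} {τ : ι → Equiv.Perm ℤ} {Ω : Set ℤ}
    (h : QPre inv n D r c B τ Ω) (hn : 0 < n) (w : List ι) (x : ℤ) :
    Function.minimalPeriod (wd τ w) x ≤ n := by
  refine Function.IsPeriodicPt.minimalPeriod_le hn ?_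
  have := h.exp w
  change (wd τ w)^[n] x = x
  rw [Equiv.Perm.iterate_eq_pow, this]
  rfl

theorem LeL.reflect {ι : Type*} {inv : ι → ι} {n D r c B L : ℕ} {τ : ι → Equiv.Perm ℤ} {Ω : Set ℤ}
    (h : QSys inv n D r c B τ Ω) (hn : 0 < n) (hL : LeL L τ) : LeL L (rfl' τ) := by
  intro w x
  refine (Function.IsPeriodicPt.minimalPeriod_le (h.period_pos hn w (-x)) ?_).trans (hL w (-x))
  change (wd (rfl' τ) w)^[_] x = x
  rw [Equiv.Perm.iterate_eq_pow, wd_rfl'_pow, ← Equiv.Perm.iterate_eq_pow,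
    Function.iterate_minimalPeriod, neg_neg]

/-- **There is no system of finite exponent.** -/
theorem no_qsys (hDEPTH : RowDEPTH) (hCLUSTER : RowCLUSTER) (hPAR : RowPAR) (hNOGAP : RowNOGAP)
    {ι : Type} [Finite ι] (inv : ι → ι) {n : ℕ} (hn : 0 < n) :
    ¬ ∃ (D r c B : ℕ) (τ : ι → Equiv.Perm ℤ) (Ω : Set ℤ), QSys inv n D r c B τ Ω := by
  classical
  rintro ⟨D₀, r₀, c₀, B₀, τ₀, Ω₀, h₀⟩
  have hexc : ∃ c : ℕ, ∃ (D r B : ℕ) (τ : ι → Equiv.Perm ℤ) (Ω : Set ℤ), QSys inv n D r c B τ Ω :=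
    ⟨c₀, D₀, r₀, B₀, τ₀, Ω₀, h₀⟩
  have hcmin := fun m (hm : m < Nat.find hexc) => Nat.find_min hexc hm
  obtain ⟨D, r, B, τ₁, Ω₁, h₁⟩ := Nat.find_spec hexc
  generalize Nat.find hexc = c at *
  have hexL : ∃ L : ℕ, ∃ (τ : ι → Equiv.Perm ℤ) (Ω : Set ℤ), QSys inv n D r c B τ Ω ∧ LeL L τ :=
    ⟨n, τ₁, Ω₁, h₁, fun w x => h₁.toQPre.period_le hn w x⟩
  have hLmin : ∀ (τ : ι → Equiv.Perm ℤ) (Ω : Set ℤ), QSys inv n D r c B τ Ω →
      ∃ (w : List ι) (x : ℤ), Nat.find hexL ≤ Function.minimalPeriod (wd τ w) x := by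
    intro τ Ω h
    by_contra hcon
    push Not at hcon
    have hpos : 0 < Nat.find hexL := lt_of_le_of_lt (Nat.zero_le _) (hcon [] 0)
    refine Nat.find_min hexL (m := Nat.find hexL - 1) (by omega) ⟨τ, Ω, h, fun w x => ?_⟩
    have := hcon w x
    omega
  obtain ⟨τ, Ω, h, hL⟩ := Nat.find_spec hexL
  generalize Nat.find hexL = L at *
  have hL2 : 2 ≤ L := by
    by_contra hcon
    have h1 : ∀ (w : List ι) (x : ℤ), wd τ w x = x := by
      intro w x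
      have h2 := hL w x
      have h3 := h.toQPre.period_pos hn w x
      have h4 : Function.minimalPeriod (wd τ w) x = 1 := by omega
      exact Function.minimalPeriod_eq_one_iff_isFixedPt.1 h4
    obtain ⟨y, hy, hy1⟩ := h.synd 0
    obtain ⟨z, hz, hz1⟩ := h.synd (2 * D + 1)
    obtain ⟨w, _, hw⟩ := h.conn y hy z hz
    rw [h1] at hw
    rw [abs_le] at hy1 hz1
    omega
  have key : ∀ (τ : ι → Equiv.Perm ℤ) (Ω : Set ℤ), QSys inv n D r c B τ Ω → LeL L τ →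
      ¬ ∀ W : ℕ, ∃ (a : ℤ) (v : List ι), (∀ x : ℤ, a ≤ x → x < a + W → wd τ v x = x) ∧
        ∃ y : ℤ, a + W ≤ y ∧ wd τ v y ≠ y := by
    intro τ Ω h hL hgap
    obtain ⟨τ', Ω', β, h', hL', hβ, htop⟩ := hDEPTH ι inv n D r c B L τ Ω hn h hL hgap
    obtain ⟨τ'', Ω'', β', R₁, e, h'', hβ', h0, he, he0, hpar⟩ :=
      hCLUSTER ι inv n D r c B L _ hn hL2 hLmin τ' Ω' β h' hL' hβ htop
    obtain ⟨D', r', c', B', τ3, Ω3, hc', h3⟩ :=
      hPAR ι inv n D r c B _ R₁ τ'' Ω'' β' e hn h'' hβ' h0 he he0 hpar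
    exact hcmin c' hc' ⟨D', r', B', τ3, Ω3, h3⟩
  by_cases hr : ∃ W : ℕ, ∀ v : List ι, (∀ x : ℤ, 0 ≤ x → x < W → wd τ v x = x) → wd τ v = 1
  · obtain ⟨W, hW⟩ := hr
    exact hNOGAP ι inv n D r c B W τ Ω hn h hW
  push Not at hr
  by_cases hR : ∀ W : ℕ, ∃ v : List ι, (∀ x : ℤ, 0 ≤ x → x < W → wd τ v x = x) ∧
      ∃ y : ℤ, (W : ℤ) ≤ y ∧ wd τ v y ≠ y
  · refine key τ Ω h hL fun W => ?_
    obtain ⟨v, hv, y, hy, hvy⟩ := hR W
    exact ⟨0, v, fun x hx hx' => hv x hx (by linarith), y, by linarith, hvy⟩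
  · push Not at hR
    obtain ⟨W₀, hW₀⟩ := hR
    refine key (rfl' τ) _ h.reflect (hL.reflect h hn) fun W => ?_
    obtain ⟨v, hv, hv1⟩ := hr (max W W₀)
    have hex : ∃ y, wd τ v y ≠ y := by
      by_contra hcon
      push Not at hcon
      exact hv1 (Equiv.ext hcon)
    obtain ⟨y, hy⟩ := hex
    have hfix : ∀ x : ℤ, 0 ≤ x → wd τ v x = x := by
      intro x hx
      rcases lt_or_ge x (max W W₀ : ℕ) with h1 | h1
      · exact hv x hx h1
      · refine hW₀ v (fun z hz hz' => hv z hz (lt_of_lt_of_le hz' (by exact_mod_cast le_max_right W W₀)))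
          x (le_trans (by exact_mod_cast le_max_right W W₀) h1)
    have hy0 : y < 0 := by
      by_contra hcon
      exact hy (hfix y (by linarith))
    refine ⟨1 - W, v, fun x hx hx' => ?_, -y, by linarith, ?_⟩
    · rw [wd_rfl', hfix (-x) (by linarith), neg_neg]
    · rw [wd_rfl', neg_neg]
      intro hcon
      exact hy (neg_injective hcon)

end Pool.Agent.QLN
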