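/-
From long quasi-linear balls in the Schreier graphs to the finiteness of the group.
-/
import Pool.Agent.Lib.QLN.Main
import Pool.Agent.Lib.FRG.Init

set_option autoImplicit false

namespace Pool.Agent.QLN

open Pool.Agent.SCH

/-- reachable by at most `m` edges of the Schreier graph -/
def Within {G X : Type*} [Group G] [MulAction G X] (S : Set G) : ℕ → X → X → Prop
  | 0, x, y => x = y
  | m + 1, x, y => ∃ z, Within S m x z ∧ (z = y ∨ ∃ s ∈ S, s • z = y ∨ s • y = z)

section

variable {G X : Type*} [Group G] [MulAction G X] {m : ℕ} (e : Fin m → G)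

/-- the letters `s`, `s⁻¹` -/
def sig (X : Type*) [MulAction G X] (e : Fin m → G) (i : Fin m × Bool) : Equiv.Perm X :=
  if i.2 then MulAction.toPerm (e i.1) else (MulAction.toPerm (e i.1) : Equiv.Perm X)⁻¹

/-- the inverse letter -/
def sinv (i : Fin m × Bool) : Fin m × Bool := (i.1, !i.2)

theorem sig_sinv (i : Fin m × Bool) : sig X e (sinv i) = (sig X e i)⁻¹ := by
  obtain ⟨i, b⟩ := i
  cases b <;> simp [sig, sinv]

theorem sig_true (i : Fin m) (x : X) : sig X e (i, true) x = e i • x := rfl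

theorem sig_false (i : Fin m) (x : X) : sig X e (i, false) x = (e i)⁻¹ • x := rfl

/-- the group element of a letter -/
def gl (i : Fin m × Bool) : G := if i.2 then e i.1 else (e i.1)⁻¹

theorem sig_gl (i : Fin m × Bool) (x : X) : sig X e i x = gl e i • x := by
  obtain ⟨i, b⟩ := i
  cases b
  · rfl
  · rfl

theorem wd_sig (w : List (Fin m × Bool)) (x : X) :
    wd (sig X e) w x = (w.map (gl e)).prod • x := by
  induction w with
  | nil => simp [wd_nil]
  | cons s w ih =>
    rw [wd_cons, Equiv.Perm.mul_apply, ih, sig_gl, List.map_cons, List.prod_cons, mul_smul]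

theorem wd_sig_pow (w : List (Fin m × Bool)) (k : ℕ) (x : X) :
    (wd (sig X e) w ^ k) x = ((w.map (gl e)).prod ^ k) • x := by
  induction k with
  | zero => simp
  | succ k ih =>
    rw [pow_succ', Equiv.Perm.mul_apply, ih, wd_sig, pow_succ', mul_smul]

theorem exists_word (hgen : Subgroup.closure (Set.range e) = ⊤) (g : G) :
    ∃ w : List (Fin m × Bool), (w.map (gl e)).prod = g := by
  have hg : g ∈ Subgroup.closure (Set.range e) := by rw [hgen]; trivial
  induction hg using Subgroup.closure_induction with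
  | mem x hx =>
    obtain ⟨i, rfl⟩ := hx
    exact ⟨[(i, true)], by simp [gl]⟩
  | one => exact ⟨[], by simp⟩
  | mul x y _ _ ihx ihy =>
    obtain ⟨v, rfl⟩ := ihx
    obtain ⟨w, rfl⟩ := ihy
    exact ⟨v ++ w, by simp⟩
  | inv x _ ih =>
    obtain ⟨w, rfl⟩ := ih
    have key : ∀ w : List (Fin m × Bool), ∃ u : List (Fin m × Bool),
        (u.map (gl e)).prod = ((w.map (gl e)).prod)⁻¹ := by
      intro w
      induction w with
      | nil => exact ⟨[], by simp⟩
      | cons s w ih =>
        obtain ⟨u, hu⟩ := ih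
        refine ⟨u ++ [sinv s], ?_⟩
        obtain ⟨i, b⟩ := s
        cases b <;> simp [gl, sinv, hu]
    exact key w

theorem within_iff {R : ℕ} {x y : X} :
    Within (Set.range e) R x y ↔ y ∈ ball (sig X e) x R := by
  induction R generalizing y with
  | zero =>
    constructor
    · rintro rfl
      exact ⟨[], by simp, by simp [wd_nil]⟩
    · rintro ⟨w, hw, rfl⟩
      have : w = [] := List.length_eq_zero_iff.1 (by omega)
      subst this
      change x = _
      simp [wd_nil]
  | succ R ih =>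
    constructor
    · rintro ⟨z, hz, hzy⟩
      obtain ⟨w, hw, hwz⟩ := ih.1 hz
      rcases hzy with rfl | ⟨s, ⟨i, rfl⟩, h | h⟩
      · exact ⟨w, by omega, hwz⟩
      · exact ⟨(i, true) :: w, by simpa using hw, by
          rw [wd_cons, Equiv.Perm.mul_apply, hwz, sig_true, h]⟩
      · refine ⟨(i, false) :: w, by simpa using hw, ?_⟩
        rw [wd_cons, Equiv.Perm.mul_apply, hwz, sig_false, ← h, inv_smul_smul]
    · rintro ⟨w, hw, hwy⟩
      rcases w with _ | ⟨⟨i, b⟩, w⟩
      · exact ⟨x, ih.2 ⟨[], by simp, by simp [wd_nil]⟩, Or.inl (by simpa [wd_nil] using hwy)⟩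
      · rw [wd_cons, Equiv.Perm.mul_apply] at hwy
        rw [List.length_cons] at hw
        refine ⟨wd (sig X e) w x, ih.2 ⟨w, by omega, rfl⟩, Or.inr ⟨e i, ⟨i, rfl⟩, ?_⟩⟩
        cases b
        · right
          rw [sig_false] at hwy
          rw [← hwy, smul_inv_smul]
        · left
          exact hwy

theorem ball_finite {ι : Type} [Finite ι] (σ : ι → Equiv.Perm X) (x : X) (R : ℕ) :
    (ball σ x R).Finite := by
  have h1 : {w : List ι | w.length ≤ R}.Finite := List.finite_length_le ι R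
  refine (h1.image fun w => wd σ w x).subset ?_
  rintro y ⟨w, hw, rfl⟩
  exact ⟨w, hw, rfl⟩

theorem ball_card {ι : Type} [Finite ι] (R : ℕ) : ∃ N : ℕ, ∀ (σ : ι → Equiv.Perm X) (x : X),
    (ball σ x R).encard ≤ N := by
  have h1 : {w : List ι | w.length ≤ R}.Finite := List.finite_length_le ι R
  refine ⟨h1.toFinset.card, fun σ x => ?_⟩
  have h2 : ball σ x R = (fun w => wd σ w x) '' {w : List ι | w.length ≤ R} := by
    ext y
    constructor
    · rintro ⟨w, hw, rfl⟩; exact ⟨w, hw, rfl⟩
    · rintro ⟨w, hw, rfl⟩; exact ⟨w, hw, rfl⟩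
  rw [h2]
  refine (Set.encard_image_le _ _).trans ?_
  rw [h1.encard_eq_coe_toFinset_card]

end

/-- a finite set of generators as a finite family -/
theorem exists_family {G : Type*} (S : Set G) (hS : S.Finite) :
    ∃ (m : ℕ) (e : Fin m → G), Set.range e = S := by
  have := hS.fintype
  refine ⟨Fintype.card S, fun i => ((Fintype.equivFin S).symm i : G), ?_⟩
  ext g
  constructor
  · rintro ⟨i, rfl⟩; exact ((Fintype.equivFin S).symm i).2
  · intro hg
    exact ⟨Fintype.equivFin S ⟨g, hg⟩, by simp⟩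

/-- **Final form.** -/
theorem final.{u, v} (hEMBED : RowEMBED.{v}) (hDEPTH : RowDEPTH) (hCLUSTER : RowCLUSTER)
    (hPAR : RowPAR) (hNOGAP : RowNOGAP)
    {G : Type u} {X : Type v} [Group G] [MulAction G X] (S : Set G) (hS : S.Finite)
    (hgen : Subgroup.closure S = ⊤) (K : ℕ) (n : ℕ) (hn : 0 < n) (hexp : ∀ g : G, g ^ n = 1) :
    ∃ R : ℕ, ∀ x : X, (∃ φ : X → ℤ, ∀ z t : X, Within S R x z → Within S R x t →
        (Within S 1 z t → |φ z - φ t| ≤ (K : ℤ)) ∧
          Within S (K * ((φ z - φ t).natAbs + 1)) z t) →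
      ∀ z ∈ MulAction.orbit G x, Within S R x z := by
  classical
  by_contra hcon
  push Not at hcon
  obtain ⟨m, e, rfl⟩ := exists_family S hS
  refine no_qsys hDEPTH hCLUSTER hPAR hNOGAP (sinv (m := m)) hn ?_
  refine hEMBED X (Fin m × Bool) sinv n K (sig X e) hn (fun s => sig_sinv e s) (fun w => ?_)
    fun R => ?_
  · refine Equiv.ext fun x => ?_
    rw [wd_sig_pow, hexp]
    simp
  · obtain ⟨y, ⟨φ, hφ⟩, z₀, ⟨g, hg⟩, hz₀⟩ := hcon R
    refine ⟨y, φ, ?_, fun z hz s hs => ?_, fun z hz t ht => ?_⟩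
    · obtain ⟨w, hw⟩ := exists_word e hgen g
      refine ⟨w, fun h => hz₀ ((within_iff e).2 ?_)⟩
      rw [wd_sig, hw] at h
      rw [← hg]
      exact h
    · have h1 := (hφ (sig X e s z) z ((within_iff e).2 hs) ((within_iff e).2 hz)).1
      refine h1 ((within_iff e).2 ⟨[sinv s], by simp, ?_⟩)
      rw [wd_singleton, sig_sinv]
      exact (sig X e s).symm_apply_apply z
    · obtain ⟨w, hw, hwt⟩ := (within_iff e).1 (hφ z t ((within_iff e).2 hz) ((within_iff e).2 ht)).2
      refine ⟨w, ?_, hwt⟩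
      have : ((w.length : ℕ) : ℤ) ≤ ((K * ((φ z - φ t).natAbs + 1) : ℕ) : ℤ) := by exact_mod_cast hw
      push_cast at this
      simpa [Int.natCast_natAbs] using this

/-- the second part: finite groups -/
theorem final_finite {G X : Type*} [Group G] [MulAction G X] [FaithfulSMul G X] (S : Set G)
    (hS : S.Finite) (hgen : Subgroup.closure S = ⊤) (Q : ℕ → X → Prop)
    (hA : ∃ R : ℕ, ∀ x : X, Q R x → ∀ z ∈ MulAction.orbit G x, Within S R x z)
    (hX : ∀ R : ℕ, ∃ N : ℕ, ∀ x : X, (N : ℕ∞) < (MulAction.orbit G x).encard →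
      ∃ y ∈ MulAction.orbit G x, Q R y) : Finite G := by
  classical
  obtain ⟨R, hR⟩ := hA
  obtain ⟨N, hN⟩ := hX R
  obtain ⟨m, e, rfl⟩ := exists_family S hS
  obtain ⟨N', hN'⟩ := ball_card (X := X) (ι := Fin m × Bool) R
  have hfg : Group.FG G := ⟨⟨hS.toFinset, by simpa using hgen⟩⟩
  refine FRG.finite_of_bounded (X := X) G hfg (N := max N N') fun x => ?_
  by_contra hcon
  push Not at hcon
  obtain ⟨y, hy, hQ⟩ := hN x (lt_of_le_of_lt (by exact_mod_cast le_max_left N N') hcon)
  have hyx : MulAction.orbit G y = MulAction.orbit G x := MulAction.orbit_eq_iff.2 hy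
  have hsub : MulAction.orbit G y ⊆ ball (sig X e) y R := fun z hz =>
    (within_iff e).1 (hR y hQ z hz)
  have h1 := (Set.encard_le_encard hsub).trans (hN' (sig X e) y)
  rw [hyx] at h1
  exact absurd (lt_of_lt_of_le hcon h1) (not_lt.2 (by exact_mod_cast le_max_right N N'))

end Pool.Agent.QLN
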