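/-
QLN, row FV: finite dimensional invariant spaces of functions and groups of finite exponent
(helper92).
-/
import Pool.Agent.Lib.QLN.Rows

set_option autoImplicit false

namespace Pool.Agent.QLN

open Pool.Agent.SCH

/-- Row FV. -/
theorem rowFV (hLIN : RowLIN) : RowFV := by
  intro G Z _ ρ n hn hexp hfg W hW hinv f hf
  let θ : G →* Module.End ℝ W :=
    { toFun := fun g =>
        { toFun := fun F => ⟨fun z => (F : Z → ℝ) (ρ g⁻¹ z), hinv g⁻¹ _ F.2⟩
          map_add' := fun a b => rfl
          map_smul' := fun c a => rfl }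
      map_one' := by
        ext F z
        simp
      map_mul' := fun g h => by
        ext F z
        simp [mul_inv_rev] }
  let b := Module.finBasis ℝ W
  let μ : G →* Matrix (Fin (Module.finrank ℝ W)) (Fin (Module.finrank ℝ W)) ℝ :=
    ((LinearMap.toMatrixAlgEquiv b).toAlgHom.toRingHom.toMonoidHom).comp θ
  have h1 : (Set.range μ).Finite := hLIN G _ n μ hn hexp hfg
  have h2 : (Set.range θ).Finite := by
    refine Set.Finite.of_finite_image (f := fun T => LinearMap.toMatrixAlgEquiv b T) ?_
      ((LinearMap.toMatrixAlgEquiv b).injective.injOn)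
    rw [← Set.range_comp]
    exact h1
  refine (h2.image fun T : Module.End ℝ W => ((T ⟨f, hf⟩ : W) : Z → ℝ)).subset ?_
  rintro _ ⟨g, rfl⟩
  refine ⟨θ g⁻¹, ⟨g⁻¹, rfl⟩, ?_⟩
  funext z
  change f (ρ (g⁻¹)⁻¹ z) = f (ρ g z)
  rw [inv_inv]

end Pool.Agent.QLN
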