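/-
Row LIN: finitely generated linear groups of finite exponent are finite.
-/
import Pool.Agent.Lib.QLN.Rows
import Pool.Agent.Lib.MP_98022b_gl.FinField

set_option autoImplicit false

namespace Pool.Agent.QLN

open Finset

theorem rowLIN : RowLIN := by
  classical
  intro G _ d n μ hn hexp hfg
  obtain ⟨S, hS⟩ := hfg.out
  let T : Finset ℝ := (S ×ˢ (univ : Finset (Fin d × Fin d))).image (fun p => μ p.1 p.2.1 p.2.2) ∪
    (S ×ˢ (univ : Finset (Fin d × Fin d))).image (fun p => μ p.1⁻¹ p.2.1 p.2.2)
  let R : Subring ℝ := Subring.closure (T : Set ℝ)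
  have hmem : ∀ g : G, (∀ i j, μ g i j ∈ R) ∧ ∀ i j, μ g⁻¹ i j ∈ R := by
    intro g
    have hg : g ∈ Subgroup.closure (S : Set G) := by rw [hS]; exact Subgroup.mem_top g
    induction hg using Subgroup.closure_induction with
    | mem x hx =>
      refine ⟨fun i j => Subring.subset_closure ?_, fun i j => Subring.subset_closure ?_⟩
      · exact mem_union_left _ (mem_image.2 ⟨(x, i, j), mem_product.2 ⟨hx, mem_univ _⟩, rfl⟩)
      · exact mem_union_right _ (mem_image.2 ⟨(x, i, j), mem_product.2 ⟨hx, mem_univ _⟩, rfl⟩)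
    | one =>
      have h1 : ∀ i j, μ 1 i j ∈ R := by
        intro i j
        rw [map_one, Matrix.one_apply]
        split_ifs
        · exact R.one_mem
        · exact R.zero_mem
      exact ⟨h1, fun i j => by rw [inv_one]; exact h1 i j⟩
    | mul x y _ _ hx hy =>
      refine ⟨fun i j => ?_, fun i j => ?_⟩
      · rw [map_mul, Matrix.mul_apply]
        exact R.sum_mem fun l _ => R.mul_mem (hx.1 i l) (hy.1 l j)
      · rw [mul_inv_rev, map_mul, Matrix.mul_apply]
        exact R.sum_mem fun l _ => R.mul_mem (hy.2 i l) (hx.2 l j)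
    | inv x _ hx => exact ⟨hx.2, fun i j => by rw [inv_inv]; exact hx.1 i j⟩
  let s : Finset R := (T.finite_toSet.preimage
    (Subtype.val_injective.injOn : Set.InjOn (Subtype.val : R → ℝ) _)).toFinset
  have hs : Subring.closure (s : Set R) = ⊤ := by
    rw [Set.Finite.coe_toFinset, eq_top_iff]
    rintro ⟨x, hx⟩ -
    induction hx using Subring.closure_induction with
    | mem y hy => exact Subring.subset_closure hy
    | zero => exact Subring.zero_mem _
    | one => exact Subring.one_mem _
    | add y z _ _ hy hz => exact Subring.add_mem _ hy hz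
    | neg y _ hy => exact Subring.neg_mem _ hy
    | mul y z _ _ hy hz => exact Subring.mul_mem _ hy hz
  have hn0 : ((n : ℕ) : R) ≠ 0 := by
    intro h
    have h1 : (((n : ℕ) : R) : ℝ) = 0 := by rw [h]; rfl
    rw [Subring.coe_natCast] at h1
    exact hn.ne' (by exact_mod_cast h1)
  obtain ⟨k, _, _, f, hf⟩ := Pool.Agent.GT.exists_finite_field s hs hn0
  let φ : Matrix (Fin d) (Fin d) R →+* Matrix (Fin d) (Fin d) k := f.mapMatrix
  let ψ : Matrix (Fin d) (Fin d) R →+* Matrix (Fin d) (Fin d) ℝ := R.subtype.mapMatrix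
  have hψ : Function.Injective ψ := by
    intro A B hAB
    ext i j
    exact congrFun (congrFun hAB i) j
  let a : G → Matrix (Fin d) (Fin d) R := fun g => Matrix.of fun i j => ⟨μ g i j, (hmem g).1 i j⟩
  have ha : ∀ g, ψ (a g) = μ g := fun g => by
    ext i j
    rfl
  have hmul : ∀ g h, a (g * h) = a g * a h := fun g h => hψ (by rw [map_mul, ha, ha, ha, map_mul])
  have hone : a 1 = 1 := hψ (by rw [map_one, ha, map_one])
  -- the kernel of the reduction is trivial
  have hker : ∀ g, φ (a g) = 1 → μ g = 1 := by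
    intro g hg
    have h1 : (a g) ^ n = 1 := by
      have h2 : ∀ m : ℕ, a (g ^ m) = a g ^ m := by
        intro m
        induction m with
        | zero => rw [pow_zero, pow_zero, hone]
        | succ m ih => rw [pow_succ, pow_succ, hmul, ih]
      rw [← h2, hexp, hone]
    have h2 : (∑ i ∈ range n, a g ^ i) * (a g - 1) = 0 := by
      rw [geom_sum_mul, h1, sub_self]
    have h3 : φ (∑ i ∈ range n, a g ^ i) = (n : Matrix (Fin d) (Fin d) k) := by
      rw [map_sum]
      simp only [map_pow, hg, one_pow, sum_const, card_range, nsmul_eq_mul, mul_one]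
    have h4 : (∑ i ∈ range n, a g ^ i).det ≠ 0 := by
      intro h0
      have h5 : f (∑ i ∈ range n, a g ^ i).det = (φ (∑ i ∈ range n, a g ^ i)).det :=
        f.map_det _
      rw [h0, map_zero, h3] at h5
      have h6 : ((n : Matrix (Fin d) (Fin d) k)).det = (n : k) ^ d := by
        rw [← Matrix.diagonal_natCast, Matrix.det_diagonal, prod_const, card_univ,
          Fintype.card_fin]
      rw [h6] at h5
      have h7 : (n : k) ≠ 0 := by
        rw [← map_natCast f]
        exact hf
      exact pow_ne_zero d h7 h5.symm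
    have h5 : ψ (∑ i ∈ range n, a g ^ i) * (μ g - 1) = 0 := by
      have h6 := congrArg ψ h2
      rwa [map_mul, map_sub, map_one, map_zero, ha] at h6
    have h6 : (ψ (∑ i ∈ range n, a g ^ i)).det ≠ 0 := by
      have h7 : R.subtype (∑ i ∈ range n, a g ^ i).det = (ψ (∑ i ∈ range n, a g ^ i)).det :=
        R.subtype.map_det _
      rw [← h7]
      intro h8
      exact h4 (Subtype.ext h8)
    have h7 := Matrix.nonsing_inv_mul_cancel_left (ψ (∑ i ∈ range n, a g ^ i)) (μ g - 1)
      (isUnit_iff_ne_zero.2 h6)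
    rw [h5, mul_zero] at h7
    exact sub_eq_zero.1 h7.symm
  have hfib : ∀ g h, φ (a g) = φ (a h) → μ g = μ h := by
    intro g h hgh
    have h1 : φ (a (g⁻¹ * h)) = 1 := by
      rw [hmul, map_mul, ← hgh, ← map_mul, ← hmul, inv_mul_cancel, hone, map_one]
    have h2 := hker _ h1
    have h3 : μ h = μ g * μ (g⁻¹ * h) := by rw [← map_mul, mul_inv_cancel_left]
    rw [h3, h2, mul_one]
  have hfin : (Set.range fun g => φ (a g)).Finite := Set.toFinite _
  choose! u hu using fun (y : Matrix (Fin d) (Fin d) k)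
    (hy : y ∈ Set.range fun g => φ (a g)) => hy
  refine (hfin.image fun y => μ (u y)).subset ?_
  rintro _ ⟨g, rfl⟩
  exact ⟨φ (a g), ⟨g, rfl⟩, (hfib _ _ (hu _ ⟨g, rfl⟩))⟩

end Pool.Agent.QLN
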