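/-
Row FLOW: the unit flow between two points of a finite connected weighted graph (helper72).
-/
import Pool.Agent.Lib.QLN.Rows

set_option autoImplicit false
set_option linter.unusedSectionVars false

namespace Pool.Agent.QLN

open Pool.Agent.SCH

namespace Flow

variable {F : Type} [Fintype F] [DecidableEq F]

/-- the Laplacian -/
def lap (k : F → F → ℝ) (f : F → ℝ) (x : F) : ℝ := ∑ y, k x y * (f x - f y)

theorem lap_add (k : F → F → ℝ) (f g : F → ℝ) : lap k (f + g) = lap k f + lap k g := by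
  funext x
  simp only [lap, Pi.add_apply, ← Finset.sum_add_distrib]
  exact Finset.sum_congr rfl fun y _ => by ring

theorem lap_smul (k : F → F → ℝ) (c : ℝ) (f : F → ℝ) : lap k (c • f) = c • lap k f := by
  funext x
  simp only [lap, Pi.smul_apply, smul_eq_mul, Finset.mul_sum]
  exact Finset.sum_congr rfl fun y _ => by ring

/-- an antisymmetric function has sum zero on a square -/
theorem sum_anti (U : Finset F) (h : F → F → ℝ) (ha : ∀ x y, h x y = -h y x) :
    ∑ x ∈ U, ∑ y ∈ U, h x y = 0 := by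
  have h1 : ∑ x ∈ U, ∑ y ∈ U, h x y = -∑ x ∈ U, ∑ y ∈ U, h x y := by
    conv_lhs => rw [Finset.sum_comm]
    rw [← Finset.sum_neg_distrib]
    refine Finset.sum_congr rfl fun y _ => ?_
    rw [← Finset.sum_neg_distrib]
    exact Finset.sum_congr rfl fun x _ => ha x y
  linarith

theorem sum_lap {k : F → F → ℝ} (hs : ∀ x y, k x y = k y x) (f : F → ℝ) (U : Finset F) :
    ∑ x ∈ U, lap k f x = ∑ x ∈ U, ∑ y ∈ Uᶜ, k x y * (f x - f y) := by
  have h1 : ∀ x, lap k f x = ∑ y ∈ U, k x y * (f x - f y) + ∑ y ∈ Uᶜ, k x y * (f x - f y) :=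
    fun x => (Finset.sum_add_sum_compl U _).symm
  simp only [h1, Finset.sum_add_distrib]
  rw [sum_anti U (fun x y => k x y * (f x - f y)) (fun x y => by
    change k x y * (f x - f y) = -(k y x * (f y - f x))
    rw [hs x y]; ring), zero_add]

theorem sum_lap_univ {k : F → F → ℝ} (hs : ∀ x y, k x y = k y x) (f : F → ℝ) :
    ∑ x, lap k f x = 0 := by
  rw [sum_lap hs f Finset.univ, Finset.compl_univ]
  simp

theorem energy {k : F → F → ℝ} (hs : ∀ x y, k x y = k y x) (f : F → ℝ) :
    2 * ∑ x, f x * lap k f x = ∑ x, ∑ y, k x y * (f x - f y) ^ 2 := by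
  have h1 : ∑ x, f x * lap k f x = ∑ x, ∑ y, f x * (k x y * (f x - f y)) :=
    Finset.sum_congr rfl fun x _ => by rw [lap, Finset.mul_sum]
  have h2 : ∑ x, f x * lap k f x = ∑ x, ∑ y, -(f y * (k x y * (f x - f y))) := by
    rw [h1, Finset.sum_comm]
    refine Finset.sum_congr rfl fun x _ => Finset.sum_congr rfl fun y _ => ?_
    rw [hs y x]; ring
  rw [two_mul]
  nth_rw 1 [h1]
  rw [h2, ← Finset.sum_add_distrib]
  refine Finset.sum_congr rfl fun x _ => ?_
  rw [← Finset.sum_add_distrib]
  exact Finset.sum_congr rfl fun y _ => by ring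

theorem nonneg {k : F → F → ℝ} (h1 : ∀ x y, k x y ≠ 0 → 1 ≤ k x y) (x y : F) : 0 ≤ k x y := by
  by_cases h : k x y = 0
  · rw [h]
  · linarith [h1 x y h]

/-- harmonic functions are constant -/
theorem const {k : F → F → ℝ} (hs : ∀ x y, k x y = k y x) (h1 : ∀ x y, k x y ≠ 0 → 1 ≤ k x y)
    (hc : ∀ x y, Relation.ReflTransGen (fun u v => k u v ≠ 0) x y) {f : F → ℝ}
    (hf : lap k f = 0) (x y : F) : f x = f y := by
  have h2 : ∑ x, ∑ y, k x y * (f x - f y) ^ 2 = 0 := by
    rw [← energy hs f, hf]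
    simp
  have hn : ∀ x y, 0 ≤ k x y * (f x - f y) ^ 2 := fun x y =>
    mul_nonneg (nonneg h1 x y) (sq_nonneg _)
  have h3 : ∀ x y, k x y * (f x - f y) ^ 2 = 0 := by
    intro x y
    have h4 := (Finset.sum_eq_zero_iff_of_nonneg (fun x _ => Finset.sum_nonneg fun y _ => hn x y)).1
      h2 x (Finset.mem_univ x)
    exact (Finset.sum_eq_zero_iff_of_nonneg (fun y _ => hn x y)).1 h4 y (Finset.mem_univ y)
  have h4 : ∀ x y, k x y ≠ 0 → f x = f y := by
    intro x y hxy
    have h5 := (mul_eq_zero.1 (h3 x y)).resolve_left hxy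
    linarith [pow_eq_zero_iff (two_ne_zero) |>.1 h5]
  induction hc x y with
  | refl => rfl
  | tail _ h ih => exact ih.trans (h4 _ _ h)

/-- the Laplacian plus the mean value -/
def lapL (k : F → F → ℝ) : (F → ℝ) →ₗ[ℝ] (F → ℝ) where
  toFun f := lap k f + fun _ => ∑ z, f z
  map_add' f g := by
    funext x
    simp only [lap_add, Pi.add_apply, Finset.sum_add_distrib]
    ring
  map_smul' c f := by
    funext x
    simp only [lap_smul, Pi.add_apply, Pi.smul_apply, smul_eq_mul, RingHom.id_apply,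
      ← Finset.mul_sum]
    ring

theorem sum_zero {k : F → F → ℝ} (hs : ∀ x y, k x y = k y x) (x₀ : F) {f : F → ℝ}
    (hf : ∑ x, lapL k f x = 0) : ∑ z, f z = 0 := by
  have h1 : ∑ x, lapL k f x = ∑ x, lap k f x + (Fintype.card F) * ∑ z, f z := by
    change ∑ x, (lap k f x + ∑ z, f z) = _
    rw [Finset.sum_add_distrib, Finset.sum_const, Finset.card_univ, nsmul_eq_mul]
  rw [h1, sum_lap_univ hs, zero_add] at hf
  have h2 : (Fintype.card F : ℝ) ≠ 0 := by
    have : 0 < Fintype.card F := Fintype.card_pos_iff.2 ⟨x₀⟩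
    exact_mod_cast this.ne'
  exact (mul_eq_zero.1 hf).resolve_left h2

theorem exists_flow {k : F → F → ℝ} (hs : ∀ x y, k x y = k y x)
    (h1 : ∀ x y, k x y ≠ 0 → 1 ≤ k x y)
    (hc : ∀ x y, Relation.ReflTransGen (fun u v => k u v ≠ 0) x y) (a b : F) :
    ∃ f : F → ℝ, ∀ x, lap k f x = (if x = a then 1 else 0) - (if x = b then 1 else 0) := by
  have hinj : Function.Injective (lapL k) := by
    rw [← LinearMap.ker_eq_bot, eq_bot_iff]
    intro f hf
    rw [LinearMap.mem_ker] at hf
    have h2 : ∑ z, f z = 0 := sum_zero hs a (by rw [hf]; simp)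
    have h3 : lap k f = 0 := by
      funext x
      have h4 := congrFun hf x
      change lap k f x + ∑ z, f z = 0 at h4
      rw [h2, add_zero] at h4
      exact h4
    have h4 := const hs h1 hc h3
    have h5 : ∀ x, f x = 0 := by
      intro x
      have h6 : ∑ z, f z = (Fintype.card F) * f x := by
        rw [Finset.sum_congr rfl (fun z _ => h4 z x), Finset.sum_const, Finset.card_univ,
          nsmul_eq_mul]
      rw [h2] at h6
      have h7 : (Fintype.card F : ℝ) ≠ 0 := by
        have : 0 < Fintype.card F := Fintype.card_pos_iff.2 ⟨x⟩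
        exact_mod_cast this.ne'
      exact (mul_eq_zero.1 h6.symm).resolve_left h7
    exact funext h5
  have hsurj := LinearMap.injective_iff_surjective.1 hinj
  obtain ⟨f, hf⟩ := hsurj (fun x => (if x = a then 1 else 0) - (if x = b then 1 else 0))
  refine ⟨f, fun x => ?_⟩
  have h2 : ∑ z, f z = 0 := sum_zero hs a (by
    rw [hf, Finset.sum_sub_distrib]
    simp)
  have h3 := congrFun hf x
  change lap k f x + ∑ z, f z = _ at h3
  rw [h2, add_zero] at h3
  exact h3

end Flow

/-- **Row FLOW** -/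
theorem rowFLOW : RowFLOW := by
  intro F _ _ k hs h1 hc a b hab
  obtain ⟨f, hf⟩ := Flow.exists_flow hs h1 hc a b
  have key : ∀ U : Finset F, ∑ x ∈ U, ∑ y ∈ Uᶜ, k x y * (f x - f y) =
      (if a ∈ U then 1 else 0) - (if b ∈ U then 1 else 0) := by
    intro U
    rw [← Flow.sum_lap hs f U, Finset.sum_congr rfl (fun x _ => hf x), Finset.sum_sub_distrib,
      Finset.sum_ite_eq' U a, Finset.sum_ite_eq' U b]
  have h2 : ∀ x y, k x y ≠ 0 → f y < f x → f x - f y ≤ 1 := by
    intro x y hxy hlt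
    have h3 := key (Finset.univ.filter fun z => f x ≤ f z)
    have hn : ∀ u ∈ Finset.univ.filter (fun z => f x ≤ f z),
        ∀ v ∈ (Finset.univ.filter fun z => f x ≤ f z)ᶜ, 0 ≤ k u v * (f u - f v) := by
      intro u hu v hv
      rw [Finset.mem_filter] at hu
      rw [Finset.mem_compl, Finset.mem_filter, not_and] at hv
      have hv1 := not_le.1 (hv (Finset.mem_univ v))
      exact mul_nonneg (Flow.nonneg h1 u v) (by linarith [hu.2])
    have hx : x ∈ Finset.univ.filter (fun z => f x ≤ f z) := by simp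
    have hy : y ∈ (Finset.univ.filter fun z => f x ≤ f z)ᶜ := by
      rw [Finset.mem_compl, Finset.mem_filter]
      intro h
      linarith [h.2]
    have h4 : k x y * (f x - f y) ≤ ∑ x' ∈ Finset.univ.filter (fun z => f x ≤ f z),
        ∑ y' ∈ (Finset.univ.filter fun z => f x ≤ f z)ᶜ, k x' y' * (f x' - f y') :=
      (Finset.single_le_sum (f := fun y' => k x y' * (f x - f y')) (hn x hx) hy).trans
        (Finset.single_le_sum (f := fun x' => ∑ y' ∈ (Finset.univ.filter fun z => f x ≤ f z)ᶜ,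
          k x' y' * (f x' - f y')) (fun u hu => Finset.sum_nonneg (hn u hu)) hx)
    rw [h3] at h4
    have h5 : (1 : ℝ) ≤ k x y := h1 x y hxy
    have h6 : ((if a ∈ Finset.univ.filter (fun z => f x ≤ f z) then 1 else 0) -
        (if b ∈ Finset.univ.filter (fun z => f x ≤ f z) then 1 else 0) : ℝ) ≤ 1 := by
      split_ifs <;> norm_num
    nlinarith
  refine ⟨f, hf, fun x y hxy => ?_, fun U ha hb => ?_⟩
  · rw [abs_le]
    rcases lt_trichotomy (f y) (f x) with h | h | h
    · exact ⟨by linarith, h2 x y hxy h⟩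
    · rw [h]; norm_num
    · have hyx : k y x ≠ 0 := by rwa [← hs x y]
      exact ⟨by linarith [h2 y x hyx h], by linarith⟩
  · rw [key U, if_pos ha, if_neg hb, sub_zero]

end Pool.Agent.QLN
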