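/-
Row FLOWI: unit flows in infinite graphs, exact on a given finite set (helper72).
-/
import Pool.Agent.Lib.QLN.Rows

set_option autoImplicit false

namespace Pool.Agent.QLN

open Pool.Agent.SCH

namespace FlowI

variable {Y : Type} {k : Y → Y → ℝ} {N : Y → Finset Y}

/-- connected to `a` inside a finite set -/
def Conn (k : Y → Y → ℝ) (P : Finset Y) (a x : Y) : Prop :=
  Relation.ReflTransGen (fun u v => u ∈ P ∧ v ∈ P ∧ k u v ≠ 0) a x

theorem Conn.mono {P Q : Finset Y} (h : P ⊆ Q) {a x : Y} (hc : Conn k P a x) : Conn k Q a x :=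
  Relation.ReflTransGen.mono (p := fun u v => u ∈ Q ∧ v ∈ Q ∧ k u v ≠ 0)
    (fun _ _ h1 => ⟨h h1.1, h h1.2.1, h1.2.2⟩) _ _ hc

theorem exists_path [DecidableEq Y] {a x : Y}
    (h : Relation.ReflTransGen (fun u v => k u v ≠ 0) a x) :
    ∃ P : Finset Y, a ∈ P ∧ x ∈ P ∧ ∀ z ∈ P, Conn k P a z := by
  induction h with
  | refl =>
    refine ⟨{a}, Finset.mem_singleton_self a, Finset.mem_singleton_self a, fun z hz => ?_⟩
    rw [Finset.mem_singleton] at hz
    subst hz
    exact Relation.ReflTransGen.refl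
  | @tail b c _ hbc ih =>
    obtain ⟨P, ha, hb, hP⟩ := ih
    refine ⟨insert c P, Finset.mem_insert_of_mem ha, Finset.mem_insert_self c P, fun z hz => ?_⟩
    have hsub : P ⊆ insert c P := Finset.subset_insert c P
    rcases Finset.mem_insert.1 hz with h | h
    · subst h
      exact Relation.ReflTransGen.tail ((hP b hb).mono hsub)
        ⟨hsub hb, Finset.mem_insert_self z P, hbc⟩
    · exact (hP z h).mono hsub

theorem exists_finset [DecidableEq Y] (hc : ∀ x y, Relation.ReflTransGen (fun u v => k u v ≠ 0) x y)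
    (a : Y) (S : Finset Y) : ∃ P : Finset Y, a ∈ P ∧ S ⊆ P ∧ ∀ z ∈ P, Conn k P a z := by
  induction S using Finset.induction_on with
  | empty =>
    refine ⟨{a}, Finset.mem_singleton_self a, Finset.empty_subset _, fun z hz => ?_⟩
    rw [Finset.mem_singleton] at hz
    subst hz
    exact Relation.ReflTransGen.refl
  | insert x S _ ih =>
    obtain ⟨P, ha, hS, hP⟩ := ih
    obtain ⟨Q, _, hx, hQ⟩ := exists_path (k := k) (hc a x)
    refine ⟨P ∪ Q, Finset.mem_union_left _ ha, ?_, fun z hz => ?_⟩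
    · intro z hz
      rcases Finset.mem_insert.1 hz with h | h
      · subst h
        exact Finset.mem_union_right _ hx
      · exact Finset.mem_union_left _ (hS h)
    · rcases Finset.mem_union.1 hz with h | h
      · exact (hP z h).mono Finset.subset_union_left
      · exact (hQ z h).mono Finset.subset_union_right

/-- connectedness of the subtype -/
theorem conn_sub {P : Finset Y} {a : Y} (ha : a ∈ P) {x : Y} (h : Conn k P a x) (hx : x ∈ P) :
    Relation.ReflTransGen (fun u v : P => k u v ≠ 0) ⟨a, ha⟩ ⟨x, hx⟩ := by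
  induction h with
  | refl => exact Relation.ReflTransGen.refl
  | @tail b c _ hbc ih => exact (ih hbc.1).tail hbc.2.2

end FlowI

/-- **Row FLOWI** -/
theorem rowFLOWI (hFLOW : RowFLOW) : RowFLOWI := by
  classical
  intro Y hdec k N hW F a b hab
  obtain ⟨P, haP, hSP, hP⟩ := FlowI.exists_finset hW.conn a (insert b (F ∪ F.biUnion N))
  have hbP : b ∈ P := hSP (Finset.mem_insert_self _ _)
  have hFP : F ⊆ P := fun x hx =>
    hSP (Finset.mem_insert_of_mem (Finset.mem_union_left _ hx))
  have hNP : ∀ x ∈ F, N x ⊆ P := fun x hx y hy => hSP (Finset.mem_insert_of_mem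
    (Finset.mem_union_right _ (Finset.mem_biUnion.2 ⟨x, hx, hy⟩)))
  have hconn : ∀ x y : P, Relation.ReflTransGen (fun u v : P => k u v ≠ 0) x y := by
    have h1 : ∀ x : P, Relation.ReflTransGen (fun u v : P => k u v ≠ 0) ⟨a, haP⟩ x :=
      fun x => FlowI.conn_sub haP (hP x.1 x.2) x.2
    intro x y
    have h2 : Relation.ReflTransGen (fun u v : P => k u v ≠ 0) x ⟨a, haP⟩ := by
      induction h1 x with
      | refl => exact Relation.ReflTransGen.refl
      | tail _ hbc ih => exact Relation.ReflTransGen.head (by rwa [hW.symm]) ih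
    exact h2.trans (h1 y)
  obtain ⟨f0, hf1, hf2, hf3⟩ := hFLOW P (fun x y => k x y) (fun x y => hW.symm x y)
    (fun x y => hW.one x y) hconn ⟨a, haP⟩ ⟨b, hbP⟩ (fun h => hab (Subtype.ext_iff.1 h))
  obtain ⟨g, hg⟩ : ∃ g : Y → ℝ, ∀ (x : Y) (hx : x ∈ P), g x = f0 ⟨x, hx⟩ :=
    ⟨fun x => if h : x ∈ P then f0 ⟨x, h⟩ else 0, fun x hx => dif_pos hx⟩
  refine ⟨g, ?_, ?_, ?_⟩
  · intro x hx y hxy
    have hyP : y ∈ P := hNP x hx (hW.mem x y hxy)
    rw [hg x (hFP hx), hg y hyP]
    exact hf2 ⟨x, hFP hx⟩ ⟨y, hyP⟩ hxy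
  · intro x hx
    have h1 := hf1 ⟨x, hFP hx⟩
    simp only [Subtype.mk.injEq] at h1
    rw [← h1]
    have h2 : ∑ y ∈ N x, k x y * (g x - g y) = ∑ y ∈ P, k x y * (g x - g y) := by
      refine Finset.sum_subset (hNP x hx) fun y _ hy => ?_
      have : k x y = 0 := by
        by_contra hc
        exact hy (hW.mem x y hc)
      rw [this, zero_mul]
    rw [h2, ← Finset.sum_coe_sort]
    exact Finset.sum_congr rfl fun y _ => by rw [hg x (hFP hx), hg y.1 y.2]
  · intro U hU ha hb hUF
    have h1 := hf3 (Finset.univ.filter fun z : P => z.1 ∈ U) (by simpa using ha)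
      (by simpa using hb)
    have h2 : ∀ x : P, ∑ y ∈ (Finset.univ.filter fun z : P => z.1 ∈ U)ᶜ,
        k x y * (f0 x - f0 y) = ∑ y ∈ P with y ∉ U, k x y * (g x - g y) := by
      intro x
      rw [Finset.compl_filter, Finset.sum_filter, Finset.sum_filter, ← Finset.sum_coe_sort P]
      exact Finset.sum_congr rfl fun y _ => by rw [hg x.1 x.2, hg y.1 y.2]
    rw [Finset.sum_congr rfl (fun x _ => h2 x), Finset.sum_filter,
      Finset.sum_coe_sort P (fun x : Y => if x ∈ U then
        ∑ y ∈ P with y ∉ U, k x y * (g x - g y) else 0)] at h1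
    rw [← h1, Finset.sum_filter]
    have h4 : ∑ x ∈ F, (if x ∈ U then ∑ y ∈ N x with y ∉ U, k x y * (g x - g y) else 0) =
        ∑ x ∈ F, (if x ∈ U then ∑ y ∈ P with y ∉ U, k x y * (g x - g y) else 0) := by
      refine Finset.sum_congr rfl fun x hx => ?_
      congr 1
      refine Finset.sum_subset (Finset.filter_subset_filter _ (hNP x hx)) fun y hy hy2 => ?_
      have : k x y = 0 := by
        by_contra hc
        exact hy2 (Finset.mem_filter.2 ⟨hW.mem x y hc, (Finset.mem_filter.1 hy).2⟩)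
      rw [this, zero_mul]
    rw [h4]
    refine Finset.sum_subset hFP fun x _ hxF => ?_
    split_ifs with hxU
    · refine Finset.sum_eq_zero fun y hy => ?_
      have : k x y = 0 := by
        by_contra hc
        exact hxF (hUF x hxU y (Finset.mem_filter.1 hy).2 hc)
      rw [this, zero_mul]
    · rfl

end Pool.Agent.QLN
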