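import Pool.Agent.Lib.QLN.Rows

/-!
# Row LIMH: limits of harmonic functions
-/

set_option autoImplicit false

namespace Pool.Agent.QLN

open Filter Topology

theorem rowLIMH : RowLIMH := by
  classical
  intro Y k N x₀ T ε hW hε hF
  choose f h0 h1 h2 h3 using hF
  obtain ⟨U, hU⟩ : ∃ U : Ultrafilter (Finset Y), (U : Filter (Finset Y)) ≤ atTop :=
    ⟨Ultrafilter.of atTop, Ultrafilter.of_le atTop⟩
  have hmem : ∀ x : Y, ∀ᶠ F in (U : Filter (Finset Y)), x ∈ F := by
    intro x
    have : ∀ᶠ F : Finset Y in atTop, {x} ≤ F := eventually_ge_atTop {x}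
    exact (this.filter_mono hU).mono fun F hF => hF (Finset.mem_singleton_self x)
  have hbd : ∀ y : Y, ∃ C : ℝ, ∀ᶠ F in (U : Filter (Finset Y)), |f F y| ≤ C := by
    intro y
    have hp := hW.conn x₀ y
    induction hp with
    | refl => exact ⟨0, Eventually.of_forall fun F => by rw [h0 F, abs_zero]⟩
    | @tail u v _ huv ih =>
      obtain ⟨C, hC⟩ := ih
      refine ⟨C + 1, ?_⟩
      filter_upwards [hC, hmem u] with F hF1 hF2
      have h4 := h1 F u hF2 v huv
      have h5 : |f F v| ≤ |f F u| + |f F u - f F v| := by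
        have h6 := abs_sub_abs_le_abs_sub (f F v) (f F u)
        rw [abs_sub_comm] at h6
        linarith
      linarith
  have hlim : ∀ y : Y, ∃ g : ℝ, Tendsto (fun F => f F y) (U : Filter (Finset Y)) (𝓝 g) := by
    intro y
    obtain ⟨C, hC⟩ := hbd y
    have h4 : ((U.map fun F => f F y : Ultrafilter ℝ) : Filter ℝ) ≤ 𝓟 (Set.Icc (-C) C) := by
      rw [le_principal_iff, Ultrafilter.coe_map, mem_map]
      filter_upwards [hC] with F hF
      exact abs_le.1 hF
    obtain ⟨g, -, hg⟩ := (isCompact_Icc (a := -C) (b := C)).ultrafilter_le_nhds _ h4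
    exact ⟨g, hg⟩
  choose g hg using hlim
  refine ⟨g, ?_, ?_, ?_⟩
  · intro x y hxy
    have h4 : Tendsto (fun F => |f F x - f F y|) (U : Filter (Finset Y)) (𝓝 |g x - g y|) :=
      ((hg x).sub (hg y)).abs
    refine le_of_tendsto h4 ?_
    filter_upwards [hmem x] with F hF
    exact h1 F x hF y hxy
  · intro x
    have h4 : Tendsto (fun F => ∑ y ∈ N x, k x y * (f F x - f F y)) (U : Filter (Finset Y))
        (𝓝 (∑ y ∈ N x, k x y * (g x - g y))) :=
      tendsto_finsetSum _ fun y _ => ((hg x).sub (hg y)).const_mul _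
    have h5 : Tendsto (fun F => ∑ y ∈ N x, k x y * (f F x - f F y)) (U : Filter (Finset Y))
        (𝓝 0) := by
      refine tendsto_const_nhds.congr' ?_
      filter_upwards [hmem x] with F hF
      exact (h2 F x hF).symm
    exact tendsto_nhds_unique h4 h5
  · have hx0 : g x₀ = 0 := by
      refine tendsto_nhds_unique (hg x₀) ?_
      refine tendsto_const_nhds.congr' ?_
      exact Eventually.of_forall fun F => (h0 F).symm
    have h4 : ∃ t ∈ T, ∀ᶠ F in (U : Filter (Finset Y)), ε ≤ |f F t| := by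
      by_contra hcon
      push Not at hcon
      have h5 : ∀ᶠ F in (U : Filter (Finset Y)), ∀ t ∈ T, ¬ ε ≤ |f F t| := by
        rw [Filter.eventually_all_finset]
        intro t ht
        exact (hcon t ht).mono fun F hF => not_le.2 hF
      obtain ⟨F, hF⟩ := h5.exists
      obtain ⟨t, ht, h6⟩ := h3 F
      exact hF t ht h6
    obtain ⟨t, ht, h5⟩ := h4
    refine ⟨t, ht, fun h6 => ?_⟩
    have h7 : ε ≤ |g t| := ge_of_tendsto (hg t).abs h5
    rw [h6, hx0, abs_zero] at h7
    linarith

end Pool.Agent.QLN
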