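/-
Rows of the theorem on Schreier graphs of bounded bandwidth (pieces of BAND).
-/
import Pool.Agent.Lib.QLN.Rows

set_option autoImplicit false

namespace Pool.Agent.QLN

open Pool.Agent.SCH

/-- Permutations of the integers of displacement at most `D`, trivial outside `Ω`, of exponent `n`. -/
structure ZSys {ι : Type} (inv : ι → ι) (n D : ℕ) (τ : ι → Equiv.Perm ℤ) (Ω : Set ℤ) : Prop where
  inv : ∀ s, τ (inv s) = (τ s)⁻¹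
  disp : ∀ s i, |τ s i - i| ≤ (D : ℤ)
  supp : ∀ s i, i ∉ Ω → τ s i = i
  exp : ∀ w : List ι, wd τ w ^ n = 1

/-- Functions which look like such a system in the window `|i| ≤ K`. -/
structure ZWin {ι : Type} (inv : ι → ι) (n D K : ℕ) (T : ι → ℤ → ℤ) (Ω : Set ℤ) : Prop where
  inv_left : ∀ s i, |i| ≤ (K : ℤ) → T (inv s) (T s i) = i
  inv_right : ∀ s i, |i| ≤ (K : ℤ) → T s (T (inv s) i) = i
  disp : ∀ s i, |i| ≤ (K : ℤ) → |T s i - i| ≤ (D : ℤ)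
  supp : ∀ s i, |i| ≤ (K : ℤ) → i ∉ Ω → T s i = i
  exp : ∀ (w : List ι) (i : ℤ), |i| + D * n * w.length ≤ (K : ℤ) → (wf T w)^[n] i = i

/-- the orbit of `x` is unbounded -/
def Unb {ι : Type} (τ : ι → Equiv.Perm ℤ) (x : ℤ) : Prop :=
  ∀ M : ℕ, ∃ u : List ι, (M : ℤ) < |wd τ u x - x|

/-- the orbit of `x` is unbounded on both sides -/
def Two {ι : Type} (τ : ι → Equiv.Perm ℤ) (x : ℤ) : Prop :=
  (∀ M : ℕ, ∃ u : List ι, (M : ℤ) < wd τ u x) ∧ ∀ M : ℕ, ∃ u : List ι, wd τ u x < -(M : ℤ)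

/-- Systems with a dense set `Ω` in which all orbits are unbounded, of density at most `j / D`. -/
structure BSys {ι : Type} (inv : ι → ι) (n D j C : ℕ) (τ : ι → Equiv.Perm ℤ) (Ω : Set ℤ) : Prop
    extends ZSys inv n D τ Ω where
  dense : ∀ t : ℤ, ∃ y ∈ Ω, t ≤ y ∧ y < t + D
  unb : ∀ x ∈ Ω, Unb τ x
  den : ∀ (x : ℤ) (m : ℕ), D * (Ω ∩ Set.Ico x (x + m)).ncard ≤ j * m + C

/-- Row B1: limits, with a second set `A`. -/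
def RowB1 : Prop :=
  ∀ (ι : Type) [Finite ι] (inv : ι → ι) (n D : ℕ) (T : ℕ → ι → ℤ → ℤ) (Ω A : ℕ → Set ℤ),
    (∀ K, ZWin inv n D K (T K) (Ω K)) →
    ∃ (τ : ι → Equiv.Perm ℤ) (Ω' A' : Set ℤ), ZSys inv n D τ Ω' ∧
      ∀ R m : ℕ, ∃ K, m ≤ K ∧ ∀ i : ℤ, |i| ≤ (R : ℤ) →
        (∀ s, τ s i = T K s i) ∧ (i ∈ Ω' ↔ i ∈ Ω K) ∧ (i ∈ A' ↔ i ∈ A K)

/-- Row B0: long balls with a Lipschitz map to the integers with small fibres. -/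
def RowB0.{u} : Prop :=
  ∀ (X : Type u) (ι : Type) [Finite ι] (inv : ι → ι) (n K : ℕ) (σ : ι → Equiv.Perm X), 0 < n →
    (∀ s, σ (inv s) = (σ s)⁻¹) → (∀ w, wd σ w ^ n = 1) →
    (∀ R : ℕ, ∃ (x : X) (φ : X → ℤ), (∃ u : List ι, wd σ u x ∉ ball σ x R) ∧
      (∀ y ∈ ball σ x R, ∀ s, σ s y ∈ ball σ x R → |φ (σ s y) - φ y| ≤ (K : ℤ)) ∧
      ∀ k : ℤ, {y | y ∈ ball σ x R ∧ φ y = k}.encard ≤ (K : ℕ∞)) →
    ∃ (D : ℕ) (τ : ι → Equiv.Perm ℤ) (Ω : Set ℤ), 0 < D ∧ ZSys inv n D τ Ω ∧ (0 : ℤ) ∈ Ω ∧ Unb τ 0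

/-- Row START: from one unbounded orbit to a dense set of unbounded orbits. -/
def RowSTART : Prop :=
  ∀ (ι : Type) [Finite ι] (inv : ι → ι) (n D : ℕ) (τ : ι → Equiv.Perm ℤ) (Ω : Set ℤ),
    0 < D → ZSys inv n D τ Ω → (0 : ℤ) ∈ Ω → Unb τ 0 →
    ∃ (τ' : ι → Equiv.Perm ℤ) (Ω' : Set ℤ), BSys inv n D D 0 τ' Ω'

/-- Row TWO: a system with the same density whose set is one two-sided orbit. -/
def RowTWO : Prop :=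
  ∀ (ι : Type) [Finite ι] (inv : ι → ι) (n D j C : ℕ) (τ : ι → Equiv.Perm ℤ) (Ω : Set ℤ),
    0 < D → BSys inv n D j C τ Ω →
    ∃ (τ' : ι → Equiv.Perm ℤ) (Ω' : Set ℤ) (q : ℤ), BSys inv n D j C τ' Ω' ∧ q ∈ Ω' ∧ Two τ' q ∧
      ∀ y ∈ Ω', ∃ u : List ι, wd τ' u q = y

/-- Row CONN: if the density cannot be decreased, a two-sided orbit is uniformly connected. -/
def RowCONN : Prop :=
  ∀ (ι : Type) [Finite ι] (inv : ι → ι) (n D j C : ℕ) (τ : ι → Equiv.Perm ℤ) (Ω : Set ℤ) (q : ℤ),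
    0 < D → BSys inv n D j C τ Ω → q ∈ Ω → Two τ q → (∀ y ∈ Ω, ∃ u : List ι, wd τ u q = y) →
    (∀ (j' C' : ℕ) (τ' : ι → Equiv.Perm ℤ) (Ω' : Set ℤ), BSys inv n D j' C' τ' Ω' → j ≤ j') →
    ∃ r : ℕ, ∀ x ∈ Ω, ∀ y ∈ Ω, ∃ w : List ι, (w.length : ℤ) ≤ r * (|x - y| + 1) ∧ wd τ w x = y

/-- Row BAND. -/
def RowBAND.{u} : Prop :=
  ∀ (X : Type u) (ι : Type) [Finite ι] (inv : ι → ι) (n K : ℕ) (σ : ι → Equiv.Perm X), 0 < n →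
    (∀ s, σ (inv s) = (σ s)⁻¹) → (∀ w, wd σ w ^ n = 1) →
    (∀ R : ℕ, ∃ (x : X) (φ : X → ℤ), (∃ u : List ι, wd σ u x ∉ ball σ x R) ∧
      (∀ y ∈ ball σ x R, ∀ s, σ s y ∈ ball σ x R → |φ (σ s y) - φ y| ≤ (K : ℤ)) ∧
      ∀ k : ℤ, {y | y ∈ ball σ x R ∧ φ y = k}.encard ≤ (K : ℕ∞)) →
    ∃ (D r c B : ℕ) (τ : ι → Equiv.Perm ℤ) (Ω : Set ℤ), QSys inv n D r c B τ Ω

end Pool.Agent.QLN
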