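/-
Schreier graphs of bounded bandwidth: final form from row BAND.
-/
import Pool.Agent.Lib.QLN.Final
import Pool.Agent.Lib.QLN.RowsB

set_option autoImplicit false

namespace Pool.Agent.QLN

open Pool.Agent.SCH

/-- a ball with a Lipschitz map to the integers with small fibres -/
def Narrow {G X : Type*} [Group G] [MulAction G X] (S : Set G) (K R : ℕ) (x : X) : Prop :=
  ∃ φ : X → ℤ, (∀ y z : X, Within S R x y → Within S R x z → Within S 1 y z →
    |φ y - φ z| ≤ (K : ℤ)) ∧ ∀ k : ℤ, {y | Within S R x y ∧ φ y = k}.encard ≤ (K : ℕ∞)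

section

variable {m : ℕ} {X : ℕ → Type*} {G : ℕ → Type*} [∀ R, Group (G R)] [∀ R, MulAction (G R) (X R)]
  (e : ∀ R, Fin m → G R)

/-- the disjoint union of actions -/
def sigS (i : Fin m × Bool) : Equiv.Perm (Σ R, X R) :=
  Equiv.sigmaCongrRight fun R => sig (X R) (e R) i

theorem wd_sigS (w : List (Fin m × Bool)) (R : ℕ) (x : X R) :
    wd (sigS (X := X) e) w ⟨R, x⟩ = ⟨R, wd (sig (X R) (e R)) w x⟩ := by
  induction w with
  | nil => simp [wd_nil]
  | cons s w ih => rw [wd_cons, Equiv.Perm.mul_apply, ih, wd_cons, Equiv.Perm.mul_apply]; rfl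

theorem ball_sigS {R : ℕ} {x : X R} {ρ : ℕ} {y : Σ R, X R} (hy : y ∈ ball (sigS (X := X) e) ⟨R, x⟩ ρ) :
    ∃ y' : X R, y = ⟨R, y'⟩ ∧ y' ∈ ball (sig (X R) (e R)) x ρ := by
  obtain ⟨w, hw, rfl⟩ := hy
  exact ⟨_, wd_sigS e w R x, w, hw, rfl⟩

theorem mem_ball_sigS {R : ℕ} {x y' : X R} {ρ : ℕ}
    (hy : (⟨R, y'⟩ : Σ R, X R) ∈ ball (sigS (X := X) e) ⟨R, x⟩ ρ) :
    y' ∈ ball (sig (X R) (e R)) x ρ := by
  obtain ⟨y'', h1, h2⟩ := ball_sigS e hy
  have h3 : y' = y'' := by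
    have := (Sigma.mk.inj_iff.1 h1).2
    exact eq_of_heq this
  rw [h3]; exact h2

end

/-- no long narrow balls, uniformly -/
theorem finalU.{u, v} (hBAND : RowBAND.{v}) (hDEPTH : RowDEPTH) (hCLUSTER : RowCLUSTER)
    (hPAR : RowPAR) (hNOGAP : RowNOGAP) (m n K : ℕ) (hn : 0 < n) :
    ∃ R : ℕ, ∀ (G : Type u) (X : Type v) [Group G] [MulAction G X] (e : Fin m → G),
      Subgroup.closure (Set.range e) = ⊤ → (∀ g : G, g ^ n = 1) →
      ∀ x : X, Narrow (Set.range e) K R x →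
        ∀ z ∈ MulAction.orbit G x, Within (Set.range e) R x z := by
  classical
  by_contra hcon
  push Not at hcon
  choose G X i1 i2 e hgen hexp x hx z hz hzn using hcon
  refine no_qsys hDEPTH hCLUSTER hPAR hNOGAP (sinv (m := m)) hn ?_
  refine hBAND (Σ R, X R) (Fin m × Bool) sinv n K (sigS e) hn (fun s => ?_) (fun w => ?_) fun R => ?_
  · refine Equiv.ext ?_
    rintro ⟨R, y⟩
    rw [Equiv.Perm.eq_inv_iff_eq]
    change (⟨R, sig (X R) (e R) s (sig (X R) (e R) (sinv s) y)⟩ : Σ R, X R) = ⟨R, y⟩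
    rw [sig_sinv]
    have e2 : sig (X R) (e R) s ((sig (X R) (e R) s)⁻¹ y) = y :=
      (sig (X R) (e R) s).apply_symm_apply y
    rw [e2]
  · refine Equiv.ext ?_
    rintro ⟨R, y⟩
    rw [← wd_wpow, wd_sigS, wd_wpow, wd_sig_pow, hexp]
    simp
  · obtain ⟨φ, hφ, hfib⟩ := hx R
    obtain ⟨g, hg⟩ := hz R
    refine ⟨⟨R, x R⟩, fun y => if h : y.1 = R then φ (h ▸ y.2) else 0, ?_, fun y hy s hs => ?_,
      fun k => ?_⟩
    · obtain ⟨w, hw⟩ := exists_word (e R) (hgen R) g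
      refine ⟨w, fun h => hzn R ((within_iff (e R)).2 ?_)⟩
      rw [wd_sigS] at h
      have h2 := mem_ball_sigS e h
      rw [wd_sig, hw] at h2
      rw [← hg]
      exact h2
    · obtain ⟨y', rfl, hy'⟩ := ball_sigS e hy
      have hs' : sig (X R) (e R) s y' ∈ ball (sig (X R) (e R)) (x R) R := mem_ball_sigS e hs
      have h1 := hφ (sig (X R) (e R) s y') y' ((within_iff (e R)).2 hs') ((within_iff (e R)).2 hy')
        ((within_iff (e R)).2 ⟨[sinv s], by simp, by
          rw [wd_singleton, sig_sinv]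
          exact (sig (X R) (e R) s).symm_apply_apply y'⟩)
      have e1 : (sigS e s) ⟨R, y'⟩ = (⟨R, sig (X R) (e R) s y'⟩ : Σ R, X R) := rfl
      rw [e1]
      simpa using h1
    · have hsub : {y : Σ R, X R | y ∈ ball (sigS e) ⟨R, x R⟩ R ∧
          (if h : y.1 = R then φ (h ▸ y.2) else 0) = k} ⊆
          (fun y' : X R => (⟨R, y'⟩ : Σ R, X R)) ''
            {y | Within (Set.range (e R)) R (x R) y ∧ φ y = k} := by
        rintro y ⟨hy, hyk⟩
        obtain ⟨y', rfl, hy'⟩ := ball_sigS e hy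
        refine ⟨y', ⟨(within_iff (e R)).2 hy', ?_⟩, rfl⟩
        simpa using hyk
      exact (Set.encard_le_encard hsub).trans ((Set.encard_image_le _ _).trans (hfib k))

/-- every ball in the integers is narrow, for generators of bounded displacement -/
theorem narrow_int {G : Type*} [Group G] [MulAction G ℤ] (S : Set G) (K : ℕ) (hK : 0 < K)
    (hSK : ∀ s ∈ S, ∀ i : ℤ, |s • i - i| ≤ (K : ℤ)) (R : ℕ) (x : ℤ) : Narrow S K R x := by
  refine ⟨id, fun y z _ _ h => ?_, fun k => ?_⟩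
  · obtain ⟨t, ht, h⟩ := h
    change y = t at ht
    subst ht
    rcases h with rfl | ⟨s, hs, h | h⟩
    · simp
    · have := hSK s hs y
      rw [h] at this
      rw [abs_sub_comm]
      exact this
    · have := hSK s hs z
      rw [h] at this
      exact this
  · refine le_trans (Set.encard_le_encard (t := {k}) ?_) ?_
    · rintro y ⟨_, h⟩
      exact h
    · rw [Set.encard_singleton]
      exact_mod_cast hK

/-- groups of permutations of the integers of bounded displacement -/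
theorem wobbling
    (hA : ∀ {G : Type} [Group G] [MulAction G ℤ] (S : Set G), S.Finite → Subgroup.closure S = ⊤ →
      ∀ K n : ℕ, 0 < n → (∀ g : G, g ^ n = 1) →
      ∃ R : ℕ, ∀ x : ℤ, Narrow S K R x → ∀ z ∈ MulAction.orbit G x, Within S R x z)
    (H : Subgroup (Equiv.Perm ℤ)) (hH : ∀ h ∈ H, ∃ D : ℕ, ∀ i : ℤ, |h i - i| ≤ (D : ℤ))
    (n : ℕ) (hn : 0 < n) (hexp : ∀ h ∈ H, h ^ n = 1) (L : Subgroup (Equiv.Perm ℤ)) (hL : L ≤ H)
    (hfg : L.FG) : Finite L := by
  classical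
  have hfg' : Group.FG L := (Group.fg_iff_subgroup_fg _).2 hfg
  obtain ⟨S, hS⟩ := hfg'.out
  have hD : ∀ s : L, ∃ D : ℕ, ∀ i : ℤ, |(s : Equiv.Perm ℤ) i - i| ≤ (D : ℤ) := fun s =>
    hH s (hL s.2)
  choose D hD using hD
  set K : ℕ := S.sup D + 1 with hK
  have hSK : ∀ s ∈ (S : Set L), ∀ i : ℤ, |s • i - i| ≤ (K : ℤ) := by
    intro s hs i
    have h1 : D s ≤ S.sup D := Finset.le_sup (Finset.mem_coe.1 hs)
    have h2 := hD s i
    change |(s : Equiv.Perm ℤ) i - i| ≤ _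
    have h3 : ((D s : ℕ) : ℤ) ≤ K := by exact_mod_cast (by omega)
    linarith
  have hexp' : ∀ g : L, g ^ n = 1 := fun g => Subtype.ext (by
    rw [Subgroup.coe_pow]; exact hexp g (hL g.2))
  refine final_finite (G := L) (X := ℤ) (S : Set L) S.finite_toSet hS (Narrow (S : Set L) K)
    (hA (S : Set L) S.finite_toSet hS K n hn hexp') fun R => ⟨0, fun x _ => ⟨x,
      MulAction.mem_orbit_self x, narrow_int (S : Set L) K (by omega) hSK R x⟩⟩

end Pool.Agent.QLN
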