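/-
The order of a group with bounded orbits, and the final theorem on narrow Schreier graphs.
-/
import Pool.Agent.Lib.QLN.FinalB

set_option autoImplicit false

namespace Pool.Agent.QLN

open Pool.Agent.SCH

theorem card_of_bounded {G X : Type*} [Group G] [MulAction G X] [FaithfulSMul G X] {m : ℕ}
    (e : Fin m → G) (hgen : Subgroup.closure (Set.range e) = ⊤) {N : ℕ}
    (hN : ∀ x : X, (MulAction.orbit G x).encard ≤ N) :
    Finite G ∧ Nat.card G ≤ N.factorial ^ (N.factorial ^ m) := by
  classical
  have hinjH : Function.Injective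
      (fun (f : G →* Equiv.Perm (Fin N)) (i : Fin m) => f (e i)) := by
    intro f g h
    refine MonoidHom.eq_of_eqOn_dense hgen ?_
    rintro _ ⟨i, rfl⟩
    exact congrFun h i
  have hfin : Finite (G →* Equiv.Perm (Fin N)) := Finite.of_injective _ hinjH
  have hcP : Nat.card (Equiv.Perm (Fin N)) = N.factorial := by
    rw [Nat.card_eq_fintype_card, Fintype.card_perm, Fintype.card_fin]
  have hcH : Nat.card (G →* Equiv.Perm (Fin N)) ≤ N.factorial ^ m := by
    refine (Nat.card_le_card_of_injective _ hinjH).trans ?_
    rw [Nat.card_fun, hcP, Nat.card_eq_fintype_card, Fintype.card_fin]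
  have hinj : Function.Injective (fun (g : G) (f : G →* Equiv.Perm (Fin N)) => f g) := by
    intro g g' h
    refine FaithfulSMul.eq_of_smul_eq_smul (α := X) fun x => ?_
    have hcard := hN x
    have hof : (MulAction.orbit G x).Finite := Set.finite_of_encard_le_coe hcard
    have : Fintype (MulAction.orbit G x) := hof.fintype
    obtain ⟨ι⟩ : Nonempty ((MulAction.orbit G x) ↪ Fin N) := by
      refine Function.Embedding.nonempty_of_card_le ?_
      rw [Fintype.card_fin]
      rw [hof.encard_eq_coe_toFinset_card] at hcard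
      have h1 : hof.toFinset.card ≤ N := by exact_mod_cast hcard
      rw [← Set.toFinset_card]
      have h2 : (MulAction.orbit G x).toFinset = hof.toFinset := by
        ext y; simp
      rw [h2]; exact h1
    have h1 := congrFun h
      ((Equiv.Perm.viaEmbeddingHom ι).comp (MulAction.toPermHom G (MulAction.orbit G x)))
    simp only [MonoidHom.comp_apply] at h1
    have h2 := Equiv.Perm.viaEmbeddingHom_injective ι h1
    have h3 := congrArg
      (fun p : Equiv.Perm (MulAction.orbit G x) => p ⟨x, MulAction.mem_orbit_self x⟩) h2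
    exact congrArg Subtype.val h3
  refine ⟨Finite.of_injective _ hinj, (Nat.card_le_card_of_injective _ hinj).trans ?_⟩
  rw [Nat.card_fun, hcP]
  exact Nat.pow_le_pow_right (Nat.factorial_pos N) hcH

/-- Bounded orbits: if all orbits with more than `M` points contain the centre of a good ball. -/
theorem orbit_final {G X : Type*} [Group G] [MulAction G X] {m : ℕ}
    (e : Fin m → G) (R M N' : ℕ)
    (hN' : ∀ x : X, (ball (sig X e) x R).encard ≤ N') (Q : X → Prop)
    (hA : ∀ x : X, Q x → ∀ z ∈ MulAction.orbit G x, Within (Set.range e) R x z)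
    (hX : ∀ x : X, (M : ℕ∞) < (MulAction.orbit G x).encard → ∃ y ∈ MulAction.orbit G x, Q y)
    (x : X) : (MulAction.orbit G x).encard ≤ (max M N' : ℕ) := by
  classical
  by_contra hcon
  push Not at hcon
  obtain ⟨y, hy, hQ⟩ := hX x (lt_of_le_of_lt (by exact_mod_cast le_max_left M N') hcon)
  have hyx : MulAction.orbit G y = MulAction.orbit G x := MulAction.orbit_eq_iff.2 hy
  have hsub : MulAction.orbit G y ⊆ ball (sig X e) y R := fun z hz =>
    (within_iff e).1 (hA y hQ z hz)
  have h1 := (Set.encard_le_encard hsub).trans (hN' y)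
  rw [hyx] at h1
  exact absurd (lt_of_lt_of_le hcon h1) (not_lt.2 (by exact_mod_cast le_max_right M N'))

/-- a bound for the balls which does not depend on the space -/
theorem ball_card' (m R : ℕ) : ∃ N : ℕ, ∀ (G X : Type*) [Group G] [MulAction G X] (e : Fin m → G)
    (x : X), (ball (sig X e) x R).encard ≤ N := by
  have h1 : {w : List (Fin m × Bool) | w.length ≤ R}.Finite := List.finite_length_le _ R
  refine ⟨h1.toFinset.card, fun G X _ _ e x => ?_⟩
  have h2 : ball (sig X e) x R =
      (fun w => wd (sig X e) w x) '' {w : List (Fin m × Bool) | w.length ≤ R} := by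
    ext y
    constructor
    · rintro ⟨w, hw, rfl⟩; exact ⟨w, hw, rfl⟩
    · rintro ⟨w, hw, rfl⟩; exact ⟨w, hw, rfl⟩
  rw [h2]
  refine (Set.encard_image_le _ _).trans ?_
  rw [h1.encard_eq_coe_toFinset_card]

end Pool.Agent.QLN
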