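/-
Row CLUSTER: two points which move in parallel.
-/
import Pool.Agent.Lib.QLN.Rows

set_option autoImplicit false

namespace Pool.Agent.QLN

open Pool.Agent.SCH

namespace Clu

/-! ### Shifted systems -/

theorem wf_shift {ι : Type} (τ : ι → Equiv.Perm ℤ) (p : ℤ) (w : List ι) (i : ℤ) :
    wf (fun s i => τ s (p + i) - p) w i = wd τ w (p + i) - p := by
  induction w with
  | nil => simp [wf, wd_nil]
  | cons s w ih =>
    rw [wf, ih, wd_cons, Equiv.Perm.mul_apply]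
    congr 2
    ring

theorem iter_shift {ι : Type} (τ : ι → Equiv.Perm ℤ) (p : ℤ) (w : List ι) (k : ℕ) (i : ℤ) :
    (wf (fun s i => τ s (p + i) - p) w)^[k] i = (wd τ w ^ k) (p + i) - p := by
  rw [← wf_wpow, wf_shift, wd_wpow]

/-- a shifted system is a window of every size -/
theorem qwin_shift {ι : Type} {inv : ι → ι} {n D r c B : ℕ} {τ : ι → Equiv.Perm ℤ} {Ω : Set ℤ}
    (h : QSys inv n D r c B τ Ω) (p : ℤ) (K : ℕ) :
    QWin inv n D r c B K (fun s i => τ s (p + i) - p) {i | p + i ∈ Ω} := by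
  refine ⟨?_, ?_, ?_, ?_, ?_, ?_, ?_, ?_⟩
  · intro s i _
    change τ (inv s) (p + (τ s (p + i) - p)) - p = i
    rw [h.inv s, add_sub_cancel]
    change (τ s).symm (τ s (p + i)) - p = i
    rw [Equiv.symm_apply_apply, add_sub_cancel_left]
  · intro s i _
    change τ s (p + (τ (inv s) (p + i) - p)) - p = i
    rw [h.inv s, add_sub_cancel]
    change τ s ((τ s).symm (p + i)) - p = i
    rw [Equiv.apply_symm_apply, add_sub_cancel_left]
  · intro s i _
    change |τ s (p + i) - p - i| ≤ (D : ℤ)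
    rw [sub_sub]
    exact h.disp s (p + i)
  · intro s i _ hi
    change τ s (p + i) - p = i
    rw [h.supp s (p + i) hi, add_sub_cancel_left]
  · intro x hx y hy _ _
    obtain ⟨w, hw1, hw2⟩ := h.conn (p + x) hx (p + y) hy
    refine ⟨w, ?_, ?_⟩
    · rwa [add_sub_add_left_eq_sub] at hw1
    · rw [wf_shift, hw2, add_sub_cancel_left]
  · intro w i _
    rw [iter_shift, h.exp w, Equiv.Perm.one_apply, add_sub_cancel_left]
  · intro x hx R _
    have h1 : {y | ∃ w : List ι, w.length ≤ R ∧ wf (fun s i => τ s (p + i) - p) w x = y} ⊆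
        (fun y => y - p) '' ball τ (p + x) R := by
      rintro y ⟨w, hw, rfl⟩
      exact ⟨wd τ w (p + x), ⟨w, hw, rfl⟩, (wf_shift τ p w x).symm⟩
    exact (Set.encard_le_encard h1).trans ((Set.encard_image_le _ _).trans (h.gr (p + x) hx R))
  · intro x _
    obtain ⟨y, hy, hd⟩ := h.synd (p + x)
    refine ⟨y - p, ?_, ?_⟩
    · change p + (y - p) ∈ Ω
      rwa [add_sub_cancel]
    · have e : y - p - x = y - (p + x) := by ring
      rwa [e]

/-! ### Coordinates and words -/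

section
variable {ι : Type} {inv : ι → ι} {n D r c B c₁ : ℕ} {τ : ι → Equiv.Perm ℤ} {Ω : Set ℤ}
  {β : ℤ → ℤ}

theorem lip_wd (h : QSys inv n D r c B τ Ω) (hβ : QB D c₁ τ Ω β) (w : List ι) {x : ℤ}
    (hx : x ∈ Ω) : |β (wd τ w x) - β x| ≤ (w.length : ℤ) := by
  induction w with
  | nil => simp [wd_nil]
  | cons s w ih =>
    have h1 := hβ.lip s (wd τ w x) (h.wd_mem w hx)
    rw [wd_cons, Equiv.Perm.mul_apply, List.length_cons]
    rw [abs_le] at ih h1 ⊢
    push_cast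
    constructor <;> linarith [ih.1, ih.2, h1.1, h1.2]

theorem lip_conn (h : QSys inv n D r c B τ Ω) (hβ : QB D c₁ τ Ω β) {x y : ℤ}
    (hx : x ∈ Ω) (hy : y ∈ Ω) : |β y - β x| ≤ r * (|x - y| + 1) := by
  obtain ⟨w, hw1, hw2⟩ := h.conn x hx y hy
  have h1 := lip_wd h hβ w hx
  rw [hw2] at h1
  exact h1.trans hw1

end

/-! ### Cycles -/

theorem pow_iter (g : Equiv.Perm ℤ) (j : ℕ) (x : ℤ) : (g ^ j) x = g^[j] x := by
  rw [Equiv.Perm.iterate_eq_pow]

theorem pow_mod {g : Equiv.Perm ℤ} {x : ℤ} {L : ℕ} (hL : Function.minimalPeriod g x = L) (j : ℕ) :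
    (g ^ (j % L)) x = (g ^ j) x := by
  rw [pow_iter, pow_iter, ← hL]
  exact Function.iterate_mod_minimalPeriod_eq

/-- a cycle has a highest point -/
theorem exists_top {g : Equiv.Perm ℤ} {x : ℤ} {L : ℕ} (hL : Function.minimalPeriod g x = L)
    (h0 : 0 < L) (f : ℤ → ℤ) : ∃ t : ℕ, ∀ j : ℕ, f ((g ^ j) x) ≤ f ((g ^ t) x) := by
  obtain ⟨t, _, ht⟩ := Finset.exists_max_image (Finset.range L) (fun j => f ((g ^ j) x))
    ⟨0, Finset.mem_range.2 h0⟩
  refine ⟨t, fun j => ?_⟩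
  rw [← pow_mod hL j]
  exact ht _ (Finset.mem_range.2 (Nat.mod_lt _ h0))

theorem conj_iter (g U : Equiv.Perm ℤ) (j : ℕ) (x : ℤ) :
    ((U * g * U⁻¹) ^ j) (U x) = U ((g ^ j) x) := by
  rw [conj_pow, Equiv.Perm.mul_apply, Equiv.Perm.mul_apply]
  change U ((g ^ j) (U.symm (U x))) = _
  rw [Equiv.symm_apply_apply]

theorem minimalPeriod_conj (g U : Equiv.Perm ℤ) (x : ℤ) :
    Function.minimalPeriod (U * g * U⁻¹ : Equiv.Perm ℤ) (U x) = Function.minimalPeriod g x := by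
  rw [Function.minimalPeriod_eq_minimalPeriod_iff]
  intro m
  unfold Function.IsPeriodicPt Function.IsFixedPt
  rw [← pow_iter, ← pow_iter, conj_iter]
  exact U.injective.eq_iff

/-- bounded monotone sequences of natural numbers are eventually constant -/
theorem ev_const (f : ℕ → ℕ) (L : ℕ) (hb : ∀ R, f R ≤ L) (hm : ∀ R R', R ≤ R' → f R ≤ f R') :
    ∃ R₁, ∀ R, R₁ ≤ R → f R = f R₁ := by
  by_contra hc
  push Not at hc
  have key : ∀ m : ℕ, ∃ R, m ≤ f R := by
    intro m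
    induction m with
    | zero => exact ⟨0, Nat.zero_le _⟩
    | succ m ih =>
      obtain ⟨R, hR⟩ := ih
      obtain ⟨R', hR', hne⟩ := hc R
      have := hm R R' hR'
      exact ⟨R', by omega⟩
  obtain ⟨R, hR⟩ := key (L + 1)
  have := hb R
  omega

section
variable {ι : Type}

/-- members -/
def Mem (inv : ι → ι) (n D r c B L c₁ : ℕ) (τ : ι → Equiv.Perm ℤ) (Ω : Set ℤ) (β : ℤ → ℤ) : Prop :=
  QSys inv n D r c B τ Ω ∧ LeL L τ ∧ QB D c₁ τ Ω β ∧ Top L τ Ω β

/-- the indices of the points within `R` of the top -/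
def near (L : ℕ) (β : ℤ → ℤ) (g : Equiv.Perm ℤ) (x : ℤ) (t R : ℕ) : Finset ℕ :=
  (Finset.range L).filter fun j => β ((g ^ t) x) - β ((g ^ j) x) ≤ (R : ℤ)

/-- cycles of length `L` with top and `k` points within `R` of it -/
def Wit (inv : ι → ι) (n D r c B L c₁ R k : ℕ) : Prop :=
  ∃ (τ : ι → Equiv.Perm ℤ) (Ω : Set ℤ) (β : ℤ → ℤ) (w : List ι) (x : ℤ) (t : ℕ),
    Mem inv n D r c B L c₁ τ Ω β ∧ x ∈ Ω ∧ Function.minimalPeriod (wd τ w) x = L ∧
    (∀ j : ℕ, β ((wd τ w ^ j) x) ≤ β ((wd τ w ^ t) x)) ∧ (near L β (wd τ w) x t R).card = k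

variable {inv : ι → ι} {n D r c B L c₁ : ℕ}

theorem wd_conj {τ : ι → Equiv.Perm ℤ} (h : ∀ s, τ (inv s) = (τ s)⁻¹) (u w : List ι) :
    wd τ (u ++ (w ++ winv inv u)) = wd τ u * wd τ w * (wd τ u)⁻¹ := by
  rw [wd_append, wd_append, wd_winv h, mul_assoc]

/-- two points with parallel motion for a long time -/
def Par (inv : ι → ι) (n D r c B L c₁ R₁ U : ℕ) (e : ℤ) : Prop :=
  ∃ (τ : ι → Equiv.Perm ℤ) (Ω : Set ℤ) (β : ℤ → ℤ) (p : ℤ), Mem inv n D r c B L c₁ τ Ω β ∧
    p ∈ Ω ∧ p + e ∈ Ω ∧ ∀ u : List ι, u.length ≤ U →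
      |β (wd τ u p) - β (wd τ u (p + e))| ≤ (R₁ : ℤ)

theorem exists_par {R₁ k : ℕ} (hL : 2 ≤ L) (ha : ∀ m, Wit inv n D r c B L c₁ R₁ m → k ≤ m)
    (U : ℕ) (hb : Wit inv n D r c B L c₁ (R₁ + 2 * U) k) :
    ∃ e : ℤ, e ≠ 0 ∧ |e| ≤ D * (R₁ + c₁) ∧ Par inv n D r c B L c₁ R₁ U e := by
  obtain ⟨τ, Ω, β, w, x, t, hM, hx, hper, htop, hcard⟩ := hb
  obtain ⟨hS, hLe, hβ, hTop⟩ := hM
  set g := wd τ w with hg
  have hsub : near L β g x t R₁ ⊆ near L β g x t (R₁ + 2 * U) := by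
    intro j hj
    rw [near, Finset.mem_filter] at hj ⊢
    refine ⟨hj.1, hj.2.trans ?_⟩
    push_cast
    linarith
  -- the images of the cluster stay together
  have hpar : ∀ u : List ι, u.length ≤ U → ∀ i ∈ near L β g x t (R₁ + 2 * U),
      ∀ i' ∈ near L β g x t (R₁ + 2 * U),
      |β (wd τ u ((g ^ i) x)) - β (wd τ u ((g ^ i') x))| ≤ (R₁ : ℤ) := by
    intro u hu
    have hux : wd τ u x ∈ Ω := hS.wd_mem u hx
    have e0 : wd τ (u ++ (w ++ winv inv u)) = wd τ u * g * (wd τ u)⁻¹ := wd_conj hS.inv u w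
    have hper' : Function.minimalPeriod (wd τ (u ++ (w ++ winv inv u))) (wd τ u x) = L := by
      rw [e0, minimalPeriod_conj]
      exact hper
    have hpt : ∀ j : ℕ, (wd τ (u ++ (w ++ winv inv u)) ^ j) (wd τ u x) = wd τ u ((g ^ j) x) := by
      intro j
      rw [e0]
      exact conj_iter g _ j x
    obtain ⟨t', ht'⟩ := exists_top hper' (by omega) β
    have hk := ha _ ⟨τ, Ω, β, u ++ (w ++ winv inv u), wd τ u x, t', ⟨hS, hLe, hβ, hTop⟩, hux, hper',
      ht', rfl⟩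
    have hlip : ∀ j : ℕ, |β (wd τ u ((g ^ j) x)) - β ((g ^ j) x)| ≤ (U : ℤ) := by
      intro j
      have h1 : (g ^ j) x ∈ Ω := by
        rw [hg, ← wd_wpow]
        exact hS.wd_mem _ hx
      have h2 := lip_wd hS hβ u h1
      have h3 : (u.length : ℤ) ≤ U := by exact_mod_cast hu
      exact h2.trans h3
    have hsub' : near L β (wd τ (u ++ (w ++ winv inv u))) (wd τ u x) t' R₁ ⊆
        near L β g x t (R₁ + 2 * U) := by
      intro j hj
      rw [near, Finset.mem_filter, hpt, hpt] at hj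
      rw [near, Finset.mem_filter]
      refine ⟨hj.1, ?_⟩
      have h1 := ht' t
      rw [hpt, hpt] at h1
      have h2 := abs_le.1 (hlip t)
      have h3 := abs_le.1 (hlip j)
      have e1 : ((R₁ + 2 * U : ℕ) : ℤ) = R₁ + 2 * U := by norm_num
      rw [e1]
      linarith [hj.2, h2.1, h2.2, h3.1, h3.2]
    have heq := Finset.eq_of_subset_of_card_le hsub' (by rw [hcard]; exact hk)
    have hnear : ∀ i ∈ near L β g x t (R₁ + 2 * U),
        β (wd τ u ((g ^ t') x)) - β (wd τ u ((g ^ i) x)) ≤ (R₁ : ℤ) := by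
      intro i hi
      rw [← heq, near, Finset.mem_filter, hpt, hpt] at hi
      exact hi.2
    have hmax : ∀ i : ℕ, β (wd τ u ((g ^ i) x)) ≤ β (wd τ u ((g ^ t') x)) := by
      intro i
      have h1 := ht' i
      rwa [hpt, hpt] at h1
    intro i hi i' hi'
    have h1 := hnear i hi
    have h2 := hnear i' hi'
    have h3 := hmax i
    have h4 := hmax i'
    rw [abs_le]
    constructor <;> linarith
  -- two points of the cluster
  set y := (g ^ t) x with hy
  have hyΩ : y ∈ Ω := by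
    rw [hy, hg, ← wd_wpow]
    exact hS.wd_mem _ hx
  have hypow : ∀ j : ℕ, (g ^ j) y = (g ^ (j + t)) x := by
    intro j
    rw [hy, ← Equiv.Perm.mul_apply, ← pow_add]
  have hpery : Function.minimalPeriod g y = L := by
    rw [hy, pow_iter, Function.minimalPeriod_apply_iterate, hper]
    rw [← Function.minimalPeriod_pos_iff_mem_periodicPts, hper]
    omega
  obtain ⟨j, hj0, hjL, hj⟩ := hTop w y hyΩ hpery (fun j => by
    rw [hypow]
    exact htop _)
  have hy'Ω : (g ^ j) y ∈ Ω := by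
    rw [hg, ← wd_wpow]
    exact hS.wd_mem _ hyΩ
  have hne : (g ^ j) y ≠ y := by
    intro h
    have h1 : Function.IsPeriodicPt g j y := by
      unfold Function.IsPeriodicPt Function.IsFixedPt
      rw [← pow_iter]
      exact h
    have h2 := h1.minimalPeriod_le hj0
    omega
  have hmem1 : t % L ∈ near L β g x t (R₁ + 2 * U) := by
    rw [near, Finset.mem_filter, pow_mod hper]
    refine ⟨Finset.mem_range.2 (Nat.mod_lt _ (by omega)), ?_⟩
    rw [sub_self]
    positivity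
  have hmem2 : (j + t) % L ∈ near L β g x t (R₁ + 2 * U) := by
    rw [near, Finset.mem_filter, pow_mod hper]
    refine ⟨Finset.mem_range.2 (Nat.mod_lt _ (by omega)), ?_⟩
    rw [← hypow, ← hy, hj, sub_self]
    positivity
  have hpp : ∀ u : List ι, u.length ≤ U → |β (wd τ u y) - β (wd τ u ((g ^ j) y))| ≤ (R₁ : ℤ) := by
    intro u hu
    have h1 := hpar u hu _ hmem1 _ hmem2
    rwa [pow_mod hper, pow_mod hper, ← hypow, ← hy] at h1
  refine ⟨(g ^ j) y - y, sub_ne_zero.2 hne, ?_, τ, Ω, β, y, ⟨hS, hLe, hβ, hTop⟩, hyΩ, ?_, ?_⟩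
  · have h0 : (0 : ℤ) ≤ D * (R₁ + c₁) := by positivity
    have hD : (0 : ℤ) ≤ D := by positivity
    have hR : (0 : ℤ) ≤ R₁ := by positivity
    rcases le_total y ((g ^ j) y) with hle | hle
    · have h1 := hβ.coarse y hyΩ _ hy'Ω hle
      rw [hj, sub_self, zero_add] at h1
      rw [abs_of_nonneg (by linarith)]
      nlinarith
    · have h1 := hβ.coarse _ hy'Ω y hyΩ hle
      rw [hj, sub_self, zero_add] at h1
      rw [abs_sub_comm, abs_of_nonneg (by linarith)]
      nlinarith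
  · rw [add_sub_cancel]
    exact hy'Ω
  · intro u hu
    rw [add_sub_cancel]
    exact hpp u hu

theorem Par.mono {R₁ U U' : ℕ} {e : ℤ} (h : Par inv n D r c B L c₁ R₁ U e) (hU : U' ≤ U) :
    Par inv n D r c B L c₁ R₁ U' e := by
  obtain ⟨τ, Ω, β, p, h1, h2, h3, h4⟩ := h
  exact ⟨τ, Ω, β, p, h1, h2, h3, fun u hu => h4 u (hu.trans hU)⟩

end

end Clu

open Clu in
/-- **Row CLUSTER** -/
theorem rowCLUSTER (hLIM : RowLIM) : RowCLUSTER := by
  classical
  intro ι _ inv n D r c B L c₁ hn hL hmin τ₀ Ω₀ β₀ hS₀ hLe₀ hβ₀ hTop₀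
  -- a witness for every `R`
  have hwit : ∀ R : ℕ, ∃ m, Wit inv n D r c B L c₁ R m := by
    intro R
    obtain ⟨w, x, hwx⟩ := hmin τ₀ Ω₀ hS₀
    have hper : Function.minimalPeriod (wd τ₀ w) x = L := le_antisymm (hLe₀ w x) hwx
    have hx : x ∈ Ω₀ := by
      by_contra hx
      have h1 : ∀ w : List ι, wd τ₀ w x = x := by
        intro w
        induction w with
        | nil => simp [wd_nil]
        | cons s w ih => rw [wd_cons, Equiv.Perm.mul_apply, ih, hS₀.supp s x hx]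
      have h2 : Function.IsPeriodicPt (wd τ₀ w) 1 x := by
        unfold Function.IsPeriodicPt Function.IsFixedPt
        exact h1 w
      have h3 := h2.minimalPeriod_le one_pos
      omega
    obtain ⟨t, ht⟩ := exists_top hper (by omega) β₀
    exact ⟨_, τ₀, Ω₀, β₀, w, x, t, ⟨hS₀, hLe₀, hβ₀, hTop₀⟩, hx, hper, ht, rfl⟩
  let kk : ℕ → ℕ := fun R => Nat.find (hwit R)
  have hkk : ∀ R, Wit inv n D r c B L c₁ R (kk R) := fun R => Nat.find_spec (hwit R)
  have hkmin : ∀ R m, Wit inv n D r c B L c₁ R m → kk R ≤ m := fun R m h => Nat.find_min' _ h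
  have hmono : ∀ R R', R ≤ R' → kk R ≤ kk R' := by
    intro R R' hRR
    obtain ⟨τ, Ω, β, w, x, t, h1, h2, h3, h4, h5⟩ := hkk R'
    refine (hkmin R _ ⟨τ, Ω, β, w, x, t, h1, h2, h3, h4, rfl⟩).trans ?_
    rw [← h5]
    refine Finset.card_le_card fun j hj => ?_
    rw [near, Finset.mem_filter] at hj ⊢
    refine ⟨hj.1, hj.2.trans ?_⟩
    exact_mod_cast hRR
  have hbd : ∀ R, kk R ≤ L := by
    intro R
    obtain ⟨τ, Ω, β, w, x, t, h1, h2, h3, h4, h5⟩ := hkk R
    rw [← h5]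
    exact (Finset.card_filter_le _ _).trans (by rw [Finset.card_range])
  obtain ⟨R₁, hR₁⟩ := ev_const kk L hbd hmono
  have hpar : ∀ U : ℕ, ∃ e : ℤ, e ≠ 0 ∧ |e| ≤ D * (R₁ + c₁) ∧
      Par inv n D r c B L c₁ R₁ U e := by
    intro U
    refine exists_par hL (k := kk R₁) (fun m h => hkmin R₁ m h) U ?_
    have h1 := hkk (R₁ + 2 * U)
    rwa [hR₁ (R₁ + 2 * U) (by omega)] at h1
  -- the same difference for all `U`
  obtain ⟨e, he0, he⟩ : ∃ e : ℤ, e ≠ 0 ∧ ∀ U : ℕ, Par inv n D r c B L c₁ R₁ U e := by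
    by_contra hc
    push Not at hc
    choose! V hV using hc
    let E : Finset ℤ := Finset.Icc (-(D * (R₁ + c₁) : ℤ)) (D * (R₁ + c₁))
    obtain ⟨e, he0, hle, hP⟩ := hpar (E.sup V)
    refine hV e he0 (hP.mono (Finset.le_sup ?_))
    exact Finset.mem_Icc.2 (abs_le.1 hle)
  choose τ Ω β p hM hp hpe hpp using he
  -- the limit
  have hβb : ∀ (K : ℕ) (x : ℤ),
      |(if p K + x ∈ Ω K then β K (p K + x) - β K (p K) else 0 : ℤ)| ≤ (r : ℤ) * (|x| + 1) := by
    intro K x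
    split_ifs with h
    · have h1 := lip_conn (hM K).1 (hM K).2.2.1 (hp K) h
      have e1 : p K - (p K + x) = -x := by ring
      rwa [e1, abs_neg] at h1
    · rw [abs_zero]
      positivity
  obtain ⟨τ', Ω', β', hS', hag⟩ := hLIM ι inv n D r c B r (fun K s i => τ K s (p K + i) - p K)
    (fun K => {i | p K + i ∈ Ω K})
    (fun K x => if p K + x ∈ Ω K then β K (p K + x) - β K (p K) else 0)
    (fun K => qwin_shift (hM K).1 (p K) K) hβb
  have hD : (0 : ℤ) ≤ D := by positivity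
  refine ⟨τ', Ω', β', R₁, e, hS', ⟨?_, ?_⟩, ?_, ?_, he0, ?_⟩
  · -- Lipschitz
    intro s i hi
    obtain ⟨K, -, hK⟩ := hag (i.natAbs + D) 0
    have hi1 : |i| ≤ ((i.natAbs + D : ℕ) : ℤ) := by
      push_cast
      linarith
    obtain ⟨h1, h2, h3⟩ := hK i hi1
    have hiΩ : p K + i ∈ Ω K := h2.1 hi
    have hsΩ : τ K s (p K + i) ∈ Ω K := (hM K).1.mem s hiΩ
    have h4 : |τ' s i| ≤ ((i.natAbs + D : ℕ) : ℤ) := by
      have h5 := hS'.disp s i
      have h6 := abs_sub_abs_le_abs_sub (τ' s i) i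
      push_cast
      linarith
    obtain ⟨-, -, h7⟩ := hK (τ' s i) h4
    have e1 : p K + τ' s i = τ K s (p K + i) := by
      rw [h1 s]
      ring
    rw [h7, h3, e1, if_pos hiΩ, if_pos hsΩ]
    have e2 : β K (τ K s (p K + i)) - β K (p K) - (β K (p K + i) - β K (p K)) =
        β K (τ K s (p K + i)) - β K (p K + i) := by ring
    rw [e2]
    exact (hM K).2.2.1.lip s _ hiΩ
  · -- coarse
    intro x hx y hy hxy
    obtain ⟨K, -, hK⟩ := hag (x.natAbs + y.natAbs) 0
    obtain ⟨-, h2, h3⟩ := hK x (by push_cast; linarith [abs_nonneg y])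
    obtain ⟨-, h2', h3'⟩ := hK y (by push_cast; linarith [abs_nonneg x])
    have hxΩ : p K + x ∈ Ω K := h2.1 hx
    have hyΩ : p K + y ∈ Ω K := h2'.1 hy
    rw [h3, h3', if_pos hxΩ, if_pos hyΩ]
    have h4 := (hM K).2.2.1.coarse _ hxΩ _ hyΩ (by linarith)
    have e1 : p K + y - (p K + x) = y - x := by ring
    have e2 : β K (p K + y) - β K (p K) - (β K (p K + x) - β K (p K)) =
        β K (p K + y) - β K (p K + x) := by ring
    rw [e1] at h4
    rw [e2]
    exact h4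
  · obtain ⟨K, -, hK⟩ := hag 0 0
    obtain ⟨-, h2, -⟩ := hK 0 (by simp)
    refine h2.2 ?_
    change p K + 0 ∈ Ω K
    rw [add_zero]
    exact hp K
  · obtain ⟨K, -, hK⟩ := hag e.natAbs 0
    obtain ⟨-, h2, -⟩ := hK e (by rw [Int.natCast_natAbs])
    exact h2.2 (hpe K)
  · intro u
    obtain ⟨K, hKu, hK⟩ := hag (e.natAbs + D * u.length) u.length
    have hR : ((e.natAbs + D * u.length : ℕ) : ℤ) = |e| + D * u.length := by
      push_cast
      rfl
    have hagr : ∀ s i, |i| ≤ ((e.natAbs + D * u.length : ℕ) : ℤ) →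
        τ' s i = τ K s (p K + i) - p K := fun s i hi => (hK i hi).1 s
    have hDu : (0 : ℤ) ≤ D * u.length := by positivity
    have e0 : wd τ' u 0 = wd (τ K) u (p K + 0) - p K :=
      agree hS'.toQPre hagr u 0 (by rw [hR, abs_zero]; linarith [abs_nonneg e])
    have e1 : wd τ' u e = wd (τ K) u (p K + e) - p K :=
      agree hS'.toQPre hagr u e (by rw [hR])
    rw [add_zero] at e0
    have h0 : |wd τ' u 0| ≤ ((e.natAbs + D * u.length : ℕ) : ℤ) := by
      have h1 := hS'.wd_disp u 0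
      rw [sub_zero] at h1
      rw [hR]
      linarith [abs_nonneg e]
    have h1 : |wd τ' u e| ≤ ((e.natAbs + D * u.length : ℕ) : ℤ) := by
      have h1 := hS'.wd_disp u e
      have h2 := abs_sub_abs_le_abs_sub (wd τ' u e) e
      rw [hR]
      linarith
    obtain ⟨-, -, h2⟩ := hK _ h0
    obtain ⟨-, -, h3⟩ := hK _ h1
    have e2 : p K + wd τ' u 0 = wd (τ K) u (p K) := by rw [e0]; ring
    have e3 : p K + wd τ' u e = wd (τ K) u (p K + e) := by rw [e1]; ring
    rw [h2, h3, e2, e3, if_pos ((hM K).1.wd_mem u (hp K)), if_pos ((hM K).1.wd_mem u (hpe K))]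
    have e4 : β K (wd (τ K) u (p K)) - β K (p K) - (β K (wd (τ K) u (p K + e)) - β K (p K)) =
        β K (wd (τ K) u (p K)) - β K (wd (τ K) u (p K + e)) := by ring
    rw [e4]
    exact hpp K u hKu

end Pool.Agent.QLN
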