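/-
Row DEPTH: long gaps give a coordinate such that no longest cycle has a unique highest point.
-/
import Pool.Agent.Lib.QLN.Rows
import Pool.Agent.Lib.SCH.Cyc

set_option autoImplicit false

namespace Pool.Agent.QLN

open Pool.Agent.SCH

namespace Depth

theorem inv_ap (e : Equiv.Perm ℤ) (x : ℤ) : e⁻¹ (e x) = x := e.symm_apply_apply x

theorem ap_inv (e : Equiv.Perm ℤ) (x : ℤ) : e (e⁻¹ x) = x := e.apply_symm_apply x

section
variable {ι : Type} {inv : ι → ι} {n D r c B : ℕ} {τ : ι → Equiv.Perm ℤ} {Ω : Set ℤ}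

theorem wd_supp (h : QPre inv n D r c B τ Ω) (w : List ι) {i : ℤ} (hi : i ∉ Ω) :
    wd τ w i = i := by
  induction w with
  | nil => simp [wd_nil]
  | cons s w ih => rw [wd_cons, Equiv.Perm.mul_apply, ih, h.supp s i hi]

/-- the least length of a word which moves `t` to a point moved by `v` -/
noncomputable def dep (τ : ι → Equiv.Perm ℤ) (v : List ι) (t : ℤ) : ℕ :=
  sInf {k | ∃ u : List ι, u.length = k ∧ wd τ v (wd τ u t) ≠ wd τ u t}

theorem dep_le {v : List ι} {t : ℤ} (u : List ι) (hu : wd τ v (wd τ u t) ≠ wd τ u t) :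
    dep τ v t ≤ u.length := Nat.sInf_le ⟨u, rfl, hu⟩

variable (h : QPre inv n D r c B τ Ω) {v : List ι} {z : ℤ} (hz : wd τ v z ≠ z)
include h hz

theorem mem_z : z ∈ Ω := by
  by_contra hc
  exact hz (wd_supp h v hc)

theorem exists_dep {t : ℤ} (ht : t ∈ Ω) :
    ∃ u : List ι, u.length = dep τ v t ∧ wd τ v (wd τ u t) ≠ wd τ u t := by
  have hne : {k | ∃ u : List ι, u.length = k ∧ wd τ v (wd τ u t) ≠ wd τ u t}.Nonempty := by
    obtain ⟨w, -, hw⟩ := h.conn t ht z (mem_z h hz)
    exact ⟨w.length, w, rfl, by rw [hw]; exact hz⟩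
  exact Nat.sInf_mem hne

theorem dep_le_add {t : ℤ} (ht : t ∈ Ω) (w : List ι) :
    dep τ v t ≤ w.length + dep τ v (wd τ w t) := by
  obtain ⟨u, hu1, hu2⟩ := exists_dep h hz (h.wd_mem w ht)
  have e : wd τ (u ++ w) t = wd τ u (wd τ w t) := by
    rw [wd_append, Equiv.Perm.mul_apply]
  have h1 := dep_le (τ := τ) (v := v) (t := t) (u ++ w) (by rw [e]; exact hu2)
  rw [List.length_append] at h1
  omega

theorem dep_add_le {t : ℤ} (ht : t ∈ Ω) (w : List ι) :
    dep τ v (wd τ w t) ≤ w.length + dep τ v t := by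
  have h1 := dep_le_add h hz (h.wd_mem w ht) (winv inv w)
  rw [length_winv, wd_winv h.inv, inv_ap] at h1
  exact h1

theorem dep_dist {t t' : ℤ} (ht : t ∈ Ω) (ht' : t' ∈ Ω) :
    (dep τ v t : ℤ) ≤ r * (|t - t'| + 1) + dep τ v t' := by
  obtain ⟨w, hw1, hw2⟩ := h.conn t ht t' ht'
  have h1 := dep_le_add h hz ht w
  rw [hw2] at h1
  have h2 : (dep τ v t : ℤ) ≤ w.length + dep τ v t' := by exact_mod_cast h1
  linarith

/-- a word of minimal length ends to the right of `z` -/
theorem ends {M : ℕ} {a W : ℤ} (hfix : ∀ x : ℤ, a ≤ x → x < z → wd τ v x = x)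
    (hW : a + W ≤ z) (hW' : (2 * D * r + 2) * M + D * r + 1 ≤ W) {t : ℤ} (ht : t ∈ Ω)
    (ht1 : z - 2 * M ≤ t) (ht2 : t ≤ z) {u : List ι} (hu : u.length = dep τ v t)
    (hu2 : wd τ v (wd τ u t) ≠ wd τ u t) : z ≤ wd τ u t := by
  by_contra hlt
  push Not at hlt
  have h1 : wd τ u t < a := by
    by_contra hge
    push Not at hge
    exact hu2 (hfix _ hge hlt)
  have h2 := (abs_le.1 (h.wd_disp u t)).1
  obtain ⟨w, hw1, hw2⟩ := h.conn t ht z (mem_z h hz)
  have h3 := dep_le (τ := τ) (v := v) (t := t) w (by rw [hw2]; exact hz)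
  have h4 : |t - z| = z - t := by rw [abs_sub_comm, abs_of_nonneg (by linarith)]
  rw [h4] at hw1
  have h5 : (u.length : ℤ) ≤ r * (z - t + 1) := by
    have : (u.length : ℤ) ≤ w.length := by exact_mod_cast hu.trans_le h3
    linarith
  have h6 : (u.length : ℤ) ≤ r * (2 * M + 1) := by
    refine h5.trans (mul_le_mul_of_nonneg_left (by linarith) (by positivity))
  have h7 : (D : ℤ) * u.length ≤ D * (r * (2 * M + 1)) :=
    mul_le_mul_of_nonneg_left h6 (by positivity)
  nlinarith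

omit hz in
theorem crossing (u : List ι) {x y : ℤ} (hx : x ≤ y) (hy : y ≤ wd τ u x) :
    ∃ u₁ u₂ : List ι, u = u₂ ++ u₁ ∧ y ≤ wd τ u₁ x ∧ wd τ u₁ x ≤ y + D := by
  induction u with
  | nil =>
    rw [wd_nil, Equiv.Perm.one_apply] at hy
    refine ⟨[], [], rfl, ?_, ?_⟩
    · rw [wd_nil, Equiv.Perm.one_apply]; exact hy
    · rw [wd_nil, Equiv.Perm.one_apply]
      have : (0 : ℤ) ≤ D := by positivity
      linarith
  | cons s u ih =>
    by_cases h1 : y ≤ wd τ u x
    · obtain ⟨u₁, u₂, e, h2, h3⟩ := ih h1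
      exact ⟨u₁, s :: u₂, by rw [e, List.cons_append], h2, h3⟩
    · push Not at h1
      refine ⟨s :: u, [], rfl, hy, ?_⟩
      rw [wd_cons, Equiv.Perm.mul_apply]
      have h2 := (abs_le.1 (h.disp s (wd τ u x))).2
      linarith

/-- the coordinate is coarse -/
theorem coarse {x y : ℤ} (hx : x ∈ Ω) (hy : y ∈ Ω) (hxy : x ≤ y) (hyz : y ≤ z)
    (he : ∀ u : List ι, u.length = dep τ v x → wd τ v (wd τ u x) ≠ wd τ u x → z ≤ wd τ u x) :
    y - x ≤ D * ((dep τ v x : ℤ) - dep τ v y + r * (D + 1)) := by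
  obtain ⟨u, hu1, hu2⟩ := exists_dep h hz hx
  obtain ⟨u₁, u₂, e, h1, h2⟩ := crossing h u hxy (hyz.trans (he u hu1 hu2))
  have hp : wd τ u₁ x ∈ Ω := h.wd_mem u₁ hx
  have h3 := dep_dist h hz hy hp
  have h4 : |y - wd τ u₁ x| ≤ D := by
    rw [abs_sub_comm, abs_of_nonneg (by linarith)]
    linarith
  have h5 : dep τ v (wd τ u₁ x) ≤ u₂.length := by
    refine dep_le u₂ ?_
    have e2 : wd τ u₂ (wd τ u₁ x) = wd τ u x := by
      rw [e, wd_append, Equiv.Perm.mul_apply]
    rw [e2]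
    exact hu2
  have h6 : (u₁.length : ℤ) + u₂.length = dep τ v x := by
    rw [← hu1, e, List.length_append]
    push_cast
    ring
  have h7 : (dep τ v (wd τ u₁ x) : ℤ) ≤ u₂.length := by exact_mod_cast h5
  have h8 : (r : ℤ) * (|y - wd τ u₁ x| + 1) ≤ r * (D + 1) :=
    mul_le_mul_of_nonneg_left (by linarith) (by positivity)
  have h9 : (u₁.length : ℤ) ≤ (dep τ v x : ℤ) - dep τ v y + r * (D + 1) := by linarith
  have h10 := (abs_le.1 (h.wd_disp u₁ x)).2
  have h11 : (D : ℤ) * u₁.length ≤ D * ((dep τ v x : ℤ) - dep τ v y + r * (D + 1)) :=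
    mul_le_mul_of_nonneg_left h9 (by positivity)
  linarith

end

/-! ### Shifted systems -/

theorem wf_shift {ι : Type} (τ : ι → Equiv.Perm ℤ) (m : ℤ) (w : List ι) (i : ℤ) :
    wf (fun s i => τ s (m + i) - m) w i = wd τ w (m + i) - m := by
  induction w with
  | nil => simp [wf, wd_nil]
  | cons s w ih =>
    rw [wf, ih, wd_cons, Equiv.Perm.mul_apply]
    congr 2
    ring

theorem qwin_shift {ι : Type} {inv : ι → ι} {n D r c B : ℕ} {τ : ι → Equiv.Perm ℤ} {Ω : Set ℤ}
    (h : QSys inv n D r c B τ Ω) (m : ℤ) (K : ℕ) :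
    QWin inv n D r c B K (fun s i => τ s (m + i) - m) {i | m + i ∈ Ω} where
  inv_left s i _ := by
    have e : m + (τ s (m + i) - m) = τ s (m + i) := by ring
    simp only [e, h.inv s, inv_ap]
    ring
  inv_right s i _ := by
    have e : m + (τ (inv s) (m + i) - m) = τ (inv s) (m + i) := by ring
    simp only [e]
    rw [h.inv s, ap_inv]
    ring
  disp s i _ := by
    have h1 := h.disp s (m + i)
    have e : τ s (m + i) - m - i = τ s (m + i) - (m + i) := by ring
    simp only [e]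
    exact h1
  supp s i _ hi := by
    have h1 := h.supp s (m + i) hi
    simp only [h1]
    ring
  conn x hx y hy _ _ := by
    obtain ⟨w, hw1, hw2⟩ := h.conn (m + x) hx (m + y) hy
    refine ⟨w, ?_, ?_⟩
    · have e : m + x - (m + y) = x - y := by ring
      rw [e] at hw1
      exact hw1
    · rw [wf_shift, hw2]
      ring
  exp w i _ := by
    rw [← wf_wpow, wf_shift, wd_wpow, h.exp w, Equiv.Perm.one_apply]
    ring
  gr x hx R _ := by
    refine le_trans ?_ (h.gr (m + x) hx R)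
    have e : {y | ∃ w : List ι, w.length ≤ R ∧ wf (fun s i => τ s (m + i) - m) w x = y} =
        (fun y => y - m) '' ball τ (m + x) R := by
      ext y
      constructor
      · rintro ⟨w, hw, rfl⟩
        exact ⟨wd τ w (m + x), ⟨w, hw, rfl⟩, (wf_shift τ m w x).symm⟩
      · rintro ⟨_, ⟨w, hw, rfl⟩, rfl⟩
        exact ⟨w, hw, wf_shift τ m w x⟩
    rw [e]
    exact Set.encard_image_le _ _
  synd x _ := by
    obtain ⟨y, hy, hy2⟩ := h.synd (m + x)
    refine ⟨y - m, ?_, ?_⟩
    · change m + (y - m) ∈ Ω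
      rw [add_sub_cancel]
      exact hy
    · have e : y - m - x = y - (m + x) := by ring
      rw [e]
      exact hy2

section
variable {ι : Type} {inv : ι → ι} {n D r c B : ℕ} {τ τ' : ι → Equiv.Perm ℤ} {Ω Ω' : Set ℤ}

theorem agree_pow (h' : QPre inv n D r c B τ' Ω') {m R : ℤ}
    (hR : ∀ s i, |i| ≤ R → τ' s i = τ s (m + i) - m) (w : List ι) (x : ℤ)
    (hx : |x| + D * (n * w.length) ≤ R) {j : ℕ} (hj : j ≤ n) :
    (wd τ' w ^ j) x = (wd τ w ^ j) (m + x) - m ∧ |(wd τ' w ^ j) x| ≤ R := by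
  have h1 : (D : ℤ) * ((wpow w j).length : ℕ) ≤ D * (n * w.length) := by
    rw [length_wpow]
    refine mul_le_mul_of_nonneg_left ?_ (by positivity)
    push_cast
    exact mul_le_mul_of_nonneg_right (by exact_mod_cast hj) (by positivity)
  have h2 := agree h' hR (wpow w j) x (by linarith)
  rw [wd_wpow, wd_wpow] at h2
  refine ⟨h2, ?_⟩
  have h3 := h'.wd_disp (wpow w j) x
  rw [wd_wpow] at h3
  have h4 := abs_sub_abs_le_abs_sub ((wd τ' w ^ j) x) x
  linarith

theorem per_eq (hn : 0 < n) (h : QPre inv n D r c B τ Ω) (h' : QPre inv n D r c B τ' Ω') {m R : ℤ}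
    (hR : ∀ s i, |i| ≤ R → τ' s i = τ s (m + i) - m) (w : List ι) (x : ℤ)
    (hx : |x| + D * (n * w.length) ≤ R) :
    Function.minimalPeriod (wd τ' w) x = Function.minimalPeriod (wd τ w) (m + x) := by
  have hP' : Function.IsPeriodicPt (wd τ' w) n x := by
    change (wd τ' w)^[n] x = x
    rw [Equiv.Perm.iterate_eq_pow, h'.exp w, Equiv.Perm.one_apply]
  have hP : Function.IsPeriodicPt (wd τ w) n (m + x) := by
    change (wd τ w)^[n] (m + x) = m + x
    rw [Equiv.Perm.iterate_eq_pow, h.exp w, Equiv.Perm.one_apply]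
  have hiff : ∀ j, j ≤ n → (Function.IsPeriodicPt (wd τ' w) j x ↔
      Function.IsPeriodicPt (wd τ w) j (m + x)) := by
    intro j hj
    have h1 := (agree_pow h' hR w x hx hj).1
    change (wd τ' w)^[j] x = x ↔ (wd τ w)^[j] (m + x) = m + x
    rw [Equiv.Perm.iterate_eq_pow, Equiv.Perm.iterate_eq_pow, h1]
    constructor
    · intro h2; linarith
    · intro h2; linarith
  refine le_antisymm ?_ ?_
  · refine Function.IsPeriodicPt.minimalPeriod_le (hP.minimalPeriod_pos hn) ?_
    exact (hiff _ (hP.minimalPeriod_le hn)).2 (Function.isPeriodicPt_minimalPeriod _ _)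
  · refine Function.IsPeriodicPt.minimalPeriod_le (hP'.minimalPeriod_pos hn) ?_
    exact (hiff _ (hP'.minimalPeriod_le hn)).1 (Function.isPeriodicPt_minimalPeriod _ _)

end

end Depth

open Depth

theorem rowDEPTH (hL : RowLIM) : RowDEPTH := by
  classical
  intro ι _ inv n D r c B L τ Ω hn h hLe hgap
  have hP : QPre inv n D r c B τ Ω := h.toQPre
  have key : ∀ K : ℕ, ∃ (v : List ι) (z q : ℤ), wd τ v z ≠ z ∧ q ∈ Ω ∧ |q - (z - K)| ≤ D ∧
      ∀ t ∈ Ω, z - 2 * K ≤ t → t ≤ z → ∀ u : List ι, u.length = dep τ v t →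
        wd τ v (wd τ u t) ≠ wd τ u t → z ≤ wd τ u t := by
    intro K
    obtain ⟨a, v, hfix, y, hy1, hy2⟩ := hgap ((2 * D * r + 2) * K + D * r + 1)
    obtain ⟨z, ⟨hz1, hz2⟩, hz3⟩ := Int.exists_least_of_bdd
      (P := fun y : ℤ => a + ((2 * D * r + 2) * K + D * r + 1 : ℕ) ≤ y ∧ wd τ v y ≠ y)
      ⟨a + ((2 * D * r + 2) * K + D * r + 1 : ℕ), fun y hy => hy.1⟩ ⟨y, hy1, hy2⟩
    obtain ⟨q, hq1, hq2⟩ := h.synd (z - K)
    refine ⟨v, z, q, hz2, hq1, hq2, fun t ht ht1 ht2 u hu hu2 => ?_⟩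
    refine ends hP hz2 (M := K) (a := a) (W := ((2 * D * r + 2) * K + D * r + 1 : ℕ)) ?_ hz1
      (by push_cast; exact le_rfl) ht ht1 ht2 hu hu2
    intro x hx1 hx2
    by_cases hx3 : x < a + ((2 * D * r + 2) * K + D * r + 1 : ℕ)
    · exact hfix x hx1 hx3
    · push Not at hx3
      by_contra hx4
      exact absurd (hz3 x ⟨hx3, hx4⟩) (by linarith)
  choose v z q hz hq1 hq2 hend using key
  -- the windows
  set β₀ : ℕ → ℤ → ℤ := fun K i => if z K - K + i ∈ Ω then
    (dep τ (v K) (q K) : ℤ) - dep τ (v K) (z K - K + i) else 0 with hβ₀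
  have hβb : ∀ K x, |β₀ K x| ≤ ((r * (D + 1) : ℕ) : ℤ) * (|x| + 1) := by
    intro K x
    simp only [hβ₀]
    have hx0 : 0 ≤ |x| := abs_nonneg x
    split_ifs with hx
    · have h1 := dep_dist hP (hz K) (hq1 K) hx
      have h2 := dep_dist hP (hz K) hx (hq1 K)
      rw [abs_sub_comm (z K - K + x) (q K)] at h2
      have h3 : |q K - (z K - K + x)| ≤ D + |x| := by
        have e : q K - (z K - K + x) = (q K - (z K - K)) - x := by ring
        rw [e]
        have h4 := abs_sub (q K - (z K - K)) x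
        have h5 := hq2 K
        linarith
      have h4 : (r : ℤ) * (|q K - (z K - K + x)| + 1) ≤ r * (D + |x| + 1) :=
        mul_le_mul_of_nonneg_left (by linarith) (by positivity)
      have h5 : (r : ℤ) * (D + |x| + 1) ≤ ((r * (D + 1) : ℕ) : ℤ) * (|x| + 1) := by
        push_cast
        have h6 : (0 : ℤ) ≤ r * (D * |x|) := by positivity
        nlinarith
      rw [abs_le]
      constructor <;> linarith
    · rw [abs_zero]
      positivity
  obtain ⟨τ', Ω', β', hQ, hag⟩ := hL ι inv n D r c B (r * (D + 1))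
    (fun K s i => τ s (z K - K + i) - (z K - K)) (fun K => {i | z K - K + i ∈ Ω}) β₀
    (fun K => qwin_shift h (z K - K) K) hβb
  have hP' : QPre inv n D r c B τ' Ω' := hQ.toQPre
  refine ⟨τ', Ω', β', hQ, ?_, ⟨?_, ?_⟩, ?_⟩
  · -- lengths of cycles
    intro w x
    obtain ⟨K, -, hK⟩ := hag (x.natAbs + D * (n * w.length)) 0
    have hR : |x| + (D : ℤ) * (n * w.length) ≤ ((x.natAbs + D * (n * w.length) : ℕ) : ℤ) := by
      push_cast
      rw [Int.abs_eq_natAbs]
    rw [per_eq hn hP hP' (m := z K - K) (R := ((x.natAbs + D * (n * w.length) : ℕ) : ℤ))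
      (fun s i hi => (hK i hi).1 s) w x hR]
    exact hLe w _
  · -- Lipschitz
    intro s i hi
    obtain ⟨K, -, hK⟩ := hag (i.natAbs + D) 0
    have h1 : |i| ≤ ((i.natAbs + D : ℕ) : ℤ) := by
      push_cast
      rw [Int.abs_eq_natAbs]
      have : (0 : ℤ) ≤ D := by positivity
      linarith
    have h2 : |τ' s i| ≤ ((i.natAbs + D : ℕ) : ℤ) := by
      have h3 := hP'.disp s i
      have h4 := abs_sub_abs_le_abs_sub (τ' s i) i
      push_cast
      linarith
    obtain ⟨h3, h4, h5⟩ := hK i h1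
    obtain ⟨_, _, h6⟩ := hK (τ' s i) h2
    have h7 : z K - K + i ∈ Ω := h4.1 hi
    have h8 : z K - K + τ' s i = τ s (z K - K + i) := by
      rw [h3 s]
      ring
    rw [h5, h6]
    simp only [hβ₀]
    rw [h8, if_pos h7, if_pos (hP.mem s h7)]
    have h9 := dep_le_add hP (hz K) h7 [s]
    have h10 := dep_add_le hP (hz K) h7 [s]
    rw [wd_singleton, List.length_singleton] at h9 h10
    rw [abs_le]
    constructor <;> omega
  · -- coarse
    intro x hx y hy hxy
    obtain ⟨K, hKm, hK⟩ := hag (x.natAbs + y.natAbs) (x.natAbs + y.natAbs)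
    have hx1 : |x| ≤ ((x.natAbs + y.natAbs : ℕ) : ℤ) := by
      push_cast
      have := abs_nonneg y
      linarith
    have hy1 : |y| ≤ ((x.natAbs + y.natAbs : ℕ) : ℤ) := by
      push_cast
      have := abs_nonneg x
      linarith
    have hKm' : ((x.natAbs + y.natAbs : ℕ) : ℤ) ≤ K := by exact_mod_cast hKm
    obtain ⟨_, h4, h5⟩ := hK x hx1
    obtain ⟨_, h6, h7⟩ := hK y hy1
    have hx2 := abs_le.1 (hx1.trans hKm')
    have hy2 := abs_le.1 (hy1.trans hKm')
    have h8 : z K - K + x ∈ Ω := h4.1 hx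
    have h9 : z K - K + y ∈ Ω := h6.1 hy
    have h10 := coarse hP (hz K) h8 h9 (by linarith) (by linarith [hy2.2])
      (hend K _ h8 (by linarith [hx2.1]) (by linarith [hx2.2]))
    rw [h5, h7]
    simp only [hβ₀]
    rw [if_pos h8, if_pos h9]
    push_cast
    have e1 : z K - K + y - (z K - K + x) = y - x := by ring
    rw [e1] at h10
    have e2 : (dep τ (v K) (q K) : ℤ) - dep τ (v K) (z K - K + y) -
        ((dep τ (v K) (q K) : ℤ) - dep τ (v K) (z K - K + x)) + r * (D + 1) =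
        (dep τ (v K) (z K - K + x) : ℤ) - dep τ (v K) (z K - K + y) + r * (D + 1) := by ring
    rw [e2]
    exact h10
  · -- no unique highest point
    intro w x hx hper hle
    by_contra hno
    push Not at hno
    obtain ⟨K, -, hK⟩ := hag (x.natAbs + D * (n * w.length)) 0
    have hR : |x| + (D : ℤ) * (n * w.length) ≤ ((x.natAbs + D * (n * w.length) : ℕ) : ℤ) := by
      push_cast
      rw [Int.abs_eq_natAbs]
    have hRK : ∀ s i, |i| ≤ ((x.natAbs + D * (n * w.length) : ℕ) : ℤ) →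
        τ' s i = τ s (z K - K + i) - (z K - K) := fun s i hi => (hK i hi).1 s
    have hper2 := per_eq hn hP hP' (m := z K - K) hRK w x hR
    rw [hper] at hper2
    have hPn' : Function.IsPeriodicPt (wd τ' w) n x := by
      change (wd τ' w)^[n] x = x
      rw [Equiv.Perm.iterate_eq_pow, hP'.exp w, Equiv.Perm.one_apply]
    have hL0 : 0 < L := by
      rw [← hper]
      exact hPn'.minimalPeriod_pos hn
    have hLn : L ≤ n := by
      rw [← hper]
      exact hPn'.minimalPeriod_le hn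
    have hX : z K - K + x ∈ Ω := by
      refine (hK x ?_).2.1.1 hx
      have : (0 : ℤ) ≤ (D : ℤ) * (n * w.length) := by positivity
      linarith
    have hβ' : ∀ j, j ≤ n → β' ((wd τ' w ^ j) x) =
        (dep τ (v K) (q K) : ℤ) - dep τ (v K) ((wd τ w ^ j) (z K - K + x)) := by
      intro j hj
      obtain ⟨h1, h2⟩ := agree_pow hP' hRK w x hR hj
      rw [(hK _ h2).2.2]
      simp only [hβ₀]
      have h3 : z K - K + (wd τ' w ^ j) x = (wd τ w ^ j) (z K - K + x) := by
        rw [h1]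
        ring
      have h4 : (wd τ w ^ j) (z K - K + x) ∈ Ω := by
        rw [← wd_wpow]
        exact hP.wd_mem _ hX
      rw [h3, if_pos h4]
    have hβx : β' x = (dep τ (v K) (q K) : ℤ) - dep τ (v K) (z K - K + x) := by
      have := hβ' 0 (Nat.zero_le _)
      rwa [pow_zero, pow_zero, Equiv.Perm.one_apply, Equiv.Perm.one_apply] at this
    have hdep : ∀ j, 0 < j → j < L → dep τ (v K) (z K - K + x) <
        dep τ (v K) ((wd τ w ^ j) (z K - K + x)) := by
      intro j hj hjL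
      have h1 := hle j
      have h2 := hno j hj hjL
      rw [hβ' j (by omega), hβx] at h1 h2
      omega
    obtain ⟨u, hu1, hu2⟩ := exists_dep hP (hz K) hX
    set X : ℤ := z K - K + x with hXdef
    have hf : ∀ t, wd τ (winv inv u ++ (v K ++ u)) t =
        (wd τ u)⁻¹ (wd τ (v K) (wd τ u t)) := by
      intro t
      rw [wd_append, wd_append, wd_winv hP.inv, Equiv.Perm.mul_apply, Equiv.Perm.mul_apply]
    have hcyc := cyc (wd τ w) (wd τ (winv inv u ++ (v K ++ u))) X L hper2.symm hL0 (by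
        intro i hi hiL
        rw [hf]
        have h1 : wd τ (v K) (wd τ u ((wd τ w ^ i) X)) = wd τ u ((wd τ w ^ i) X) := by
          by_contra hc
          have h2 := dep_le (τ := τ) (v := v K) u hc
          have h3 := hdep i hi hiL
          omega
        rw [h1, inv_ap]) (by
        rw [hf]
        intro hc
        rw [Equiv.Perm.inv_eq_iff_eq] at hc
        exact hu2 hc)
    rw [← wd_append] at hcyc
    rcases hcyc with h1 | h1
    · have h2 : Function.IsPeriodicPt (wd τ (w ++ (winv inv u ++ (v K ++ u)))) n (wd τ w X) := by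
        change (wd τ (w ++ (winv inv u ++ (v K ++ u))))^[n] (wd τ w X) = wd τ w X
        rw [Equiv.Perm.iterate_eq_pow, hP.exp, Equiv.Perm.one_apply]
      have h3 := h2.minimalPeriod_pos hn
      omega
    · have h2 := hLe (w ++ (winv inv u ++ (v K ++ u))) (wd τ w X)
      omega

end Pool.Agent.QLN
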