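/-
Row EMBED: long quasi-linear balls give a system (helper36).
-/
import Pool.Agent.Lib.QLN.Rows

set_option autoImplicit false

namespace Pool.Agent.QLN

open Pool.Agent.SCH

universe u

namespace EMB

section
variable {X : Type u} {ι : Type} {σ : ι → Equiv.Perm X}

theorem ball_mono (x : X) {R R' : ℕ} (h : R ≤ R') : ball σ x R ⊆ ball σ x R' := by
  rintro y ⟨w, h1, h2⟩
  exact ⟨w, h1.trans h, h2⟩

theorem self_mem (x : X) (R : ℕ) : x ∈ ball σ x R := ⟨[], by simp, by simp [wd_nil]⟩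

theorem ball_wd {x y : X} {R : ℕ} (hy : y ∈ ball σ x R) (w : List ι) :
    wd σ w y ∈ ball σ x (R + w.length) := by
  obtain ⟨v, h1, rfl⟩ := hy
  exact ⟨w ++ v, by rw [List.length_append]; omega, by rw [wd_append, Equiv.Perm.mul_apply]⟩

theorem ball_trans {x y z : X} {R R' : ℕ} (hy : y ∈ ball σ x R) (hz : z ∈ ball σ y R') :
    z ∈ ball σ x (R + R') := by
  obtain ⟨w, h1, rfl⟩ := hz
  exact ball_mono x (by omega) (ball_wd hy w)

/-- a path which leaves a ball gives a point on the boundary -/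
theorem exit {x : X} {R : ℕ} (u : List ι) (hu : wd σ u x ∉ ball σ x (R + 1)) :
    ∃ y ∈ ball σ x (R + 1), y ∉ ball σ x R := by
  induction u with
  | nil => exact absurd (by rw [wd_nil]; exact self_mem x _) hu
  | cons s w ih =>
    by_cases h : wd σ w x ∈ ball σ x (R + 1)
    · refine ⟨_, h, fun h' => hu ?_⟩
      rw [wd_cons, Equiv.Perm.mul_apply]
      have := ball_wd h' [s]
      rwa [wd_singleton] at this
    · exact ih h

/-- intermediate values along a path -/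
theorem ivt {x : X} {R K : ℕ} {φ : X → ℤ}
    (hlip : ∀ y ∈ ball σ x R, ∀ s, σ s y ∈ ball σ x R → |φ (σ s y) - φ y| ≤ (K : ℤ))
    (w : List ι) (hw : w.length ≤ R) (v : ℤ) (h1 : φ x ≤ v) (h2 : v ≤ φ (wd σ w x)) :
    ∃ z ∈ ball σ x R, v - K ≤ φ z ∧ φ z ≤ v := by
  induction w with
  | nil =>
    rw [wd_nil] at h2
    have h3 : φ x = v := le_antisymm h1 h2
    exact ⟨x, self_mem x R, by rw [h3]; simp, h1⟩
  | cons s w ih =>
    rw [List.length_cons] at hw
    by_cases h : v ≤ φ (wd σ w x)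
    · exact ih (by omega) h
    · push Not at h
      have h3 : wd σ w x ∈ ball σ x R := ⟨w, by omega, rfl⟩
      have h4 : σ s (wd σ w x) ∈ ball σ x R := ⟨s :: w, by rw [List.length_cons]; omega, by
        rw [wd_cons, Equiv.Perm.mul_apply]⟩
      rw [wd_cons, Equiv.Perm.mul_apply] at h2
      have h5 := (abs_le.1 (hlip _ h3 s h4)).2
      exact ⟨_, h3, by linarith, h.le⟩

/-- numbering of the fibres -/
theorem exists_eps {K M : ℕ} {e : List ι → ℕ} (he : ∀ w, e w < M)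
    (hinj : Set.InjOn e {w : List ι | w.length ≤ K}) (x : X) (R : ℕ) (φ : X → ℤ)
    (hq : ∀ y ∈ ball σ x R, ∀ z ∈ ball σ x R,
        ∃ w : List ι, (w.length : ℤ) ≤ K * (|φ y - φ z| + 1) ∧ wd σ w y = z) :
    ∃ ε : X → ℕ, (∀ y, ε y < M) ∧
      ∀ y ∈ ball σ x R, ∀ z ∈ ball σ x R, φ y = φ z → ε y = ε z → y = z := by
  classical
  let b : ℤ → X := fun v => if h : ∃ y ∈ ball σ x R, φ y = v then h.choose else x
  have hb : ∀ y ∈ ball σ x R, b (φ y) ∈ ball σ x R ∧ φ (b (φ y)) = φ y := by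
    intro y hy
    have h : ∃ z ∈ ball σ x R, φ z = φ y := ⟨y, hy, rfl⟩
    have h2 : b (φ y) = h.choose := dif_pos h
    rw [h2]
    exact h.choose_spec
  have h1 : ∀ y, ∃ w : List ι, y ∈ ball σ x R → w.length ≤ K ∧ wd σ w (b (φ y)) = y := by
    intro y
    by_cases hy : y ∈ ball σ x R
    · obtain ⟨h2, h3⟩ := hb y hy
      obtain ⟨w, h4, h5⟩ := hq _ h2 y hy
      rw [h3, sub_self, abs_zero, zero_add, mul_one] at h4
      exact ⟨w, fun _ => ⟨by exact_mod_cast h4, h5⟩⟩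
    · exact ⟨[], fun h => absurd h hy⟩
  choose g hg using h1
  refine ⟨fun y => e (g y), fun y => he _, fun y hy z hz h2 h3 => ?_⟩
  have h4 := hinj (hg y hy).1 (hg z hz).1 h3
  rw [← (hg y hy).2, ← (hg z hz).2, h4, h2]

theorem exists_code (ι : Type) [Finite ι] (K : ℕ) :
    ∃ (M : ℕ) (e : List ι → ℕ), (∀ w, e w < M) ∧ Set.InjOn e {w : List ι | w.length ≤ K} := by
  classical
  have hfin : {w : List ι | w.length ≤ K}.Finite := List.finite_length_le ι K
  have := hfin.to_subtype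
  obtain ⟨M, ⟨f⟩⟩ := Finite.exists_equiv_fin {w : List ι | w.length ≤ K}
  have hM : 0 < M := by
    have h0 : ([] : List ι) ∈ {w : List ι | w.length ≤ K} := by simp
    exact (Nat.zero_le _).trans_lt (f ⟨[], h0⟩).2
  refine ⟨M, fun w => if h : w ∈ {w : List ι | w.length ≤ K} then (f ⟨w, h⟩ : ℕ) else 0,
    fun w => ?_, fun v hv w hw h => ?_⟩
  · by_cases h : w ∈ {w : List ι | w.length ≤ K}
    · simp only [dif_pos h]
      exact (f ⟨w, h⟩).2
    · simp only [dif_neg h]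
      exact hM
  · simp only [dif_pos hv, dif_pos hw] at h
    have h2 := f.injective (Fin.ext h)
    exact congrArg Subtype.val h2

end

/-- the two coordinates -/
theorem coord {M a b : ℤ} {p q : ℤ} (hp : 0 ≤ p) (hpM : p < M) (hq : 0 ≤ q) (hqM : q < M) :
    |a - b| ≤ |(M * a + p) - (M * b + q)| ∧ |(M * a + p) - (M * b + q)| ≤ M * |a - b| + M := by
  have hM : 1 ≤ M := by linarith
  have e : (M * a + p) - (M * b + q) = M * (a - b) + (p - q) := by ring
  rw [e]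
  generalize a - b = t
  have h1 : -(M - 1) ≤ p - q := by linarith
  have h2 : p - q ≤ M - 1 := by linarith
  generalize p - q = d at h1 h2
  constructor
  · rcases lt_trichotomy t 0 with h | h | h
    · rw [abs_of_neg h]
      refine le_trans ?_ (neg_le_abs _)
      nlinarith [mul_nonneg (sub_nonneg.2 hM) (show (0 : ℤ) ≤ -t - 1 by linarith)]
    · rw [h, abs_zero]; exact abs_nonneg _
    · rw [abs_of_pos h]
      refine le_trans ?_ (le_abs_self _)
      nlinarith [mul_nonneg (sub_nonneg.2 hM) (show (0 : ℤ) ≤ t - 1 by linarith)]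
  · refine (abs_add_le _ _).trans ?_
    rw [abs_mul, abs_of_nonneg (by linarith : (0 : ℤ) ≤ M)]
    have : |d| ≤ M := abs_le.2 ⟨by linarith, by linarith⟩
    linarith

/-- displacement of words in a window -/
theorem dispW {ι : Type*} {T : ι → ℤ → ℤ} {D : ℕ} {R : ℤ}
    (hd : ∀ s i, |i| ≤ R → |T s i - i| ≤ (D : ℤ)) (w : List ι) (i : ℤ)
    (hi : |i| + D * w.length ≤ R) : |wf T w i - i| ≤ D * w.length := by
  induction w with
  | nil => simp [wf]
  | cons s w ih =>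
    rw [List.length_cons] at hi
    push_cast at hi
    have hD : (0 : ℤ) ≤ D := by positivity
    have h2 := ih (by nlinarith)
    have h3 : |wf T w i| ≤ R := by
      have := abs_sub_abs_le_abs_sub (wf T w i) i
      nlinarith
    rw [wf, List.length_cons]
    have h4 := abs_le.1 (hd s (wf T w i) h3)
    have h5 := abs_le.1 h2
    rw [abs_le]
    push_cast
    constructor <;> nlinarith [h4.1, h4.2, h5.1, h5.2]

theorem wf_fix {ι : Type*} {T : ι → ℤ → ℤ} {i : ℤ} (h : ∀ s, T s i = i) (w : List ι) :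
    wf T w i = i := by
  induction w with
  | nil => rfl
  | cons s w ih => rw [wf, ih, h]

/-- one window -/
theorem window {X : Type u} {ι : Type} {inv : ι → ι} {n K : ℕ} {σ : ι → Equiv.Perm X}
    (hinv : ∀ s, σ (inv s) = (σ s)⁻¹) (hexp : ∀ w, wd σ w ^ n = 1)
    {M : ℕ} {e : List ι → ℕ} (he : ∀ w, e w < M)
    (hinj : Set.InjOn e {w : List ι | w.length ≤ K})
    (H : ∀ R : ℕ, ∃ (x : X) (φ : X → ℤ), (∃ u : List ι, wd σ u x ∉ ball σ x R) ∧
      (∀ y ∈ ball σ x R, ∀ s, σ s y ∈ ball σ x R → |φ (σ s y) - φ y| ≤ (K : ℤ)) ∧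
      ∀ y ∈ ball σ x R, ∀ z ∈ ball σ x R,
        ∃ w : List ι, (w.length : ℤ) ≤ K * (|φ y - φ z| + 1) ∧ wd σ w y = z) (W : ℕ) :
    ∃ (T : ι → ℤ → ℤ) (Ω : Set ℤ),
      QWin inv n (M * (K + 2)) K (2 * (M * (K + 2))) 1 W T Ω := by
  classical
  have hM : (1 : ℤ) ≤ M := by exact_mod_cast (Nat.zero_le _).trans_lt (he [])
  let ρ : ℕ := K * (W + 1) + K * (2 * W + 1) + W + 1
  let t₁ : ℕ := K * (W + K + 1)
  let R₀ : ℕ := t₁ + ρ + K * (2 * W + K)
  obtain ⟨x, φ₀, ⟨u, hu⟩, hlip₀, hq₀⟩ := H (R₀ + 1)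
  obtain ⟨y₀, hy₀, hy₀'⟩ := exit u hu
  obtain ⟨φ, hlip, hq, hle⟩ : ∃ φ : X → ℤ,
      (∀ y ∈ ball σ x (R₀ + 1), ∀ s, σ s y ∈ ball σ x (R₀ + 1) →
        |φ (σ s y) - φ y| ≤ (K : ℤ)) ∧
      (∀ y ∈ ball σ x (R₀ + 1), ∀ z ∈ ball σ x (R₀ + 1),
        ∃ w : List ι, (w.length : ℤ) ≤ K * (|φ y - φ z| + 1) ∧ wd σ w y = z) ∧
      φ x ≤ φ y₀ := by
    rcases le_total (φ₀ x) (φ₀ y₀) with h | h
    · exact ⟨φ₀, hlip₀, hq₀, h⟩
    · refine ⟨fun y => -φ₀ y, fun y hy s hs => ?_, fun y hy z hz => ?_, by simpa using h⟩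
      · have := hlip₀ y hy s hs
        rwa [show -φ₀ (σ s y) - -φ₀ y = -(φ₀ (σ s y) - φ₀ y) by ring, abs_neg]
      · obtain ⟨w, h1, h2⟩ := hq₀ y hy z hz
        refine ⟨w, ?_, h2⟩
        rwa [show -φ₀ y - -φ₀ z = -(φ₀ y - φ₀ z) by ring, abs_neg]
  have hnear : ∀ a ∈ ball σ x (R₀ + 1), ∀ y ∈ ball σ x (R₀ + 1), ∀ t : ℕ,
      (K : ℤ) * (|φ a - φ y| + 1) ≤ t → y ∈ ball σ a t := by
    intro a ha y hy t ht
    obtain ⟨w, h1, h2⟩ := hq a ha y hy
    exact ⟨w, by exact_mod_cast h1.trans ht, h2⟩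
  have hx : x ∈ ball σ x (R₀ + 1) := self_mem x _
  have hK0 : (0 : ℤ) ≤ K := by positivity
  -- the path is long
  have hlong : φ x + (2 * W + K) ≤ φ y₀ := by
    by_contra hc
    push Not at hc
    refine hy₀' (hnear x hx y₀ hy₀ R₀ ?_)
    have h1 : |φ x - φ y₀| = φ y₀ - φ x := by
      rw [abs_sub_comm, abs_of_nonneg (by linarith)]
    rw [h1]
    have h2 : φ y₀ - φ x + 1 ≤ 2 * W + K := by linarith
    have h3 : (K : ℤ) * (φ y₀ - φ x + 1) ≤ K * (2 * W + K) :=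
      mul_le_mul_of_nonneg_left h2 hK0
    have h4 : ((K * (2 * W + K) : ℕ) : ℤ) ≤ (R₀ : ℤ) := by
      exact_mod_cast (Nat.le_add_left _ _)
    push_cast at h4
    linarith
  obtain ⟨w₀, hw₀, hw₀'⟩ := hy₀
  have hivt : ∀ v : ℤ, φ x ≤ v → v ≤ φ y₀ →
      ∃ z ∈ ball σ x (R₀ + 1), v - K ≤ φ z ∧ φ z ≤ v := fun v h1 h2 =>
    ivt hlip w₀ hw₀ v h1 (by rw [hw₀']; exact h2)
  obtain ⟨x', hx', h1, h2⟩ := hivt (φ x + W + K) (by linarith [Int.natCast_nonneg W])
    (by linarith [Int.natCast_nonneg W])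
  have hx't : x' ∈ ball σ x t₁ := by
    refine hnear x hx x' hx' t₁ ?_
    have h3 : |φ x - φ x'| ≤ W + K := by
      rw [abs_sub_comm, abs_of_nonneg (by linarith [Int.natCast_nonneg W])]
      linarith
    have h4 : (K : ℤ) * (|φ x - φ x'| + 1) ≤ K * (W + K + 1) :=
      mul_le_mul_of_nonneg_left (by linarith) hK0
    refine h4.trans (le_of_eq ?_)
    change (K : ℤ) * (W + K + 1) = ((K * (W + K + 1) : ℕ) : ℤ)
    push_cast
    ring
  have hsub : ∀ t : ℕ, t ≤ ρ → ball σ x' t ⊆ ball σ x (R₀ + 1) := fun t ht y hy =>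
    ball_mono x (by change t₁ + t ≤ t₁ + ρ + K * (2 * W + K) + 1; omega) (ball_trans hx't hy)
  obtain ⟨ε, hε, hεinj⟩ := exists_eps he hinj x (R₀ + 1) φ hq
  let ψ : X → ℤ := fun y => M * φ y + ε y
  have hψ : ∀ y, ψ y = M * φ y + ε y := fun y => rfl
  have hc : ∀ a b, |φ a - φ b| ≤ |ψ a - ψ b| ∧ |ψ a - ψ b| ≤ M * |φ a - φ b| + M := fun a b =>
    coord (by positivity) (by exact_mod_cast hε a) (by positivity) (by exact_mod_cast hε b)
  have hψinj : ∀ y ∈ ball σ x (R₀ + 1), ∀ z ∈ ball σ x (R₀ + 1), ψ y = ψ z → y = z := by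
    intro y hy z hz h
    have h3 := (hc y z).1
    rw [h, sub_self, abs_zero] at h3
    have h4 : φ y = φ z := sub_eq_zero.1 (abs_eq_zero.1 (le_antisymm h3 (abs_nonneg _)))
    refine hεinj y hy z hz h4 ?_
    rw [hψ, hψ, h4] at h
    have := add_left_cancel h
    exact_mod_cast this
  let Ω : Set ℤ := {i | ∃ y, y ∈ ball σ x (R₀ + 1) ∧ ψ y = ψ x' + i}
  let T : ι → ℤ → ℤ := fun s i =>
    if h : ∃ y, y ∈ ball σ x (R₀ + 1) ∧ ψ y = ψ x' + i then ψ (σ s h.choose) - ψ x' else i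
  have hT : ∀ s, ∀ y ∈ ball σ x (R₀ + 1), T s (ψ y - ψ x') = ψ (σ s y) - ψ x' := by
    intro s y hy
    have h : ∃ z, z ∈ ball σ x (R₀ + 1) ∧ ψ z = ψ x' + (ψ y - ψ x') := ⟨y, hy, by ring⟩
    have h3 : T s (ψ y - ψ x') = ψ (σ s h.choose) - ψ x' := dif_pos h
    have h4 : h.choose = y := hψinj _ h.choose_spec.1 _ hy (by rw [h.choose_spec.2]; ring)
    rw [h3, h4]
  have hT' : ∀ s i, i ∉ Ω → T s i = i := fun s i hi => dif_neg hi
  have hfollow : ∀ (w : List ι) (a : X) (t : ℕ), a ∈ ball σ x' t → t + w.length ≤ ρ →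
      wf T w (ψ a - ψ x') = ψ (wd σ w a) - ψ x' := by
    intro w a t ha ht
    induction w with
    | nil => simp [wf, wd_nil]
    | cons s w ih =>
      rw [List.length_cons] at ht
      rw [wf, ih (by omega), hT s _ (hsub _ (by omega) (ball_wd ha w)), wd_cons,
        Equiv.Perm.mul_apply]
  -- points of the window
  have hpt : ∀ i ∈ Ω, |i| ≤ (W : ℤ) → ∃ a, a ∈ ball σ x' (K * (W + 1)) ∧ i = ψ a - ψ x' := by
    rintro i ⟨a, ha, hai⟩ hi
    refine ⟨a, hnear x' hx' a ha _ ?_, by rw [hai]; ring⟩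
    have h3 := (hc x' a).1
    rw [hai, show ψ x' - (ψ x' + i) = -i by ring, abs_neg] at h3
    push_cast
    exact mul_le_mul_of_nonneg_left (by linarith) hK0
  have hρ : K * (W + 1) + 1 ≤ ρ := by
    change K * (W + 1) + 1 ≤ K * (W + 1) + K * (2 * W + 1) + W + 1
    omega
  have hD : (1 : ℤ) ≤ M * (K + 2) := by nlinarith
  have hdisp : ∀ s i, |i| ≤ (W : ℤ) → |T s i - i| ≤ ((M * (K + 2) : ℕ) : ℤ) := by
    intro s i hi
    by_cases h : i ∈ Ω
    · obtain ⟨a, ha, rfl⟩ := hpt i h hi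
      have ha' := hsub _ (by omega) ha
      have hsa : σ s a ∈ ball σ x (R₀ + 1) := by
        have := hsub _ hρ (ball_wd ha [s])
        rwa [wd_singleton] at this
      rw [hT s a ha', show ψ (σ s a) - ψ x' - (ψ a - ψ x') = ψ (σ s a) - ψ a by ring]
      have h3 := (hc (σ s a) a).2
      have h4 := hlip a ha' s hsa
      push_cast
      nlinarith [mul_le_mul_of_nonneg_left h4 (by linarith : (0 : ℤ) ≤ M)]
    · rw [hT' s i h, sub_self, abs_zero]
      positivity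
  refine ⟨T, Ω, ⟨fun s i hi => ?_, fun s i hi => ?_, hdisp, fun s i hi h => hT' s i h,
    fun a₁ h1 b₁ h2 k1 k2 => ?_, fun w i hi => ?_, fun a₁ h1 R hR => ?_, fun t ht => ?_⟩⟩
  · by_cases h : i ∈ Ω
    · obtain ⟨a, ha, rfl⟩ := hpt i h hi
      have ha' := hsub _ (by omega) ha
      have hsa : σ s a ∈ ball σ x (R₀ + 1) := by
        have := hsub _ hρ (ball_wd ha [s])
        rwa [wd_singleton] at this
      rw [hT s a ha', hT _ _ hsa, hinv]
      simp
    · rw [hT' s i h, hT' _ i h]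
  · by_cases h : i ∈ Ω
    · obtain ⟨a, ha, rfl⟩ := hpt i h hi
      have ha' := hsub _ (by omega) ha
      have hsa : σ (inv s) a ∈ ball σ x (R₀ + 1) := by
        have := hsub _ hρ (ball_wd ha [inv s])
        rwa [wd_singleton] at this
      rw [hT _ a ha', hT _ _ hsa, hinv]
      simp
    · rw [hT' _ i h, hT' _ i h]
  · obtain ⟨a, ha, rfl⟩ := hpt a₁ h1 k1
    obtain ⟨b, hb', rfl⟩ := hpt b₁ h2 k2
    obtain ⟨w, h3, h4⟩ := hq a (hsub _ (by omega) ha) b (hsub _ (by omega) hb')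
    have h5 := (hc a b).1
    have h6 : |ψ a - ψ x' - (ψ b - ψ x')| = |ψ a - ψ b| := by
      congr 1; ring
    have h7 : (w.length : ℤ) ≤ K * (|ψ a - ψ x' - (ψ b - ψ x')| + 1) := by
      rw [h6]
      exact h3.trans (mul_le_mul_of_nonneg_left (by linarith) hK0)
    refine ⟨w, h7, ?_⟩
    rw [hfollow w a _ ha, h4]
    have h8 : |ψ a - ψ x' - (ψ b - ψ x')| ≤ 2 * W := by
      refine (abs_sub _ _).trans ?_
      linarith
    have h9 : (w.length : ℤ) ≤ K * (2 * W + 1) :=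
      h7.trans (mul_le_mul_of_nonneg_left (by linarith) hK0)
    have h10 : w.length ≤ K * (2 * W + 1) := by exact_mod_cast h9
    change K * (W + 1) + w.length ≤ K * (W + 1) + K * (2 * W + 1) + W + 1
    omega
  · by_cases h : i ∈ Ω
    · have h0 : (0 : ℤ) ≤ ((M * (K + 2) : ℕ) : ℤ) * n * w.length := by positivity
      obtain ⟨a, ha, rfl⟩ := hpt i h (by linarith)
      rw [← wf_wpow, hfollow (wpow w n) a _ ha, wd_wpow, hexp, Equiv.Perm.one_apply]
      rw [length_wpow]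
      have h3 : (n : ℤ) * w.length ≤ W := by
        have h4 : (1 : ℤ) * (n * w.length) ≤ ((M * (K + 2) : ℕ) : ℤ) * (n * w.length) :=
          mul_le_mul_of_nonneg_right (by exact_mod_cast hD) (by positivity)
        have h5 := abs_nonneg (ψ a - ψ x')
        nlinarith
      have h4 : n * w.length ≤ W := by exact_mod_cast h3
      change K * (W + 1) + n * w.length ≤ K * (W + 1) + K * (2 * W + 1) + W + 1
      omega
    · exact Function.iterate_fixed (wf_fix (fun s => hT' s i h) w) n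
  · have hsub2 : {y | ∃ w : List ι, w.length ≤ R ∧ wf T w a₁ = y} ⊆
        Set.Icc (a₁ - ((M * (K + 2) : ℕ) : ℤ) * R) (a₁ + ((M * (K + 2) : ℕ) : ℤ) * R) := by
      rintro y ⟨w, h3, rfl⟩
      have h4 : ((M * (K + 2) : ℕ) : ℤ) * w.length ≤ ((M * (K + 2) : ℕ) : ℤ) * R :=
        mul_le_mul_of_nonneg_left (by exact_mod_cast h3) (by positivity)
      have h5 := abs_le.1 (dispW hdisp w a₁ (by linarith))
      exact ⟨by linarith [h5.1], by linarith [h5.2]⟩
    refine (Set.encard_le_encard hsub2).trans ?_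
    rw [← Finset.coe_Icc, Set.encard_coe_eq_coe_finsetCard, Int.card_Icc]
    have h6 : (a₁ + ((M * (K + 2) : ℕ) : ℤ) * R + 1 - (a₁ - ((M * (K + 2) : ℕ) : ℤ) * R)).toNat =
        2 * (M * (K + 2)) * R + 1 := by
      rw [show a₁ + ((M * (K + 2) : ℕ) : ℤ) * R + 1 - (a₁ - ((M * (K + 2) : ℕ) : ℤ) * R) =
        ((2 * (M * (K + 2)) * R + 1 : ℕ) : ℤ) by push_cast; ring, Int.toNat_natCast]
    rw [h6]
  · have ht2 := abs_le.1 ht
    have e1 := Int.mul_ediv_add_emod t M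
    have e2 := Int.emod_nonneg t (by linarith : (M : ℤ) ≠ 0)
    have e3 := Int.emod_lt_of_pos t (by linarith : (0 : ℤ) < M)
    generalize hqd : t / (M : ℤ) = q at e1
    generalize t % (M : ℤ) = p at e1 e2 e3
    have hq1 : q ≤ W := by
      by_contra hcon
      push Not at hcon
      nlinarith
    have hq2 : -(W : ℤ) ≤ q := by
      by_contra hcon
      push Not at hcon
      nlinarith
    obtain ⟨z, hz, h3, h4⟩ := hivt (φ x' + q) (by linarith) (by linarith)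
    refine ⟨ψ z - ψ x', ⟨z, hz, by ring⟩, ?_⟩
    rw [hψ, hψ, ← e1]
    have h5 : (0 : ℤ) ≤ ε z := by positivity
    have h6 : (ε z : ℤ) < M := by exact_mod_cast hε z
    have h7 : (0 : ℤ) ≤ ε x' := by positivity
    have h8 : (ε x' : ℤ) < M := by exact_mod_cast hε x'
    have h9 : 0 ≤ M * (φ x' + q - φ z) := mul_nonneg (by linarith) (by linarith)
    have h10 : M * (φ x' + q - φ z) ≤ M * K := mul_le_mul_of_nonneg_left (by linarith) (by linarith)
    push_cast
    rw [abs_le]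
    constructor <;> nlinarith

end EMB

/-- **Row EMBED** -/
theorem rowEMBED (hLIM : RowLIM) : RowEMBED.{u} := by
  intro X ι _ inv n K σ hn hinv hexp H
  obtain ⟨M, e, he, hinj⟩ := EMB.exists_code ι K
  choose T Ω hW using EMB.window hinv hexp he hinj H
  obtain ⟨τ, Ω', _, h, _⟩ := hLIM ι inv n _ _ _ _ 0 T Ω (fun _ _ => 0) hW (fun K x => by simp)
  exact ⟨_, _, _, _, τ, Ω', h⟩

end Pool.Agent.QLN
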