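/-
Row EXVT: a nonconstant harmonic function on a transitive graph.
-/
import Pool.Agent.Lib.QLN.Rows

set_option autoImplicit false

namespace Pool.Agent.QLN

namespace Exvt

variable {Y H : Type} [Group H] [MulAction H Y] {adj : Y → Y → Prop} {N : Y → Finset Y}
  {pos : Y → ℤ} {P n : ℕ}

/-- the group moves all pairs of points to pairs of points at bounded distance -/
theorem bdd (hV : VG Y H adj N pos P n) (x y : Y) :
    ∃ C : ℤ, ∀ h : H, |pos (h • x) - pos (h • y)| ≤ C := by
  have hc := hV.conn x y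
  induction hc with
  | refl => exact ⟨0, fun h => by rw [sub_self, abs_zero]⟩
  | @tail u v _ huv ih =>
    obtain ⟨C, hC⟩ := ih
    refine ⟨C + P, fun h => ?_⟩
    have h1 := abs_le.1 (hV.len _ _ (hV.aut h _ _ huv))
    have h2 := abs_le.1 (hC h)
    rw [abs_le]
    constructor <;> linarith [h1.1, h1.2, h2.1, h2.2]

/-- the values of `pos` are not contained in a bounded interval -/
theorem far (hV : VG Y H adj N pos P n) (M : ℤ) : ∃ a b : Y, M ≤ pos b - pos a := by
  have := hV.inf
  obtain ⟨x₀⟩ : Nonempty Y := inferInstance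
  by_contra hc
  push Not at hc
  refine Set.infinite_range_of_injective hV.inj
    ((Set.finite_Icc (pos x₀ - M) (pos x₀ + M)).subset ?_)
  rintro _ ⟨y, rfl⟩
  have h1 := hc x₀ y
  have h2 := hc y x₀
  exact Set.mem_Icc.2 ⟨by linarith, by linarith⟩

/-- few edges cross a level -/
theorem card_cross (hV : VG Y H adj N pos P n) [DecidableEq Y] (F : Finset Y) (t : ℤ) :
    ((F.filter fun x => pos x ≤ t).sigma fun x => (N x).filter fun y => ¬ pos y ≤ t).card ≤
      P ^ 2 := by
  classical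
  have h1 : ((F.filter fun x => pos x ≤ t).sigma fun x => (N x).filter fun y => ¬ pos y ≤ t).card ≤
      (Finset.Ioc (t - P) t ×ˢ Finset.Ioc t (t + P)).card := by
    refine Finset.card_le_card_of_injOn (fun q => (pos q.1, pos q.2)) ?_ ?_
    · rintro ⟨x, y⟩ hq
      rw [Finset.mem_coe, Finset.mem_sigma, Finset.mem_filter, Finset.mem_filter, hV.mem] at hq
      obtain ⟨⟨-, h2⟩, h3, h4⟩ := hq
      have h5 := abs_le.1 (hV.len _ _ h3)
      change pos x ≤ t at h2
      change ¬ pos y ≤ t at h4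
      push Not at h4
      rw [Finset.mem_coe, Finset.mem_product, Finset.mem_Ioc, Finset.mem_Ioc]
      change (t - P < pos x ∧ pos x ≤ t) ∧ t < pos y ∧ pos y ≤ t + P
      have h6 := h5.1
      have h7 := h5.2
      change -(P : ℤ) ≤ pos x - pos y at h6
      exact ⟨⟨by linarith, h2⟩, h4, by linarith⟩
    · rintro ⟨x, y⟩ _ ⟨x', y'⟩ _ h
      have h2 : pos x = pos x' := congrArg Prod.fst h
      have h3 : pos y = pos y' := congrArg Prod.snd h
      rw [hV.inj h2, hV.inj h3]
  refine h1.trans (le_of_eq ?_)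
  rw [Finset.card_product, Int.card_Ioc, Int.card_Ioc, pow_two]
  congr 1
  · rw [sub_sub_cancel, Int.toNat_natCast]
  · rw [add_sub_cancel_left, Int.toNat_natCast]

end Exvt

open Exvt in
/-- **Row EXVT** -/
theorem rowEXVT (hFLOWI : RowFLOWI) (hLIMH : RowLIMH) : RowEXVT := by
  classical
  intro Y H _ _ adj N pos P n hV
  have hinf := hV.inf
  obtain ⟨x₀⟩ : Nonempty Y := inferInstance
  let k : Y → Y → ℝ := fun x y => if adj x y then 1 else 0
  have hk : ∀ x y, k x y ≠ 0 ↔ adj x y := by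
    intro x y
    by_cases h : adj x y
    · simp [k, h]
    · simp [k, h]
  have hk1 : ∀ x y, adj x y → k x y = 1 := fun x y h => if_pos h
  have hW : WG k N := by
    refine ⟨?_, ?_, ?_, ?_⟩
    · intro x y
      by_cases h : adj x y
      · rw [hk1 x y h, hk1 y x (hV.symm x y h)]
      · have h' : ¬ adj y x := fun h2 => h (hV.symm y x h2)
        simp only [k, if_neg h, if_neg h']
    · intro x y h
      rw [hk1 x y ((hk x y).1 h)]
    · intro x y h
      exact (hV.mem x y).2 ((hk x y).1 h)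
    · intro x y
      exact Relation.ReflTransGen.mono (fun u v h => (hk u v).2 h) _ _ (hV.conn x y)
  have hmain : ∀ F : Finset Y, ∃ f : Y → ℝ, f x₀ = 0 ∧
      (∀ x ∈ F, ∀ y, k x y ≠ 0 → |f x - f y| ≤ 1) ∧
      (∀ x ∈ F, ∑ y ∈ N x, k x y * (f x - f y) = 0) ∧
      ∃ t ∈ N x₀, 1 / ((P : ℝ) ^ 2 + 1) ≤ |f t| := by
    intro F₀
    choose C hC using fun z => bdd hV z x₀
    obtain ⟨ρ, hρ0, hρ⟩ : ∃ ρ : ℤ, 0 ≤ ρ ∧ ∀ z ∈ F₀, C z ≤ ρ := by
      refine ⟨∑ z ∈ F₀, |C z|, Finset.sum_nonneg fun _ _ => abs_nonneg _, fun z hz => ?_⟩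
      exact (le_abs_self _).trans
        (Finset.single_le_sum (f := fun z => |C z|) (fun _ _ => abs_nonneg _) hz)
    obtain ⟨a, b, hab⟩ := far hV (2 * ρ + 2 * P + 2)
    have hP0 : (0 : ℤ) ≤ P := Nat.cast_nonneg _
    have hne : a ≠ b := by
      rintro rfl
      linarith
    set t : ℤ := pos a + ρ + P + 1 with ht
    have hFfin : (pos ⁻¹' Set.Icc (t - ρ - P) (t + ρ + P)).Finite :=
      (Set.finite_Icc _ _).preimage hV.inj.injOn
    have hFm : ∀ z, z ∈ hFfin.toFinset ↔ t - ρ - P ≤ pos z ∧ pos z ≤ t + ρ + P := by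
      intro z
      rw [Set.Finite.mem_toFinset]
      exact Iff.rfl
    obtain ⟨f, hf1, hf2, hf3⟩ := hFLOWI Y k N hW hFfin.toFinset a b hne
    have hflux := hf3 {z | pos z ≤ t} (by change pos a ≤ t; linarith)
      (by change ¬ pos b ≤ t; linarith) (by
        intro x hx y hy hxy
        change pos x ≤ t at hx
        change ¬ pos y ≤ t at hy
        push Not at hy
        have h1 := abs_le.1 (hV.len _ _ ((hk x y).1 hxy))
        rw [hFm]
        exact ⟨by linarith [h1.1], by linarith⟩)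
    -- an edge with a large difference
    obtain ⟨x, y, hxt, hxy, hxy2⟩ : ∃ x y, pos x ≤ t ∧ adj x y ∧ t - P ≤ pos x ∧
        1 / ((P : ℝ) ^ 2 + 1) ≤ |f x - f y| := by
      by_contra hc
      push Not at hc
      have hsum : (∑ q ∈ (hFfin.toFinset.filter fun x => pos x ≤ t).sigma
          fun x => (N x).filter fun y => ¬ pos y ≤ t, k q.1 q.2 * (f q.1 - f q.2)) = 1 := by
        rw [Finset.sum_sigma]
        exact hflux
      have hle : (∑ q ∈ (hFfin.toFinset.filter fun x => pos x ≤ t).sigma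
          fun x => (N x).filter fun y => ¬ pos y ≤ t, k q.1 q.2 * (f q.1 - f q.2)) ≤
          ((hFfin.toFinset.filter fun x => pos x ≤ t).sigma
          fun x => (N x).filter fun y => ¬ pos y ≤ t).card • (1 / ((P : ℝ) ^ 2 + 1)) := by
        refine Finset.sum_le_card_nsmul _ _ _ ?_
        rintro ⟨x, y⟩ hq
        rw [Finset.mem_sigma, Finset.mem_filter, Finset.mem_filter, hV.mem] at hq
        obtain ⟨⟨-, h2⟩, h3, h4⟩ := hq
        change pos x ≤ t at h2
        change adj x y at h3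
        change ¬ pos y ≤ t at h4
        push Not at h4
        have h5 := abs_le.1 (hV.len _ _ h3)
        have h6 := hc x y h2 h3 (by linarith [h5.1])
        change k x y * (f x - f y) ≤ _
        rw [hk1 x y h3, one_mul]
        exact (le_abs_self _).trans h6.le
      rw [hsum, nsmul_eq_mul] at hle
      have hcard : (((hFfin.toFinset.filter fun x => pos x ≤ t).sigma
          fun x => (N x).filter fun y => ¬ pos y ≤ t).card : ℝ) ≤ (P : ℝ) ^ 2 := by
        exact_mod_cast card_cross hV _ t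
      have hpos : (0 : ℝ) < (P : ℝ) ^ 2 + 1 := by positivity
      have h7 : (P : ℝ) ^ 2 * (1 / ((P : ℝ) ^ 2 + 1)) < 1 := by
        rw [mul_one_div, div_lt_one hpos]
        linarith
      have h8 := mul_le_mul_of_nonneg_right hcard (by positivity : (0 : ℝ) ≤ 1 / ((P : ℝ) ^ 2 + 1))
      linarith
    obtain ⟨hxt2, hbig⟩ := hxy2
    obtain ⟨h, hh⟩ := hV.trans x₀ x
    have hmem : ∀ z ∈ F₀, h • z ∈ hFfin.toFinset ∧ h • z ≠ a ∧ h • z ≠ b := by
      intro z hz
      have h1 := abs_le.1 ((hC z h).trans (hρ z hz))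
      rw [hh] at h1
      refine ⟨(hFm _).2 ⟨by linarith [h1.1], by linarith [h1.2]⟩, ?_, ?_⟩
      · intro h2
        rw [h2] at h1
        linarith [h1.1]
      · intro h2
        rw [h2] at h1
        linarith [h1.2]
    refine ⟨fun z => f (h • z) - f (h • x₀), sub_self _, ?_, ?_, h⁻¹ • y, ?_, ?_⟩
    · intro z hz w hzw
      have h1 : k (h • z) (h • w) ≠ 0 := (hk _ _).2 (hV.aut h _ _ ((hk _ _).1 hzw))
      have h2 := hf1 (h • z) (hmem z hz).1 (h • w) h1
      have e1 : f (h • z) - f (h • x₀) - (f (h • w) - f (h • x₀)) = f (h • z) - f (h • w) := by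
        ring
      rw [e1]
      exact h2
    · intro z hz
      obtain ⟨h1, h2, h3⟩ := hmem z hz
      have h4 := hf2 (h • z) h1
      rw [if_neg h2, if_neg h3, sub_zero] at h4
      rw [← h4]
      refine Finset.sum_bij (fun w _ => h • w) ?_ ?_ ?_ ?_
      · intro w hw
        exact (hV.mem _ _).2 (hV.aut h _ _ ((hV.mem _ _).1 hw))
      · intro w _ w' _ hww
        exact MulAction.injective h hww
      · intro w hw
        refine ⟨h⁻¹ • w, ?_, smul_inv_smul h w⟩
        have h5 := hV.aut h⁻¹ _ _ ((hV.mem _ _).1 hw)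
        rw [inv_smul_smul] at h5
        exact (hV.mem _ _).2 h5
      · intro w hw
        have h5 := (hV.mem _ _).1 hw
        rw [hk1 _ _ h5, hk1 _ _ (hV.aut h _ _ h5)]
        ring
    · rw [hV.mem]
      have h5 := hV.aut h⁻¹ _ _ hxy
      rwa [← hh, inv_smul_smul] at h5
    · change _ ≤ |f (h • h⁻¹ • y) - f (h • x₀)|
      rw [smul_inv_smul, hh, abs_sub_comm]
      exact hbig
  obtain ⟨f, -, hf2, t, -, hft⟩ := hLIMH Y k N x₀ (N x₀) (1 / ((P : ℝ) ^ 2 + 1)) hW
    (by positivity) hmain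
  refine ⟨f, fun x => ?_, t, x₀, hft⟩
  rw [← hf2 x]
  refine Finset.sum_congr rfl fun y hy => ?_
  rw [hk1 x y ((hV.mem x y).1 hy), one_mul]

end Pool.Agent.QLN
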