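import Pool.Agent.Lib.QLN.Rows

/-!
# Row HARM: a nonconstant harmonic function with bounded gradient on a system
-/

set_option autoImplicit false

namespace Pool.Agent.QLN

open Pool.Agent.SCH

namespace Harm

variable {ι : Type} [Fintype ι] {inv : ι → ι} {n D r c B : ℕ} {τ : ι → Equiv.Perm ℤ} {Ω : Set ℤ}

theorem gS_inv (h : QSys inv n D r c B τ Ω) {g : LG τ} (hg : g ∈ gS τ) : g⁻¹ ∈ gS τ := by
  rcases mem_gS.1 hg with rfl | ⟨s, rfl⟩
  · rw [inv_one]; exact hg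
  · refine mem_gS.2 (Or.inr ⟨inv s, Subtype.ext ?_⟩)
    exact (h.inv s).symm

theorem gS_mem (h : QSys inv n D r c B τ Ω) {g : LG τ} (hg : g ∈ gS τ) {x : ℤ} (hx : x ∈ Ω) :
    (g : Equiv.Perm ℤ) x ∈ Ω := by
  rcases mem_gS.1 hg with rfl | ⟨s, rfl⟩
  · exact hx
  · exact h.toQPre.mem s hx

theorem gS_disp (h : QSys inv n D r c B τ Ω) {g : LG τ} (hg : g ∈ gS τ) (x : ℤ) :
    |(g : Equiv.Perm ℤ) x - x| ≤ (D : ℤ) := by
  rcases mem_gS.1 hg with rfl | ⟨s, rfl⟩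
  · simp
  · exact h.disp s x

theorem gS_supp (h : QSys inv n D r c B τ Ω) {g : LG τ} (hg : g ∈ gS τ) {x : ℤ} (hx : x ∉ Ω) :
    (g : Equiv.Perm ℤ) x = x := by
  rcases mem_gS.1 hg with rfl | ⟨s, rfl⟩
  · simp
  · exact h.supp s x hx

/-- the action of a generator on a point of `Ω` -/
def act (h : QSys inv n D r c B τ Ω) (x : {x : ℤ // x ∈ Ω}) (g : {g : LG τ // g ∈ gS τ}) :
    {x : ℤ // x ∈ Ω} := ⟨(g.1 : Equiv.Perm ℤ) x.1, gS_mem h g.2 x.2⟩

open Classical in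
/-- the number of generators which move `x` to `y` -/
noncomputable def kk (h : QSys inv n D r c B τ Ω) (x y : {x : ℤ // x ∈ Ω}) : ℝ :=
  ((Finset.univ.filter fun g => act h x g = y).card : ℝ)

open Classical in
/-- the neighbours of `x` -/
noncomputable def NN (h : QSys inv n D r c B τ Ω) (x : {x : ℤ // x ∈ Ω}) :
    Finset {x : ℤ // x ∈ Ω} := Finset.univ.image (act h x)

theorem kk_sum (h : QSys inv n D r c B τ Ω) (φ : {x : ℤ // x ∈ Ω} → ℝ) (x : {x : ℤ // x ∈ Ω}) :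
    ∑ y ∈ NN h x, kk h x y * φ y = ∑ g, φ (act h x g) := by
  classical
  rw [Finset.sum_comp φ (act h x)]
  refine Finset.sum_congr ?_ fun y _ => ?_
  · unfold NN
    congr
  · rw [nsmul_eq_mul]
    unfold kk
    congr

theorem kk_ne (h : QSys inv n D r c B τ Ω) {x y : {x : ℤ // x ∈ Ω}} (hk : kk h x y ≠ 0) :
    ∃ g, act h x g = y := by
  classical
  unfold kk at hk
  rw [Nat.cast_ne_zero, Finset.card_ne_zero] at hk
  obtain ⟨g, hg⟩ := hk
  exact ⟨g, (Finset.mem_filter.1 hg).2⟩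

theorem ne_kk (h : QSys inv n D r c B τ Ω) (x : {x : ℤ // x ∈ Ω}) (g : {g : LG τ // g ∈ gS τ}) :
    kk h x (act h x g) ≠ 0 := by
  classical
  unfold kk
  rw [Nat.cast_ne_zero, Finset.card_ne_zero]
  exact ⟨g, Finset.mem_filter.2 ⟨Finset.mem_univ _, rfl⟩⟩

theorem kk_nonneg (h : QSys inv n D r c B τ Ω) (x y : {x : ℤ // x ∈ Ω}) : 0 ≤ kk h x y := by
  unfold kk
  exact Nat.cast_nonneg _

theorem kk_le (h : QSys inv n D r c B τ Ω) (x y : {x : ℤ // x ∈ Ω}) :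
    kk h x y ≤ (gS τ).card := by
  classical
  unfold kk
  rw [Nat.cast_le]
  refine le_trans (Finset.card_filter_le _ _) ?_
  rw [Finset.card_univ, Fintype.card_coe]

theorem NN_card (h : QSys inv n D r c B τ Ω) (x : {x : ℤ // x ∈ Ω}) :
    (NN h x).card ≤ (gS τ).card := by
  classical
  unfold NN
  refine le_trans Finset.card_image_le ?_
  rw [Finset.card_univ, Fintype.card_coe]

theorem act_inv (h : QSys inv n D r c B τ Ω) (x : {x : ℤ // x ∈ Ω}) (g : {g : LG τ // g ∈ gS τ}) :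
    act h (act h x g) ⟨g.1⁻¹, gS_inv h g.2⟩ = x := by
  apply Subtype.ext
  show ((g.1⁻¹ : LG τ) : Equiv.Perm ℤ) ((g.1 : Equiv.Perm ℤ) x.1) = x.1
  rw [Subgroup.coe_inv]
  exact Equiv.symm_apply_apply _ _

theorem kk_le_symm (h : QSys inv n D r c B τ Ω) (x y : {x : ℤ // x ∈ Ω}) :
    kk h x y ≤ kk h y x := by
  classical
  unfold kk
  rw [Nat.cast_le]
  refine Finset.card_le_card_of_injOn (fun g => ⟨g.1⁻¹, gS_inv h g.2⟩) ?_ ?_
  · intro g hg
    have h1 : act h x g = y := (Finset.mem_filter.1 (Finset.mem_coe.1 hg)).2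
    refine Finset.mem_coe.2 (Finset.mem_filter.2 ⟨Finset.mem_univ _, ?_⟩)
    rw [← h1]
    exact act_inv h x g
  · intro g _ g' _ hgg
    have h1 : g.1⁻¹ = g'.1⁻¹ := congrArg Subtype.val hgg
    exact Subtype.ext (inv_injective h1)

theorem wg (h : QSys inv n D r c B τ Ω) : WG (kk h) (NN h) where
  symm x y := le_antisymm (kk_le_symm h x y) (kk_le_symm h y x)
  one x y hk := by
    classical
    unfold kk at hk ⊢
    rw [Nat.cast_ne_zero] at hk
    exact_mod_cast Nat.one_le_iff_ne_zero.2 hk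
  mem x y hk := by
    classical
    obtain ⟨g, hg⟩ := kk_ne h hk
    unfold NN
    exact Finset.mem_image.2 ⟨g, Finset.mem_univ _, hg⟩
  conn x y := by
    obtain ⟨w, -, hw⟩ := h.conn x.1 x.2 y.1 y.2
    have key : ∀ w : List ι, Relation.ReflTransGen (fun u v => kk h u v ≠ 0) x
        ⟨wd τ w x.1, h.toQPre.wd_mem w x.2⟩ := by
      intro w
      induction w with
      | nil =>
        have e : (⟨wd τ [] x.1, h.toQPre.wd_mem [] x.2⟩ : {x : ℤ // x ∈ Ω}) = x :=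
          Subtype.ext (by show wd τ [] x.1 = x.1; rw [wd_nil]; rfl)
        rw [e]
      | cons s w ih =>
        refine ih.tail ?_
        have e : (⟨wd τ (s :: w) x.1, h.toQPre.wd_mem (s :: w) x.2⟩ : {x : ℤ // x ∈ Ω}) =
            act h ⟨wd τ w x.1, h.toQPre.wd_mem w x.2⟩
              ⟨gen τ s, mem_gS.2 (Or.inr ⟨s, rfl⟩)⟩ := by
          apply Subtype.ext
          show wd τ (s :: w) x.1 = τ s (wd τ w x.1)
          rw [wd_cons, Equiv.Perm.mul_apply]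
        rw [e]
        exact ne_kk h _ _
    have h1 := key w
    have e : (⟨wd τ w x.1, h.toQPre.wd_mem w x.2⟩ : {x : ℤ // x ∈ Ω}) = y := Subtype.ext hw
    rwa [e] at h1

/-- the points of `Ω` in a window -/
noncomputable def win (Ω : Set ℤ) (K : ℕ) : Finset {x : ℤ // x ∈ Ω} :=
  (Finset.Icc (-(K : ℤ)) K).preimage Subtype.val Subtype.val_injective.injOn

theorem mem_win {Ω : Set ℤ} {K : ℕ} {x : {x : ℤ // x ∈ Ω}} : x ∈ win Ω K ↔ |x.1| ≤ (K : ℤ) := by
  unfold win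
  rw [Finset.mem_preimage, Finset.mem_Icc, abs_le]

omit [Fintype ι] in
theorem far (h : QSys inv n D r c B τ Ω) (F : Finset {x : ℤ // x ∈ Ω}) (K : ℕ) :
    ∃ a b : {x : ℤ // x ∈ Ω}, a.1 < -(K : ℤ) ∧ (K : ℤ) < b.1 ∧ a ∉ F ∧ b ∉ F := by
  obtain ⟨M, hM⟩ : ∃ M : ℕ, ∀ x ∈ F, |x.1| ≤ (M : ℤ) := by
    refine ⟨F.sup fun x => x.1.natAbs, fun x hx => ?_⟩
    have h1 : x.1.natAbs ≤ F.sup fun x => x.1.natAbs :=
      Finset.le_sup (f := fun x : {x : ℤ // x ∈ Ω} => x.1.natAbs) hx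
    rw [Int.abs_eq_natAbs]
    exact_mod_cast h1
  obtain ⟨a, ha, ha2⟩ := h.synd (-(M + K + D + 1 : ℤ))
  obtain ⟨b, hb, hb2⟩ := h.synd (M + K + D + 1 : ℤ)
  rw [abs_le] at ha2 hb2
  refine ⟨⟨a, ha⟩, ⟨b, hb⟩, ?_, ?_, fun hF => ?_, fun hF => ?_⟩
  · show a < _
    omega
  · show _ < b
    omega
  · have h1 := abs_le.1 (hM _ hF)
    have h2 : -(M : ℤ) ≤ a := h1.1
    omega
  · have h1 := abs_le.1 (hM _ hF)
    have h2 : b ≤ (M : ℤ) := h1.2
    omega

theorem step (hFL : RowFLOWI) (h : QSys inv n D r c B τ Ω) (x₀ : {x : ℤ // x ∈ Ω})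
    (F₀ : Finset {x : ℤ // x ∈ Ω}) : ∃ f : {x : ℤ // x ∈ Ω} → ℝ, f x₀ = 0 ∧
      (∀ x ∈ F₀, ∀ y, kk h x y ≠ 0 → |f x - f y| ≤ 1) ∧
      (∀ x ∈ F₀, ∑ y ∈ NN h x, kk h x y * (f x - f y) = 0) ∧
      ∃ t ∈ win Ω D, 1 / (((win Ω D).card * ((gS τ).card * (gS τ).card) + 1 : ℕ) : ℝ) / 2
        ≤ |f t| := by
  classical
  obtain ⟨a, b, ha, hb, haF, hbF⟩ := far h (F₀ ∪ win Ω D) D
  have hab : a ≠ b := by
    intro e
    rw [e] at ha
    have : (0 : ℤ) ≤ D := Int.natCast_nonneg D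
    linarith
  obtain ⟨f, f1, f2, f3⟩ := hFL {x : ℤ // x ∈ Ω} (kk h) (NN h) (wg h) (F₀ ∪ win Ω D) a b hab
  have hD : (0 : ℤ) ≤ D := Int.natCast_nonneg D
  have hcross : ∀ x y : {x : ℤ // x ∈ Ω}, x.1 ≤ 0 → ¬ y.1 ≤ 0 → kk h x y ≠ 0 →
      x ∈ win Ω D ∧ y ∈ win Ω D := by
    intro x y hx hy hk
    obtain ⟨g, rfl⟩ := kk_ne h hk
    have h1 : |(act h x g).1 - x.1| ≤ (D : ℤ) := gS_disp h g.2 x.1
    rw [abs_le] at h1
    rw [mem_win, mem_win, abs_le, abs_le]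
    omega
  have hflux := f3 {x | x.1 ≤ 0} (by show a.1 ≤ 0; linarith) (by show ¬ b.1 ≤ 0; linarith)
    (fun x hx y hy hk => Finset.mem_union_right _ (hcross x y hx hy hk).1)
  set E : ℝ := 1 / (((win Ω D).card * ((gS τ).card * (gS τ).card) + 1 : ℕ) : ℝ) with hE
  have hpos : (0 : ℝ) < (((win Ω D).card * ((gS τ).card * (gS τ).card) + 1 : ℕ) : ℝ) := by
    exact_mod_cast Nat.succ_pos _
  have hE0 : 0 < E := by rw [hE]; positivity
  obtain ⟨x, hx, y, hy, hxy⟩ : ∃ x ∈ win Ω D, ∃ y ∈ win Ω D, E ≤ |f x - f y| := by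
    by_contra hcon
    push Not at hcon
    have h1 : ∀ x ∈ (F₀ ∪ win Ω D).filter (· ∈ {x : {x : ℤ // x ∈ Ω} | x.1 ≤ 0}),
        ∑ y ∈ (NN h x).filter (· ∉ {x : {x : ℤ // x ∈ Ω} | x.1 ≤ 0}), kk h x y * (f x - f y) ≤
          if x ∈ win Ω D then ((gS τ).card * (gS τ).card : ℝ) * E else 0 := by
      intro x hx
      have hx0 : x.1 ≤ 0 := (Finset.mem_filter.1 hx).2
      split_ifs with hw
      · have h2 : ∀ y ∈ (NN h x).filter (· ∉ {x : {x : ℤ // x ∈ Ω} | x.1 ≤ 0}),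
            kk h x y * (f x - f y) ≤ (gS τ).card * E := by
          intro y hy
          have hy0 : ¬ y.1 ≤ 0 := (Finset.mem_filter.1 hy).2
          by_cases hk : kk h x y = 0
          · rw [hk, zero_mul]
            positivity
          · have h3 := hcon x hw y (hcross x y hx0 hy0 hk).2
            have h4 : f x - f y ≤ E := le_trans (le_abs_self _) h3.le
            calc kk h x y * (f x - f y) ≤ kk h x y * E :=
                  mul_le_mul_of_nonneg_left h4 (kk_nonneg h x y)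
              _ ≤ _ := mul_le_mul_of_nonneg_right (kk_le h x y) hE0.le
        refine le_trans (Finset.sum_le_card_nsmul _ _ _ h2) ?_
        rw [nsmul_eq_mul, mul_assoc]
        refine mul_le_mul_of_nonneg_right ?_ (by positivity)
        exact_mod_cast le_trans (Finset.card_filter_le _ _) (NN_card h x)
      · refine (Finset.sum_eq_zero fun y hy => ?_).le
        have hy0 : ¬ y.1 ≤ 0 := (Finset.mem_filter.1 hy).2
        by_cases hk : kk h x y = 0
        · rw [hk, zero_mul]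
        · exact absurd (hcross x y hx0 hy0 hk).1 hw
    have h2 := Finset.sum_le_sum h1
    rw [hflux, ← Finset.sum_filter] at h2
    have h3 : (∑ x ∈ ((F₀ ∪ win Ω D).filter
        (· ∈ {x : {x : ℤ // x ∈ Ω} | x.1 ≤ 0})).filter (· ∈ win Ω D),
        ((gS τ).card * (gS τ).card : ℝ) * E) ≤
        ((win Ω D).card : ℝ) * (((gS τ).card * (gS τ).card : ℝ) * E) := by
      rw [Finset.sum_const, nsmul_eq_mul]
      refine mul_le_mul_of_nonneg_right ?_ (by positivity)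
      exact_mod_cast Finset.card_le_card fun z hz => (Finset.mem_filter.1 hz).2
    have h4 : ((win Ω D).card : ℝ) * (((gS τ).card * (gS τ).card : ℝ) * E) < 1 := by
      have h5 : (((win Ω D).card * ((gS τ).card * (gS τ).card) + 1 : ℕ) : ℝ) * E = 1 := by
        rw [hE, mul_one_div, div_self hpos.ne']
      push_cast at h5
      nlinarith
    linarith
  refine ⟨fun z => f z - f x₀, sub_self _, fun z hz y hk => ?_, fun z hz => ?_, ?_⟩
  · have h1 := f1 z (Finset.mem_union_left _ hz) y hk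
    have e : f z - f x₀ - (f y - f x₀) = f z - f y := by ring
    rw [e]
    exact h1
  · have h1 := f2 z (Finset.mem_union_left _ hz)
    have hza : z ≠ a := fun e => haF (e ▸ Finset.mem_union_left _ hz)
    have hzb : z ≠ b := fun e => hbF (e ▸ Finset.mem_union_left _ hz)
    rw [if_neg hza, if_neg hzb, sub_self] at h1
    rw [← h1]
    refine Finset.sum_congr rfl fun y _ => ?_
    ring
  · by_contra hcon
    push Not at hcon
    have h1 := hcon x hx
    have h2 := hcon y hy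
    have h3 : |f x - f y| ≤ |f x - f x₀| + |f y - f x₀| := by
      have e : f x - f y = (f x - f x₀) - (f y - f x₀) := by ring
      rw [e]
      exact abs_sub _ _
    linarith

end Harm

open Harm in
theorem rowHARM (hFL : RowFLOWI) (hL : RowLIMH) : RowHARM := by
  classical
  intro ι _ inv n D r c B τ Ω h
  obtain ⟨x₀, hx₀, -⟩ := h.synd 0
  obtain ⟨f, f1, f2, t, -, f3⟩ := hL {x : ℤ // x ∈ Ω} (kk h) (NN h) ⟨x₀, hx₀⟩ (win Ω D)
    (1 / (((win Ω D).card * ((gS τ).card * (gS τ).card) + 1 : ℕ) : ℝ) / 2) (wg h)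
    (by positivity) (step hFL h ⟨x₀, hx₀⟩)
  have hF : ∀ x : {x : ℤ // x ∈ Ω}, (fun z : ℤ => if hz : z ∈ Ω then f ⟨z, hz⟩ else 0) x.1 = f x :=
    fun x => dif_pos x.2
  refine ⟨fun z => if hz : z ∈ Ω then f ⟨z, hz⟩ else 0, fun s y => ?_, fun y => ?_,
    t.1, t.2, x₀, hx₀, ?_⟩
  · by_cases hy : y ∈ Ω
    · have h1 := hF ⟨y, hy⟩
      have h2 := hF (act h ⟨y, hy⟩ ⟨gen τ s, mem_gS.2 (Or.inr ⟨s, rfl⟩)⟩)
      have h3 := f1 ⟨y, hy⟩ _ (ne_kk h ⟨y, hy⟩ ⟨gen τ s, mem_gS.2 (Or.inr ⟨s, rfl⟩)⟩)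
      rw [← h1, ← h2, abs_sub_comm] at h3
      exact h3
    · rw [h.supp s y hy, sub_self, abs_zero]
      exact zero_le_one
  · by_cases hy : y ∈ Ω
    · have h1 := f2 ⟨y, hy⟩
      rw [kk_sum h (fun z => f ⟨y, hy⟩ - f z)] at h1
      have key : (∑ g ∈ gS τ, ((fun z : ℤ => if hz : z ∈ Ω then f ⟨z, hz⟩ else 0)
          ((g : Equiv.Perm ℤ) y) - (fun z : ℤ => if hz : z ∈ Ω then f ⟨z, hz⟩ else 0) y)) =
          - ∑ g : {g : LG τ // g ∈ gS τ}, (f ⟨y, hy⟩ - f (act h ⟨y, hy⟩ g)) := by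
        rw [← Finset.sum_neg_distrib, ← Finset.sum_coe_sort (gS τ)]
        refine Finset.sum_congr rfl fun g _ => ?_
        have h2 := hF ⟨y, hy⟩
        have h3 := hF (act h ⟨y, hy⟩ g)
        rw [← h2, ← h3, neg_sub]
        rfl
      rw [h1, neg_zero] at key
      exact key
    · refine Finset.sum_eq_zero fun g hg => ?_
      rw [gS_supp h hg hy, sub_self]
  · have h1 := hF t
    have h2 := hF ⟨x₀, hx₀⟩
    intro h3
    apply f3
    rw [← h1, ← h2]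
    exact h3

end Pool.Agent.QLN
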