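/-
Row LIM: limits of windows (helper36).
-/
import Pool.Agent.Lib.QLN.Rows

set_option autoImplicit false

namespace Pool.Agent.QLN

open Pool.Agent.SCH

/-- two families of functions which agree in a window agree on words -/
theorem agreeW {ι : Type*} {T T' : ι → ℤ → ℤ} {D : ℕ} {R : ℤ} (hd : ∀ s i, |T s i - i| ≤ (D : ℤ))
    (hT : ∀ s i, |i| ≤ R → T s i = T' s i) (w : List ι) (i : ℤ) (hi : |i| + D * w.length ≤ R) :
    wf T w i = wf T' w i ∧ |wf T w i - i| ≤ D * w.length := by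
  induction w with
  | nil => simp [wf]
  | cons s w ih =>
    rw [List.length_cons] at hi
    push_cast at hi
    have hD : (0 : ℤ) ≤ D := by positivity
    obtain ⟨h1, h2⟩ := ih (by nlinarith)
    have h3 : |wf T w i| ≤ R := by
      have := abs_sub_abs_le_abs_sub (wf T w i) i
      nlinarith
    refine ⟨by rw [wf, wf, hT s _ h3, h1], ?_⟩
    rw [wf, List.length_cons]
    have h4 := abs_le.1 (hd s (wf T w i))
    have h5 := abs_le.1 h2
    rw [abs_le]
    push_cast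
    constructor <;> nlinarith [h4.1, h4.2, h5.1, h5.2]

open Filter in
/-- **Row LIM** -/
theorem rowLIM : RowLIM := by
  classical
  intro ι _ inv n D r c B b T Ω β hW hβ
  let U : Ultrafilter ℕ := Filter.hyperfilter ℕ
  have hUle : (U : Filter ℕ) ≤ Filter.atTop := by
    have := Filter.hyperfilter_le_cofinite (α := ℕ)
    rwa [Nat.cofinite_eq_atTop] at this
  have hge : ∀ m : ℕ, ∀ᶠ K in (U : Filter ℕ), m ≤ K := fun m =>
    hUle (Filter.eventually_ge_atTop m)
  have hge' : ∀ i : ℤ, ∀ᶠ K : ℕ in (U : Filter ℕ), |i| ≤ (K : ℤ) := fun i => by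
    filter_upwards [hge i.natAbs] with K hK
    rw [Int.abs_eq_natAbs]; exact_mod_cast hK
  -- a bounded sequence of integers has a limit
  have hval : ∀ (g : ℕ → ℤ) (a e : ℤ), (∀ᶠ K in (U : Filter ℕ), |g K - a| ≤ e) →
      ∃ v : ℤ, |v - a| ≤ e ∧ ∀ᶠ K in (U : Filter ℕ), g K = v := by
    intro g a e h
    have h1 : ∀ᶠ K in (U : Filter ℕ), ∃ v ∈ Set.Icc (a - e) (a + e), g K = v := by
      filter_upwards [h] with K hK
      obtain ⟨h2, h3⟩ := abs_le.1 hK
      exact ⟨g K, ⟨by linarith, by linarith⟩, rfl⟩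
    obtain ⟨v, hv, h2⟩ := (Ultrafilter.eventually_exists_mem_iff (Set.finite_Icc _ _)).1 h1
    exact ⟨v, abs_le.2 ⟨by linarith [hv.1], by linarith [hv.2]⟩, h2⟩
  have hd : ∀ s i, ∃ v : ℤ, |v - i| ≤ (D : ℤ) ∧ ∀ᶠ K in (U : Filter ℕ), T K s i = v := by
    intro s i
    refine hval _ i D ?_
    filter_upwards [hge' i] with K hK
    exact (hW K).disp s i hK
  have hb : ∀ i, ∃ v : ℤ, |v - 0| ≤ b * (|i| + 1) ∧ ∀ᶠ K in (U : Filter ℕ), β K i = v := by
    intro i
    refine hval _ 0 _ (Eventually.of_forall fun K => ?_)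
    rw [sub_zero]
    exact hβ K i
  choose T' hT1 hT2 using hd
  choose β' _ hβ2 using hb
  let Ω' : Set ℤ := {i | ∀ᶠ K in (U : Filter ℕ), i ∈ Ω K}
  have hΩ : ∀ i, ∀ᶠ K in (U : Filter ℕ), (i ∈ Ω' ↔ i ∈ Ω K) := by
    intro i
    by_cases hi : ∀ᶠ K in (U : Filter ℕ), i ∈ Ω K
    · filter_upwards [hi] with K hK
      exact ⟨fun _ => hK, fun _ => hi⟩
    · have h1 := Ultrafilter.eventually_not.2 hi
      filter_upwards [h1] with K hK
      exact ⟨fun h => absurd h hi, fun h => absurd h hK⟩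
  have hagree : ∀ R : ℕ, ∀ᶠ K in (U : Filter ℕ), ∀ i : ℤ, |i| ≤ (R : ℤ) →
      (∀ s, T' s i = T K s i) ∧ (i ∈ Ω' ↔ i ∈ Ω K) ∧ β' i = β K i := by
    intro R
    have hfin : (Set.Icc (-(R : ℤ)) R).Finite := Set.finite_Icc _ _
    have := (Filter.eventually_all_finite (l := (U : Filter ℕ))
      (p := fun i K => (∀ s, T' s i = T K s i) ∧ (i ∈ Ω' ↔ i ∈ Ω K) ∧ β' i = β K i) hfin).2
      (fun i _ => by
        have h1 : ∀ᶠ K in (U : Filter ℕ), ∀ s, T' s i = T K s i :=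
          Filter.eventually_all.2 fun s => by
            filter_upwards [hT2 s i] with K hK
            exact hK.symm
        filter_upwards [h1, hΩ i, hβ2 i] with K h1 h2 h3
        exact ⟨h1, h2, h3.symm⟩)
    filter_upwards [this] with K hK i hi
    exact hK i (abs_le.1 hi)
  have hgood : ∀ R m : ℕ, ∃ K, m ≤ K ∧ R ≤ K ∧ ∀ i : ℤ, |i| ≤ (R : ℤ) →
      (∀ s, T' s i = T K s i) ∧ (i ∈ Ω' ↔ i ∈ Ω K) ∧ β' i = β K i := by
    intro R m
    obtain ⟨K, h1, h2, h3⟩ := ((hagree R).and ((hge m).and (hge R))).exists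
    exact ⟨K, h2, h3, h1⟩
  -- the functions are permutations
  have hl : ∀ s i, T' (inv s) (T' s i) = i := by
    intro s i
    obtain ⟨K, _, h2, h3⟩ := hgood (i.natAbs + (T' s i).natAbs) 0
    have h4 : |i| ≤ ((i.natAbs + (T' s i).natAbs : ℕ) : ℤ) := by push_cast; simp
    have h5 : |T' s i| ≤ ((i.natAbs + (T' s i).natAbs : ℕ) : ℤ) := by push_cast; simp
    have h6 : ((i.natAbs + (T' s i).natAbs : ℕ) : ℤ) ≤ K := by exact_mod_cast h2
    rw [(h3 _ h5).1 (inv s), (h3 _ h4).1 s]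
    exact (hW K).inv_left s i (h4.trans h6)
  have hr : ∀ s i, T' s (T' (inv s) i) = i := by
    intro s i
    obtain ⟨K, _, h2, h3⟩ := hgood (i.natAbs + (T' (inv s) i).natAbs) 0
    have h4 : |i| ≤ ((i.natAbs + (T' (inv s) i).natAbs : ℕ) : ℤ) := by push_cast; simp
    have h5 : |T' (inv s) i| ≤ ((i.natAbs + (T' (inv s) i).natAbs : ℕ) : ℤ) := by
      push_cast; simp
    have h6 : ((i.natAbs + (T' (inv s) i).natAbs : ℕ) : ℤ) ≤ K := by exact_mod_cast h2
    rw [(h3 _ h5).1 s, (h3 _ h4).1 (inv s)]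
    exact (hW K).inv_right s i (h4.trans h6)
  let τ : ι → Equiv.Perm ℤ := fun s => ⟨T' s, T' (inv s), hl s, hr s⟩
  have hτ : ∀ s i, τ s i = T' s i := fun s i => rfl
  have hwd : ∀ w i, wd τ w i = wf T' w i := fun w i => wd_eq_wf τ w i
  refine ⟨τ, Ω', β', ⟨⟨fun s => ?_, hT1, fun s i hi => ?_, fun x hx y hy => ?_, fun w => ?_,
    fun x hx R => ?_⟩, fun x => ?_⟩, fun R m => ?_⟩
  · ext i
    rfl
  · obtain ⟨K, _, h2, h3⟩ := hgood i.natAbs 0
    have h4 : |i| ≤ ((i.natAbs : ℕ) : ℤ) := by simp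
    have h6 : ((i.natAbs : ℕ) : ℤ) ≤ K := by exact_mod_cast h2
    obtain ⟨h7, h8, _⟩ := h3 i h4
    rw [hτ, h7 s]
    exact (hW K).supp s i (h4.trans h6) (fun h => hi (h8.2 h))
  · obtain ⟨K, _, h2, h3⟩ := hgood (x.natAbs + y.natAbs + D * (r * ((x - y).natAbs + 1))) 0
    have h6 : ((x.natAbs + y.natAbs + D * (r * ((x - y).natAbs + 1)) : ℕ) : ℤ) ≤ K := by
      exact_mod_cast h2
    have h0 : (0 : ℤ) ≤ D * (r * (|x - y| + 1)) := by positivity
    have h7 : |x| ≤ ((x.natAbs + y.natAbs + D * (r * ((x - y).natAbs + 1)) : ℕ) : ℤ) := by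
      push_cast
      have := abs_nonneg y
      linarith
    have h8 : |y| ≤ ((x.natAbs + y.natAbs + D * (r * ((x - y).natAbs + 1)) : ℕ) : ℤ) := by
      push_cast
      have := abs_nonneg x
      linarith
    obtain ⟨w, h9, h10⟩ := (hW K).conn x ((h3 x h7).2.1.1 hx) y ((h3 y h8).2.1.1 hy)
      (h7.trans h6) (h8.trans h6)
    refine ⟨w, h9, ?_⟩
    rw [hwd, (agreeW hT1 (fun s i hi => (h3 i hi).1 s) w x ?_).1, h10]
    push_cast
    have h11 : (D : ℤ) * w.length ≤ D * (r * (|x - y| + 1)) :=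
      mul_le_mul_of_nonneg_left h9 (by positivity)
    have := abs_nonneg y
    linarith
  · ext i
    have h1 : (wd τ w ^ n) i = (wf T' w)^[n] i := by
      rw [← Equiv.Perm.iterate_eq_pow]
      have h2 : ∀ k, (wd τ w)^[k] i = (wf T' w)^[k] i := by
        intro k
        induction k with
        | zero => rfl
        | succ k ih => rw [Function.iterate_succ_apply', Function.iterate_succ_apply', ih, hwd]
      exact h2 n
    obtain ⟨K, _, h2, h3⟩ := hgood (i.natAbs + D * n * w.length) 0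
    have h6 : ((i.natAbs + D * n * w.length : ℕ) : ℤ) ≤ K := by exact_mod_cast h2
    push_cast at h6
    rw [h1, ← wf_wpow, (agreeW hT1 (fun s i hi => (h3 i hi).1 s) (wpow w n) i ?_).1, wf_wpow]
    · exact (hW K).exp w i h6
    · rw [length_wpow]
      push_cast
      have : (D : ℤ) * (n * w.length) = D * n * w.length := by ring
      linarith
  · obtain ⟨K, _, h2, h3⟩ := hgood (x.natAbs + D * R) 0
    have h6 : ((x.natAbs + D * R : ℕ) : ℤ) ≤ K := by exact_mod_cast h2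
    push_cast at h6
    have h7 : |x| ≤ ((x.natAbs + D * R : ℕ) : ℤ) := by
      push_cast
      have : (0 : ℤ) ≤ D * R := by positivity
      linarith
    refine le_trans (Set.encard_le_encard ?_) ((hW K).gr x ((h3 x h7).2.1.1 hx) R h6)
    rintro y ⟨w, h8, rfl⟩
    refine ⟨w, h8, ?_⟩
    rw [hwd, (agreeW hT1 (fun s i hi => (h3 i hi).1 s) w x ?_).1]
    push_cast
    have h9 : (D : ℤ) * w.length ≤ D * R :=
      mul_le_mul_of_nonneg_left (by exact_mod_cast h8) (by positivity)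
    linarith
  · have h1 : ∀ᶠ K in (U : Filter ℕ), ∃ y ∈ Set.Icc (x - D) (x + D), y ∈ Ω K := by
      filter_upwards [hge' x] with K hK
      obtain ⟨y, h2, h3⟩ := (hW K).synd x hK
      obtain ⟨h4, h5⟩ := abs_le.1 h3
      exact ⟨y, ⟨by linarith, by linarith⟩, h2⟩
    obtain ⟨y, hy, h2⟩ := (Ultrafilter.eventually_exists_mem_iff (Set.finite_Icc _ _)).1 h1
    exact ⟨y, h2, abs_le.2 ⟨by linarith [hy.1], by linarith [hy.2]⟩⟩
  · obtain ⟨K, h1, _, h3⟩ := hgood R m
    exact ⟨K, h1, h3⟩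

end Pool.Agent.QLN
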