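/-
QLN, row NOGAP: a system in which only the identity fixes a long interval does not exist
(helper92).
-/
import Pool.Agent.Lib.QLN.Rows
import Pool.Agent.Lib.SCH.FIN
import Pool.Agent.Lib.SCH.KLEIN2

set_option autoImplicit false

open scoped Pointwise

namespace Pool.Agent.QLN

open Pool.Agent.SCH

section
variable {ι : Type} {inv : ι → ι} {n D r c B : ℕ} {τ : ι → Equiv.Perm ℤ} {Ω : Set ℤ}

theorem exists_wdQ (h : QPre inv n D r c B τ Ω) (g : LG τ) :
    ∃ w, (g : Equiv.Perm ℤ) = wd τ w := by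
  obtain ⟨g, hg⟩ := g
  change ∃ w, g = wd τ w
  induction hg using Subgroup.closure_induction with
  | mem x hx =>
    obtain ⟨s, rfl⟩ := hx
    exact ⟨[s], (wd_singleton τ s).symm⟩
  | one => exact ⟨[], (wd_nil τ).symm⟩
  | mul x y hx hy ihx ihy =>
    obtain ⟨v, rfl⟩ := ihx
    obtain ⟨w, rfl⟩ := ihy
    exact ⟨v ++ w, (wd_append τ v w).symm⟩
  | inv x hx ih =>
    obtain ⟨w, rfl⟩ := ih
    exact ⟨winv inv w, (wd_winv h.inv w).symm⟩

theorem inv_mem_gSQ [Fintype ι] (h : QPre inv n D r c B τ Ω) {g : LG τ} (hg : g ∈ gS τ) :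
    g⁻¹ ∈ gS τ := by
  rcases mem_gS.1 hg with rfl | ⟨s, rfl⟩
  · rw [inv_one]; exact one_mem_gS
  · refine mem_gS.2 (Or.inr ⟨inv s, ?_⟩)
    refine Subtype.ext ?_
    change (τ s)⁻¹ = τ (inv s)
    exact (h.inv s).symm

theorem gS_genQ [Fintype ι] [DecidableEq (LG τ)] (h : QPre inv n D r c B τ Ω) (g : LG τ) :
    ∃ m : ℕ, g ∈ gS τ ^ m := by
  obtain ⟨w, hw⟩ := exists_wdQ h g
  have key : ∀ w : List ι, (⟨wd τ w, wd_mem τ w⟩ : LG τ) ∈ gS τ ^ w.length := by
    intro w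
    induction w with
    | nil =>
      rw [List.length_nil, pow_zero, Finset.mem_one]
      exact Subtype.ext (wd_nil τ)
    | cons s w ih =>
      rw [List.length_cons, pow_succ']
      have e : (⟨wd τ (s :: w), wd_mem τ _⟩ : LG τ) = gen τ s * ⟨wd τ w, wd_mem τ w⟩ :=
        Subtype.ext (wd_cons τ s w)
      rw [e]
      exact Finset.mul_mem_mul (mem_gS.2 (Or.inr ⟨s, rfl⟩)) ih
  refine ⟨w.length, ?_⟩
  have e : g = ⟨wd τ w, wd_mem τ w⟩ := Subtype.ext hw
  rw [e]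
  exact key w

theorem gS_dispQ [Fintype ι] (h : QPre inv n D r c B τ Ω) {g : LG τ} (hg : g ∈ gS τ) (i : ℤ) :
    |(g : Equiv.Perm ℤ) i - i| ≤ D := by
  rcases mem_gS.1 hg with rfl | ⟨s, rfl⟩
  · simp
  · exact h.disp s i

theorem disp_leQ [Fintype ι] [DecidableEq (LG τ)] (h : QPre inv n D r c B τ Ω) {m : ℕ} {g : LG τ}
    (hg : g ∈ gS τ ^ m) (i : ℤ) : |(g : Equiv.Perm ℤ) i - i| ≤ D * m := by
  induction m generalizing g with
  | zero =>
    rw [pow_zero, Finset.mem_one] at hg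
    subst hg
    simp
  | succ m ih =>
    rw [pow_succ'] at hg
    obtain ⟨s, hs, g', hg', rfl⟩ := Finset.mem_mul.1 hg
    have h1 := abs_le.1 (ih hg')
    have h2 := abs_le.1 (gS_dispQ h hs ((g' : Equiv.Perm ℤ) i))
    rw [Subgroup.coe_mul, Equiv.Perm.mul_apply, abs_le]
    push_cast
    constructor <;> nlinarith [h1.1, h1.2, h2.1, h2.2]

theorem growthQ [Fintype ι] [DecidableEq (LG τ)] (h : QPre inv n D r c B τ Ω) {W : ℕ}
    (hW : ∀ v : List ι, (∀ x : ℤ, 0 ≤ x → x < W → wd τ v x = x) → wd τ v = 1) (m : ℕ) :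
    ((gS τ ^ m).card : ℝ) ≤ (2 * D + 1) ^ W * ((m : ℝ) + 1) ^ W := by
  classical
  have h1 : (gS τ ^ m).card ≤
      (Fintype.piFinset fun _ : Fin W => Finset.Icc (-((D * m : ℕ) : ℤ)) ((D * m : ℕ) : ℤ)).card := by
    refine Finset.card_le_card_of_injOn (fun g (j : Fin W) => (g : Equiv.Perm ℤ) (j : ℤ) - j) ?_ ?_
    · intro g hg
      refine Finset.mem_coe.2 (Fintype.mem_piFinset.2 fun j => ?_)
      have := abs_le.1 (disp_leQ h (Finset.mem_coe.1 hg) (j : ℤ))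
      refine Finset.mem_Icc.2 ?_
      push_cast
      exact this
    · intro g _ g' _ hgg
      obtain ⟨v, hv⟩ := exists_wdQ h (g⁻¹ * g')
      have h2 := hW v (fun x hx0 hx1 => by
        have h3 := congrFun hgg ⟨x.toNat, by omega⟩
        simp only [Int.toNat_of_nonneg hx0, sub_left_inj] at h3
        rw [← hv, Subgroup.coe_mul, Equiv.Perm.mul_apply, ← h3]
        exact (g : Equiv.Perm ℤ).symm_apply_apply x)
      rw [← hv] at h2
      have h3 : g⁻¹ * g' = 1 := Subtype.ext h2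
      exact (inv_mul_eq_one.1 h3)
  rw [Fintype.card_piFinset_const, Int.card_Icc] at h1
  have h2 : (((D * m : ℕ) : ℤ) + 1 - (-((D * m : ℕ) : ℤ))).toNat = 2 * (D * m) + 1 := by omega
  rw [h2] at h1
  have h3 : ((gS τ ^ m).card : ℝ) ≤ ((2 * (D * m) + 1 : ℕ) : ℝ) ^ W := by exact_mod_cast h1
  refine h3.trans ?_
  rw [← mul_pow]
  refine pow_le_pow_left₀ (by positivity) ?_ W
  push_cast
  have hD : (0 : ℝ) ≤ D := by positivity
  have hm : (0 : ℝ) ≤ m := by positivity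
  nlinarith

theorem fgQ [Finite ι] : Group.FG (LG τ) :=
  (Group.fg_iff_subgroup_fg _).2 ((Subgroup.fg_iff _).2 ⟨Set.range τ, rfl, Set.finite_range τ⟩)

end

/-- Row NOGAP. -/
theorem rowNOGAP (hHARM : RowHARM) (hFV : RowFV) : RowNOGAP := by
  classical
  intro ι _ inv n D r c B W τ Ω hn h hW
  have : Fintype ι := Fintype.ofFinite ι
  obtain ⟨f, hlip, hharm, x₀, hx₀, y₀, hy₀, hne⟩ := hHARM ι inv n D r c B τ Ω h
  have hq := h.toQPre
  have hexp : ∀ g : LG τ, g ^ n = 1 := by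
    intro g
    obtain ⟨w, hw⟩ := exists_wdQ hq g
    refine Subtype.ext ?_
    rw [Subgroup.coe_pow, hw]
    exact h.exp w
  -- the functions `v y : g ↦ f (g y)`
  set v : ℤ → LG τ → ℝ := fun y g => f ((g : Equiv.Perm ℤ) y) with hv
  have hvharm : ∀ y, Harm (gS τ) (v y) := by
    intro y x
    exact hharm ((x : Equiv.Perm ℤ) y)
  have hstep : ∀ (y : ℤ) (m : ℕ) (x : LG τ), x ∈ gS τ ^ m →
      |f ((x : Equiv.Perm ℤ) y) - f y| ≤ m := by
    intro y m
    induction m with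
    | zero =>
      intro x hx
      rw [pow_zero, Finset.mem_one] at hx
      subst hx
      simp
    | succ m ih =>
      intro x hx
      rw [pow_succ'] at hx
      obtain ⟨s, hs, x', hx', rfl⟩ := Finset.mem_mul.1 hx
      have h1 := abs_le.1 (ih x' hx')
      rw [Subgroup.coe_mul, Equiv.Perm.mul_apply]
      have h2 : |f ((s : Equiv.Perm ℤ) ((x' : Equiv.Perm ℤ) y)) - f ((x' : Equiv.Perm ℤ) y)| ≤ 1 := by
        rcases mem_gS.1 hs with rfl | ⟨s, rfl⟩
        · simp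
        · exact hlip s _
      have h3 := abs_le.1 h2
      push_cast
      rw [abs_le]
      constructor <;> linarith [h1.1, h1.2, h3.1, h3.2]
  obtain ⟨D₀, hD₀⟩ := klein (gS τ) one_mem_gS (fun s hs => inv_mem_gSQ hq hs)
    (fun g => gS_genQ hq g) ((2 * D + 1) ^ W) W (fun m => growthQ hq hW m)
  have hfin : FiniteDimensional ℝ (Submodule.span ℝ (Set.range v)) := by
    refine finDim_span v D₀ fun k y hy => hD₀ k _ hy (fun j => hvharm (y j)) fun j => ?_
    refine ⟨|f (y j)| + 1, fun m x hx => ?_⟩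
    have h1 := hstep (y j) m x hx
    have h2 := abs_sub_abs_le_abs_sub (f ((x : Equiv.Perm ℤ) (y j))) (f (y j))
    have h3 := abs_nonneg (f (y j))
    have h4 : (0 : ℝ) ≤ m := by positivity
    change |f ((x : Equiv.Perm ℤ) (y j))| ≤ _
    nlinarith
  -- right translations
  let ρ : LG τ →* Equiv.Perm (LG τ) :=
    { toFun := fun g => Equiv.mulRight g⁻¹
      map_one' := by ext x; simp
      map_mul' := fun g g' => by ext x; simp [mul_assoc] }
  have hρ : ∀ g z : LG τ, ρ g z = z * g⁻¹ := fun g z => rfl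
  have hinv : ∀ g, ∀ F ∈ Submodule.span ℝ (Set.range v),
      (fun z => F (ρ g z)) ∈ Submodule.span ℝ (Set.range v) := by
    intro g F hF
    induction hF using Submodule.span_induction with
    | mem F hF =>
      obtain ⟨y, rfl⟩ := hF
      refine Submodule.subset_span ⟨((g⁻¹ : LG τ) : Equiv.Perm ℤ) y, ?_⟩
      funext z
      rw [hρ]
      change f _ = f _
      rw [Subgroup.coe_mul, Equiv.Perm.mul_apply]
    | zero => exact Submodule.zero_mem _
    | add a b _ _ ha hb => exact Submodule.add_mem _ ha hb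
    | smul c a _ ha => exact Submodule.smul_mem _ c ha
  have hrange : (Set.range fun g : LG τ => f ((g : Equiv.Perm ℤ) x₀)).Finite := by
    have h1 := hFV (LG τ) (LG τ) ρ n hn hexp fgQ _ hfin hinv (v x₀)
      (Submodule.subset_span ⟨x₀, rfl⟩)
    refine (h1.image fun F : LG τ → ℝ => F 1).subset ?_
    rintro _ ⟨g, rfl⟩
    refine ⟨_, ⟨g⁻¹, rfl⟩, ?_⟩
    change f (((ρ g⁻¹ 1 : LG τ) : Equiv.Perm ℤ) x₀) = _
    rw [hρ, inv_inv, one_mul]
  -- the maximum
  obtain ⟨_, ⟨g₀, rfl⟩, hmax⟩ := Set.exists_max_image _ id hrange ⟨_, ⟨1, rfl⟩⟩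
  have hmax' : ∀ g : LG τ, f ((g : Equiv.Perm ℤ) x₀) ≤ f ((g₀ : Equiv.Perm ℤ) x₀) :=
    fun g => hmax _ ⟨g, rfl⟩
  have hconst : ∀ w : List ι,
      f (wd τ w ((g₀ : Equiv.Perm ℤ) x₀)) = f ((g₀ : Equiv.Perm ℤ) x₀) := by
    intro w
    induction w with
    | nil => rw [wd_nil]; rfl
    | cons s w ih =>
      set x : ℤ := wd τ w ((g₀ : Equiv.Perm ℤ) x₀) with hx
      have hle : ∀ g ∈ gS τ, f ((g : Equiv.Perm ℤ) x) - f x ≤ 0 := by
        intro g _
        rw [ih, sub_nonpos]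
        exact hmax' (g * (⟨wd τ w, wd_mem τ w⟩ * g₀))
      have h1 := (Finset.sum_eq_zero_iff_of_nonpos hle).1 (hharm x) (gen τ s)
        (mem_gS.2 (Or.inr ⟨s, rfl⟩))
      rw [wd_cons, Equiv.Perm.mul_apply, ← hx]
      have h2 : f (τ s x) - f x = 0 := h1
      linarith
  have hall : ∀ y ∈ Ω, f y = f ((g₀ : Equiv.Perm ℤ) x₀) := by
    intro y hy
    obtain ⟨w₀, hw₀⟩ := exists_wdQ hq g₀
    have hmem : (g₀ : Equiv.Perm ℤ) x₀ ∈ Ω := by rw [hw₀]; exact hq.wd_mem w₀ hx₀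
    obtain ⟨w, _, hw⟩ := h.conn _ hmem y hy
    rw [← hw]
    exact hconst w
  exact hne ((hall x₀ hx₀).trans (hall y₀ hy₀).symm)

end Pool.Agent.QLN
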