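/-
QLN, row PAR: two points which move in parallel give a system of smaller growth.
-/
import Pool.Agent.Lib.QLN.Rows

set_option autoImplicit false

namespace Pool.Agent.QLN

open Pool.Agent.SCH

section

variable {ι : Type} {inv : ι → ι} {n D r c B c₁ R₁ : ℕ} {τ : ι → Equiv.Perm ℤ} {Ω : Set ℤ}
  {β : ℤ → ℤ}

/-- the points `x`, `y` move in parallel -/
def E1 (τ : ι → Equiv.Perm ℤ) (Ω : Set ℤ) (β : ℤ → ℤ) (R₁ : ℕ) (x y : ℤ) : Prop :=
  x ∈ Ω ∧ y ∈ Ω ∧ ∀ u : List ι, |β (wd τ u x) - β (wd τ u y)| ≤ (R₁ : ℤ)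

/-- joined by `k` parallel steps -/
def Ek (τ : ι → Equiv.Perm ℤ) (Ω : Set ℤ) (β : ℤ → ℤ) (R₁ : ℕ) : ℕ → ℤ → ℤ → Prop
  | 0, x, y => x = y ∧ x ∈ Ω
  | k + 1, x, y => ∃ z, Ek τ Ω β R₁ k x z ∧ E1 τ Ω β R₁ z y

/-- joined by parallel steps -/
def EE (τ : ι → Equiv.Perm ℤ) (Ω : Set ℤ) (β : ℤ → ℤ) (R₁ : ℕ) (x y : ℤ) : Prop :=
  ∃ k, Ek τ Ω β R₁ k x y

theorem E1.refl {x : ℤ} (hx : x ∈ Ω) : E1 τ Ω β R₁ x x := ⟨hx, hx, fun u => by simp⟩

theorem E1.symm {x y : ℤ} (h : E1 τ Ω β R₁ x y) : E1 τ Ω β R₁ y x :=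
  ⟨h.2.1, h.1, fun u => by rw [abs_sub_comm]; exact h.2.2 u⟩

theorem E1.map (hS : QSys inv n D r c B τ Ω) {x y : ℤ} (h : E1 τ Ω β R₁ x y) (v : List ι) :
    E1 τ Ω β R₁ (wd τ v x) (wd τ v y) :=
  ⟨hS.wd_mem v h.1, hS.wd_mem v h.2.1, fun u => by
    have := h.2.2 (u ++ v)
    rwa [wd_append, Equiv.Perm.mul_apply, Equiv.Perm.mul_apply] at this⟩

theorem Ek.mem {k : ℕ} {x y : ℤ} (h : Ek τ Ω β R₁ k x y) : x ∈ Ω ∧ y ∈ Ω := by
  induction k generalizing y with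
  | zero => obtain ⟨rfl, h2⟩ := h; exact ⟨h2, h2⟩
  | succ k ih =>
    obtain ⟨z, h1, h2⟩ := h
    exact ⟨(ih h1).1, h2.2.1⟩

theorem Ek.succ {k : ℕ} {x y : ℤ} (h : Ek τ Ω β R₁ k x y) : Ek τ Ω β R₁ (k + 1) x y :=
  ⟨y, h, E1.refl h.mem.2⟩

theorem Ek.mono {k l : ℕ} {x y : ℤ} (h : Ek τ Ω β R₁ k x y) (hkl : k ≤ l) :
    Ek τ Ω β R₁ l x y := by
  induction l, hkl using Nat.le_induction with
  | base => exact h
  | succ l _ ih => exact ih.succ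

theorem Ek.trans {k l : ℕ} {x y z : ℤ} (h : Ek τ Ω β R₁ k x y) (h' : Ek τ Ω β R₁ l y z) :
    Ek τ Ω β R₁ (k + l) x z := by
  induction l generalizing z with
  | zero => obtain ⟨rfl, _⟩ := h'; exact h
  | succ l ih =>
    obtain ⟨t, h1, h2⟩ := h'
    exact ⟨t, ih h1, h2⟩

theorem E1.toEk {x y : ℤ} (h : E1 τ Ω β R₁ x y) : Ek τ Ω β R₁ 1 x y :=
  ⟨x, ⟨rfl, h.1⟩, h⟩

theorem Ek.symm {k : ℕ} {x y : ℤ} (h : Ek τ Ω β R₁ k x y) : Ek τ Ω β R₁ k y x := by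
  induction k generalizing y with
  | zero => obtain ⟨rfl, h2⟩ := h; exact ⟨rfl, h2⟩
  | succ k ih =>
    obtain ⟨z, h1, h2⟩ := h
    have := h2.symm.toEk.trans (ih h1)
    rwa [add_comm] at this

theorem Ek.map (hS : QSys inv n D r c B τ Ω) {k : ℕ} {x y : ℤ} (h : Ek τ Ω β R₁ k x y)
    (v : List ι) : Ek τ Ω β R₁ k (wd τ v x) (wd τ v y) := by
  induction k generalizing y with
  | zero => obtain ⟨rfl, h2⟩ := h; exact ⟨rfl, hS.wd_mem v h2⟩
  | succ k ih =>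
    obtain ⟨z, h1, h2⟩ := h
    exact ⟨wd τ v z, ih h1, h2.map hS v⟩

theorem Ek.beta {k : ℕ} {x y : ℤ} (h : Ek τ Ω β R₁ k x y) : |β x - β y| ≤ (k : ℤ) * R₁ := by
  induction k generalizing y with
  | zero => obtain ⟨rfl, h2⟩ := h; simp
  | succ k ih =>
    obtain ⟨z, h1, h2⟩ := h
    have h3 := ih h1
    have h4 := h2.2.2 []
    rw [wd_nil] at h4
    change |β z - β y| ≤ _ at h4
    have h5 := abs_sub_le (β x) (β z) (β y)
    push_cast
    linarith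

theorem Ek.dist (hβ : QB D c₁ τ Ω β) {k : ℕ} {x y : ℤ} (h : Ek τ Ω β R₁ k x y) :
    |x - y| ≤ ((D * (k * R₁ + c₁) : ℕ) : ℤ) := by
  have h1 := abs_le.1 h.beta
  have hD : (0 : ℤ) ≤ D := by positivity
  push_cast
  rcases le_total x y with hxy | hxy
  · have h2 := hβ.coarse x h.mem.1 y h.mem.2 hxy
    rw [abs_of_nonpos (by linarith)]
    nlinarith [h1.1, h1.2]
  · have h2 := hβ.coarse y h.mem.2 x h.mem.1 hxy
    rw [abs_of_nonneg (by linarith)]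
    nlinarith [h1.1, h1.2]

theorem EE.symm {x y : ℤ} (h : EE τ Ω β R₁ x y) : EE τ Ω β R₁ y x := by
  obtain ⟨k, h⟩ := h; exact ⟨k, h.symm⟩

theorem EE.trans {x y z : ℤ} (h : EE τ Ω β R₁ x y) (h' : EE τ Ω β R₁ y z) :
    EE τ Ω β R₁ x z := by
  obtain ⟨k, h⟩ := h; obtain ⟨l, h'⟩ := h'; exact ⟨k + l, h.trans h'⟩

theorem EE.map (hS : QSys inv n D r c B τ Ω) {x y : ℤ} (h : EE τ Ω β R₁ x y) (v : List ι) :
    EE τ Ω β R₁ (wd τ v x) (wd τ v y) := by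
  obtain ⟨k, h⟩ := h; exact ⟨k, h.map hS v⟩

theorem QSys.wd_winv_apply (hS : QSys inv n D r c B τ Ω) (u : List ι) (x : ℤ) :
    wd τ (winv inv u) (wd τ u x) = x := by
  rw [wd_winv hS.inv]
  exact (wd τ u).symm_apply_apply x

theorem QSys.wd_winv_apply' (hS : QSys inv n D r c B τ Ω) (u : List ι) (x : ℤ) :
    wd τ u (wd τ (winv inv u) x) = x := by
  rw [wd_winv hS.inv]
  exact (wd τ u).apply_symm_apply x

theorem QSys.exists_word (hS : QSys inv n D r c B τ Ω) {x y : ℤ} (hx : x ∈ Ω) (hy : y ∈ Ω) :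
    ∃ u : List ι, wd τ u x = y := by
  obtain ⟨u, _, hu⟩ := hS.conn x hx y hy
  exact ⟨u, hu⟩

/-- the stabiliser of the class of `0` -/
def HH (hS : QSys inv n D r c B τ Ω) (h0 : (0 : ℤ) ∈ Ω) (β : ℤ → ℤ) (R₁ : ℕ) :
    Subgroup (Equiv.Perm ℤ) where
  carrier := {g | ∃ w : List ι, wd τ w = g ∧ EE τ Ω β R₁ 0 (g 0)}
  one_mem' := ⟨[], wd_nil τ, 0, rfl, h0⟩
  mul_mem' := by
    rintro _ _ ⟨v, rfl, hv⟩ ⟨w, rfl, hw⟩
    exact ⟨v ++ w, wd_append τ v w, hv.trans (hw.map hS v)⟩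
  inv_mem' := by
    rintro _ ⟨v, rfl, hv⟩
    refine ⟨winv inv v, wd_winv hS.inv v, ?_⟩
    rw [← wd_winv hS.inv v]
    have := (hv.map hS (winv inv v)).symm
    rwa [hS.wd_winv_apply] at this

/-- the class of `0` -/
abbrev YY (τ : ι → Equiv.Perm ℤ) (Ω : Set ℤ) (β : ℤ → ℤ) (R₁ : ℕ) : Type :=
  {y : ℤ // EE τ Ω β R₁ 0 y}

theorem HH_mem (hS : QSys inv n D r c B τ Ω) (h0 : (0 : ℤ) ∈ Ω) (h : HH hS h0 β R₁)
    (y : YY τ Ω β R₁) : EE τ Ω β R₁ 0 ((h : Equiv.Perm ℤ) y) := by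
  obtain ⟨g, w, rfl, hw⟩ := h
  exact hw.trans (y.2.map hS w)

/-- the action -/
@[reducible] def act (hS : QSys inv n D r c B τ Ω) (h0 : (0 : ℤ) ∈ Ω) (β : ℤ → ℤ) (R₁ : ℕ) :
    MulAction (HH hS h0 β R₁) (YY τ Ω β R₁) where
  smul h y := ⟨(h : Equiv.Perm ℤ) y, HH_mem hS h0 h y⟩
  one_smul _ := Subtype.ext rfl
  mul_smul _ _ _ := Subtype.ext rfl

end

theorem rowPAR (hQ : RowQUOT) (hV : RowVT) : RowPAR := by
  classical
  intro ι _ inv n D r c B c₁ R₁ τ Ω β e hn hS hβ h0 he he0 hpar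
  have h0e : E1 τ Ω β R₁ 0 e := ⟨h0, he, hpar⟩
  by_cases hfin : {y | EE τ Ω β R₁ 0 y}.Finite
  · -- finite classes
    obtain ⟨k₀, hk₀⟩ : ∃ k₀ : ℕ, ∀ y, EE τ Ω β R₁ 0 y → Ek τ Ω β R₁ k₀ 0 y := by
      have h1 : ∀ y ∈ hfin.toFinset, ∃ k, Ek τ Ω β R₁ k 0 y := fun y hy => by
        have := hfin.mem_toFinset.1 hy
        exact this
      choose! κ hκ using h1
      refine ⟨hfin.toFinset.sup κ, fun y hy => ?_⟩
      have hy' : y ∈ hfin.toFinset := hfin.mem_toFinset.2 hy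
      exact (hκ y hy').mono (Finset.le_sup hy')
    have hbd : ∀ x y, EE τ Ω β R₁ x y → |x - y| ≤ ((D * (k₀ * R₁ + c₁) : ℕ) : ℤ) := by
      intro x y hxy
      obtain ⟨u, hu⟩ := hS.exists_word h0 (x := 0) (y := x) (by
        obtain ⟨k, hk⟩ := hxy; exact hk.mem.1)
      have h1 := hxy.map hS (winv inv u)
      rw [← hu, hS.wd_winv_apply] at h1
      have h2 := (hk₀ _ h1).map hS u
      rw [hS.wd_winv_apply', hu] at h2
      exact h2.dist hβ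
    refine hQ ι inv n D r c B (D * (k₀ * R₁ + c₁)) τ Ω (EE τ Ω β R₁) hS
      (fun x hx => ⟨0, rfl, hx⟩) (fun x y h => h.symm) (fun x y z h h' => h.trans h')
      (fun x y h => by obtain ⟨k, hk⟩ := h; exact hk.mem.1) (fun s x y h => ?_) hbd
      fun x hx => ?_
    · have := h.map hS [s]
      rwa [wd_singleton] at this
    · obtain ⟨u, rfl⟩ := hS.exists_word h0 hx
      refine ⟨wd τ u e, fun h => he0 ((wd τ u).injective h), 1, (h0e.map hS u).toEk⟩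
  · -- infinite classes
    exfalso
    let adj : YY τ Ω β R₁ → YY τ Ω β R₁ → Prop := fun x y => E1 τ Ω β R₁ x y ∧ x ≠ y
    have hlen : ∀ x y : YY τ Ω β R₁, adj x y →
        |(x : ℤ) - y| ≤ ((D * (1 * R₁ + c₁) : ℕ) : ℤ) := fun x y hxy => hxy.1.toEk.dist hβ
    have hNfin : ∀ x : YY τ Ω β R₁, {y | adj x y}.Finite := by
      intro x
      have h1 : (Set.Icc ((x : ℤ) - (D * (1 * R₁ + c₁) : ℕ)) (x + (D * (1 * R₁ + c₁) : ℕ))).Finite :=
        Set.finite_Icc _ _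
      refine (h1.preimage (f := fun y : YY τ Ω β R₁ => (y : ℤ))
        Subtype.val_injective.injOn).subset fun y hy => ?_
      have h2 := abs_le.1 (hlen x y hy)
      constructor
      · linarith [h2.1, h2.2]
      · linarith [h2.1, h2.2]
    let _ : MulAction (HH hS h0 β R₁) (YY τ Ω β R₁) := act hS h0 β R₁
    refine hV (YY τ Ω β R₁) (HH hS h0 β R₁) adj (fun x => (hNfin x).toFinset) (fun x => (x : ℤ))
      (D * (1 * R₁ + c₁)) n hn ?_
    refine ⟨?_, ?_, ?_, ?_, ?_, ?_, ?_, Subtype.val_injective, hlen, ?_⟩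
    · exact Set.infinite_coe_iff.2 hfin
    · rintro ⟨g, w, rfl, hw⟩
      exact Subtype.ext (hS.exp w)
    · intro x y
      have hx : (x : ℤ) ∈ Ω := by obtain ⟨k, hk⟩ := x.2; exact hk.mem.2
      have hy : (y : ℤ) ∈ Ω := by obtain ⟨k, hk⟩ := y.2; exact hk.mem.2
      obtain ⟨u, hu⟩ := hS.exists_word hx hy
      refine ⟨⟨wd τ u, u, rfl, ?_⟩, Subtype.ext hu⟩
      have h1 := x.2.map hS u
      rw [hu] at h1
      exact y.2.trans h1.symm
    · rintro ⟨g, w, rfl, hw⟩ x y ⟨hxy, hne⟩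
      refine ⟨hxy.map hS w, fun h => hne ?_⟩
      have h1 := congrArg Subtype.val h
      exact Subtype.ext ((wd τ w).injective h1)
    · rintro x y ⟨hxy, hne⟩
      exact ⟨hxy.symm, hne.symm⟩
    · rintro x ⟨_, h⟩
      exact h rfl
    · have key : ∀ (k : ℕ) (y : YY τ Ω β R₁), Ek τ Ω β R₁ k 0 y →
          Relation.ReflTransGen adj ⟨0, 0, rfl, h0⟩ y := by
        intro k
        induction k with
        | zero =>
          intro y hy
          have : (⟨0, 0, rfl, h0⟩ : YY τ Ω β R₁) = y := Subtype.ext hy.1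
          rw [this]
        | succ k ih =>
          rintro y ⟨z, hz, hzy⟩
          have h1 := ih ⟨z, k, hz⟩ hz
          by_cases h2 : (⟨z, k, hz⟩ : YY τ Ω β R₁) = y
          · rw [← h2]; exact h1
          · exact h1.tail ⟨hzy, h2⟩
      have hsymm : ∀ x y : YY τ Ω β R₁, Relation.ReflTransGen adj x y →
          Relation.ReflTransGen adj y x := by
        intro x y h
        induction h with
        | refl => exact Relation.ReflTransGen.refl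
        | tail _ hbc ih => exact Relation.ReflTransGen.head ⟨hbc.1.symm, hbc.2.symm⟩ ih
      intro x y
      obtain ⟨k, hk⟩ := x.2
      obtain ⟨l, hl⟩ := y.2
      exact (hsymm _ _ (key k x hk)).trans (key l y hl)
    · intro x y
      simp

end Pool.Agent.QLN
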