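/-
The quotient of a system by an invariant equivalence relation with bounded classes.
-/
import Pool.Agent.Lib.QLN.Rows

set_option autoImplicit false

namespace Pool.Agent.QLN

open Pool.Agent.SCH

/-- balls grow at least linearly -/
theorem ball_lower {ι : Type} {inv : ι → ι} {n D r c B : ℕ} {τ : ι → Equiv.Perm ℤ} {Ω : Set ℤ}
    (h : QSys inv n D r c B τ Ω) {x : ℤ} (hx : x ∈ Ω) (R : ℕ) :
    ((R + 1 : ℕ) : ℕ∞) ≤ (ball τ x R).encard := by
  classical
  obtain ⟨y, hy, hy1⟩ := h.synd (x + D * (R + 1) + D)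
  have hyx : (D : ℤ) * (R + 1) ≤ y - x := by
    have := abs_le.1 hy1
    linarith [this.1]
  have hex : ∃ k : ℕ, ∃ w : List ι, w.length = k ∧ wd τ w x = y := by
    obtain ⟨w, -, hw⟩ := h.conn x hx y hy
    exact ⟨_, w, rfl, hw⟩
  obtain ⟨w, hwl, hw⟩ := Nat.find_spec hex
  have hmin : ∀ u : List ι, wd τ u x = y → w.length ≤ u.length := by
    intro u hu
    rw [hwl]
    exact Nat.find_min' hex ⟨u, rfl, hu⟩
  have hlen : R ≤ w.length := by
    by_contra hc
    push Not at hc
    have h1 := h.wd_disp w x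
    rw [hw] at h1
    have h2 := (abs_le.1 h1).2
    have h3 : (w.length : ℤ) + 1 ≤ R := by exact_mod_cast hc
    by_cases hD : D = 0
    · subst hD
      have h4 : ∀ u : List ι, wd τ u x = x := by
        intro u
        have := h.wd_disp u x
        simp only [Nat.cast_zero, zero_mul] at this
        have := abs_nonpos_iff.1 this
        linarith
      obtain ⟨y', hy', hy'1⟩ := h.synd (x + 1)
      simp only [Nat.cast_zero] at hy'1
      have h5 := abs_nonpos_iff.1 hy'1
      obtain ⟨u, -, hu⟩ := h.conn x hx y' hy'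
      rw [h4 u] at hu
      linarith
    · have hD' : (1 : ℤ) ≤ D := by
        have : 1 ≤ D := Nat.one_le_iff_ne_zero.2 hD
        exact_mod_cast this
      nlinarith
  set p : ℕ → ℤ := fun j => wd τ (w.drop (w.length - j)) x with hp
  have hpm : ∀ j, j ≤ R → p j ∈ ball τ x R := by
    intro j hj
    refine ⟨w.drop (w.length - j), ?_, rfl⟩
    rw [List.length_drop]
    omega
  have hinj : ∀ i j, i < j → j ≤ R → p i ≠ p j := by
    intro i j hij hj he
    have h1 : wd τ (w.take (w.length - j) ++ w.drop (w.length - i)) x = y := by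
      rw [wd_append, Equiv.Perm.mul_apply]
      have h2 : wd τ (w.drop (w.length - i)) x = wd τ (w.drop (w.length - j)) x := he
      rw [h2, ← Equiv.Perm.mul_apply, ← wd_append, List.take_append_drop, hw]
    have h3 := hmin _ h1
    rw [List.length_append, List.length_take, List.length_drop] at h3
    omega
  have hIn : Set.InjOn p (Finset.range (R + 1) : Set ℕ) := by
    intro i hi j hj he
    have hi' : i ≤ R := by simpa [Nat.lt_succ_iff] using hi
    have hj' : j ≤ R := by simpa [Nat.lt_succ_iff] using hj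
    rcases lt_trichotomy i j with hlt | heq | hgt
    · exact absurd he (hinj i j hlt hj')
    · exact heq
    · exact absurd he.symm (hinj j i hgt hi')
  have hsub : p '' (Finset.range (R + 1) : Set ℕ) ⊆ ball τ x R := by
    rintro _ ⟨j, hj, rfl⟩
    have hj' : j ≤ R := by simpa [Nat.lt_succ_iff] using hj
    exact hpm j hj'
  calc ((R + 1 : ℕ) : ℕ∞) = (Finset.range (R + 1) : Set ℕ).encard := by
        rw [Set.encard_coe_eq_coe_finsetCard, Finset.card_range]
    _ = (p '' (Finset.range (R + 1) : Set ℕ)).encard := hIn.encard_image.symm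
    _ ≤ (ball τ x R).encard := Set.encard_le_encard hsub

theorem rowQUOT : RowQUOT := by
  intro ι _ inv n D r c B P τ Ω E h hrefl hsymm htrans hmem hinv hbd hpart
  classical
  have hminE : ∀ x, ∃ m, x ∈ Ω → E x m ∧ ∀ z, E x z → m ≤ z := by
    intro x
    by_cases hx : x ∈ Ω
    · have hex : ∃ k : ℕ, E x (x - P + k) := ⟨P, by simpa using hrefl x hx⟩
      refine ⟨x - P + (Nat.find hex : ℕ), fun _ => ⟨Nat.find_spec hex, fun z hz => ?_⟩⟩
      have h1 := abs_le.1 (hbd x z hz)
      have h2 : E x (x - P + ((z - x + P).toNat : ℕ)) := by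
        rw [Int.toNat_of_nonneg (by linarith [h1.2])]
        have h0 : x - P + (z - x + P) = z := by ring
        rw [h0]
        exact hz
      have h3 := Nat.find_min' hex h2
      have h4 : ((Nat.find hex : ℕ) : ℤ) ≤ ((z - x + P).toNat : ℤ) := by exact_mod_cast h3
      rw [Int.toNat_of_nonneg (by linarith [h1.2])] at h4
      linarith
    · exact ⟨x, fun hx' => absurd hx' hx⟩
  choose m hm using hminE
  have hEm : ∀ x ∈ Ω, E x (m x) := fun x hx => (hm x hx).1
  have hmO : ∀ x ∈ Ω, m x ∈ Ω := fun x hx => hmem _ _ (hsymm _ _ (hEm x hx))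
  have hmE : ∀ x y, E x y → m x = m y := by
    intro x y hxy
    have hx := hmem _ _ hxy
    have hy := hmem _ _ (hsymm _ _ hxy)
    apply le_antisymm
    · exact (hm x hx).2 _ (htrans _ _ _ hxy (hEm y hy))
    · exact (hm y hy).2 _ (htrans _ _ _ (hsymm _ _ hxy) (hEm x hx))
  have hmm : ∀ x ∈ Ω, m (m x) = m x := fun x hx => (hmE _ _ (hEm x hx)).symm
  have hmP : ∀ x ∈ Ω, |x - m x| ≤ (P : ℤ) := fun x hx => hbd _ _ (hEm x hx)
  have hti : ∀ s i, τ (inv s) (τ s i) = i := by
    intro s i
    rw [h.inv]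
    exact Equiv.symm_apply_apply _ _
  have hit : ∀ s i, τ s (τ (inv s) i) = i := by
    intro s i
    rw [h.inv]
    exact Equiv.apply_symm_apply _ _
  set Ω' : Set ℤ := {i | i ∈ Ω ∧ m i = i} with hΩ'
  have hmΩ' : ∀ x ∈ Ω, m x ∈ Ω' := fun x hx => ⟨hmO x hx, hmm x hx⟩
  have hstep : ∀ s x, x ∈ Ω → m (τ s (m x)) = m (τ s x) := fun s x hx =>
    (hmE _ _ (hinv s _ _ (hEm x hx))).symm
  let τ' : ι → Equiv.Perm ℤ := fun s =>
    { toFun := fun i => if i ∈ Ω' then m (τ s i) else i
      invFun := fun i => if i ∈ Ω' then m (τ (inv s) i) else i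
      left_inv := by
        intro i
        by_cases hi : i ∈ Ω'
        · have h1 : m (τ s i) ∈ Ω' := hmΩ' _ (h.mem s hi.1)
          simp only [if_pos hi, if_pos h1]
          rw [hstep _ _ (h.mem s hi.1), hti, hi.2]
        · simp only [if_neg hi]
      right_inv := by
        intro i
        by_cases hi : i ∈ Ω'
        · have h1 : m (τ (inv s) i) ∈ Ω' := hmΩ' _ (h.mem (inv s) hi.1)
          simp only [if_pos hi, if_pos h1]
          rw [hstep _ _ (h.mem (inv s) hi.1), hit, hi.2]
        · simp only [if_neg hi] }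
  have hτ1 : ∀ s i, i ∈ Ω' → τ' s i = m (τ s i) := fun s i hi => if_pos hi
  have hτ0 : ∀ s i, i ∉ Ω' → τ' s i = i := fun s i hi => if_neg hi
  have hwd : ∀ (w : List ι) (x : ℤ), x ∈ Ω → wd τ' w (m x) = m (wd τ w x) := by
    intro w x hx
    induction w with
    | nil => simp [wd_nil]
    | cons s w ih =>
      rw [wd_cons, Equiv.Perm.mul_apply, ih, wd_cons, Equiv.Perm.mul_apply,
        hτ1 s _ (hmΩ' _ (h.wd_mem w hx)), hstep _ _ (h.wd_mem w hx)]
  have hwd' : ∀ (w : List ι) (x : ℤ), x ∈ Ω' → wd τ' w x = m (wd τ w x) := by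
    intro w x hx
    have := hwd w x hx.1
    rwa [hx.2] at this
  have hwd0 : ∀ (w : List ι) (x : ℤ), x ∉ Ω' → wd τ' w x = x := by
    intro w x hx
    induction w with
    | nil => simp [wd_nil]
    | cons s w ih => rw [wd_cons, Equiv.Perm.mul_apply, ih, hτ0 s x hx]
  -- two points in each class
  have hgr2 : ∀ x ∈ Ω', ∀ R : ℕ, (ball τ' x R).encard + (ball τ' x R).encard ≤
      ((c * (R + r * (P + 1)) + B : ℕ) : ℕ∞) := by
    intro x hx R
    obtain ⟨x', hne, hxx'⟩ := hpart x hx.1
    have hx'Ω := hmem _ _ (hsymm _ _ hxx')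
    obtain ⟨u, hu, hux⟩ := h.conn x hx.1 x' hx'Ω
    have hu' : u.length ≤ r * (P + 1) := by
      have h1 := hbd _ _ hxx'
      have h2 : (u.length : ℤ) ≤ r * (P + 1) := by
        refine hu.trans ?_
        have : (0 : ℤ) ≤ r := by positivity
        nlinarith
      exact_mod_cast h2
    have hw : ∀ y, ∃ w : List ι, y ∈ ball τ' x R → w.length ≤ R ∧ wd τ' w x = y := by
      intro y
      by_cases hy : y ∈ ball τ' x R
      · obtain ⟨w, h1, h2⟩ := hy
        exact ⟨w, fun _ => ⟨h1, h2⟩⟩
      · exact ⟨[], fun hy' => absurd hy' hy⟩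
    choose w hw using hw
    have hf0 : ∀ y ∈ ball τ' x R, m (wd τ (w y) x) = y := by
      intro y hy
      rw [← hwd' _ _ hx]
      exact (hw y hy).2
    have hEw : ∀ v : List ι, E (wd τ v x) (wd τ v x') := by
      intro v
      induction v with
      | nil => simpa [wd_nil] using hxx'
      | cons s v ih =>
        rw [wd_cons, Equiv.Perm.mul_apply, Equiv.Perm.mul_apply]
        exact hinv s _ _ ih
    have hf1 : ∀ y ∈ ball τ' x R, m (wd τ (w y) x') = y := by
      intro y hy
      rw [← hmE _ _ (hEw (w y))]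
      exact hf0 y hy
    have hi0 : Set.InjOn (fun y => wd τ (w y) x) (ball τ' x R) := by
      intro y hy z hz he
      have he' : wd τ (w y) x = wd τ (w z) x := he
      rw [← hf0 y hy, ← hf0 z hz, he']
    have hi1 : Set.InjOn (fun y => wd τ (w y) x') (ball τ' x R) := by
      intro y hy z hz he
      have he' : wd τ (w y) x' = wd τ (w z) x' := he
      rw [← hf1 y hy, ← hf1 z hz, he']
    have hdis : Disjoint ((fun y => wd τ (w y) x) '' ball τ' x R)
        ((fun y => wd τ (w y) x') '' ball τ' x R) := by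
      rw [Set.disjoint_left]
      rintro _ ⟨y, hy, rfl⟩ ⟨z, hz, he⟩
      have he' : wd τ (w z) x' = wd τ (w y) x := he
      have h1 : y = z := by
        rw [← hf0 y hy, ← hf1 z hz, he']
      subst h1
      exact hne ((wd τ (w y)).injective he')
    have hsub : ((fun y => wd τ (w y) x) '' ball τ' x R) ∪
        ((fun y => wd τ (w y) x') '' ball τ' x R) ⊆ ball τ x (R + r * (P + 1)) := by
      rintro _ (⟨y, hy, rfl⟩ | ⟨y, hy, rfl⟩)
      · exact ⟨w y, (hw y hy).1.trans (Nat.le_add_right _ _), rfl⟩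
      · refine ⟨w y ++ u, ?_, ?_⟩
        · rw [List.length_append]
          exact Nat.add_le_add (hw y hy).1 hu'
        · rw [wd_append, Equiv.Perm.mul_apply, hux]
    calc (ball τ' x R).encard + (ball τ' x R).encard
        = ((fun y => wd τ (w y) x) '' ball τ' x R).encard +
          ((fun y => wd τ (w y) x') '' ball τ' x R).encard := by
            rw [hi0.encard_image, hi1.encard_image]
      _ = (((fun y => wd τ (w y) x) '' ball τ' x R) ∪
          ((fun y => wd τ (w y) x') '' ball τ' x R)).encard :=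
            (Set.encard_union_eq hdis).symm
      _ ≤ (ball τ x (R + r * (P + 1))).encard := Set.encard_le_encard hsub
      _ ≤ _ := h.gr x hx.1 _
  set C : ℕ := c * (r * (P + 1)) + B with hC
  have hgrN : ∀ x ∈ Ω', ∀ R : ℕ, ∃ b : ℕ, (ball τ' x R).encard = (b : ℕ∞) ∧
      2 * b ≤ c * R + C := by
    intro x hx R
    have h1 := hgr2 x hx R
    have h2 : (ball τ' x R).encard ≠ ⊤ := by
      intro ht
      rw [ht, top_add] at h1
      exact absurd (top_le_iff.1 h1) (ENat.natCast_ne_top _)
    obtain ⟨b, hb⟩ := ENat.ne_top_iff_exists.1 h2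
    refine ⟨b, hb.symm, ?_⟩
    rw [← hb] at h1
    have h3 : b + b ≤ c * (R + r * (P + 1)) + B := by exact_mod_cast h1
    rw [hC]
    nlinarith
  have hpre : ∀ c' B' : ℕ, (∀ x ∈ Ω', ∀ R : ℕ,
      (ball τ' x R).encard ≤ ((c' * R + B' : ℕ) : ℕ∞)) →
      QSys inv n (D + P) r c' B' τ' Ω' := by
    intro c' B' hg
    refine { inv := ?_, disp := ?_, supp := ?_, conn := ?_, exp := ?_, gr := hg, synd := ?_ }
    · intro s
      ext i
      by_cases hi : i ∈ Ω'
      · rw [hτ1 _ _ hi]
        symm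
        rw [Equiv.Perm.inv_eq_iff_eq]
        rw [hτ1 _ _ (hmΩ' _ (h.mem (inv s) hi.1)), hstep _ _ (h.mem (inv s) hi.1), hit, hi.2]
      · rw [hτ0 _ _ hi]
        symm
        rw [Equiv.Perm.inv_eq_iff_eq, hτ0 _ _ hi]
    · intro s i
      by_cases hi : i ∈ Ω'
      · rw [hτ1 _ _ hi]
        have h1 := abs_le.1 (hmP _ (h.mem s hi.1))
        have h2 := abs_le.1 (h.disp s i)
        rw [abs_le]
        push_cast
        constructor <;> linarith [h1.1, h1.2, h2.1, h2.2]
      · rw [hτ0 _ _ hi, sub_self, abs_zero]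
        positivity
    · exact hτ0
    · intro x hx y hy
      obtain ⟨w, hw1, hw2⟩ := h.conn x hx.1 y hy.1
      refine ⟨w, hw1, ?_⟩
      rw [hwd' _ _ hx, hw2, hy.2]
    · intro w
      rw [← wd_wpow]
      ext i
      by_cases hi : i ∈ Ω'
      · rw [hwd' _ _ hi, wd_wpow, h.exp]
        simpa using hi.2
      · rw [hwd0 _ _ hi]
        rfl
    · intro x
      obtain ⟨y, hy, hyx⟩ := h.synd x
      refine ⟨m y, hmΩ' y hy, ?_⟩
      have h1 := abs_le.1 (hmP y hy)
      have h2 := abs_le.1 hyx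
      rw [abs_le]
      push_cast
      constructor <;> linarith [h1.1, h1.2, h2.1, h2.2]
  have hne : ∃ x, x ∈ Ω' := by
    obtain ⟨y, hy, -⟩ := h.synd 0
    exact ⟨m y, hmΩ' y hy⟩
  have hc2 : 2 ≤ c := by
    by_contra hc
    push Not at hc
    obtain ⟨x, hx⟩ := hne
    -- any growth constants are enough for the lower bound
    have hsys : QSys inv n (D + P) r c C τ' Ω' := by
      apply hpre
      intro x hx R
      obtain ⟨b, hb, hb2⟩ := hgrN x hx R
      rw [hb]
      have : b ≤ c * R + C := by omega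
      exact_mod_cast this
    obtain ⟨b, hb, hb2⟩ := hgrN x hx C
    have h1 := ball_lower hsys hx C
    rw [hb] at h1
    have h2 : C + 1 ≤ b := by exact_mod_cast h1
    have h3 : c * C ≤ 1 * C := Nat.mul_le_mul_right _ (by omega)
    omega
  refine ⟨D + P, r, (c + 1) / 2, C, τ', Ω', by omega, hpre _ _ ?_⟩
  intro x hx R
  obtain ⟨b, hb, hb2⟩ := hgrN x hx R
  rw [hb]
  have h1 : c * R ≤ 2 * ((c + 1) / 2) * R := Nat.mul_le_mul_right _ (by omega)
  have h2 : b ≤ (c + 1) / 2 * R + C := by
    have h3 : 2 * ((c + 1) / 2) * R = 2 * ((c + 1) / 2 * R) := by ring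
    omega
  exact_mod_cast h2

end Pool.Agent.QLN
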