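/-
QLN, row VT: there is no transitive graph of bounded exponent with linear growth.
-/
import Pool.Agent.Lib.QLN.Rows
import Pool.Agent.Lib.SCH.FIN

set_option autoImplicit false

namespace Pool.Agent.QLN

open Pool.Agent.SCH

/-- the harmonic functions of a graph -/
def harW {Y : Type} (N : Y → Finset Y) : Submodule ℝ (Y → ℝ) where
  carrier := {f | ∀ x, ∑ y ∈ N x, (f x - f y) = 0}
  add_mem' := by
    intro a b ha hb x
    have e : ∀ y, (a + b) x - (a + b) y = (a x - a y) + (b x - b y) := fun y => by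
      simp only [Pi.add_apply]; ring
    simp only [e, Finset.sum_add_distrib, ha x, hb x, add_zero]
  zero_mem' := by intro x; simp
  smul_mem' := by
    intro c a ha x
    have e : ∀ y, (c • a) x - (c • a) y = c * (a x - a y) := fun y => by
      simp only [Pi.smul_apply, smul_eq_mul]; ring
    simp only [e, ← Finset.mul_sum, ha x, mul_zero]

theorem harW_fin (hD : RowDIM) {Y H : Type} [Group H] [MulAction H Y] {adj : Y → Y → Prop}
    {N : Y → Finset Y} {pos : Y → ℤ} {P n : ℕ} (hG : VG Y H adj N pos P n) :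
    FiniteDimensional ℝ (harW N) := by
  have h1 := finDim_span (fun w : harW N => (w : Y → ℝ)) (2 * P) fun D y hy =>
    hD Y H adj N pos P n hG D (fun j => (y j : Y → ℝ)) hy fun j => (y j).2
  have h2 : Submodule.span ℝ (Set.range fun w : harW N => (w : Y → ℝ)) = harW N := by
    have h3 : (Set.range fun w : harW N => (w : Y → ℝ)) = (harW N : Set (Y → ℝ)) :=
      Subtype.range_coe
    rw [h3, Submodule.span_eq]
  rw [h2] at h1
  exact h1

theorem rowVT (hE : RowEXVT) (hD : RowDIM) (hF : RowFV) : RowVT := by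
  classical
  intro Y H _ _ adj N pos P n hn hG
  obtain ⟨f, hf, x₁, y₁, hxy⟩ := hE Y H adj N pos P n hG
  choose t ht using fun y => hG.trans x₁ y
  let S : Finset H := (N x₁).image t
  let K : Subgroup H := Subgroup.closure (S : Set H)
  have htrans : ∀ y, ∃ h ∈ K, h • x₁ = y := by
    intro y
    induction hG.conn x₁ y with
    | refl => exact ⟨1, K.one_mem, one_smul _ _⟩
    | tail _ hyz ih =>
      rename_i y z _
      obtain ⟨h, hh, rfl⟩ := ih
      have h1 := hG.aut h⁻¹ _ _ hyz
      rw [inv_smul_smul] at h1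
      refine ⟨h * t (h⁻¹ • z), K.mul_mem hh (Subgroup.subset_closure ?_), ?_⟩
      · exact Finset.mem_coe.2 (Finset.mem_image_of_mem t ((hG.mem _ _).2 h1))
      · rw [mul_smul, ht, smul_inv_smul]
  have hKfg : Group.FG K := (Group.fg_iff_subgroup_fg _).2 ⟨S, rfl⟩
  have hNaut : ∀ (h : H) (x y : Y), y ∈ N x ↔ h • y ∈ N (h • x) := by
    intro h x y
    rw [hG.mem, hG.mem]
    refine ⟨hG.aut h x y, fun h1 => ?_⟩
    have := hG.aut h⁻¹ _ _ h1
    rwa [inv_smul_smul, inv_smul_smul] at this
  have hinv : ∀ g : K, ∀ φ ∈ harW N, (fun z => φ (MulAction.toPermHom K Y g z)) ∈ harW N := by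
    intro g φ hφ x
    have h1 := hφ ((g : H) • x)
    rw [← h1]
    refine Finset.sum_bij (fun y _ => (g : H) • y) (fun y hy => (hNaut g x y).1 hy)
      (fun a _ b _ hab => smul_left_cancel _ hab) (fun b hb => ?_) fun y _ => rfl
    refine ⟨(g : H)⁻¹ • b, ?_, smul_inv_smul _ _⟩
    rw [hNaut g, smul_inv_smul]
    exact hb
  have hfin := hF K Y (MulAction.toPermHom K Y) n hn (fun g => Subtype.ext (hG.exp g)) hKfg
    (harW N) (harW_fin hD hG) hinv f hf
  have hrf : (Set.range f).Finite := by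
    refine (hfin.image fun φ : Y → ℝ => φ x₁).subset ?_
    rintro _ ⟨y, rfl⟩
    obtain ⟨h, hh, rfl⟩ := htrans y
    exact ⟨_, ⟨⟨h, hh⟩, rfl⟩, rfl⟩
  obtain ⟨M, ⟨x, hx⟩, hM⟩ := Set.exists_max_image (Set.range f) id hrf ⟨_, x₁, rfl⟩
  have hmax : ∀ y, f y ≤ M := fun y => hM _ ⟨y, rfl⟩
  have hall : ∀ y, f y = M := by
    intro y
    induction hG.conn x y with
    | refl => exact hx
    | tail _ hyz ih =>
      rename_i y z _
      have h1 := hf y
      rw [Finset.sum_eq_zero_iff_of_nonneg (fun z _ => by rw [ih]; linarith [hmax z])] at h1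
      have h2 := h1 z ((hG.mem _ _).2 hyz)
      linarith
  exact hxy ((hall x₁).trans (hall y₁).symm)

end Pool.Agent.QLN
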