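/-
Groups of bounded exponent have no long quasi-linear balls in their Schreier graphs.
-/
import Pool.Agent.Lib.QLN.Final
import Pool.Agent.Lib.QLN.LIM
import Pool.Agent.Lib.QLN.DEPTH
import Pool.Agent.Lib.QLN.CLUSTER
import Pool.Agent.Lib.QLN.QUOT
import Pool.Agent.Lib.QLN.PAR
import Pool.Agent.Lib.QLN.FLOW
import Pool.Agent.Lib.QLN.FLOWI
import Pool.Agent.Lib.QLN.LIMH
import Pool.Agent.Lib.QLN.HARM
import Pool.Agent.Lib.QLN.EXVT
import Pool.Agent.Lib.QLN.DIM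
import Pool.Agent.Lib.QLN.LIN
import Pool.Agent.Lib.QLN.FV
import Pool.Agent.Lib.QLN.VT
import Pool.Agent.Lib.QLN.NOGAP
import Pool.Agent.Lib.QLN.EMBED

set_option autoImplicit false

namespace Pool.Agent.QLN

theorem allDEPTH : RowDEPTH := rowDEPTH rowLIM

theorem allCLUSTER : RowCLUSTER := rowCLUSTER rowLIM

theorem allFLOWI : RowFLOWI := rowFLOWI rowFLOW

theorem allFV : RowFV := rowFV rowLIN

theorem allVT : RowVT := rowVT (rowEXVT allFLOWI rowLIMH) rowDIM allFV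

theorem allPAR : RowPAR := rowPAR rowQUOT allVT

theorem allNOGAP : RowNOGAP := rowNOGAP (rowHARM allFLOWI rowLIMH) allFV

theorem no_sys {ι : Type} [Finite ι] (inv : ι → ι) {n : ℕ} (hn : 0 < n) :
    ¬ ∃ (D r c B : ℕ) (τ : ι → Equiv.Perm ℤ) (Ω : Set ℤ), QSys inv n D r c B τ Ω :=
  no_qsys allDEPTH allCLUSTER allPAR allNOGAP inv hn

theorem no_long_balls.{u, v} {G : Type u} {X : Type v} [Group G] [MulAction G X] (S : Set G)
    (hS : S.Finite) (hgen : Subgroup.closure S = ⊤) (K : ℕ) (n : ℕ) (hn : 0 < n)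
    (hexp : ∀ g : G, g ^ n = 1) :
    ∃ R : ℕ, ∀ x : X, (∃ φ : X → ℤ, ∀ z t : X, Within S R x z → Within S R x t →
        (Within S 1 z t → |φ z - φ t| ≤ (K : ℤ)) ∧
          Within S (K * ((φ z - φ t).natAbs + 1)) z t) →
      ∀ z ∈ MulAction.orbit G x, Within S R x z :=
  final (rowEMBED rowLIM) allDEPTH allCLUSTER allPAR allNOGAP S hS hgen K n hn hexp

end Pool.Agent.QLN
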