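/-
Row BAND: long balls with a Lipschitz bounded-to-one map to the integers give a system (helper98).
-/
import Pool.Agent.Lib.QLN.LIM
import Pool.Agent.Lib.QLN.EMBED

set_option autoImplicit false

namespace Pool.Agent.QLN

open Pool.Agent.SCH

namespace BND

variable {ι : Type}

/-- a system of functions -/
structure FS (inv : ι → ι) (n D : ℕ) (T : ι → ℤ → ℤ) : Prop where
  l : ∀ s i, T (inv s) (T s i) = i
  r : ∀ s i, T s (T (inv s) i) = i
  disp : ∀ s i, |T s i - i| ≤ (D : ℤ)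
  exp : ∀ (w : List ι) (i : ℤ), (wf T w)^[n] i = i

variable {inv : ι → ι} {n D : ℕ} {T : ι → ℤ → ℤ}

theorem disp_wf (hd : ∀ s i, |T s i - i| ≤ (D : ℤ)) (w : List ι) (i : ℤ) :
    |wf T w i - i| ≤ D * w.length :=
  (agreeW (T' := T) hd (fun _ _ _ => rfl) w i le_rfl).2

/-- the shifted system -/
def sh (T : ι → ℤ → ℤ) (p : ℤ) : ι → ℤ → ℤ := fun s i => T s (p + i) - p

theorem wf_sh (T : ι → ℤ → ℤ) (p : ℤ) (w : List ι) (i : ℤ) :
    wf (sh T p) w i = wf T w (p + i) - p := by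
  induction w with
  | nil => simp [wf]
  | cons s w ih =>
    rw [wf, ih, wf]
    change T s (p + (wf T w (p + i) - p)) - p = _
    rw [add_sub_cancel]

theorem FS.shift (h : FS inv n D T) (p : ℤ) : FS inv n D (sh T p) where
  l s i := by simp [sh, h.l]
  r s i := by simp [sh, h.r]
  disp s i := by
    have h1 := h.disp s (p + i)
    rwa [show sh T p s i - i = T s (p + i) - (p + i) by simp only [sh]; ring]
  exp w i := by
    have h1 := h.exp w (p + i)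
    have h2 : ∀ k, (wf (sh T p) w)^[k] i = (wf T w)^[k] (p + i) - p := by
      intro k
      induction k with
      | zero => simp
      | succ k ih =>
        rw [Function.iterate_succ_apply', ih, wf_sh, Function.iterate_succ_apply', add_sub_cancel]
    rw [h2, h1]; ring

theorem FS.back (h : FS inv n D T) (w : List ι) (i : ℤ) : wf T (winv inv w) (wf T w i) = i := by
  induction w with
  | nil => rfl
  | cons s w ih =>
    have e : winv inv (s :: w) = winv inv w ++ [inv s] := by simp [winv]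
    rw [e, wf_append]
    change wf T (winv inv w) (T (inv s) (T s (wf T w i))) = i
    rw [h.l, ih]

/-- the functions agree with members of the sequence far out -/
def App {J : Type} (T' : ι → ℤ → ℤ) (A' : J → Set ℤ) (T : ℕ → ι → ℤ → ℤ) (A : ℕ → J → Set ℤ) :
    Prop :=
  ∀ R m : ℕ, ∃ K, m ≤ K ∧ ∀ i : ℤ, |i| ≤ (R : ℤ) →
    (∀ s, T' s i = T K s i) ∧ ∀ a, (i ∈ A' a ↔ i ∈ A K a)

open Filter in
theorem limit [Finite ι] {J : Type} [Finite J] (T : ℕ → ι → ℤ → ℤ)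
    (hT : ∀ K s i, |T K s i - i| ≤ (D : ℤ)) (A : ℕ → J → Set ℤ) :
    ∃ (T' : ι → ℤ → ℤ) (A' : J → Set ℤ), (∀ s i, |T' s i - i| ≤ (D : ℤ)) ∧ App T' A' T A := by
  classical
  let U : Ultrafilter ℕ := Filter.hyperfilter ℕ
  have hUle : (U : Filter ℕ) ≤ Filter.atTop := by
    have := Filter.hyperfilter_le_cofinite (α := ℕ)
    rwa [Nat.cofinite_eq_atTop] at this
  have hge : ∀ m : ℕ, ∀ᶠ K in (U : Filter ℕ), m ≤ K := fun m =>
    hUle (Filter.eventually_ge_atTop m)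
  have hval : ∀ s i, ∃ v : ℤ, |v - i| ≤ (D : ℤ) ∧ ∀ᶠ K in (U : Filter ℕ), T K s i = v := by
    intro s i
    have h1 : ∀ᶠ K in (U : Filter ℕ), ∃ v ∈ Set.Icc (i - D) (i + D), T K s i = v := by
      refine Filter.Eventually.of_forall fun K => ?_
      obtain ⟨h2, h3⟩ := abs_le.1 (hT K s i)
      exact ⟨T K s i, ⟨by linarith, by linarith⟩, rfl⟩
    obtain ⟨v, hv, h2⟩ := (Ultrafilter.eventually_exists_mem_iff (Set.finite_Icc _ _)).1 h1
    exact ⟨v, abs_le.2 ⟨by linarith [hv.1], by linarith [hv.2]⟩, h2⟩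
  choose T' hT1 hT2 using hval
  let A' : J → Set ℤ := fun a => {i | ∀ᶠ K in (U : Filter ℕ), i ∈ A K a}
  have hA : ∀ i a, ∀ᶠ K in (U : Filter ℕ), (i ∈ A' a ↔ i ∈ A K a) := by
    intro i a
    by_cases hi : ∀ᶠ K in (U : Filter ℕ), i ∈ A K a
    · filter_upwards [hi] with K hK
      exact ⟨fun _ => hK, fun _ => hi⟩
    · have h1 := Ultrafilter.eventually_not.2 hi
      filter_upwards [h1] with K hK
      exact ⟨fun h => absurd h hi, fun h => absurd h hK⟩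
  refine ⟨T', A', hT1, fun R m => ?_⟩
  have hfin : (Set.Icc (-(R : ℤ)) R).Finite := Set.finite_Icc _ _
  have h1 := (Filter.eventually_all_finite (l := (U : Filter ℕ))
    (p := fun i K => (∀ s, T' s i = T K s i) ∧ ∀ a, (i ∈ A' a ↔ i ∈ A K a)) hfin).2
    (fun i _ => by
      have h1 : ∀ᶠ K in (U : Filter ℕ), ∀ s, T' s i = T K s i :=
        Filter.eventually_all.2 fun s => by
          filter_upwards [hT2 s i] with K hK
          exact hK.symm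
      have h2 : ∀ᶠ K in (U : Filter ℕ), ∀ a, (i ∈ A' a ↔ i ∈ A K a) :=
        Filter.eventually_all.2 fun a => hA i a
      filter_upwards [h1, h2] with K h1 h2
      exact ⟨h1, h2⟩)
  obtain ⟨K, h2, h3⟩ := (h1.and (hge m)).exists
  exact ⟨K, h3, fun i hi => h2 i (abs_le.1 hi)⟩

/-- every ball around the point leaves the interval around it -/
def Far (T : ι → ℤ → ℤ) (x : ℤ) : Prop :=
  ∀ M : ℕ, ∃ w : List ι, w.length ≤ 2 * M + 1 ∧ (M : ℤ) < |wf T w x - x|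

/-- every interval of length `D` meets the set -/
def Dn (D : ℕ) (A : Set ℤ) : Prop := ∀ x : ℤ, ∃ y ∈ A, x ≤ y ∧ y < x + D

/-- density bound -/
def Cn (D j C : ℕ) (A : Set ℤ) : Prop :=
  ∀ (x : ℤ) (m : ℕ), D * (A ∩ Set.Ico x (x + m)).ncard ≤ j * m + C

section lim

variable {J : Type} {T' : ι → ℤ → ℤ} {A' : J → Set ℤ} {TT : ℕ → ι → ℤ → ℤ} {AA : ℕ → J → Set ℤ}

theorem le_a (a b : ℤ) : |a| ≤ ((a.natAbs + b.natAbs : ℕ) : ℤ) := by push_cast; simp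

theorem le_b (a b : ℤ) : |b| ≤ ((a.natAbs + b.natAbs : ℕ) : ℤ) := by push_cast; simp

theorem App.fs (happ : App T' A' TT AA) (hd : ∀ s i, |T' s i - i| ≤ (D : ℤ))
    (h : ∀ K, FS inv n D (TT K)) : FS inv n D T' where
  l s i := by
    obtain ⟨K, _, hK⟩ := happ (i.natAbs + (T' s i).natAbs) 0
    rw [(hK _ (le_b _ _)).1 (inv s), (hK _ (le_a _ _)).1 s]
    exact (h K).l s i
  r s i := by
    obtain ⟨K, _, hK⟩ := happ (i.natAbs + (T' (inv s) i).natAbs) 0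
    rw [(hK _ (le_b _ _)).1 s, (hK _ (le_a _ _)).1 (inv s)]
    exact (h K).r s i
  disp := hd
  exp w i := by
    obtain ⟨K, _, hK⟩ := happ (i.natAbs + D * n * w.length) 0
    rw [← wf_wpow, (agreeW hd (fun s i hi => (hK i hi).1 s) (wpow w n) i ?_).1, wf_wpow]
    · exact (h K).exp w i
    · rw [length_wpow]
      push_cast
      have : (D : ℤ) * (n * w.length) = D * n * w.length := by ring
      linarith

theorem App.inva (happ : App T' A' TT AA) (a : J) (h : ∀ K s i, i ∈ AA K a → TT K s i ∈ AA K a)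
    (s : ι) (i : ℤ) (hi : i ∈ A' a) : T' s i ∈ A' a := by
  obtain ⟨K, _, hK⟩ := happ (i.natAbs + (T' s i).natAbs) 0
  rw [(hK _ (le_b _ _)).2 a, (hK _ (le_a _ _)).1 s]
  exact h K s i (((hK _ (le_a _ _)).2 a).1 hi)

theorem App.far (happ : App T' A' TT AA) (hd : ∀ s i, |T' s i - i| ≤ (D : ℤ)) (a : J)
    (h : ∀ K, ∀ x ∈ AA K a, Far (TT K) x) (x : ℤ) (hx : x ∈ A' a) : Far T' x := by
  intro M
  obtain ⟨K, _, hK⟩ := happ (x.natAbs + D * (2 * M + 1)) 0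
  have h0 : |x| ≤ ((x.natAbs + D * (2 * M + 1) : ℕ) : ℤ) := by
    push_cast
    have : (0 : ℤ) ≤ D * (2 * M + 1) := by positivity
    linarith
  obtain ⟨w, hw, hw2⟩ := h K x (((hK x h0).2 a).1 hx) M
  refine ⟨w, hw, ?_⟩
  rwa [(agreeW hd (fun s i hi => (hK i hi).1 s) w x ?_).1]
  push_cast
  have h1 : (w.length : ℤ) ≤ 2 * M + 1 := by exact_mod_cast hw
  have h2 : (D : ℤ) * w.length ≤ D * (2 * M + 1) := mul_le_mul_of_nonneg_left h1 (by positivity)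
  linarith

theorem App.dn (happ : App T' A' TT AA) (a : J)
    (h : ∀ K : ℕ, ∀ x : ℤ, |x| ≤ K → ∃ y ∈ AA K a, x ≤ y ∧ y < x + D) : Dn D (A' a) := by
  intro x
  obtain ⟨K, hmK, hK⟩ := happ (x.natAbs + D) x.natAbs
  obtain ⟨y, hy, h1, h2⟩ := h K x (by rw [Int.abs_eq_natAbs]; exact_mod_cast hmK)
  refine ⟨y, ((hK y ?_).2 a).2 hy, h1, h2⟩
  push_cast
  have h3 := abs_le.1 (le_refl |x|)
  rw [abs_le]
  constructor <;> linarith [h3.1, h3.2, Int.natCast_nonneg D]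

theorem App.cn (happ : App T' A' TT AA) (a : J) {j C : ℕ} (h : ∀ K, Cn D j C (AA K a)) :
    Cn D j C (A' a) := by
  intro x m
  obtain ⟨K, _, hK⟩ := happ (x.natAbs + m) 0
  have e : A' a ∩ Set.Ico x (x + m) = AA K a ∩ Set.Ico x (x + m) := by
    ext y
    have h1 : y ∈ Set.Ico x (x + m) → (y ∈ A' a ↔ y ∈ AA K a) := by
      intro hy
      refine (hK y ?_).2 a
      push_cast
      have h3 := abs_le.1 (le_refl |x|)
      rw [abs_le]
      constructor <;> linarith [h3.1, h3.2, hy.1, hy.2, Int.natCast_nonneg m]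
    constructor
    · rintro ⟨h2, h3⟩; exact ⟨(h1 h3).1 h2, h3⟩
    · rintro ⟨h2, h3⟩; exact ⟨(h1 h3).2 h2, h3⟩
  rw [e]
  exact h K x m

end lim

/-- a step which starts in the window -/
def stp (T : ι → ℤ → ℤ) (M : ℕ) (u v : ℤ) : Prop := -(M : ℤ) < u ∧ u < M ∧ ∃ s, T s u = v

theorem stp_word {M : ℕ} {u v : ℤ} (h : Relation.ReflTransGen (stp T M) u v) :
    ∃ w : List ι, wf T w u = v := by
  induction h with
  | refl => exact ⟨[], rfl⟩
  | tail _ h2 ih =>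
    obtain ⟨w, hw⟩ := ih
    obtain ⟨_, _, s, hs⟩ := h2
    exact ⟨s :: w, by rw [wf, hw, hs]⟩

/-- joined to the lower end inside the window -/
def Dow (T : ι → ℤ → ℤ) (M : ℕ) (z : ℤ) : Prop :=
  ∃ y : ℤ, y ≤ -(M : ℤ) ∧ Relation.ReflTransGen (stp T M) z y

/-- joined to the upper end inside the window -/
def Upp (T : ι → ℤ → ℤ) (M : ℕ) (z : ℤ) : Prop :=
  ∃ y : ℤ, (M : ℤ) ≤ y ∧ Relation.ReflTransGen (stp T M) z y

theorem cross (h : FS inv n D T) {Ω : Set ℤ} (hΩ : ∀ s i, i ∈ Ω → T s i ∈ Ω) (hD : 1 ≤ D)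
    {M : ℕ} (hM : D ≤ M) {x : ℤ} (hx : x ∈ Ω) (hxM : x ≤ -(M : ℤ)) (w : List ι)
    (hw : (M : ℤ) ≤ wf T w x) : ∃ q ∈ Ω, 0 ≤ q ∧ q < D ∧ Dow T M q ∧ Upp T M q := by
  by_contra hcon
  have hDM : (D : ℤ) ≤ M := by exact_mod_cast hM
  have hD1 : (1 : ℤ) ≤ D := by exact_mod_cast hD
  have key : ∀ w : List ι, wf T w x ∈ Ω ∧ (wf T w x ≤ -(M : ℤ) ∨
      (-(M : ℤ) < wf T w x ∧ wf T w x < M ∧ Dow T M (wf T w x) ∧
      (0 ≤ wf T w x → ∃ q ∈ Ω, 0 ≤ q ∧ q < D ∧ Dow T M q ∧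
        Relation.ReflTransGen (stp T M) q (wf T w x)))) := by
    intro w
    induction w with
    | nil => exact ⟨hx, Or.inl hxM⟩
    | cons s w ih =>
      obtain ⟨h1, h2⟩ := ih
      rw [wf]
      generalize wf T w x = z at h1 h2
      have h3 := abs_le.1 (h.disp s z)
      have h4 := hΩ s z h1
      have h5 : T (inv s) (T s z) = z := h.l s z
      obtain ⟨z', hz'⟩ : ∃ z', T s z = z' := ⟨_, rfl⟩
      rw [hz'] at h3 h4 h5 ⊢
      refine ⟨h4, ?_⟩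
      by_cases hz1 : z' ≤ -(M : ℤ)
      · exact Or.inl hz1
      right
      push Not at hz1
      rcases h2 with h2 | ⟨h2, h7, h8, h9⟩
      · have h10 : z' < M := by linarith
        have h11 : Dow T M z' := ⟨z, h2, Relation.ReflTransGen.single ⟨hz1, h10, inv s, h5⟩⟩
        exact ⟨hz1, h10, h11, fun h12 => ⟨z', h4, h12, by linarith, h11,
          Relation.ReflTransGen.refl⟩⟩
      · by_cases h10 : z' < M
        · have h11 : Dow T M z' := by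
            obtain ⟨y, hy1, hy2⟩ := h8
            exact ⟨y, hy1, Relation.ReflTransGen.head ⟨hz1, h10, inv s, h5⟩ hy2⟩
          refine ⟨hz1, h10, h11, fun h12 => ?_⟩
          by_cases h13 : 0 ≤ z
          · obtain ⟨q, hq1, hq2, hq3, hq4, hq5⟩ := h9 h13
            exact ⟨q, hq1, hq2, hq3, hq4, hq5.tail ⟨h2, h7, s, hz'⟩⟩
          · exact ⟨z', h4, h12, by linarith, h11, Relation.ReflTransGen.refl⟩
        · exfalso
          push Not at h10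
          obtain ⟨q, hq1, hq2, hq3, hq4, hq5⟩ := h9 (by linarith)
          exact hcon ⟨q, hq1, hq2, hq3, hq4, z', h10, hq5.tail ⟨h2, h7, s, hz'⟩⟩
  rcases (key w).2 with h1 | ⟨_, h1, _⟩
  · linarith
  · linarith

theorem cross_lim {J : Type} {T' : ι → ℤ → ℤ} {A' : J → Set ℤ} {TT : ℕ → ι → ℤ → ℤ}
    {AA : ℕ → J → Set ℤ} (happ : App T' A' TT AA) (h : ∀ K, FS inv n D (TT K)) (a : J)
    (hinva : ∀ K s i, i ∈ AA K a → TT K s i ∈ AA K a) (hD : 1 ≤ D)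
    (hc : ∀ M : ℕ, ∃ K₀, ∀ K, K₀ ≤ K → ∃ x ∈ AA K a, x ≤ -(M : ℤ) ∧
      ∃ w, (M : ℤ) ≤ wf (TT K) w x) :
    ∃ q ∈ A' a, ∀ M : ℕ, (∃ w, wf T' w q ≤ -(M : ℤ)) ∧ ∃ w, (M : ℤ) ≤ wf T' w q := by
  have h1 : ∀ M : ℕ, ∃ q : Fin D, ((q : ℕ) : ℤ) ∈ A' a ∧ (∃ w, wf T' w (q : ℕ) ≤ -(M : ℤ)) ∧
      ∃ w, (M : ℤ) ≤ wf T' w (q : ℕ) := by
    intro M
    obtain ⟨K₀, hK₀⟩ := hc (M + D)
    obtain ⟨K, hK, hK2⟩ := happ (M + D) K₀
    obtain ⟨x, hx, hxM, w, hw⟩ := hK₀ K hK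
    obtain ⟨q, hq, hq0, hqD, ⟨y, hy, hqy⟩, ⟨y', hy', hqy'⟩⟩ :=
      cross (h K) (hinva K) hD (Nat.le_add_left D M) hx hxM w hw
    have hst : ∀ u v, stp (TT K) (M + D) u v → stp T' (M + D) u v := by
      rintro u v ⟨hu1, hu2, s, hs⟩
      exact ⟨hu1, hu2, s, by rw [(hK2 u (abs_le.2 ⟨hu1.le, hu2.le⟩)).1 s, hs]⟩
    obtain ⟨w₁, hw₁⟩ := stp_word (Relation.ReflTransGen.mono hst _ _ hqy)
    obtain ⟨w₂, hw₂⟩ := stp_word (Relation.ReflTransGen.mono hst _ _ hqy')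
    have e : ((q.toNat : ℕ) : ℤ) = q := Int.toNat_of_nonneg hq0
    push_cast at hy hy'
    refine ⟨⟨q.toNat, by omega⟩, ?_, ⟨w₁, ?_⟩, ⟨w₂, ?_⟩⟩
    · change ((q.toNat : ℕ) : ℤ) ∈ A' a
      rw [e]
      refine ((hK2 q (abs_le.2 ⟨?_, ?_⟩)).2 a).2 hq
      · push_cast; linarith [Int.natCast_nonneg M, Int.natCast_nonneg D]
      · push_cast; linarith [Int.natCast_nonneg M, Int.natCast_nonneg D]
    · change wf T' w₁ ((q.toNat : ℕ) : ℤ) ≤ _
      rw [e, hw₁]; linarith [Int.natCast_nonneg D]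
    · change _ ≤ wf T' w₂ ((q.toNat : ℕ) : ℤ)
      rw [e, hw₂]; linarith [Int.natCast_nonneg D]
  choose f hf using h1
  obtain ⟨q, hq⟩ := Finite.exists_infinite_fiber f
  have hq2 : (f ⁻¹' {q}).Infinite := Set.infinite_coe_iff.1 hq
  refine ⟨((q : ℕ) : ℤ), ?_, fun M => ?_⟩
  · obtain ⟨M, hM, _⟩ := hq2.exists_gt 0
    have hM' : f M = q := hM
    have := (hf M).1
    rwa [hM'] at this
  · obtain ⟨M', hM, hMM⟩ := hq2.exists_gt M
    have hM' : f M' = q := hM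
    obtain ⟨_, ⟨w₁, h2⟩, ⟨w₂, h3⟩⟩ := hf M'
    rw [hM'] at h2 h3
    have h4 : (M : ℤ) < M' := by exact_mod_cast hMM
    exact ⟨⟨w₁, by linarith⟩, ⟨w₂, by linarith⟩⟩

/-- the orbit -/
def orb (T : ι → ℤ → ℤ) (x : ℤ) : Set ℤ := {y | ∃ w, wf T w x = y}

theorem orb_self (x : ℤ) : x ∈ orb T x := ⟨[], rfl⟩

theorem orb_inva (x : ℤ) (s : ι) (i : ℤ) (hi : i ∈ orb T x) : T s i ∈ orb T x := by
  obtain ⟨w, rfl⟩ := hi
  exact ⟨s :: w, rfl⟩

theorem orb_wf {x : ℤ} (w : List ι) {i : ℤ} (hi : i ∈ orb T x) : wf T w i ∈ orb T x := by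
  obtain ⟨v, rfl⟩ := hi
  exact ⟨w ++ v, wf_append T w v x⟩

theorem FS.orb_symm (h : FS inv n D T) {x y : ℤ} (hy : y ∈ orb T x) : x ∈ orb T y := by
  obtain ⟨w, rfl⟩ := hy
  exact ⟨_, h.back w x⟩

theorem orb_trans {x y z : ℤ} (hy : y ∈ orb T x) (hz : z ∈ orb T y) : z ∈ orb T x := by
  obtain ⟨w, rfl⟩ := hz
  exact orb_wf w hy

theorem FS.orb_word (h : FS inv n D T) {x y z : ℤ} (hy : y ∈ orb T x) (hz : z ∈ orb T x) :
    ∃ w, wf T w y = z := orb_trans (h.orb_symm hy) hz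

theorem inva_wf {Ω : Set ℤ} (hΩ : ∀ s i, i ∈ Ω → T s i ∈ Ω) (w : List ι) {i : ℤ} (hi : i ∈ Ω) :
    wf T w i ∈ Ω := by
  induction w with
  | nil => exact hi
  | cons s w ih => exact hΩ s _ ih

theorem orb_sub {Ω : Set ℤ} (hΩ : ∀ s i, i ∈ Ω → T s i ∈ Ω) {x : ℤ} (hx : x ∈ Ω) :
    orb T x ⊆ Ω := by
  rintro _ ⟨w, rfl⟩
  exact inva_wf hΩ w hx

/-- a path meets the intervals of length `D` between its ends -/
theorem FS.meet (h : FS inv n D T) {x u : ℤ} (hu : u < x + D) (w : List ι) (hw : x ≤ wf T w u) :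
    ∃ y ∈ orb T u, x ≤ y ∧ y < x + D := by
  by_contra hcon
  have key : ∀ w : List ι, wf T w u < x := by
    intro w
    induction w with
    | nil =>
      by_contra hc
      push Not at hc
      exact hcon ⟨u, orb_self u, hc, hu⟩
    | cons s w ih =>
      by_contra hc
      push Not at hc
      refine hcon ⟨_, ⟨s :: w, rfl⟩, hc, ?_⟩
      have h1 := abs_le.1 (h.disp s (wf T w u))
      rw [wf]
      linarith [h1.2]
  exact absurd (key w) (not_lt.2 hw)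

theorem FS.meet' (h : FS inv n D T) {q x u v : ℤ} (hu : u ∈ orb T q) (hv : v ∈ orb T q)
    (h1 : u < x + D) (h2 : x ≤ v) : ∃ y ∈ orb T q, x ≤ y ∧ y < x + D := by
  obtain ⟨w, hw⟩ := h.orb_word hu hv
  obtain ⟨y, hy, h3⟩ := h.meet h1 w (by rw [hw]; exact h2)
  exact ⟨y, orb_trans hu hy, h3⟩

/-- a path to infinity -/
theorem FS.esc (h : FS inv n D T) (hD : 1 ≤ D) {x₀ : ℤ} (hx : Far T x₀) :
    ∃ p : ℕ → ℤ, ∀ (K : ℕ) (x : ℤ), |x| ≤ K → ∃ y ∈ orb T x₀, p K + x ≤ y ∧ y < p K + x + D := by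
  have hD1 : (1 : ℤ) ≤ D := by exact_mod_cast hD
  by_cases hup : ∀ M : ℕ, ∃ w, x₀ + M ≤ wf T w x₀
  · refine ⟨fun K => x₀ + K, fun K x hxK => ?_⟩
    obtain ⟨w, hw⟩ := hup (2 * K)
    have h1 := abs_le.1 hxK
    push_cast at hw
    exact h.meet' (orb_self x₀) ⟨w, rfl⟩ (by linarith [h1.1]) (by linarith [h1.2])
  · push Not at hup
    obtain ⟨M₀, hM₀⟩ := hup
    refine ⟨fun K => x₀ - K, fun K x hxK => ?_⟩
    obtain ⟨w, _, hw⟩ := hx (M₀ + 2 * K)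
    have h1 := abs_le.1 hxK
    push_cast at hw
    have h2 : wf T w x₀ < x₀ - 2 * K := by
      rcases lt_abs.1 hw with h3 | h3
      · have := hM₀ w
        linarith [Int.natCast_nonneg K]
      · linarith [Int.natCast_nonneg M₀]
    exact h.meet' ⟨w, rfl⟩ (orb_self x₀) (by linarith [h1.1]) (by linarith [h1.2])

/-- a two-sided orbit is dense -/
theorem FS.dense (h : FS inv n D T) (hD : 1 ≤ D) {q : ℤ}
    (hq : ∀ M : ℕ, (∃ w, wf T w q ≤ -(M : ℤ)) ∧ ∃ w, (M : ℤ) ≤ wf T w q) : Dn D (orb T q) := by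
  intro x
  have hD1 : (1 : ℤ) ≤ D := by exact_mod_cast hD
  obtain ⟨⟨w₁, h1⟩, ⟨w₂, h2⟩⟩ := hq x.natAbs
  have h3 := abs_le.1 (le_refl |x|)
  push_cast at h1 h2
  exact h.meet' ⟨w₁, rfl⟩ ⟨w₂, rfl⟩ (by linarith [h3.1]) (by linarith [h3.2])

end BND

end Pool.Agent.QLN
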