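/-
Row BAND, second part: from a dense system to a quasi-line (helper98).
-/
import Pool.Agent.Lib.QLN.BAND
import Pool.Agent.Lib.QLN.RowsB

set_option autoImplicit false

namespace Pool.Agent.QLN

open Pool.Agent.SCH

namespace BND

variable {ι : Type} {inv : ι → ι} {n D : ℕ} {T : ι → ℤ → ℤ}

/-- dense systems of density at most `j / D` -/
structure BS (inv : ι → ι) (n D j C : ℕ) (T : ι → ℤ → ℤ) (Ω : Set ℤ) : Prop where
  fs : FS inv n D T
  inva : ∀ s i, i ∈ Ω → T s i ∈ Ω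
  far : ∀ x ∈ Ω, Far T x
  dn : Dn D Ω
  cn : Cn D j C Ω

theorem BS.one_le {j C : ℕ} {Ω : Set ℤ} (h : BS inv n D j C T Ω) : 1 ≤ D := by
  obtain ⟨y, _, h1, h2⟩ := h.dn 0
  have : (0 : ℤ) < D := by linarith
  exact_mod_cast this

/-- lower density of dense sets -/
theorem dn_count {A : Set ℤ} (h : Dn D A) (hD : 1 ≤ D) (m : ℕ) :
    ∀ x : ℤ, m ≤ D * (A ∩ Set.Ico x (x + m)).ncard + D := by
  induction m using Nat.strong_induction_on with
  | _ m ih =>
    intro x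
    by_cases hm : m < D
    · omega
    push Not at hm
    have h1 := ih (m - D) (by omega) (x + D)
    obtain ⟨y, hy, hy1, hy2⟩ := h x
    have e : x + (D : ℤ) + ((m - D : ℕ) : ℤ) = x + m := by
      rw [Nat.cast_sub hm]; ring
    rw [e] at h1
    have hfin : (A ∩ Set.Ico (x + (D : ℤ)) (x + m)).Finite :=
      (Set.finite_Ico _ _).subset Set.inter_subset_right
    have hfin2 : (A ∩ Set.Ico x (x + m)).Finite := (Set.finite_Ico _ _).subset Set.inter_subset_right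
    have hmD : (D : ℤ) ≤ m := by exact_mod_cast hm
    have h2 : insert y (A ∩ Set.Ico (x + (D : ℤ)) (x + m)) ⊆ A ∩ Set.Ico x (x + m) := by
      intro z hz
      rcases Set.mem_insert_iff.1 hz with rfl | ⟨hz1, hz2, hz3⟩
      · exact ⟨hy, hy1, by linarith⟩
      · exact ⟨hz1, by linarith [Int.natCast_nonneg D], hz3⟩
    have h3 : y ∉ A ∩ Set.Ico (x + (D : ℤ)) (x + m) := by
      rintro ⟨_, h4, _⟩
      linarith
    have h5 := Set.ncard_le_ncard h2 hfin2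
    rw [Set.ncard_insert_of_notMem h3 hfin] at h5
    have h6 : D * ((A ∩ Set.Ico (x + (D : ℤ)) (x + m)).ncard + 1) ≤
        D * (A ∩ Set.Ico x (x + m)).ncard := Nat.mul_le_mul_left D h5
    rw [Nat.mul_add, mul_one] at h6
    omega

theorem BS.pos {j C : ℕ} {Ω : Set ℤ} (h : BS inv n D j C T Ω) : 1 ≤ j := by
  by_contra hj
  have hj0 : j = 0 := by omega
  subst hj0
  have h1 := dn_count h.dn h.one_le (C + D + 1) 0
  have h2 := h.cn 0 (C + D + 1)
  omega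

/-- two points on both sides of a window give a crossing -/
theorem cross_lim' {J : Type} {T' : ι → ℤ → ℤ} {A' : J → Set ℤ} {p : ℕ → ℤ} {Ω : Set ℤ}
    (h : FS inv n D T) {AA : ℕ → J → Set ℤ} (happ : App T' A' (fun K => sh T (p K)) AA)
    (a : J) (ha : ∀ K, AA K a = {i | p K + i ∈ Ω}) (hΩ : ∀ s i, i ∈ Ω → T s i ∈ Ω) (hD : 1 ≤ D)
    {x₀ : ℤ} (hx₀ : x₀ ∈ Ω)
    (hp : ∀ (K : ℕ) (x : ℤ), |x| ≤ K → ∃ y ∈ orb T x₀, p K + x ≤ y ∧ y < p K + x + D) :
    ∃ q ∈ A' a, ∀ M : ℕ, (∃ w, wf T' w q ≤ -(M : ℤ)) ∧ ∃ w, (M : ℤ) ≤ wf T' w q := by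
  refine cross_lim happ (fun K => h.shift (p K)) a (fun K s i hi => ?_) hD fun M => ?_
  · rw [ha] at hi ⊢
    change p K + (T s (p K + i) - p K) ∈ Ω
    rw [add_sub_cancel]
    exact hΩ s _ hi
  · refine ⟨M + D, fun K hK => ?_⟩
    have hK' : (M : ℤ) + D ≤ K := by exact_mod_cast hK
    obtain ⟨u, hu, hu1, hu2⟩ := hp K (-((M : ℤ) + D)) (by
      rw [abs_neg, abs_of_nonneg (by positivity)]; exact hK')
    obtain ⟨v, hv, hv1, hv2⟩ := hp K M (by
      rw [abs_of_nonneg (by positivity)]; linarith [Int.natCast_nonneg D])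
    obtain ⟨w, hw⟩ := h.orb_word hu hv
    refine ⟨u - p K, ?_, by linarith, w, ?_⟩
    · rw [ha]
      change p K + (u - p K) ∈ Ω
      rw [add_sub_cancel]
      exact orb_sub hΩ hx₀ hu
    · rw [wf_sh, add_sub_cancel, hw]
      linarith

theorem far_orb {Ω : Set ℤ} (hΩ : ∀ s i, i ∈ Ω → T s i ∈ Ω) (hf : ∀ x ∈ Ω, Far T x) {q : ℤ}
    (hq : q ∈ Ω) : ∀ x ∈ orb T q, Far T x := fun x hx => hf x (orb_sub hΩ hq hx)

theorem Cn.mono {j C : ℕ} {A B : Set ℤ} (h : Cn D j C B) (hAB : A ⊆ B) : Cn D j C A := by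
  intro x m
  refine le_trans (Nat.mul_le_mul_left D (Set.ncard_le_ncard ?_ ?_)) (h x m)
  · exact Set.inter_subset_inter_left _ hAB
  · exact (Set.finite_Ico _ _).subset Set.inter_subset_right

theorem far_sh {p x : ℤ} (h : Far T (p + x)) : Far (sh T p) x := by
  intro M
  obtain ⟨w, hw, h1⟩ := h M
  refine ⟨w, hw, ?_⟩
  rw [wf_sh]
  rwa [show wf T w (p + x) - p - x = wf T w (p + x) - (p + x) by ring]

theorem cn_sh {j C : ℕ} {A : Set ℤ} (h : Cn D j C A) (p : ℤ) : Cn D j C {i | p + i ∈ A} := by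
  intro x m
  have e : ({i | p + i ∈ A} ∩ Set.Ico x (x + m)) =
      (fun y : ℤ => y - p) '' (A ∩ Set.Ico (p + x) (p + x + m)) := by
    ext y
    constructor
    · rintro ⟨h1, h2, h3⟩
      exact ⟨p + y, ⟨h1, by linarith, by linarith⟩, by ring⟩
    · rintro ⟨z, ⟨h1, h2, h3⟩, rfl⟩
      refine ⟨?_, ?_, ?_⟩
      · change p + (z - p) ∈ A
        rwa [add_sub_cancel]
      · change x ≤ z - p
        linarith
      · change z - p < x + m
        linarith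
  rw [e, Set.ncard_image_of_injective _ (fun a b hab => by simpa using hab)]
  exact h (p + x) m

/-- **step 2**: a single two-sided orbit -/
theorem BS.single [Finite ι] {j C : ℕ} {Ω : Set ℤ} (h : BS inv n D j C T Ω) :
    ∃ (T' : ι → ℤ → ℤ) (q : ℤ), BS inv n D j C T' (orb T' q) := by
  have hD := h.one_le
  obtain ⟨x₀, hx₀, _⟩ := h.dn 0
  obtain ⟨p, hp⟩ := h.fs.esc hD (h.far x₀ hx₀)
  obtain ⟨T', A', hd, happ⟩ := limit (J := Unit) (fun K => sh T (p K))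
    (fun K => (h.fs.shift (p K)).disp) (fun K _ => {i | p K + i ∈ Ω})
  have hfs : FS inv n D T' := happ.fs hd fun K => h.fs.shift (p K)
  obtain ⟨q, hq, hq2⟩ := cross_lim' h.fs happ () (fun K => rfl) h.inva hD hx₀ hp
  have hinva : ∀ s i, i ∈ A' () → T' s i ∈ A' () := happ.inva () fun K s i hi => by
    change p K + (T s (p K + i) - p K) ∈ Ω
    rw [add_sub_cancel]
    exact h.inva s _ hi
  refine ⟨T', q, hfs, orb_inva q, ?_, hfs.dense hD hq2, ?_⟩
  · exact far_orb hinva (fun x hx => happ.far hd () (fun K x hx => far_sh (h.far _ hx)) x hx) hq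
  · exact (happ.cn () fun K => cn_sh h.cn (p K)).mono (orb_sub hinva hq)

/-- **step 3**: uniform connectedness -/
theorem BS.unif [Finite ι] {j C : ℕ} {q₀ : ℤ} (h : BS inv n D j C T (orb T q₀))
    (hmin : ∀ (C : ℕ) (T : ι → ℤ → ℤ) (Ω : Set ℤ), ¬ BS inv n D (j - 1) C T Ω) :
    ∃ r : ℕ, ∀ x ∈ orb T q₀, ∀ y ∈ orb T q₀, |x - y| ≤ 2 * D →
      ∃ w : List ι, w.length ≤ r ∧ wf T w x = y := by
  by_contra hcon
  push Not at hcon
  choose x hx y hy hxy hw using hcon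
  have hD := h.one_le
  have hj := h.pos
  obtain ⟨T₁, A₁, hd₁, happ₁⟩ := limit (J := Bool) (fun K => sh T (x K))
    (fun K => (h.fs.shift (x K)).disp)
    (fun K a => cond a {i | x K + i ∈ orb T q₀} {i | i = y K - x K})
  have hfs₁ : FS inv n D T₁ := happ₁.fs hd₁ fun K => h.fs.shift (x K)
  have hinva₁ : ∀ s i, i ∈ A₁ true → T₁ s i ∈ A₁ true := happ₁.inva true fun K s i hi => by
    change x K + (T s (x K + i) - x K) ∈ orb T q₀
    rw [add_sub_cancel]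
    exact h.inva s _ hi
  have hfar₁ : ∀ z ∈ A₁ true, Far T₁ z := fun z hz =>
    happ₁.far hd₁ true (fun K x hx => far_sh (h.far _ hx)) z hz
  have hcn₁ : Cn D j C (A₁ true) := happ₁.cn true fun K => cn_sh h.cn (x K)
  have h0 : (0 : ℤ) ∈ A₁ true := by
    obtain ⟨K, _, hK⟩ := happ₁ 0 0
    refine ((hK 0 (by simp)).2 true).2 ?_
    change x K + 0 ∈ orb T q₀
    rw [add_zero]
    exact hx K
  obtain ⟨e, he⟩ : ∃ e, e ∈ A₁ false := by
    obtain ⟨K, _, hK⟩ := happ₁ (2 * D) 0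
    refine ⟨y K - x K, ((hK _ ?_).2 false).2 rfl⟩
    rw [abs_sub_comm]
    push_cast
    exact hxy K
  have he1 : e ∈ A₁ true := by
    obtain ⟨K, _, hK⟩ := happ₁ e.natAbs 0
    have h1 := (hK e (by simp)).2
    have h2 : e = y K - x K := (h1 false).1 he
    refine (h1 true).2 ?_
    change x K + e ∈ orb T q₀
    rw [h2, add_sub_cancel]
    exact hy K
  have hne : ∀ w, wf T₁ w 0 ≠ e := by
    intro w hwe
    obtain ⟨K, hmK, hK⟩ := happ₁ (D * w.length + e.natAbs) w.length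
    have h1 := (agreeW hd₁ (fun s i hi => (hK i hi).1 s) w 0 (by push_cast; simp)).1
    have h2 : e = y K - x K := ((hK e (by
      push_cast
      have : (0 : ℤ) ≤ D * w.length := by positivity
      linarith)).2 false).1 he
    rw [hwe, wf_sh, add_zero, h2] at h1
    exact hw K w hmK (by linarith)
  obtain ⟨q, hq, hq2⟩ := cross_lim' h.fs happ₁ true (fun K => rfl) h.inva hD (orb_self q₀)
    (fun K t _ => h.dn (x K + t))
  have hdq := hfs₁.dense hD hq2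
  obtain ⟨z, hz, hzq⟩ : ∃ z ∈ A₁ true, z ∉ orb T₁ q := by
    by_contra hc
    push Not at hc
    obtain ⟨w, hw⟩ := hfs₁.orb_word (hc 0 h0) (hc e he1)
    exact hne w hw
  obtain ⟨p, hp⟩ := hfs₁.esc hD (hfar₁ z hz)
  obtain ⟨T₂, A₂, hd₂, happ₂⟩ := limit (J := Fin 3) (fun K => sh T₁ (p K))
    (fun K => (hfs₁.shift (p K)).disp)
    (fun K a => {i | p K + i ∈ (![A₁ true, orb T₁ q, orb T₁ z] : Fin 3 → Set ℤ) a})
  have hfs₂ : FS inv n D T₂ := happ₂.fs hd₂ fun K => hfs₁.shift (p K)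
  have hinva₂ : ∀ s i, i ∈ A₂ 1 → T₂ s i ∈ A₂ 1 := happ₂.inva 1 fun K s i hi => by
    change p K + (T₁ s (p K + i) - p K) ∈ orb T₁ q
    rw [add_sub_cancel]
    exact orb_inva q s _ hi
  have hqsub : orb T₁ q ⊆ A₁ true := orb_sub hinva₁ hq
  have hzsub : orb T₁ z ⊆ A₁ true := orb_sub hinva₁ hz
  have hfar₂ : ∀ z ∈ A₂ 1, Far T₂ z := fun z hz =>
    happ₂.far hd₂ 1 (fun K x hx => far_sh (hfar₁ _ (hqsub hx))) z hz
  have hcn₂ : Cn D j C (A₂ 0) := happ₂.cn 0 fun K => cn_sh hcn₁ (p K)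
  have hdn₁ : Dn D (A₂ 1) := happ₂.dn 1 fun K t _ => by
    obtain ⟨y, hy, h1, h2⟩ := hdq (p K + t)
    refine ⟨y - p K, ?_, by linarith, by linarith⟩
    change p K + (y - p K) ∈ orb T₁ q
    rwa [add_sub_cancel]
  have hdn₂ : Dn D (A₂ 2) := happ₂.dn 2 fun K t ht => by
    obtain ⟨y, hy, h1, h2⟩ := hp K t ht
    refine ⟨y - p K, ?_, by linarith, by linarith⟩
    change p K + (y - p K) ∈ orb T₁ z
    rwa [add_sub_cancel]
  have hsub1 : A₂ 1 ⊆ A₂ 0 := by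
    intro i hi
    obtain ⟨K, _, hK⟩ := happ₂ i.natAbs 0
    have h1 := (hK i (by simp)).2
    exact (h1 0).2 (hqsub ((h1 1).1 hi))
  have hsub2 : A₂ 2 ⊆ A₂ 0 := by
    intro i hi
    obtain ⟨K, _, hK⟩ := happ₂ i.natAbs 0
    have h1 := (hK i (by simp)).2
    exact (h1 0).2 (hzsub ((h1 2).1 hi))
  have hdisj : ∀ i, i ∈ A₂ 1 → i ∉ A₂ 2 := by
    intro i hi hi2
    obtain ⟨K, _, hK⟩ := happ₂ i.natAbs 0
    have h1 := (hK i (by simp)).2
    have h2 : p K + i ∈ orb T₁ q := (h1 1).1 hi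
    have h3 : p K + i ∈ orb T₁ z := (h1 2).1 hi2
    exact hzq (orb_trans h2 (hfs₁.orb_symm h3))
  refine hmin (C + D) T₂ (A₂ 1) ⟨hfs₂, hinva₂, hfar₂, hdn₁, fun t m => ?_⟩
  have h1 := hcn₂ t m
  have h2 := dn_count hdn₂ hD m t
  have h3 : (A₂ 1 ∩ Set.Ico t (t + m)).ncard + (A₂ 2 ∩ Set.Ico t (t + m)).ncard ≤
      (A₂ 0 ∩ Set.Ico t (t + m)).ncard := by
    have f1 : (A₂ 1 ∩ Set.Ico t (t + m)).Finite := (Set.finite_Ico _ _).subset Set.inter_subset_right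
    have f2 : (A₂ 2 ∩ Set.Ico t (t + m)).Finite := (Set.finite_Ico _ _).subset Set.inter_subset_right
    have f0 : (A₂ 0 ∩ Set.Ico t (t + m)).Finite := (Set.finite_Ico _ _).subset Set.inter_subset_right
    rw [← Set.ncard_union_eq (Set.disjoint_left.2 fun i h1 h2 => hdisj i h1.1 h2.1) f1 f2]
    refine Set.ncard_le_ncard ?_ f0
    rintro i (⟨h1, h2⟩ | ⟨h1, h2⟩)
    · exact ⟨hsub1 h1, h2⟩
    · exact ⟨hsub2 h1, h2⟩
  have h4 := Nat.mul_le_mul_left D h3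
  rw [Nat.mul_add] at h4
  obtain ⟨j', rfl⟩ : ∃ j', j = j' + 1 := ⟨j - 1, by omega⟩
  rw [Nat.add_sub_cancel]
  have h5 : (j' + 1) * m = j' * m + m := by ring
  rw [h5] at h1
  omega

end BND

end Pool.Agent.QLN
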