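/-
Row BAND, third part: quasi-lines, the infinite orbit, and the row (helper98).
-/
import Pool.Agent.Lib.QLN.BAND2

set_option autoImplicit false

namespace Pool.Agent.QLN

open Pool.Agent.SCH

universe u

namespace BND

variable {ι : Type} {inv : ι → ι} {n D : ℕ} {T : ι → ℤ → ℤ}

open Classical in
/-- the permutations of a system on an invariant set -/
noncomputable def toPerm (h : FS inv n D T) {Ω : Set ℤ} (hΩ : ∀ s i, i ∈ Ω → T s i ∈ Ω) (s : ι) :
    Equiv.Perm ℤ where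
  toFun i := if i ∈ Ω then T s i else i
  invFun i := if i ∈ Ω then T (inv s) i else i
  left_inv i := by
    by_cases hi : i ∈ Ω
    · simp only [if_pos hi, if_pos (hΩ s i hi), h.l]
    · simp only [if_neg hi]
  right_inv i := by
    by_cases hi : i ∈ Ω
    · simp only [if_pos hi, if_pos (hΩ (inv s) i hi), h.r]
    · simp only [if_neg hi]

theorem toPerm_pos (h : FS inv n D T) {Ω : Set ℤ} (hΩ : ∀ s i, i ∈ Ω → T s i ∈ Ω) (s : ι) {i : ℤ}
    (hi : i ∈ Ω) : toPerm h hΩ s i = T s i := if_pos hi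

theorem toPerm_neg (h : FS inv n D T) {Ω : Set ℤ} (hΩ : ∀ s i, i ∈ Ω → T s i ∈ Ω) (s : ι) {i : ℤ}
    (hi : i ∉ Ω) : toPerm h hΩ s i = i := if_neg hi

theorem wd_toPerm (h : FS inv n D T) {Ω : Set ℤ} (hΩ : ∀ s i, i ∈ Ω → T s i ∈ Ω) (w : List ι)
    {i : ℤ} (hi : i ∈ Ω) : wd (toPerm h hΩ) w i = wf T w i := by
  induction w with
  | nil => simp [wd_nil, wf]
  | cons s w ih =>
    rw [wd_cons, Equiv.Perm.mul_apply, ih, wf, toPerm_pos h hΩ s (inva_wf hΩ w hi)]

theorem wd_toPerm_neg (h : FS inv n D T) {Ω : Set ℤ} (hΩ : ∀ s i, i ∈ Ω → T s i ∈ Ω) (w : List ι)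
    {i : ℤ} (hi : i ∉ Ω) : wd (toPerm h hΩ) w i = i := by
  induction w with
  | nil => simp [wd_nil]
  | cons s w ih =>
    rw [wd_cons, Equiv.Perm.mul_apply, ih, toPerm_neg h hΩ s hi]

/-- near points are joined by short words: all points are joined by words of linear length -/
theorem conn_lin {Ω : Set ℤ} (hdn : Dn D Ω) {r : ℕ}
    (hr : ∀ x ∈ Ω, ∀ y ∈ Ω, |x - y| ≤ 2 * D → ∃ w : List ι, w.length ≤ r ∧ wf T w x = y) (N : ℕ) :
    ∀ x ∈ Ω, ∀ y ∈ Ω, |x - y| ≤ N →
      ∃ w : List ι, (w.length : ℤ) ≤ r * (|x - y| + 1) ∧ wf T w x = y := by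
  induction N with
  | zero =>
    intro x hx y hy hxy
    have h1 : |x - y| ≤ 2 * D := hxy.trans (by positivity)
    obtain ⟨w, hw, hwy⟩ := hr x hx y hy h1
    refine ⟨w, ?_, hwy⟩
    have h2 : (w.length : ℤ) ≤ r := by exact_mod_cast hw
    have h3 : (0 : ℤ) ≤ r * |x - y| := by positivity
    linarith
  | succ N ih =>
    intro x hx y hy hxy
    by_cases h1 : |x - y| ≤ 2 * D
    · obtain ⟨w, hw, hwy⟩ := hr x hx y hy h1
      refine ⟨w, ?_, hwy⟩
      have h2 : (w.length : ℤ) ≤ r := by exact_mod_cast hw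
      have h3 : (0 : ℤ) ≤ r * |x - y| := by positivity
      linarith
    · push Not at h1
      push_cast at hxy
      have hD0 := Int.natCast_nonneg D
      have key : ∀ z ∈ Ω, |x - z| ≤ 2 * D → |z - y| + 1 ≤ |x - y| →
          ∃ w : List ι, (w.length : ℤ) ≤ r * (|x - y| + 1) ∧ wf T w x = y := by
        intro z hz hxz hzy
        obtain ⟨w, hw, hwz⟩ := hr x hx z hz hxz
        obtain ⟨v, hv, hvy⟩ := ih z hz y hy (by linarith)
        refine ⟨v ++ w, ?_, by rw [wf_append, hwz, hvy]⟩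
        rw [List.length_append]
        push_cast
        have h2 : (w.length : ℤ) ≤ r := by exact_mod_cast hw
        have h3 : (r : ℤ) * (|z - y| + 1) ≤ r * |x - y| :=
          mul_le_mul_of_nonneg_left hzy (by positivity)
        linarith
      rcases le_total x y with h2 | h2
      · rw [abs_of_nonpos (by linarith : x - y ≤ 0)] at h1
        obtain ⟨z, hz, hz1, hz2⟩ := hdn (x + 1)
        refine key z hz ?_ ?_
        · rw [abs_of_nonpos (by linarith)]; linarith
        · rw [abs_of_nonpos (by linarith), abs_of_nonpos (by linarith)]; linarith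
      · rw [abs_of_nonneg (by linarith : 0 ≤ x - y)] at h1
        obtain ⟨z, hz, hz1, hz2⟩ := hdn (x - D)
        refine key z hz ?_ ?_
        · rw [abs_of_nonneg (by linarith)]; linarith
        · rw [abs_of_nonneg (by linarith), abs_of_nonneg (by linarith)]; linarith

theorem toQ {Ω : Set ℤ} (h : FS inv n D T) (hΩ : ∀ s i, i ∈ Ω → T s i ∈ Ω) (hdn : Dn D Ω) {r : ℕ}
    (hr : ∀ x ∈ Ω, ∀ y ∈ Ω, |x - y| ≤ 2 * D → ∃ w : List ι, w.length ≤ r ∧ wf T w x = y) :
    QSys inv n D r (2 * D) 1 (toPerm h hΩ) Ω where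
  inv s := by
    refine Equiv.ext fun i => ?_
    rw [Equiv.Perm.eq_inv_iff_eq]
    by_cases hi : i ∈ Ω
    · rw [toPerm_pos h hΩ _ hi, toPerm_pos h hΩ _ (hΩ (inv s) i hi), h.r]
    · rw [toPerm_neg h hΩ _ hi, toPerm_neg h hΩ _ hi]
  disp s i := by
    by_cases hi : i ∈ Ω
    · rw [toPerm_pos h hΩ _ hi]; exact h.disp s i
    · rw [toPerm_neg h hΩ _ hi]; simp
  supp s i hi := toPerm_neg h hΩ s hi
  conn x hx y hy := by
    obtain ⟨w, hw, hwy⟩ := conn_lin hdn hr (x - y).natAbs x hx y hy (by simp)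
    exact ⟨w, hw, by rw [wd_toPerm h hΩ w hx, hwy]⟩
  exp w := by
    refine Equiv.ext fun i => ?_
    rw [← wd_wpow]
    by_cases hi : i ∈ Ω
    · rw [wd_toPerm h hΩ _ hi, wf_wpow, h.exp, Equiv.Perm.one_apply]
    · rw [wd_toPerm_neg h hΩ _ hi, Equiv.Perm.one_apply]
  gr x hx R := by
    have hsub2 : ball (toPerm h hΩ) x R ⊆ Set.Icc (x - (D : ℤ) * R) (x + (D : ℤ) * R) := by
      rintro y ⟨w, h3, rfl⟩
      rw [wd_toPerm h hΩ w hx]
      have h4 : (D : ℤ) * w.length ≤ (D : ℤ) * R :=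
        mul_le_mul_of_nonneg_left (by exact_mod_cast h3) (by positivity)
      have h5 := abs_le.1 (disp_wf h.disp w x)
      exact ⟨by linarith [h5.1], by linarith [h5.2]⟩
    refine (Set.encard_le_encard hsub2).trans ?_
    rw [← Finset.coe_Icc, Set.encard_coe_eq_coe_finsetCard, Int.card_Icc]
    have h6 : (x + (D : ℤ) * R + 1 - (x - (D : ℤ) * R)).toNat = 2 * D * R + 1 := by
      rw [show x + (D : ℤ) * R + 1 - (x - (D : ℤ) * R) = ((2 * D * R + 1 : ℕ) : ℤ) by
        push_cast; ring, Int.toNat_natCast]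
    rw [h6]
  synd x := by
    obtain ⟨y, hy, h1, h2⟩ := hdn x
    exact ⟨y, hy, by rw [abs_of_nonneg (by linarith)]; linarith⟩

/-- descent on the density -/
theorem descent [Finite ι] {j C : ℕ} {Ω : Set ℤ} (h : BS inv n D j C T Ω) :
    ∃ (r c B : ℕ) (τ : ι → Equiv.Perm ℤ) (Ω : Set ℤ), QSys inv n D r c B τ Ω := by
  induction j using Nat.strong_induction_on generalizing C T Ω with
  | _ j ih =>
    obtain ⟨T', q, h'⟩ := h.single
    by_cases hmin : ∀ (C : ℕ) (T : ι → ℤ → ℤ) (Ω : Set ℤ), ¬ BS inv n D (j - 1) C T Ω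
    · obtain ⟨r, hr⟩ := h'.unif hmin
      exact ⟨r, 2 * D, 1, _, _, toQ h'.fs h'.inva h'.dn hr⟩
    · push Not at hmin
      obtain ⟨C', T'', Ω', h''⟩ := hmin
      exact ih (j - 1) (by have := h.pos; omega) h''

/-- balls of a system of functions -/
def bl (T : ι → ℤ → ℤ) (x : ℤ) (R : ℕ) : Set ℤ := {y | ∃ w : List ι, w.length ≤ R ∧ wf T w x = y}

theorem bl_closed {x : ℤ} {R : ℕ} (h : bl T x (R + 1) ⊆ bl T x R) : orb T x ⊆ bl T x R := by
  rintro _ ⟨w, rfl⟩
  induction w with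
  | nil => exact ⟨[], by simp, rfl⟩
  | cons s w ih =>
    obtain ⟨v, hv, hvw⟩ := ih
    refine h ⟨s :: v, by rw [List.length_cons]; omega, ?_⟩
    rw [wf, hvw, wf]

theorem bl_finite [Finite ι] (x : ℤ) (R : ℕ) : (bl T x R).Finite := by
  have h1 : {w : List ι | w.length ≤ R}.Finite := List.finite_length_le ι R
  refine (h1.image fun w => wf T w x).subset ?_
  rintro y ⟨w, hw, rfl⟩
  exact ⟨w, hw, rfl⟩

theorem bl_card [Finite ι] {x : ℤ} (h : (orb T x).Infinite) (R : ℕ) :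
    R + 1 ≤ (bl T x R).ncard := by
  induction R with
  | zero =>
    rw [zero_add]
    refine (Set.ncard_pos (bl_finite x 0)).2 ⟨x, [], by simp, rfl⟩
  | succ R ih =>
    have h1 : bl T x R ⊂ bl T x (R + 1) := by
      refine ⟨?_, fun hc => h ((bl_finite x R).subset (bl_closed hc))⟩
      rintro y ⟨w, hw, hy⟩
      exact ⟨w, by omega, hy⟩
    have h2 := Set.ncard_lt_ncard h1 (bl_finite x (R + 1))
    omega

theorem far_of_infinite [Finite ι] {x : ℤ} (h : (orb T x).Infinite) : Far T x := by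
  intro M
  by_contra hcon
  push Not at hcon
  have h1 : bl T x (2 * M + 1) ⊆ Set.Icc (x - M) (x + M) := by
    rintro y ⟨w, hw, rfl⟩
    have h2 := abs_le.1 (hcon w hw)
    exact ⟨by linarith [h2.1], by linarith [h2.2]⟩
  have h2 := Set.ncard_le_ncard h1 (Set.finite_Icc _ _)
  have h3 := bl_card h (2 * M + 1)
  rw [← Finset.coe_Icc, Set.ncard_coe_finset, Int.card_Icc] at h2
  have h4 : (x + (M : ℤ) + 1 - (x - M)).toNat = 2 * M + 1 := by
    rw [show x + (M : ℤ) + 1 - (x - M) = ((2 * M + 1 : ℕ) : ℤ) by push_cast; ring,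
      Int.toNat_natCast]
  omega

/-- **step 1**: from an infinite orbit to a dense system -/
theorem dense_sys [Finite ι] (h : FS inv n D T) (hD : 1 ≤ D) {x₀ : ℤ} (hx : (orb T x₀).Infinite) :
    ∃ (T' : ι → ℤ → ℤ) (Ω : Set ℤ), BS inv n D D 0 T' Ω := by
  have hfar : ∀ x ∈ orb T x₀, Far T x := by
    intro x hx'
    refine far_of_infinite (hx.mono fun y hy => ?_)
    exact orb_trans (h.orb_symm hx') hy
  obtain ⟨p, hp⟩ := h.esc hD (hfar x₀ (orb_self x₀))
  obtain ⟨T', A', hd, happ⟩ := limit (J := Unit) (fun K => sh T (p K))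
    (fun K => (h.shift (p K)).disp) (fun K _ => {i | p K + i ∈ orb T x₀})
  refine ⟨T', A' (), happ.fs hd fun K => h.shift (p K), happ.inva () fun K s i hi => ?_, ?_, ?_, ?_⟩
  · change p K + (T s (p K + i) - p K) ∈ orb T x₀
    rw [add_sub_cancel]
    exact orb_inva x₀ s _ hi
  · exact fun x hx => happ.far hd () (fun K x hx => far_sh (hfar _ hx)) x hx
  · refine happ.dn () fun K t ht => ?_
    obtain ⟨y, hy, h1, h2⟩ := hp K t ht
    refine ⟨y - p K, ?_, by linarith, by linarith⟩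
    change p K + (y - p K) ∈ orb T x₀
    rwa [add_sub_cancel]
  · intro x m
    have h1 : (A' () ∩ Set.Ico x (x + m)).ncard ≤ (Set.Ico x (x + (m : ℤ))).ncard :=
      Set.ncard_le_ncard Set.inter_subset_right (Set.finite_Ico _ _)
    rw [← Finset.coe_Ico, Set.ncard_coe_finset, Int.card_Ico] at h1
    have h2 : (x + (m : ℤ) - x).toNat = m := by
      rw [show x + (m : ℤ) - x = m by ring, Int.toNat_natCast]
    rw [h2] at h1
    have h3 := Nat.mul_le_mul_left D h1
    rw [Finset.coe_Ico] at h3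
    omega

end BND

end Pool.Agent.QLN
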