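/-
Row BAND, last part: the infinite orbit from the balls, and the row (helper98).
-/
import Pool.Agent.Lib.QLN.BAND3

set_option autoImplicit false

namespace Pool.Agent.QLN

open Pool.Agent.SCH

universe u

namespace BND

section
variable {X : Type u} {ι : Type} {inv : ι → ι} {n K : ℕ} {σ : ι → Equiv.Perm X}

/-- numbering of a small set -/
theorem exists_num (F : Set X) (hF : F.encard ≤ (K : ℕ∞)) (hne : F.Nonempty) :
    ∃ f : X → ℕ, (∀ y, f y < K) ∧ Set.InjOn f F := by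
  classical
  have hfin : F.Finite := Set.finite_of_encard_le_coe hF
  have hK : F.ncard ≤ K := by
    rw [← hfin.cast_ncard_eq] at hF
    exact_mod_cast hF
  have hpos : 0 < F.ncard := (Set.ncard_pos hfin).2 hne
  have := hfin.to_subtype
  have e := Finite.equivFin F
  have hc : Nat.card F = F.ncard := rfl
  refine ⟨fun y => if h : y ∈ F then (e ⟨y, h⟩ : ℕ) else 0, fun y => ?_, fun y hy z hz h => ?_⟩
  · by_cases h : y ∈ F
    · simp only [dif_pos h]
      have := (e ⟨y, h⟩).2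
      omega
    · simp only [dif_neg h]
      omega
  · simp only [dif_pos hy, dif_pos hz] at h
    exact congrArg Subtype.val (e.injective (Fin.ext h))

/-- an injective map of bounded displacement -/
theorem exists_psi (x : X) (R : ℕ) (φ : X → ℤ)
    (hlip : ∀ y ∈ ball σ x R, ∀ s, σ s y ∈ ball σ x R → |φ (σ s y) - φ y| ≤ (K : ℤ))
    (hfib : ∀ k : ℤ, {y | y ∈ ball σ x R ∧ φ y = k}.encard ≤ (K : ℕ∞)) :
    ∃ ψ : X → ℤ, (∀ y ∈ ball σ x R, ∀ z ∈ ball σ x R, ψ y = ψ z → y = z) ∧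
      ∀ y ∈ ball σ x R, ∀ s, σ s y ∈ ball σ x R → |ψ (σ s y) - ψ y| ≤ ((K * (K + 1) : ℕ) : ℤ) := by
  classical
  have h1 : ∀ k : ℤ, ∃ f : X → ℕ, (∃ y, y ∈ ball σ x R ∧ φ y = k) →
      (∀ y, f y < K) ∧ Set.InjOn f {y | y ∈ ball σ x R ∧ φ y = k} := by
    intro k
    by_cases h : ∃ y, y ∈ ball σ x R ∧ φ y = k
    · obtain ⟨f, hf⟩ := exists_num _ (hfib k) h
      exact ⟨f, fun _ => hf⟩
    · exact ⟨fun _ => 0, fun h' => absurd h' h⟩
  choose f hf using h1
  have hc : ∀ a ∈ ball σ x R, ∀ b ∈ ball σ x R,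
      |φ a - φ b| ≤ |((K : ℤ) * φ a + f (φ a) a) - ((K : ℤ) * φ b + f (φ b) b)| ∧
      |((K : ℤ) * φ a + f (φ a) a) - ((K : ℤ) * φ b + f (φ b) b)| ≤ K * |φ a - φ b| + K :=
    fun a ha b hb => EMB.coord (by positivity) (by exact_mod_cast (hf _ ⟨a, ha, rfl⟩).1 a)
      (by positivity) (by exact_mod_cast (hf _ ⟨b, hb, rfl⟩).1 b)
  refine ⟨fun y => K * φ y + f (φ y) y, fun y hy z hz h => ?_, fun y hy s hs => ?_⟩
  · have h3 := (hc y hy z hz).1
    have h' : (K : ℤ) * φ y + f (φ y) y = K * φ z + f (φ z) z := h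
    rw [h', sub_self, abs_zero] at h3
    have h4 : φ y = φ z := sub_eq_zero.1 (abs_eq_zero.1 (le_antisymm h3 (abs_nonneg _)))
    rw [h4] at h'
    have h5 : f (φ z) y = f (φ z) z := by
      have := add_left_cancel h'
      exact_mod_cast this
    exact (hf (φ z) ⟨z, hz, rfl⟩).2 ⟨hy, h4⟩ ⟨hz, rfl⟩ h5
  · have h3 := (hc _ hs y hy).2
    have h4 := hlip y hy s hs
    have h5 : (K : ℤ) * |φ (σ s y) - φ y| ≤ K * K := mul_le_mul_of_nonneg_left h4 (by positivity)
    push_cast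
    linarith

/-- an infinite orbit -/
theorem start [Finite ι] (hinv : ∀ s, σ (inv s) = (σ s)⁻¹) (hexp : ∀ w, wd σ w ^ n = 1)
    (H : ∀ R : ℕ, ∃ (x : X) (φ : X → ℤ), (∃ u : List ι, wd σ u x ∉ ball σ x R) ∧
      (∀ y ∈ ball σ x R, ∀ s, σ s y ∈ ball σ x R → |φ (σ s y) - φ y| ≤ (K : ℤ)) ∧
      ∀ k : ℤ, {y | y ∈ ball σ x R ∧ φ y = k}.encard ≤ (K : ℕ∞)) :
    ∃ T : ι → ℤ → ℤ, FS inv n (K * (K + 1)) T ∧ (orb T 0).Infinite := by
  classical
  set D : ℕ := K * (K + 1) with hDdef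
  have H' : ∀ R : ℕ, ∃ (x : X) (ψ : X → ℤ), (∃ u : List ι, wd σ u x ∉ ball σ x R) ∧
      (∀ y ∈ ball σ x R, ∀ z ∈ ball σ x R, ψ y = ψ z → y = z) ∧
      ∀ y ∈ ball σ x R, ∀ s, σ s y ∈ ball σ x R → |ψ (σ s y) - ψ y| ≤ (D : ℤ) := by
    intro R
    obtain ⟨x, φ, hu, hlip, hfib⟩ := H R
    obtain ⟨ψ, h1, h2⟩ := exists_psi x R φ hlip hfib
    exact ⟨x, ψ, hu, h1, h2⟩
  choose x ψ hu hinj hdisp using H'
  let TT : ℕ → ι → ℤ → ℤ := fun R s i =>
    if h : ∃ y, (y ∈ ball σ (x R) R ∧ σ s y ∈ ball σ (x R) R) ∧ ψ R y = ψ R (x R) + i then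
      ψ R (σ s h.choose) - ψ R (x R) else i
  have hTT : ∀ R s y, y ∈ ball σ (x R) R → σ s y ∈ ball σ (x R) R →
      TT R s (ψ R y - ψ R (x R)) = ψ R (σ s y) - ψ R (x R) := by
    intro R s y hy hsy
    have h : ∃ z, (z ∈ ball σ (x R) R ∧ σ s z ∈ ball σ (x R) R) ∧
        ψ R z = ψ R (x R) + (ψ R y - ψ R (x R)) := ⟨y, ⟨hy, hsy⟩, by ring⟩
    have h3 : TT R s (ψ R y - ψ R (x R)) = ψ R (σ s h.choose) - ψ R (x R) := dif_pos h
    have h4 : h.choose = y :=
      hinj R _ h.choose_spec.1.1 _ hy (by rw [h.choose_spec.2]; ring)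
    rw [h3, h4]
  have hTd : ∀ R s i, |TT R s i - i| ≤ (D : ℤ) := by
    intro R s i
    by_cases h : ∃ y, (y ∈ ball σ (x R) R ∧ σ s y ∈ ball σ (x R) R) ∧ ψ R y = ψ R (x R) + i
    · obtain ⟨y, ⟨hy, hsy⟩, hyi⟩ := h
      have e : i = ψ R y - ψ R (x R) := by rw [hyi]; ring
      rw [e, hTT R s y hy hsy]
      have := hdisp R y hy s hsy
      rwa [show ψ R (σ s y) - ψ R (x R) - (ψ R y - ψ R (x R)) = ψ R (σ s y) - ψ R y by ring]
    · have h3 : TT R s i = i := dif_neg h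
      rw [h3, sub_self, abs_zero]
      positivity
  have hfol : ∀ R (w : List ι), w.length ≤ R →
      wf (TT R) w 0 = ψ R (wd σ w (x R)) - ψ R (x R) := by
    intro R w
    induction w with
    | nil => intro _; simp [wf, wd_nil]
    | cons s w ih =>
      intro hR
      rw [List.length_cons] at hR
      have h1 : wd σ w (x R) ∈ ball σ (x R) R := ⟨w, by omega, rfl⟩
      have h2 : σ s (wd σ w (x R)) ∈ ball σ (x R) R := ⟨s :: w, by rw [List.length_cons]; omega, by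
        rw [wd_cons, Equiv.Perm.mul_apply]⟩
      rw [wf, ih (by omega), hTT R s _ h1 h2, wd_cons, Equiv.Perm.mul_apply]
  obtain ⟨T', A', hd, happ⟩ := limit (J := PEmpty) TT hTd (fun _ _ => ∅)
  -- good members of the sequence
  have hgood : ∀ m : ℕ, ∃ R, m ≤ R ∧ ∀ w : List ι, w.length ≤ m →
      wf T' w 0 = ψ R (wd σ w (x R)) - ψ R (x R) := by
    intro m
    obtain ⟨R, hmR, hR⟩ := happ (D * m) m
    refine ⟨R, hmR, fun w hw => ?_⟩
    rw [(agreeW hd (fun s i hi => (hR i hi).1 s) w 0 ?_).1, hfol R w (hw.trans hmR)]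
    have h1 : (D : ℤ) * w.length ≤ D * m :=
      mul_le_mul_of_nonneg_left (by exact_mod_cast hw) (by positivity)
    push_cast
    rw [abs_zero, zero_add]
    exact h1
  have heq : ∀ v w : List ι, wd σ v = wd σ w → wf T' v 0 = wf T' w 0 := by
    intro v w hvw
    obtain ⟨R, _, hR⟩ := hgood (max v.length w.length)
    rw [hR v (le_max_left _ _), hR w (le_max_right _ _), hvw]
  let T : ι → ℤ → ℤ := fun s i => if i ∈ orb T' 0 then T' s i else i
  have hTpos : ∀ s i, i ∈ orb T' 0 → T s i = T' s i := fun s i hi => if_pos hi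
  have hTneg : ∀ s i, i ∉ orb T' 0 → T s i = i := fun s i hi => if_neg hi
  have hwf : ∀ (w : List ι) (i : ℤ), i ∈ orb T' 0 → wf T w i = wf T' w i := by
    intro w i hi
    induction w with
    | nil => rfl
    | cons s w ih => rw [wf, ih, wf, hTpos s _ (orb_wf w hi)]
  have horb : orb T 0 = orb T' 0 := by
    ext y
    constructor
    · rintro ⟨w, rfl⟩; exact ⟨w, (hwf w 0 (orb_self 0)).symm⟩
    · rintro ⟨w, rfl⟩; exact ⟨w, hwf w 0 (orb_self 0)⟩
  refine ⟨T, ⟨fun s i => ?_, fun s i => ?_, fun s i => ?_, fun w i => ?_⟩, ?_⟩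
  · by_cases hi : i ∈ orb T' 0
    · rw [hTpos s i hi, hTpos _ _ (orb_inva 0 s i hi)]
      obtain ⟨w, rfl⟩ := hi
      refine heq (inv s :: s :: w) w ?_
      rw [wd_cons, wd_cons, hinv, inv_mul_cancel_left]
    · rw [hTneg s i hi, hTneg _ i hi]
  · by_cases hi : i ∈ orb T' 0
    · rw [hTpos _ i hi, hTpos _ _ (orb_inva 0 _ i hi)]
      obtain ⟨w, rfl⟩ := hi
      refine heq (s :: inv s :: w) w ?_
      rw [wd_cons, wd_cons, hinv, mul_inv_cancel_left]
    · rw [hTneg _ i hi, hTneg _ i hi]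
  · by_cases hi : i ∈ orb T' 0
    · rw [hTpos s i hi]; exact hd s i
    · rw [hTneg s i hi]; simp
  · by_cases hi : i ∈ orb T' 0
    · rw [← wf_wpow, hwf _ i hi]
      obtain ⟨v, rfl⟩ := hi
      rw [← wf_append]
      refine heq _ v ?_
      rw [wd_append, wd_wpow, hexp, one_mul]
    · exact Function.iterate_fixed (EMB.wf_fix (fun s => hTneg s i hi) w) n
  · rw [horb]
    intro hfin
    have h1 : ∀ o, ∃ v : List ι, o ∈ orb T' 0 → wf T' v 0 = o := by
      intro o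
      by_cases ho : o ∈ orb T' 0
      · obtain ⟨v, hv⟩ := ho
        exact ⟨v, fun _ => hv⟩
      · exact ⟨[], fun h => absurd h ho⟩
    choose g hg using h1
    obtain ⟨r, hr⟩ := (hfin.image fun o => (g o).length).bddAbove
    obtain ⟨R, hrR, hR⟩ := hgood (r + 1)
    have h2 : ∀ w : List ι, wd σ w (x R) ∈ ball σ (x R) r := by
      intro w
      induction w with
      | nil => exact ⟨[], by simp, rfl⟩
      | cons s w ih =>
        obtain ⟨v, hv, hvw⟩ := ih
        have h3 : wd σ (s :: w) (x R) = wd σ (s :: v) (x R) := by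
          rw [wd_cons, wd_cons, Equiv.Perm.mul_apply, Equiv.Perm.mul_apply, hvw]
        rw [h3]
        have h4 : wf T' (s :: v) 0 ∈ orb T' 0 := ⟨_, rfl⟩
        have h5 : (g (wf T' (s :: v) 0)).length ≤ r := hr ⟨_, h4, rfl⟩
        have h6 := hg _ h4
        have hsv : (s :: v).length ≤ r + 1 := by rw [List.length_cons]; omega
        have h6' := (hR _ (h5.trans (Nat.le_succ r))).symm.trans (h6.trans (hR _ hsv))
        have h7 : ψ R (wd σ (g (wf T' (s :: v) 0)) (x R)) = ψ R (wd σ (s :: v) (x R)) := by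
          linarith
        have h8 := hinj R _ ⟨_, h5.trans ((Nat.le_succ r).trans hrR), rfl⟩ _
          ⟨_, hsv.trans hrR, rfl⟩ h7
        exact ⟨_, h5, h8⟩
    obtain ⟨u, hu'⟩ := hu R
    obtain ⟨v, hv, hvu⟩ := h2 u
    exact hu' ⟨v, hv.trans ((Nat.le_succ r).trans hrR), hvu⟩

end

end BND

/-- **Row BAND** -/
theorem rowBAND : RowBAND.{u} := by
  intro X ι _ inv n K σ _ hinv hexp H
  obtain ⟨T, hT, horb⟩ := BND.start (K := K) hinv hexp H
  have hD : 1 ≤ K * (K + 1) := by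
    by_contra hc
    have h0 : K * (K + 1) = 0 := by omega
    rw [h0] at hT
    have h1 : ∀ w : List ι, wf T w 0 = 0 := by
      intro w
      have := BND.disp_wf hT.disp w 0
      simpa using this
    refine horb ((Set.finite_singleton (0 : ℤ)).subset ?_)
    rintro _ ⟨w, rfl⟩
    exact h1 w
  obtain ⟨T', Ω, h⟩ := BND.dense_sys hT hD horb
  obtain ⟨r, c, B, τ, Ω', h'⟩ := BND.descent h
  exact ⟨_, r, c, B, τ, Ω', h'⟩

end Pool.Agent.QLN
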