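/-
Groups of bounded exponent have no long narrow balls in their Schreier graphs.
-/
import Pool.Agent.Lib.QLN.All
import Pool.Agent.Lib.QLN.BAND4
import Pool.Agent.Lib.QLN.Card

set_option autoImplicit false

namespace Pool.Agent.QLN

theorem no_long_narrow.{u, v} (m n K : ℕ) (hn : 0 < n) :
    ∃ R : ℕ, ∀ (G : Type u) (X : Type v) [Group G] [MulAction G X] (e : Fin m → G),
      Subgroup.closure (Set.range e) = ⊤ → (∀ g : G, g ^ n = 1) →
      ∀ x : X, Narrow (Set.range e) K R x →
        ∀ z ∈ MulAction.orbit G x, Within (Set.range e) R x z :=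
  finalU rowBAND allDEPTH allCLUSTER allPAR allNOGAP m n K hn

end Pool.Agent.QLN
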