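/-
Binary trees as minors of Schreier graphs, first part: graphs (helper98).
-/
import Pool.Agent.Lib.QLN.Rows

set_option autoImplicit false

namespace Pool.Agent.QLN

universe u

namespace TRE

variable {X : Type u}

/-- a step inside the set -/
def Stp (adj : X → X → Prop) (S : Set X) (a b : X) : Prop := a ∈ S ∧ b ∈ S ∧ adj a b

/-- joined by a path inside the set -/
def Jn (adj : X → X → Prop) (S : Set X) (x y : X) : Prop := Relation.ReflTransGen (Stp adj S) x y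

/-- connected sets -/
def Conn (adj : X → X → Prop) (S : Set X) : Prop := ∀ x ∈ S, ∀ y ∈ S, Jn adj S x y

/-- the complete binary tree of depth `h` is a minor of the graph induced on `A` -/
structure Model (adj : X → X → Prop) (h : ℕ) (A : Set X) (B : List Bool → Set X) : Prop where
  sub : ∀ u : List Bool, u.length ≤ h → B u ⊆ A
  ne : ∀ u : List Bool, u.length ≤ h → (B u).Nonempty
  conn : ∀ u : List Bool, u.length ≤ h → Conn adj (B u)
  disj : ∀ u v : List Bool, u.length ≤ h → v.length ≤ h → u ≠ v → Disjoint (B u) (B v)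
  edge : ∀ (u : List Bool) (b : Bool), u.length < h → ∃ x ∈ B u, ∃ y ∈ B (u ++ [b]), adj x y

/-- the rank -/
def Rk (adj : X → X → Prop) : ℕ → Set X → Prop
  | 0, A => A.Nonempty
  | h + 1, A => ∃ A₁ A₂ A₃ : Set X, (A₁ ⊆ A ∧ A₂ ⊆ A ∧ A₃ ⊆ A) ∧
      (Conn adj A₁ ∧ Conn adj A₂ ∧ Conn adj A₃) ∧ (Rk adj h A₁ ∧ Rk adj h A₂ ∧ Rk adj h A₃) ∧
      (Disjoint A₁ A₂ ∧ Disjoint A₁ A₃ ∧ Disjoint A₂ A₃) ∧
      (∃ x ∈ A₁, ∃ y ∈ A₂, Jn adj (A \ A₃) x y) ∧ (∃ x ∈ A₁, ∃ y ∈ A₃, Jn adj (A \ A₂) x y) ∧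
      ∃ x ∈ A₂, ∃ y ∈ A₃, Jn adj (A \ A₁) x y

variable {adj : X → X → Prop}

theorem jn_mono {S T : Set X} (h : S ⊆ T) {x y : X} (hxy : Jn adj S x y) : Jn adj T x y := by
  induction hxy with
  | refl => exact Relation.ReflTransGen.refl
  | tail _ h2 ih => exact ih.tail ⟨h h2.1, h h2.2.1, h2.2.2⟩

theorem jn_symm (hs : ∀ x y, adj x y → adj y x) {S : Set X} {x y : X} (hxy : Jn adj S x y) :
    Jn adj S y x := by
  induction hxy with
  | refl => exact Relation.ReflTransGen.refl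
  | tail _ h2 ih => exact Relation.ReflTransGen.head ⟨h2.2.1, h2.1, hs _ _ h2.2.2⟩ ih

theorem conn_union {S T : Set X} (hS : Conn adj S) (hT : Conn adj T) (h : (S ∩ T).Nonempty) :
    Conn adj (S ∪ T) := by
  obtain ⟨z, hz1, hz2⟩ := h
  have key : ∀ x ∈ S ∪ T, Jn adj (S ∪ T) x z ∧ Jn adj (S ∪ T) z x := by
    rintro x (hx | hx)
    · exact ⟨jn_mono Set.subset_union_left (hS x hx z hz1),
        jn_mono Set.subset_union_left (hS z hz1 x hx)⟩
    · exact ⟨jn_mono Set.subset_union_right (hT x hx z hz2),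
        jn_mono Set.subset_union_right (hT z hz2 x hx)⟩
  exact fun x hx y hy => (key x hx).1.trans (key y hy).2

theorem conn_single (x : X) : Conn adj {x} := by
  intro a ha b hb
  rw [Set.mem_singleton_iff] at ha hb
  rw [ha, hb]
  exact Relation.ReflTransGen.refl

theorem conn_insert (hs : ∀ x y, adj x y → adj y x) {S : Set X} (hS : Conn adj S) {a b : X}
    (hb : b ∈ S) (hab : adj a b) : Conn adj (insert a S) := by
  have ha' : a ∈ insert a S := Set.mem_insert _ _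
  have hb' : b ∈ insert a S := Set.mem_insert_of_mem _ hb
  have key : ∀ x ∈ insert a S, Jn adj (insert a S) x b ∧ Jn adj (insert a S) b x := by
    intro x hx
    rcases Set.mem_insert_iff.1 hx with rfl | hx
    · exact ⟨Relation.ReflTransGen.single ⟨ha', hb', hab⟩,
        Relation.ReflTransGen.single ⟨hb', ha', hs _ _ hab⟩⟩
    · exact ⟨jn_mono (Set.subset_insert _ _) (hS x hx b hb),
        jn_mono (Set.subset_insert _ _) (hS b hb x hx)⟩
  exact fun x hx y hy => (key x hx).1.trans (key y hy).2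

/-- the part of a path before it meets `U` -/
theorem first_hit (hs : ∀ x y, adj x y → adj y x) {A U : Set X} {a y : X} (h : Jn adj A a y)
    (ha : a ∈ A) (hy : y ∈ U) :
    ∃ P : Set X, Conn adj P ∧ a ∈ P ∧ P ⊆ A ∧ ∃ z ∈ P, z ∈ U ∧ ∀ p ∈ P, p ∈ U → p = z := by
  induction h using Relation.ReflTransGen.head_induction_on with
  | refl =>
    exact ⟨{y}, conn_single y, rfl, by rintro _ rfl; exact ha, y, rfl, hy,
      fun p hp _ => hp⟩
  | @head a b h1 _ ih =>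
    by_cases haU : a ∈ U
    · exact ⟨{a}, conn_single a, rfl, by rintro _ rfl; exact ha, a, rfl, haU,
        fun p hp _ => hp⟩
    · obtain ⟨P, hP, hbP, hPA, z, hz, hzU, hz'⟩ := ih h1.2.1
      refine ⟨insert a P, conn_insert hs hP hbP h1.2.2, Set.mem_insert _ _, ?_, z,
        Set.mem_insert_of_mem _ hz, hzU, ?_⟩
      · intro p hp
        rcases Set.mem_insert_iff.1 hp with rfl | hp
        · exact ha
        · exact hPA hp
      · intro p hp hpU
        rcases Set.mem_insert_iff.1 hp with rfl | hp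
        · exact absurd hpU haU
        · exact hz' p hp hpU

/-- the part of a path before it enters `A₂` -/
theorem before (hs : ∀ x y, adj x y → adj y x) {S A₂ : Set X} {x y : X} (h : Jn adj S x y)
    (hxS : x ∈ S) (hx : x ∉ A₂) (hy : y ∈ A₂) :
    ∃ P : Set X, Conn adj P ∧ x ∈ P ∧ P ⊆ S ∧ Disjoint P A₂ ∧
      ∃ s ∈ P, ∃ a₂ ∈ A₂, adj s a₂ := by
  induction h using Relation.ReflTransGen.head_induction_on with
  | refl => exact absurd hy hx
  | @head a b h1 _ ih =>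
    by_cases hb : b ∈ A₂
    · refine ⟨{a}, conn_single a, rfl, by rintro _ rfl; exact hxS, ?_, a, rfl, b, hb, h1.2.2⟩
      rw [Set.disjoint_left]
      rintro _ rfl
      exact hx
    · obtain ⟨P, hP, hbP, hPS, hPd, s, hsP, a₂, ha₂, hsa⟩ := ih h1.2.1 hb
      refine ⟨insert a P, conn_insert hs hP hbP h1.2.2, Set.mem_insert _ _, ?_, ?_, s,
        Set.mem_insert_of_mem _ hsP, a₂, ha₂, hsa⟩
      · intro p hp
        rcases Set.mem_insert_iff.1 hp with rfl | hp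
        · exact hxS
        · exact hPS hp
      · rw [Set.disjoint_left] at hPd ⊢
        intro p hp
        rcases Set.mem_insert_iff.1 hp with rfl | hp
        · exact hx
        · exact hPd hp

/-- a root with two subtrees -/
theorem model_join {h : ℕ} {A Q A₂ A₃ : Set X} {B₂ B₃ : List Bool → Set X}
    (hQ : Conn adj Q) (hQA : Q ⊆ A) (hA₂ : A₂ ⊆ A) (hA₃ : A₃ ⊆ A) (d₂ : Disjoint Q A₂)
    (d₃ : Disjoint Q A₃) (d : Disjoint A₂ A₃) (m₂ : Model adj h A₂ B₂) (m₃ : Model adj h A₃ B₃)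
    {x₂ a₂ x₃ a₃ : X} (hx₂ : x₂ ∈ Q) (ha₂ : a₂ ∈ B₂ []) (e₂ : adj x₂ a₂) (hx₃ : x₃ ∈ Q)
    (ha₃ : a₃ ∈ B₃ []) (e₃ : adj x₃ a₃) :
    ∃ B : List Bool → Set X, Model adj (h + 1) A B ∧ B [] = Q := by
  let B : List Bool → Set X := fun u => match u with
    | [] => Q
    | true :: u => B₂ u
    | false :: u => B₃ u
  have hB : ∀ u : List Bool, u.length ≤ h + 1 → B u ⊆ A ∧ (B u).Nonempty ∧ Conn adj (B u) := by
    intro u hu
    match u with
    | [] => exact ⟨hQA, ⟨x₂, hx₂⟩, hQ⟩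
    | true :: u =>
      rw [List.length_cons] at hu
      exact ⟨(m₂.sub u (by omega)).trans hA₂, m₂.ne u (by omega), m₂.conn u (by omega)⟩
    | false :: u =>
      rw [List.length_cons] at hu
      exact ⟨(m₃.sub u (by omega)).trans hA₃, m₃.ne u (by omega), m₃.conn u (by omega)⟩
  refine ⟨B, ⟨fun u hu => (hB u hu).1, fun u hu => (hB u hu).2.1, fun u hu => (hB u hu).2.2,
    fun u v hu hv huv => ?_, fun u b hu => ?_⟩, rfl⟩
  · match u, v with
    | [], [] => exact absurd rfl huv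
    | [], true :: v =>
      rw [List.length_cons] at hv
      exact d₂.mono_right (m₂.sub v (by omega))
    | [], false :: v =>
      rw [List.length_cons] at hv
      exact d₃.mono_right (m₃.sub v (by omega))
    | true :: u, [] =>
      rw [List.length_cons] at hu
      exact (d₂.mono_right (m₂.sub u (by omega))).symm
    | false :: u, [] =>
      rw [List.length_cons] at hu
      exact (d₃.mono_right (m₃.sub u (by omega))).symm
    | true :: u, true :: v =>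
      rw [List.length_cons] at hu hv
      exact m₂.disj u v (by omega) (by omega) (fun h => huv (by rw [h]))
    | false :: u, false :: v =>
      rw [List.length_cons] at hu hv
      exact m₃.disj u v (by omega) (by omega) (fun h => huv (by rw [h]))
    | true :: u, false :: v =>
      rw [List.length_cons] at hu hv
      exact d.mono (m₂.sub u (by omega)) (m₃.sub v (by omega))
    | false :: u, true :: v =>
      rw [List.length_cons] at hu hv
      exact (d.mono (m₂.sub v (by omega)) (m₃.sub u (by omega))).symm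
  · match u, b with
    | [], true => exact ⟨x₂, hx₂, a₂, ha₂, e₂⟩
    | [], false => exact ⟨x₃, hx₃, a₃, ha₃, e₃⟩
    | true :: u, b =>
      rw [List.length_cons] at hu
      exact m₂.edge u b (by omega)
    | false :: u, b =>
      rw [List.length_cons] at hu
      exact m₃.edge u b (by omega)

/-- the tree when the path from `a` first meets `A₁` -/
theorem model_case (hs : ∀ x y, adj x y → adj y x) {h : ℕ} {A A₁ A₂ A₃ P : Set X} {a : X}
    (hA₁ : A₁ ⊆ A) (hA₂ : A₂ ⊆ A) (hA₃ : A₃ ⊆ A) (c₁ : Conn adj A₁)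
    (ih₂ : ∀ a₂ ∈ A₂, ∃ B : List Bool → Set X, Model adj h A₂ B ∧ a₂ ∈ B [])
    (ih₃ : ∀ a₃ ∈ A₃, ∃ B : List Bool → Set X, Model adj h A₃ B ∧ a₃ ∈ B [])
    (d₁₂ : Disjoint A₁ A₂) (d₁₃ : Disjoint A₁ A₃) (d₂₃ : Disjoint A₂ A₃)
    (j₁₂ : ∃ x ∈ A₁, ∃ y ∈ A₂, Jn adj (A \ A₃) x y) (j₁₃ : ∃ x ∈ A₁, ∃ y ∈ A₃, Jn adj (A \ A₂) x y)
    (hP : Conn adj P) (haP : a ∈ P) (hPA : P ⊆ A) (hP₁ : (P ∩ A₁).Nonempty) (hP₂ : Disjoint P A₂)
    (hP₃ : Disjoint P A₃) :
    ∃ B : List Bool → Set X, Model adj (h + 1) A B ∧ a ∈ B [] := by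
  obtain ⟨x, hx, y, hy, hxy⟩ := j₁₂
  obtain ⟨x', hx', y', hy', hxy'⟩ := j₁₃
  obtain ⟨S, hS, hxS, hSA, hSd, s, hsS, a₂, ha₂, hsa⟩ :=
    before hs hxy ⟨hA₁ hx, Set.disjoint_left.1 d₁₃ hx⟩ (Set.disjoint_left.1 d₁₂ hx) hy
  obtain ⟨S', hS', hxS', hSA', hSd', s', hsS', a₃, ha₃, hsa'⟩ :=
    before hs hxy' ⟨hA₁ hx', Set.disjoint_left.1 d₁₂ hx'⟩ (Set.disjoint_left.1 d₁₃ hx') hy'
  obtain ⟨B₂, m₂, hb₂⟩ := ih₂ a₂ ha₂
  obtain ⟨B₃, m₃, hb₃⟩ := ih₃ a₃ ha₃
  have hPA₁ := conn_union hP c₁ hP₁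
  have hPS := conn_union hPA₁ hS ⟨x, Or.inr hx, hxS⟩
  have hQ := conn_union hPS hS' ⟨x', Or.inl (Or.inr hx'), hxS'⟩
  have q₁ : ((P ∪ A₁) ∪ S) ∪ S' ⊆ A := by
    rintro z (((hz | hz) | hz) | hz)
    · exact hPA hz
    · exact hA₁ hz
    · exact (hSA hz).1
    · exact (hSA' hz).1
  have q₂ : Disjoint (((P ∪ A₁) ∪ S) ∪ S') A₂ := by
    rw [Set.disjoint_left]
    rintro z (((hz | hz) | hz) | hz)
    · exact Set.disjoint_left.1 hP₂ hz
    · exact Set.disjoint_left.1 d₁₂ hz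
    · exact Set.disjoint_left.1 hSd hz
    · exact (hSA' hz).2
  have q₃ : Disjoint (((P ∪ A₁) ∪ S) ∪ S') A₃ := by
    rw [Set.disjoint_left]
    rintro z (((hz | hz) | hz) | hz)
    · exact Set.disjoint_left.1 hP₃ hz
    · exact Set.disjoint_left.1 d₁₃ hz
    · exact (hSA hz).2
    · exact Set.disjoint_left.1 hSd' hz
  obtain ⟨B, hB, hB0⟩ := model_join hQ q₁ hA₂ hA₃ q₂ q₃ d₂₃ m₂ m₃ (x₂ := s)
    (Or.inl (Or.inr hsS)) hb₂ hsa (x₃ := s') (Or.inr hsS') hb₃ hsa'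
  exact ⟨B, hB, by rw [hB0]; exact Or.inl (Or.inl (Or.inl haP))⟩

theorem jn_ex_symm (hs : ∀ x y, adj x y → adj y x) {S A₁ A₂ : Set X}
    (h : ∃ x ∈ A₁, ∃ y ∈ A₂, Jn adj S x y) : ∃ x ∈ A₂, ∃ y ∈ A₁, Jn adj S x y := by
  obtain ⟨x, hx, y, hy, h⟩ := h
  exact ⟨y, hy, x, hx, jn_symm hs h⟩

/-- **rank gives tree minors** -/
theorem model_of_rk (hs : ∀ x y, adj x y → adj y x) (h : ℕ) :
    ∀ A : Set X, Conn adj A → Rk adj h A → ∀ a ∈ A,
      ∃ B : List Bool → Set X, Model adj h A B ∧ a ∈ B [] := by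
  induction h with
  | zero =>
    intro A hA _ a ha
    refine ⟨fun _ => {a}, ⟨fun u hu => ?_, fun u hu => ⟨a, rfl⟩, fun u hu => conn_single a,
      fun u v hu hv huv => ?_, fun u b hu => ?_⟩, rfl⟩
    · rintro _ rfl; exact ha
    · have h1 : u = [] := List.length_eq_zero_iff.1 (by omega)
      have h2 : v = [] := List.length_eq_zero_iff.1 (by omega)
      exact absurd (h1.trans h2.symm) huv
    · omega
  | succ h ih =>
    rintro A hA ⟨A₁, A₂, A₃, ⟨hA₁, hA₂, hA₃⟩, ⟨c₁, c₂, c₃⟩, ⟨r₁, r₂, r₃⟩, ⟨d₁₂, d₁₃, d₂₃⟩, j₁₂, j₁₃,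
      j₂₃⟩ a ha
    obtain ⟨y, hy⟩ : ∃ y, y ∈ A₁ := by
      obtain ⟨y, hy, -⟩ := j₁₂
      exact ⟨y, hy⟩
    obtain ⟨P, hP, haP, hPA, z, hz, hzU, hz'⟩ := first_hit (U := A₁ ∪ (A₂ ∪ A₃)) hs
      (hA a ha y (hA₁ hy)) ha (Or.inl hy)
    rcases hzU with hz1 | hz2 | hz3
    · refine model_case hs hA₁ hA₂ hA₃ c₁ (ih A₂ c₂ r₂) (ih A₃ c₃ r₃) d₁₂ d₁₃ d₂₃ j₁₂ j₁₃ hP haP hPA
        ⟨z, hz, hz1⟩ ?_ ?_
      · rw [Set.disjoint_left]
        intro p hp hp2
        rw [hz' p hp (Or.inr (Or.inl hp2))] at hp2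
        exact Set.disjoint_left.1 d₁₂ hz1 hp2
      · rw [Set.disjoint_left]
        intro p hp hp2
        rw [hz' p hp (Or.inr (Or.inr hp2))] at hp2
        exact Set.disjoint_left.1 d₁₃ hz1 hp2
    · refine model_case hs hA₂ hA₁ hA₃ c₂ (ih A₁ c₁ r₁) (ih A₃ c₃ r₃) d₁₂.symm d₂₃ d₁₃
        (jn_ex_symm hs j₁₂) j₂₃ hP haP hPA ⟨z, hz, hz2⟩ ?_ ?_
      · rw [Set.disjoint_left]
        intro p hp hp2
        rw [hz' p hp (Or.inl hp2)] at hp2
        exact Set.disjoint_left.1 d₁₂ hp2 hz2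
      · rw [Set.disjoint_left]
        intro p hp hp2
        rw [hz' p hp (Or.inr (Or.inr hp2))] at hp2
        exact Set.disjoint_left.1 d₂₃ hz2 hp2
    · refine model_case hs hA₃ hA₁ hA₂ c₃ (ih A₁ c₁ r₁) (ih A₂ c₂ r₂) d₁₃.symm d₂₃.symm d₁₂
        (jn_ex_symm hs j₁₃) (jn_ex_symm hs j₂₃) hP haP hPA ⟨z, hz, hz3⟩ ?_ ?_
      · rw [Set.disjoint_left]
        intro p hp hp2
        rw [hz' p hp (Or.inl hp2)] at hp2
        exact Set.disjoint_left.1 d₁₃ hp2 hz3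
      · rw [Set.disjoint_left]
        intro p hp hp2
        rw [hz' p hp (Or.inr (Or.inl hp2))] at hp2
        exact Set.disjoint_left.1 d₂₃ hp2 hz3

end TRE

end Pool.Agent.QLN
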