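/-
Binary trees as minors of Schreier graphs: final form from the piece T2.
-/
import Pool.Agent.Lib.QLN.TREE
import Pool.Agent.Lib.QLN.FinalB

set_option autoImplicit false

namespace Pool.Agent.QLN

open Pool.Agent.SCH

/-- Piece T2: long balls of small rank give long quasi-linear balls. -/
def RowT2.{u} : Prop :=
  ∀ (X : Type u) (ι : Type) [Finite ι] (inv : ι → ι) (σ : ι → Equiv.Perm X) (h : ℕ),
    (∀ s, σ (inv s) = (σ s)⁻¹) →
    (∀ R : ℕ, ∃ x, (∃ u : List ι, wd σ u x ∉ ball σ x R) ∧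
      ¬ TRE.Rk (fun a b => ∃ s, σ s a = b) h (ball σ x R)) →
    ∃ K : ℕ, ∀ R : ℕ, ∃ (x : X) (φ : X → ℤ), (∃ u : List ι, wd σ u x ∉ ball σ x R) ∧
      (∀ y ∈ ball σ x R, ∀ s, σ s y ∈ ball σ x R → |φ (σ s y) - φ y| ≤ (K : ℤ)) ∧
      ∀ y ∈ ball σ x R, ∀ z ∈ ball σ x R,
        ∃ w : List ι, (w.length : ℤ) ≤ K * (|φ y - φ z| + 1) ∧ wd σ w y = z

theorem mem_ball_self {X ι : Type*} (σ : ι → Equiv.Perm X) (x : X) (R : ℕ) : x ∈ ball σ x R :=
  ⟨[], by simp, by simp [wd_nil]⟩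

/-- balls are connected -/
theorem conn_ball {X : Type*} {ι : Type} {inv : ι → ι} (σ : ι → Equiv.Perm X)
    (hinv : ∀ s, σ (inv s) = (σ s)⁻¹) (x : X) (R : ℕ) :
    TRE.Conn (fun a b => ∃ s, σ s a = b) (ball σ x R) := by
  have hs : ∀ a b, (∃ s, σ s a = b) → ∃ s, σ s b = a := by
    rintro a b ⟨s, rfl⟩
    refine ⟨inv s, ?_⟩
    rw [hinv]
    exact (σ s).symm_apply_apply a
  have key : ∀ w : List ι, w.length ≤ R →
      TRE.Jn (fun a b => ∃ s, σ s a = b) (ball σ x R) x (wd σ w x) := by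
    intro w
    induction w with
    | nil => intro _; rw [wd_nil]; exact Relation.ReflTransGen.refl
    | cons s w ih =>
      intro hw
      rw [List.length_cons] at hw
      refine (ih (by omega)).tail ⟨⟨w, by omega, rfl⟩, ⟨s :: w, by simpa using hw, rfl⟩, s, ?_⟩
      rw [wd_cons, Equiv.Perm.mul_apply]
  rintro _ ⟨v, hv, rfl⟩ _ ⟨w, hw, rfl⟩
  exact (TRE.jn_symm hs (key v hv)).trans (key w hw)

/-- a model in a fibre of the disjoint union -/
theorem model_fibre {m : ℕ} {X : ℕ → Type*} {G : ℕ → Type*} [∀ R, Group (G R)]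
    [∀ R, MulAction (G R) (X R)] (e : ∀ R, Fin m → G R) {h R ρ : ℕ} {x : X R}
    {B : List Bool → Set (Σ R, X R)}
    (hB : TRE.Model (fun a b => ∃ s, sigS (X := X) e s a = b) h
      (ball (sigS (X := X) e) ⟨R, x⟩ ρ) B) :
    TRE.Model (fun a b => ∃ s, sig (X R) (e R) s a = b) h (ball (sig (X R) (e R)) x ρ)
      (fun u => {y | (⟨R, y⟩ : Σ R, X R) ∈ B u}) := by
  have hfib : ∀ u, u.length ≤ h → ∀ y ∈ B u, ∃ y' : X R, y = ⟨R, y'⟩ := by
    intro u hu y hy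
    obtain ⟨y', h1, _⟩ := ball_sigS e (hB.sub u hu hy)
    exact ⟨y', h1⟩
  refine ⟨fun u hu y hy => mem_ball_sigS e (hB.sub u hu hy), fun u hu => ?_, fun u hu => ?_,
    fun u v hu hv huv => ?_, fun u b hu => ?_⟩
  · obtain ⟨y, hy⟩ := hB.ne u hu
    obtain ⟨y', rfl⟩ := hfib u hu y hy
    exact ⟨y', hy⟩
  · intro a ha b hb
    have h1 := hB.conn u hu ⟨R, a⟩ ha ⟨R, b⟩ hb
    have key : ∀ y : Σ R, X R, TRE.Jn (fun a b => ∃ s, sigS (X := X) e s a = b) (B u) ⟨R, a⟩ y →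
        ∀ y' : X R, y = ⟨R, y'⟩ → TRE.Jn (fun a b => ∃ s, sig (X R) (e R) s a = b)
          {y | (⟨R, y⟩ : Σ R, X R) ∈ B u} a y' := by
      intro y hy
      induction hy with
      | refl =>
        intro y' h2
        have h3 : a = y' := eq_of_heq (Sigma.mk.inj_iff.1 h2).2
        rw [← h3]
        exact Relation.ReflTransGen.refl
      | tail _ h2 ih =>
        rename_i c d _
        intro y' h3
        obtain ⟨c', rfl⟩ := hfib u hu c h2.1
        subst h3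
        obtain ⟨s, hs⟩ := h2.2.2
        have h4 : sig (X R) (e R) s c' = y' := by
          change (⟨R, sig (X R) (e R) s c'⟩ : Σ R, X R) = ⟨R, y'⟩ at hs
          exact eq_of_heq (Sigma.mk.inj_iff.1 hs).2
        exact (ih c' rfl).tail ⟨h2.1, h2.2.1, s, h4⟩
    exact key _ h1 b rfl
  · refine Set.disjoint_left.2 fun y hy hy' => ?_
    exact Set.disjoint_left.1 (hB.disj u v hu hv huv) hy hy'
  · obtain ⟨y, hy, z, hz, s, hs⟩ := hB.edge u b hu
    have hz' : z ∈ B (u ++ [b]) := hz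
    obtain ⟨y', rfl⟩ := hfib u (by omega) y hy
    obtain ⟨z', rfl⟩ := hfib (u ++ [b]) (by simpa using hu) z hz
    refine ⟨y', hy, z', hz, s, ?_⟩
    change (⟨R, sig (X R) (e R) s y'⟩ : Σ R, X R) = ⟨R, z'⟩ at hs
    exact eq_of_heq (Sigma.mk.inj_iff.1 hs).2

theorem sigS_inv {m : ℕ} {X : ℕ → Type*} {G : ℕ → Type*} [∀ R, Group (G R)]
    [∀ R, MulAction (G R) (X R)] (e : ∀ R, Fin m → G R) (s : Fin m × Bool) :
    sigS (X := X) e (sinv s) = (sigS (X := X) e s)⁻¹ := by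
  refine Equiv.ext ?_
  rintro ⟨R, y⟩
  rw [Equiv.Perm.eq_inv_iff_eq]
  change (⟨R, sig (X R) (e R) s (sig (X R) (e R) (sinv s) y)⟩ : Σ R, X R) = ⟨R, y⟩
  rw [sig_sinv]
  have e2 : sig (X R) (e R) s ((sig (X R) (e R) s)⁻¹ y) = y :=
    (sig (X R) (e R) s).apply_symm_apply y
  rw [e2]

/-- every large ball of a Schreier graph is an orbit or has a deep binary tree as a minor -/
theorem finalT.{u, v} (hT2 : RowT2.{v}) (hEMBED : RowEMBED.{v}) (hDEPTH : RowDEPTH)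
    (hCLUSTER : RowCLUSTER) (hPAR : RowPAR) (hNOGAP : RowNOGAP) (m n h : ℕ) (hn : 0 < n) :
    ∃ R : ℕ, ∀ (G : Type u) (X : Type v) [Group G] [MulAction G X] (e : Fin m → G),
      Subgroup.closure (Set.range e) = ⊤ → (∀ g : G, g ^ n = 1) →
      ∀ x : X, (∀ z ∈ MulAction.orbit G x, Within (Set.range e) R x z) ∨
        ∃ B : List Bool → Set X, TRE.Model (fun a b => ∃ s, sig X e s a = b) h
          (ball (sig X e) x R) B := by
  classical
  by_contra hcon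
  push Not at hcon
  choose G X i1 i2 e hgen hexp x hzB using hcon
  have hsymm : ∀ a b : Σ R, X R, (∃ s, sigS (X := X) e s a = b) → ∃ s, sigS (X := X) e s b = a := by
    rintro a b ⟨s, rfl⟩
    refine ⟨sinv s, ?_⟩
    rw [sigS_inv]
    exact (sigS e s).symm_apply_apply a
  obtain ⟨K, hK⟩ := hT2 (Σ R, X R) (Fin m × Bool) sinv (sigS e) h (fun s => sigS_inv e s) fun R => by
    refine ⟨⟨R, x R⟩, ?_, fun hrk => ?_⟩
    · obtain ⟨⟨z, hz1, hz2⟩, _⟩ := hzB R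
      obtain ⟨g, hg⟩ := hz1
      obtain ⟨w, hw⟩ := exists_word (e R) (hgen R) g
      refine ⟨w, fun h => hz2 ((within_iff (e R)).2 ?_)⟩
      rw [wd_sigS] at h
      have h2 := mem_ball_sigS e h
      rw [wd_sig, hw] at h2
      rw [← hg]
      exact h2
    · obtain ⟨B, hB1, _⟩ := TRE.model_of_rk hsymm h _
        (conn_ball (sigS e) (fun s => sigS_inv e s) ⟨R, x R⟩ R) hrk ⟨R, x R⟩ (mem_ball_self _ _ _)
      exact (hzB R).2 _ (model_fibre e hB1)
  refine no_qsys hDEPTH hCLUSTER hPAR hNOGAP (sinv (m := m)) hn ?_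
  refine hEMBED (Σ R, X R) (Fin m × Bool) sinv n K (sigS e) hn (fun s => sigS_inv e s)
    (fun w => ?_) hK
  refine Equiv.ext ?_
  rintro ⟨R, y⟩
  rw [← wd_wpow, wd_sigS, wd_wpow, wd_sig_pow, hexp]
  simp

end Pool.Agent.QLN
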