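/-
Binary trees as minors of Schreier graphs, second part: balls of bounded rank are quasi-linear
(helper98).
-/
import Pool.Agent.Lib.QLN.TREE
import Pool.Agent.Lib.QLN.EMBED

set_option autoImplicit false

namespace Pool.Agent.QLN

open Pool.Agent.SCH

universe u

namespace TRE

variable {X : Type u} {ι : Type} {inv : ι → ι} {σ : ι → Equiv.Perm X}

/-- neighbours in the Schreier graph -/
def ad (σ : ι → Equiv.Perm X) (a b : X) : Prop := ∃ s, σ s a = b

theorem ad_symm (hinv : ∀ s, σ (inv s) = (σ s)⁻¹) (a b : X) (h : ad σ a b) : ad σ b a := by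
  obtain ⟨s, rfl⟩ := h
  exact ⟨inv s, by rw [hinv]; simp⟩

theorem ball_symm (hinv : ∀ s, σ (inv s) = (σ s)⁻¹) {x y : X} {t : ℕ} (h : y ∈ ball σ x t) :
    x ∈ ball σ y t := by
  obtain ⟨w, hw, rfl⟩ := h
  exact ⟨winv inv w, by rw [length_winv]; exact hw, by rw [wd_winv hinv]; simp⟩

theorem jn_word {S : Set X} (x : X) (w : List ι) (h : ∀ v : List ι, v <:+ w → wd σ v x ∈ S) :
    Jn (ad σ) S x (wd σ w x) := by
  induction w with
  | nil => rw [wd_nil]; exact Relation.ReflTransGen.refl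
  | cons s w ih =>
    have h1 : w <:+ s :: w := List.suffix_cons s w
    refine (ih fun v hv => h v (hv.trans h1)).tail ⟨h w h1, h _ (List.suffix_refl _), s, ?_⟩
    rw [wd_cons, Equiv.Perm.mul_apply]

theorem conn_ball (hinv : ∀ s, σ (inv s) = (σ s)⁻¹) (x : X) (R : ℕ) :
    Conn (ad σ) (ball σ x R) := by
  have key : ∀ y ∈ ball σ x R, Jn (ad σ) (ball σ x R) x y := by
    rintro y ⟨w, hw, rfl⟩
    exact jn_word x w fun v hv => ⟨v, hv.length_le.trans hw, rfl⟩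
  exact fun y hy z hz => (jn_symm (ad_symm hinv) (key y hy)).trans (key z hz)

/-- a geodesic of length `R` from `x` -/
structure Geo (σ : ι → Equiv.Perm X) (x : X) (R : ℕ) (g : ℕ → X) : Prop where
  step : ∀ i, i < R → ad σ (g i) (g (i + 1))
  up : ∀ i, i ≤ R → g i ∈ ball σ x i
  low : ∀ i, i ≤ R → ∀ t, g i ∈ ball σ x t → i ≤ t

theorem exists_geo {x : X} {R : ℕ} (u : List ι) (hu : wd σ u x ∉ ball σ x (R + 1)) :
    ∃ g : ℕ → X, Geo σ x (R + 1) g := by
  obtain ⟨y, ⟨w, hw, rfl⟩, hy⟩ := EMB.exit u hu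
  have hlen : w.length = R + 1 := by
    by_contra hc
    exact hy ⟨w, by omega, rfl⟩
  refine ⟨fun i => wd σ (w.drop (R + 1 - i)) x, ⟨fun i hi => ?_, fun i hi => ?_,
    fun i hi t ht => ?_⟩⟩
  · have h1 : R + 1 - (i + 1) < w.length := by omega
    have h2 := List.drop_eq_getElem_cons h1
    have h3 : R + 1 - (i + 1) + 1 = R + 1 - i := by omega
    rw [h3] at h2
    refine ⟨w[R + 1 - (i + 1)], ?_⟩
    rw [h2, wd_cons, Equiv.Perm.mul_apply]
  · exact ⟨_, by rw [List.length_drop]; omega, rfl⟩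
  · obtain ⟨v, hv, hv2⟩ := ht
    have h1 : wd σ w x = wd σ (w.take (R + 1 - i) ++ v) x := by
      conv_lhs => rw [← List.take_append_drop (R + 1 - i) w]
      rw [wd_append, wd_append, Equiv.Perm.mul_apply, Equiv.Perm.mul_apply, hv2]
    by_contra hc
    refine hy ⟨w.take (R + 1 - i) ++ v, ?_, h1.symm⟩
    rw [List.length_append, List.length_take]
    omega

section geo
variable {x : X} {R : ℕ} {g : ℕ → X}

theorem Geo.far (hg : Geo σ x R g) {i j t : ℕ} (hij : i ≤ j) (hj : j ≤ R)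
    (h : g j ∈ ball σ (g i) t) : j ≤ i + t :=
  hg.low j hj _ (EMB.ball_trans (hg.up i (hij.trans hj)) h)

theorem Geo.near (hg : Geo σ x R g) (i k : ℕ) (hk : i + k ≤ R) : g (i + k) ∈ ball σ (g i) k := by
  induction k with
  | zero => exact EMB.self_mem _ _
  | succ k ih =>
    obtain ⟨s, hs⟩ := hg.step (i + k) (by omega)
    have h1 := EMB.ball_wd (ih (by omega)) [s]
    rw [wd_singleton, hs] at h1
    exact h1

theorem Geo.near' (hg : Geo σ x R g) {i j : ℕ} (hij : i ≤ j) (hj : j ≤ R) :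
    g j ∈ ball σ (g i) (j - i) := by
  have := hg.near i (j - i) (by omega)
  rwa [Nat.add_sub_cancel' hij] at this

theorem Geo.jn (hg : Geo σ x R g) {S : Set X} (i k : ℕ) (hk : i + k ≤ R)
    (h : ∀ j, i ≤ j → j ≤ i + k → g j ∈ S) : Jn (ad σ) S (g i) (g (i + k)) := by
  induction k with
  | zero => exact Relation.ReflTransGen.refl
  | succ k ih =>
    refine (ih (by omega) fun j h1 h2 => h j h1 (by omega)).tail
      ⟨h _ (by omega) (by omega), h _ (by omega) (by omega), hg.step (i + k) (by omega)⟩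

theorem Geo.jn' (hg : Geo σ x R g) {S : Set X} {i j : ℕ} (hij : i ≤ j) (hj : j ≤ R)
    (h : ∀ k, i ≤ k → k ≤ j → g k ∈ S) : Jn (ad σ) S (g i) (g j) := by
  have := hg.jn (S := S) i (j - i) (by omega) (fun k h1 h2 => h k h1 (by omega))
  rwa [Nat.add_sub_cancel' hij] at this

end geo

/-- the orbit leaves smaller balls -/
theorem leaves (hinv : ∀ s, σ (inv s) = (σ s)⁻¹) {x z : X} {R R₁ t : ℕ} (hz : z ∈ ball σ x t)
    (hsub : ball σ z R₁ ⊆ ball σ x R) (hu : ∃ u : List ι, wd σ u x ∉ ball σ x R) :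
    ∃ u : List ι, wd σ u z ∉ ball σ z R₁ := by
  obtain ⟨u, hu⟩ := hu
  obtain ⟨v, _, rfl⟩ := hz
  refine ⟨u ++ winv inv v, fun h => hu (hsub ?_)⟩
  rw [wd_append, wd_winv hinv] at h
  simpa using h

theorem ball_sub {x z : X} {a b c : ℕ} (hz : z ∈ ball σ x a) (h : a + b ≤ c) :
    ball σ z b ⊆ ball σ x c := fun _ hy => EMB.ball_mono x h (EMB.ball_trans hz hy)

/-- **the ball is near the geodesic** -/
theorem near_geo (hinv : ∀ s, σ (inv s) = (σ s)⁻¹) {h R₁ ρ M : ℕ}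
    (hR₁ : ∀ z : X, (∃ u : List ι, wd σ u z ∉ ball σ z R₁) → Rk (ad σ) h (ball σ z R₁))
    (hM : M = 3 * ρ + 3 * R₁ + 2) {x : X} (hu : ∃ u : List ι, wd σ u x ∉ ball σ x (2 * M))
    (hrk : ¬ Rk (ad σ) (h + 1) (ball σ x (2 * M))) {g : ℕ → X} (hg : Geo σ x (2 * M) g) {y : X}
    (hy : y ∈ ball σ (g M) ρ) : ∃ i, i ≤ 2 * M ∧ y ∈ ball σ (g i) (2 * R₁) := by
  classical
  by_contra hcon
  push Not at hcon
  have hex : ∃ m : ℕ, ∃ i, i ≤ 2 * M ∧ y ∈ ball σ (g i) m := ⟨ρ, M, by omega, hy⟩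
  obtain ⟨t, ht, hyt⟩ := Nat.find_spec hex
  have hmin : ∀ m' i, i ≤ 2 * M → y ∈ ball σ (g i) m' → Nat.find hex ≤ m' := fun m' i hi h =>
    Nat.find_min' hex ⟨i, hi, h⟩
  generalize Nat.find hex = m at hyt hmin
  have hmρ : m ≤ ρ := hmin ρ M (by omega) hy
  have hm : 2 * R₁ < m := by
    by_contra hc
    exact hcon t ht (EMB.ball_mono _ (by omega) hyt)
  -- the index `t` is near `M`
  have ht1 : g t ∈ ball σ (g M) (ρ + m) := EMB.ball_trans hy (ball_symm hinv hyt)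
  have ht2 : t ≤ M + (ρ + m) := by
    rcases le_total M t with h1 | h1
    · exact hg.far h1 ht ht1
    · omega
  have ht3 : M ≤ t + (ρ + m) := by
    rcases le_total t M with h1 | h1
    · exact hg.far h1 (by omega) (ball_symm hinv ht1)
    · omega
  obtain ⟨a, ha⟩ : ∃ a, a = 2 * R₁ + 1 := ⟨_, rfl⟩
  obtain ⟨i, hi⟩ : ∃ i, i + a = t := ⟨t - a, by omega⟩
  obtain ⟨j, hj⟩ : ∃ j, j = t + a := ⟨_, rfl⟩
  have hiM : i ≤ 2 * M := by omega
  have hjM : j ≤ 2 * M := by omega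
  have hyx : y ∈ ball σ x (M + ρ) := EMB.ball_trans (hg.up M (by omega)) hy
  -- the three balls
  have s₁ : ball σ (g i) R₁ ⊆ ball σ x (2 * M) := ball_sub (hg.up i hiM) (by omega)
  have s₂ : ball σ (g j) R₁ ⊆ ball σ x (2 * M) := ball_sub (hg.up j hjM) (by omega)
  have s₃ : ball σ y R₁ ⊆ ball σ x (2 * M) := ball_sub hyx (by omega)
  have hgx : ∀ k, k ≤ 2 * M → g k ∈ ball σ x (2 * M) := fun k hk =>
    EMB.ball_mono _ hk (hg.up k hk)
  -- points of the geodesic outside the balls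
  have o₁ : ∀ k, i + R₁ < k → k ≤ 2 * M → g k ∉ ball σ (g i) R₁ := by
    intro k h1 h2 h3
    have := hg.far (by omega) h2 h3
    omega
  have o₂ : ∀ k, k + R₁ < j → g k ∉ ball σ (g j) R₁ := by
    intro k h1 h3
    have := hg.far (by omega) hjM (ball_symm hinv h3)
    omega
  have o₃ : ∀ k, k ≤ 2 * M → g k ∉ ball σ y R₁ := by
    intro k h1 h2
    exact hcon k h1 (EMB.ball_mono _ (by omega) (ball_symm hinv h2))
  -- the path from `g t` to `y`
  obtain ⟨w, hw, hwy⟩ := hyt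
  have p : ∀ k, k ≤ 2 * M → (k = i ∨ k = j) → ∀ v : List ι, v <:+ w →
      wd σ v (g t) ∈ ball σ x (2 * M) \ ball σ (g k) R₁ := by
    intro k hk hkij v hv
    obtain ⟨w', rfl⟩ := hv
    rw [List.length_append] at hw
    refine ⟨ball_sub (hg.up t ht) (b := v.length) (by omega) ⟨v, le_rfl, rfl⟩, fun hc => ?_⟩
    have h1 : g t ∈ ball σ (g k) (R₁ + v.length) :=
      EMB.ball_trans hc (ball_symm hinv ⟨v, le_rfl, rfl⟩)
    have h2 : R₁ + 1 ≤ v.length := by
      rcases hkij with rfl | rfl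
      · have := hg.far (by omega) ht h1
        omega
      · have := hg.far (by omega) hk (ball_symm hinv h1)
        omega
    have h3 : y ∈ ball σ (g k) (R₁ + w'.length) := by
      refine EMB.ball_trans hc ⟨w', le_rfl, ?_⟩
      rw [← hwy, wd_append, Equiv.Perm.mul_apply]
    have := hmin _ k hk h3
    omega
  have q : ∀ k, k ≤ 2 * M → (k = i ∨ k = j) → Jn (ad σ) (ball σ x (2 * M) \ ball σ (g k) R₁)
      (g t) y := by
    intro k hk hkij
    have := jn_word (g t) w (p k hk hkij)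
    rwa [hwy] at this
  refine hrk ⟨ball σ (g i) R₁, ball σ (g j) R₁, ball σ y R₁, ⟨s₁, s₂, s₃⟩,
    ⟨conn_ball hinv _ _, conn_ball hinv _ _, conn_ball hinv _ _⟩,
    ⟨hR₁ _ (leaves hinv (hg.up i hiM) s₁ hu), hR₁ _ (leaves hinv (hg.up j hjM) s₂ hu),
      hR₁ _ (leaves hinv hyx s₃ hu)⟩, ⟨?_, ?_, ?_⟩, ?_, ?_, ?_⟩
  · rw [Set.disjoint_left]
    intro z h1 h2
    have := hg.far (show i ≤ j by omega) hjM (EMB.ball_trans h1 (ball_symm hinv h2))
    omega
  · rw [Set.disjoint_left]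
    intro z h1 h2
    exact hcon i hiM (EMB.ball_mono _ (by omega) (EMB.ball_trans h1 (ball_symm hinv h2)))
  · rw [Set.disjoint_left]
    intro z h1 h2
    exact hcon j hjM (EMB.ball_mono _ (by omega) (EMB.ball_trans h1 (ball_symm hinv h2)))
  · exact ⟨g i, EMB.self_mem _ _, g j, EMB.self_mem _ _, hg.jn' (by omega) hjM
      fun k _ h2 => ⟨hgx k (by omega), o₃ k (by omega)⟩⟩
  · have j₂ : Jn (ad σ) (ball σ x (2 * M) \ ball σ (g j) R₁) (g i) (g t) :=
      hg.jn' (by omega) ht fun k _ h2 => ⟨hgx k (by omega), o₂ k (by omega)⟩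
    exact ⟨g i, EMB.self_mem _ _, y, EMB.self_mem _ _, j₂.trans (q j hjM (Or.inr rfl))⟩
  · have j₁ : Jn (ad σ) (ball σ x (2 * M) \ ball σ (g i) R₁) (g t) (g j) :=
      hg.jn' (by omega) hjM fun k h1 h2 => ⟨hgx k (by omega), o₁ k (by omega) (by omega)⟩
    exact ⟨g j, EMB.self_mem _ _, y, EMB.self_mem _ _,
      (jn_symm (ad_symm hinv) j₁).trans (q i hiM (Or.inl rfl))⟩

/-- **balls of bounded rank give quasi-linear balls** -/
theorem quasi (hinv : ∀ s, σ (inv s) = (σ s)⁻¹) (h : ℕ)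
    (H : ∀ R : ℕ, ∃ x : X, (∃ u : List ι, wd σ u x ∉ ball σ x R) ∧
      ¬ Rk (ad σ) h (ball σ x R)) :
    ∃ K : ℕ, ∀ R : ℕ, ∃ (x : X) (φ : X → ℤ), (∃ u : List ι, wd σ u x ∉ ball σ x R) ∧
      (∀ y ∈ ball σ x R, ∀ s, σ s y ∈ ball σ x R → |φ (σ s y) - φ y| ≤ (K : ℤ)) ∧
      ∀ y ∈ ball σ x R, ∀ z ∈ ball σ x R,
        ∃ w : List ι, (w.length : ℤ) ≤ K * (|φ y - φ z| + 1) ∧ wd σ w y = z := by
  classical
  induction h with
  | zero =>
    obtain ⟨x, _, h1⟩ := H 0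
    exact absurd ⟨x, EMB.self_mem x 0⟩ h1
  | succ h ih =>
    by_cases hH : ∀ R : ℕ, ∃ x : X, (∃ u : List ι, wd σ u x ∉ ball σ x R) ∧
        ¬ Rk (ad σ) h (ball σ x R)
    · exact ih hH
    push Not at hH
    obtain ⟨R₁, hR₁⟩ := hH
    have hR₁' : ∀ z : X, (∃ u : List ι, wd σ u z ∉ ball σ z R₁) →
        Rk (ad σ) h (ball σ z R₁) := fun z hz => hR₁ z hz
    refine ⟨4 * R₁ + 1, fun ρ => ?_⟩
    obtain ⟨M, hM⟩ : ∃ M, M = 3 * ρ + 3 * R₁ + 2 := ⟨_, rfl⟩
    obtain ⟨x, hu, hrk⟩ := H (2 * M)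
    obtain ⟨g, hg⟩ : ∃ g : ℕ → X, Geo σ x (2 * M) g := by
      obtain ⟨u, hu⟩ := hu
      obtain ⟨R', hR'⟩ : ∃ R', 2 * M = R' + 1 := ⟨2 * M - 1, by omega⟩
      rw [hR'] at hu ⊢
      exact exists_geo u hu
    have hnear : ∀ y, ∃ i : ℕ, y ∈ ball σ (g M) ρ → i ≤ 2 * M ∧ y ∈ ball σ (g i) (2 * R₁) := by
      intro y
      by_cases hy : y ∈ ball σ (g M) ρ
      · obtain ⟨i, hi⟩ := near_geo hinv hR₁' hM hu hrk hg hy
        exact ⟨i, fun _ => hi⟩
      · exact ⟨0, fun h => absurd h hy⟩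
    choose f hf using hnear
    have hlow : ∀ y ∈ ball σ (g M) ρ, ∀ z ∈ ball σ (g M) ρ, ∀ t : ℕ, z ∈ ball σ y t →
        |(f z : ℤ) - f y| ≤ 4 * R₁ + t := by
      intro y hy z hz t hyz
      obtain ⟨h1, h2⟩ := hf y hy
      obtain ⟨h3, h4⟩ := hf z hz
      have h5 : g (f z) ∈ ball σ (g (f y)) (2 * R₁ + t + 2 * R₁) :=
        EMB.ball_trans (EMB.ball_trans h2 hyz) (ball_symm hinv h4)
      have h6 : f z ≤ f y + (2 * R₁ + t + 2 * R₁) := by
        rcases le_total (f y) (f z) with h7 | h7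
        · exact hg.far h7 h3 h5
        · omega
      have h8 : f y ≤ f z + (2 * R₁ + t + 2 * R₁) := by
        rcases le_total (f z) (f y) with h7 | h7
        · exact hg.far h7 h1 (ball_symm hinv h5)
        · omega
      rw [abs_le]
      constructor <;> omega
    refine ⟨g M, fun y => (f y : ℤ), ?_, fun y hy s hs => ?_, fun y hy z hz => ?_⟩
    · exact leaves hinv (hg.up M (by omega)) (ball_sub (hg.up M (by omega)) (by omega)) hu
    · have h1 := hlow y hy _ hs 1 ⟨[s], by simp, by rw [wd_singleton]⟩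
      push_cast at h1 ⊢
      exact h1
    · obtain ⟨h1, h2⟩ := hf y hy
      obtain ⟨h3, h4⟩ := hf z hz
      have h5 : g (f z) ∈ ball σ (g (f y)) ((f y : ℤ) - f z).natAbs := by
        rcases le_total (f y) (f z) with h7 | h7
        · have := hg.near' h7 h3
          have e : ((f y : ℤ) - f z).natAbs = f z - f y := by omega
          rwa [e]
        · have := ball_symm hinv (hg.near' h7 h1)
          have e : ((f y : ℤ) - f z).natAbs = f y - f z := by omega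
          rwa [e]
      obtain ⟨w, hw, hwz⟩ := EMB.ball_trans (EMB.ball_trans (ball_symm hinv h2) h5) h4
      refine ⟨w, ?_, hwz⟩
      have h6 : (w.length : ℤ) ≤ 2 * R₁ + |(f y : ℤ) - f z| + 2 * R₁ := by
        rw [Int.abs_eq_natAbs]
        exact_mod_cast hw
      have h7 : (0 : ℤ) ≤ |(f y : ℤ) - f z| := abs_nonneg _
      have h8 : (0 : ℤ) ≤ R₁ := by positivity
      push_cast
      nlinarith [mul_nonneg h8 h7]

end TRE

end Pool.Agent.QLN
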