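/-
Groups of bounded exponent: tree minors in Schreier graphs, permutations of the integers.
-/
import Pool.Agent.Lib.QLN.AllB
import Pool.Agent.Lib.QLN.FinalT
import Pool.Agent.Lib.QLN.TREE2

set_option autoImplicit false

namespace Pool.Agent.QLN

theorem rowT2.{w} : RowT2.{w} := by
  intro X ι _ inv σ h hinv H
  exact TRE.quasi hinv h H

theorem tree_minors.{u, v} (m n h : ℕ) (hn : 0 < n) :
    ∃ R : ℕ, ∀ (G : Type u) (X : Type v) [Group G] [MulAction G X] (e : Fin m → G),
      Subgroup.closure (Set.range e) = ⊤ → (∀ g : G, g ^ n = 1) →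
      ∀ x : X, (∀ z ∈ MulAction.orbit G x, Within (Set.range e) R x z) ∨
        ∃ B : List Bool → Set X, TRE.Model (fun a b => ∃ s, sig X e s a = b) h
          (ball (sig X e) x R) B :=
  finalT rowT2 (rowEMBED rowLIM) allDEPTH allCLUSTER allPAR allNOGAP m n h hn

/-- permutations of the integers of bounded displacement -/
theorem card_int (m n K : ℕ) (hn : 0 < n) : ∃ N : ℕ, ∀ e : Fin m → Equiv.Perm ℤ,
    (∀ i j, |e i j - j| ≤ (K : ℤ)) → (∀ g ∈ Subgroup.closure (Set.range e), g ^ n = 1) →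
      Finite (Subgroup.closure (Set.range e)) ∧
        Nat.card (Subgroup.closure (Set.range e)) ≤ N := by
  obtain ⟨R, hR⟩ := no_long_narrow.{0, 0} m n (K + 1) hn
  obtain ⟨N', hN'⟩ := ball_card'.{0, 0} m R
  refine ⟨(max 0 N').factorial ^ ((max 0 N').factorial ^ m), fun e he hexp => ?_⟩
  let L : Subgroup (Equiv.Perm ℤ) := Subgroup.closure (Set.range e)
  let e' : Fin m → L := fun i => ⟨e i, Subgroup.subset_closure ⟨i, rfl⟩⟩
  have hgen : Subgroup.closure (Set.range e') = ⊤ := by
    have h1 : Set.range e' = ((↑) : L → Equiv.Perm ℤ) ⁻¹' Set.range e := by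
      ext g
      constructor
      · rintro ⟨i, rfl⟩; exact ⟨i, rfl⟩
      · rintro ⟨i, hi⟩; exact ⟨i, Subtype.ext hi⟩
    rw [h1]
    exact Subgroup.closure_closure_coe_preimage
  refine card_of_bounded (X := ℤ) e' hgen
    (orbit_final e' R 0 N' (hN' L ℤ e')
    (Narrow (Set.range e') (K + 1) R)
    (fun x hx z hz => hR L ℤ e' hgen (fun g => Subtype.ext (by
      rw [Subgroup.coe_pow]; exact hexp g g.2)) x hx z hz)
    fun x _ => ⟨x, MulAction.mem_orbit_self x,
      narrow_int (Set.range e') (K + 1) (by omega) ?_ R x⟩)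
  rintro _ ⟨i, rfl⟩ j
  have := he i j
  change |e i j - j| ≤ _
  push_cast
  linarith

end Pool.Agent.QLN
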