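/-
Row B0: long narrow balls give window systems.
-/
import Pool.Agent.Lib.QLN.EMBED
import Pool.Agent.Lib.QLN.RowsB

set_option autoImplicit false

namespace Pool.Agent.QLN

open Pool.Agent.SCH

universe u

namespace BND

/-- pigeonhole -/
theorem pig (m : ℕ) (g : ℕ → ℤ) (h : ∀ j, j < 2 * m + 2 → |g j| ≤ (m : ℤ)) :
    ∃ i j, i < j ∧ j < 2 * m + 2 ∧ g i = g j := by
  have hc : (Finset.Icc (-(m : ℤ)) m).card < (Finset.range (2 * m + 2)).card := by
    rw [Int.card_Icc, Finset.card_range]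
    omega
  obtain ⟨i, hi, j, hj, hij, he⟩ := Finset.exists_ne_map_eq_of_card_lt_of_maps_to hc
    (f := g) (fun j hj => by
      rw [Finset.mem_coe, Finset.mem_range] at hj
      rw [Finset.mem_coe, Finset.mem_Icc]
      exact abs_le.1 (h j hj))
  rw [Finset.mem_range] at hi hj
  rcases lt_or_gt_of_ne hij with h1 | h1
  · exact ⟨i, j, h1, hj, he⟩
  · exact ⟨j, i, h1, hi, he.symm⟩

/-- numbering of the fibres -/
theorem exists_num {X : Type u} {K : ℕ} (B : Set X) (φ : X → ℤ)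
    (h : ∀ k : ℤ, {y | y ∈ B ∧ φ y = k}.encard ≤ (K : ℕ∞)) :
    ∃ ε : X → ℕ, (∀ y, ε y < K + 1) ∧
      ∀ y ∈ B, ∀ z ∈ B, φ y = φ z → ε y = ε z → y = z := by
  classical
  have h1 : ∀ k : ℤ, ∃ f : X → ℕ, {y | y ∈ B ∧ φ y = k} ⊆ f ⁻¹' (Set.Iio K) ∧
      Set.InjOn f {y | y ∈ B ∧ φ y = k} := by
    intro k
    have hf : {y | y ∈ B ∧ φ y = k}.Finite :=
      Set.finite_of_encard_le_coe (h k)
    refine Set.Finite.exists_injOn_of_encard_le hf ?_
    refine (h k).trans (le_of_eq ?_)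
    have : (Set.Iio K : Set ℕ) = ((Finset.range K : Finset ℕ) : Set ℕ) := by
      ext i; simp
    rw [this, Set.encard_coe_eq_coe_finsetCard, Finset.card_range]
  choose f hf1 hf2 using h1
  refine ⟨fun y => if y ∈ B then f (φ y) y else 0, fun y => ?_, fun y hy z hz h2 h3 => ?_⟩
  · by_cases hy : y ∈ B
    · simp only [if_pos hy]
      have : f (φ y) y < K := hf1 (φ y) (⟨hy, rfl⟩ : y ∈ {z | z ∈ B ∧ φ z = φ y})
      omega
    · simp only [if_neg hy]
      omega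
  · simp only [if_pos hy, if_pos hz] at h3
    rw [h2] at h3
    exact hf2 (φ z) ⟨hy, h2⟩ ⟨hz, rfl⟩ h3

/-- one window -/
theorem window {X : Type u} {ι : Type} {inv : ι → ι} {n K : ℕ} {σ : ι → Equiv.Perm X}
    (hinv : ∀ s, σ (inv s) = (σ s)⁻¹) (hexp : ∀ w, wd σ w ^ n = 1)
    (H : ∀ R : ℕ, ∃ (x : X) (φ : X → ℤ), (∃ u : List ι, wd σ u x ∉ ball σ x R) ∧
      (∀ y ∈ ball σ x R, ∀ s, σ s y ∈ ball σ x R → |φ (σ s y) - φ y| ≤ (K : ℤ)) ∧
      ∀ k : ℤ, {y | y ∈ ball σ x R ∧ φ y = k}.encard ≤ (K : ℕ∞)) (W : ℕ) :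
    ∃ (T : ι → ℤ → ℤ) (Ω : Set ℤ), ZWin inv n ((K + 1) * (K + 1)) W T Ω ∧ (0 : ℤ) ∈ Ω ∧
      ∀ m : ℕ, m ≤ W → ∃ w : List ι, w.length ≤ 2 * m + 1 ∧ (m : ℤ) < |wf T w 0| := by
  classical
  let L : ℕ := 2 * W + 2
  obtain ⟨x, φ, ⟨u, hu⟩, hlip, hfib⟩ := H ((2 * W + 2) * L + 1)
  obtain ⟨ε, hε, hεinj⟩ := exists_num _ φ hfib
  let ψ : X → ℤ := fun y => ((K + 1 : ℕ) : ℤ) * φ y + ε y
  have hψ : ∀ y, ψ y = ((K + 1 : ℕ) : ℤ) * φ y + ε y := fun y => rfl
  have hc : ∀ a b, |φ a - φ b| ≤ |ψ a - ψ b| ∧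
      |ψ a - ψ b| ≤ ((K + 1 : ℕ) : ℤ) * |φ a - φ b| + ((K + 1 : ℕ) : ℤ) := fun a b =>
    EMB.coord (by positivity) (by exact_mod_cast hε a) (by positivity) (by exact_mod_cast hε b)
  have hψinj : ∀ y ∈ ball σ x ((2 * W + 2) * L + 1), ∀ z ∈ ball σ x ((2 * W + 2) * L + 1),
      ψ y = ψ z → y = z := by
    intro y hy z hz h
    have h3 := (hc y z).1
    rw [h, sub_self, abs_zero] at h3
    have h4 : φ y = φ z := sub_eq_zero.1 (abs_eq_zero.1 (le_antisymm h3 (abs_nonneg _)))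
    refine hεinj y hy z hz h4 ?_
    rw [hψ, hψ, h4] at h
    have := add_left_cancel h
    exact_mod_cast this
  -- a level with empty annulus
  obtain ⟨r, hr1, hr2⟩ : ∃ r : ℕ, r + L ≤ (2 * W + 2) * L ∧
      ∀ y ∈ ball σ x (r + L), |ψ y - ψ x| ≤ (W : ℤ) → y ∈ ball σ x r := by
    by_contra hcon
    push Not at hcon
    have h1 : ∀ j : ℕ, ∃ y : X, j < 2 * W + 2 →
        y ∈ ball σ x (j * L + L) ∧ |ψ y - ψ x| ≤ (W : ℤ) ∧ y ∉ ball σ x (j * L) := by
      intro j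
      by_cases hj : j < 2 * W + 2
      · obtain ⟨y, h2, h3, h4⟩ := hcon (j * L) (by nlinarith)
        exact ⟨y, fun _ => ⟨h2, h3, h4⟩⟩
      · exact ⟨x, fun h => absurd h hj⟩
    choose g hg using h1
    obtain ⟨i, j, hij, hj, he⟩ := pig W (fun j => ψ (g j) - ψ x) (fun j hj => (hg j hj).2.1)
    have h5 := hg i (hij.trans hj)
    have h6 := hg j hj
    have h7 : g i = g j := by
      refine hψinj _ (EMB.ball_mono x ?_ h5.1) _ (EMB.ball_mono x ?_ h6.1) (by
        have h9 : ψ (g i) - ψ x = ψ (g j) - ψ x := he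
        linarith)
      · nlinarith
      · nlinarith
    refine h6.2.2 ?_
    rw [← h7]
    refine EMB.ball_mono x ?_ h5.1
    nlinarith
  have hsub : ∀ t : ℕ, t ≤ r + L + 1 → ball σ x t ⊆ ball σ x ((2 * W + 2) * L + 1) :=
    fun t ht => EMB.ball_mono x (by omega)
  let Ω : Set ℤ := {i | ∃ y, y ∈ ball σ x (r + L) ∧ ψ y = ψ x + i}
  let T : ι → ℤ → ℤ := fun s i =>
    if h : ∃ y, y ∈ ball σ x (r + L) ∧ ψ y = ψ x + i then ψ (σ s h.choose) - ψ x else i
  have hT : ∀ s, ∀ y ∈ ball σ x (r + L), T s (ψ y - ψ x) = ψ (σ s y) - ψ x := by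
    intro s y hy
    have h : ∃ z, z ∈ ball σ x (r + L) ∧ ψ z = ψ x + (ψ y - ψ x) := ⟨y, hy, by ring⟩
    have h3 : T s (ψ y - ψ x) = ψ (σ s h.choose) - ψ x := dif_pos h
    have h4 : h.choose = y := hψinj _ (hsub _ (by omega) h.choose_spec.1) _
      (hsub _ (by omega) hy) (by rw [h.choose_spec.2]; ring)
    rw [h3, h4]
  have hT' : ∀ s i, i ∉ Ω → T s i = i := fun s i hi => dif_neg hi
  have hfollow : ∀ (w : List ι) (a : X) (t : ℕ), a ∈ ball σ x t → t + w.length ≤ r + L + 1 →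
      wf T w (ψ a - ψ x) = ψ (wd σ w a) - ψ x := by
    intro w a t ha ht
    induction w with
    | nil => simp [wf, wd_nil]
    | cons s w ih =>
      rw [List.length_cons] at ht
      rw [wf, ih (by omega), hT s _ (EMB.ball_mono x (by omega) (EMB.ball_wd ha w)), wd_cons,
        Equiv.Perm.mul_apply]
  -- points of the window
  have hpt : ∀ i ∈ Ω, |i| ≤ (W : ℤ) → ∃ a, a ∈ ball σ x r ∧ i = ψ a - ψ x := by
    rintro i ⟨a, ha, hai⟩ hi
    refine ⟨a, hr2 a ha ?_, by rw [hai]; ring⟩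
    rw [hai, add_sub_cancel_left]
    exact hi
  have hD : (1 : ℤ) ≤ (((K + 1) * (K + 1) : ℕ) : ℤ) := by
    exact_mod_cast Nat.succ_le_of_lt (Nat.mul_pos (Nat.succ_pos K) (Nat.succ_pos K))
  refine ⟨T, Ω, ⟨fun s i hi => ?_, fun s i hi => ?_, fun s i hi => ?_, fun s i _ h => hT' s i h,
    fun w i hi => ?_⟩, ⟨x, EMB.self_mem x _, by ring⟩, fun m hm => ?_⟩
  · by_cases h : i ∈ Ω
    · obtain ⟨a, ha, rfl⟩ := hpt i h hi
      have ha' := EMB.ball_mono x (show r ≤ r + L by omega) ha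
      have hsa : σ s a ∈ ball σ x (r + L) := by
        have := EMB.ball_mono x (show r + 1 ≤ r + L by change r + 1 ≤ r + (2 * W + 2); omega)
          (EMB.ball_wd ha [s])
        rwa [wd_singleton] at this
      rw [hT s a ha', hT _ _ hsa, hinv]
      simp
    · rw [hT' s i h, hT' _ i h]
  · by_cases h : i ∈ Ω
    · obtain ⟨a, ha, rfl⟩ := hpt i h hi
      have ha' := EMB.ball_mono x (show r ≤ r + L by omega) ha
      have hsa : σ (inv s) a ∈ ball σ x (r + L) := by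
        have := EMB.ball_mono x (show r + 1 ≤ r + L by change r + 1 ≤ r + (2 * W + 2); omega)
          (EMB.ball_wd ha [inv s])
        rwa [wd_singleton] at this
      rw [hT _ a ha', hT _ _ hsa, hinv]
      simp
    · rw [hT' _ i h, hT' _ i h]
  · by_cases h : i ∈ Ω
    · obtain ⟨a, ha, rfl⟩ := hpt i h hi
      have ha' := hsub _ (by omega) ha
      have hsa : σ s a ∈ ball σ x ((2 * W + 2) * L + 1) := by
        have := hsub (r + 1) (by omega) (EMB.ball_wd ha [s])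
        rwa [wd_singleton] at this
      rw [hT s a (EMB.ball_mono x (by omega) ha),
        show ψ (σ s a) - ψ x - (ψ a - ψ x) = ψ (σ s a) - ψ a by ring]
      have h3 := (hc (σ s a) a).2
      have h4 := hlip a ha' s hsa
      have h5 : ((K + 1 : ℕ) : ℤ) * |φ (σ s a) - φ a| ≤ ((K + 1 : ℕ) : ℤ) * K :=
        mul_le_mul_of_nonneg_left h4 (by positivity)
      push_cast at h3 h5 ⊢
      linarith
    · rw [hT' s i h, sub_self, abs_zero]
      positivity
  · by_cases h : i ∈ Ω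
    · have h0 : (0 : ℤ) ≤ (((K + 1) * (K + 1) : ℕ) : ℤ) * n * w.length := by positivity
      obtain ⟨a, ha, rfl⟩ := hpt i h (by linarith)
      have h3 : (n : ℤ) * w.length ≤ W := by
        have h4 : (1 : ℤ) * (n * w.length) ≤ (((K + 1) * (K + 1) : ℕ) : ℤ) * (n * w.length) :=
          mul_le_mul_of_nonneg_right hD (by positivity)
        have h5 := abs_nonneg (ψ a - ψ x)
        nlinarith
      have h4 : n * w.length ≤ W := by exact_mod_cast h3
      rw [← wf_wpow, hfollow (wpow w n) a _ ha (by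
        rw [length_wpow]
        change r + n * w.length ≤ r + (2 * W + 2) + 1
        omega), wd_wpow, hexp, Equiv.Perm.one_apply]
    · exact Function.iterate_fixed (EMB.wf_fix (fun s => hT' s i h) w) n
  · by_contra hcon
    push Not at hcon
    have hball : ∀ y ∈ ball σ x (2 * m + 1), |ψ y - ψ x| ≤ (m : ℤ) := by
      rintro y ⟨w, h1, rfl⟩
      have h2 := hcon w h1
      have h3 := hfollow w x 0 (EMB.self_mem x 0) (by
        change 0 + w.length ≤ r + (2 * W + 2) + 1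
        omega)
      rw [sub_self] at h3
      rwa [h3] at h2
    have h1 : ∀ j : ℕ, ∃ y : X, j < 2 * m + 2 →
        y ∈ ball σ x j ∧ ∀ i, i < j → y ∉ ball σ x i := by
      intro j
      by_cases hj : j < 2 * m + 2
      · rcases Nat.eq_zero_or_pos j with h0 | h0
        · exact ⟨x, fun _ => ⟨EMB.self_mem x _, fun i hi => by omega⟩⟩
        · obtain ⟨j', rfl⟩ : ∃ j', j = j' + 1 := ⟨j - 1, by omega⟩
          obtain ⟨y, h2, h3⟩ := EMB.exit (σ := σ) (x := x) (R := j') u (fun h => hu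
            (EMB.ball_mono x (by
              have : 2 * m + 2 ≤ (2 * W + 2) * L := by
                change 2 * m + 2 ≤ (2 * W + 2) * (2 * W + 2)
                nlinarith
              omega) h))
          exact ⟨y, fun _ => ⟨h2, fun i hi h => h3 (EMB.ball_mono x (by omega) h)⟩⟩
      · exact ⟨x, fun h => absurd h hj⟩
    choose g hg using h1
    obtain ⟨i, j, hij, hj, he⟩ := pig m (fun j => ψ (g j) - ψ x)
      (fun j hj => hball _ (EMB.ball_mono x (by omega) (hg j hj).1))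
    have h5 := hg i (hij.trans hj)
    have h6 := hg j hj
    have h8 : 2 * m + 2 ≤ (2 * W + 2) * L + 1 := by
      change 2 * m + 2 ≤ (2 * W + 2) * (2 * W + 2) + 1
      nlinarith
    have h7 : g i = g j := by
      refine hψinj _ (EMB.ball_mono x (by omega) h5.1) _ (EMB.ball_mono x (by omega) h6.1) (by
        have h9 : ψ (g i) - ψ x = ψ (g j) - ψ x := he
        linarith)
    exact h6.2 i hij (by rw [← h7]; exact h5.1)

/-- agreement of words -/
theorem agreeZ {ι : Type} {τ : ι → Equiv.Perm ℤ} {T : ι → ℤ → ℤ} {D : ℕ} {R : ℤ}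
    (hd : ∀ s i, |τ s i - i| ≤ (D : ℤ)) (h : ∀ s i, |i| ≤ R → τ s i = T s i) (w : List ι) (i : ℤ)
    (hi : |i| + D * w.length ≤ R) : wd τ w i = wf T w i ∧ |wd τ w i - i| ≤ D * w.length := by
  induction w with
  | nil => simp [wf, wd_nil]
  | cons s w ih =>
    rw [List.length_cons] at hi
    push_cast at hi
    have hD : (0 : ℤ) ≤ D := by positivity
    obtain ⟨h1, h2⟩ := ih (by nlinarith)
    have h3 : |wd τ w i| ≤ R := by
      have := abs_sub_abs_le_abs_sub (wd τ w i) i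
      nlinarith
    rw [wd_cons, Equiv.Perm.mul_apply, wf, ← h1, ← h s _ h3]
    refine ⟨rfl, ?_⟩
    have h4 := abs_le.1 (hd s (wd τ w i))
    have h5 := abs_le.1 h2
    rw [abs_le, List.length_cons]
    push_cast
    constructor <;> nlinarith [h4.1, h4.2, h5.1, h5.2]

end BND

/-- **Row B0** -/
theorem rowB0 (hB1 : RowB1) : RowB0.{u} := by
  intro X ι _ inv n K σ _ hinv hexp H
  choose T Ω hW h0 hm using BND.window hinv hexp H
  obtain ⟨τ, Ω', _, hZ, hag⟩ := hB1 ι inv n _ T Ω (fun _ => ∅) hW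
  refine ⟨_, τ, Ω', Nat.mul_pos (Nat.succ_pos K) (Nat.succ_pos K), hZ, ?_, fun M => ?_⟩
  · obtain ⟨k, _, hk⟩ := hag 0 0
    exact (hk 0 (by simp)).2.1.2 (h0 k)
  · obtain ⟨k, hkM, hk⟩ := hag ((K + 1) * (K + 1) * (2 * M + 1)) M
    obtain ⟨w, hw1, hw2⟩ := hm k M hkM
    refine ⟨w, ?_⟩
    have h1 := (BND.agreeZ hZ.disp (fun s i hi => (hk i hi).1 s) w 0 (by
      rw [abs_zero, zero_add]
      exact_mod_cast Nat.mul_le_mul_left _ hw1)).1
    rw [sub_zero, h1]
    exact hw2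

end Pool.Agent.QLN
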