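/-
Piece B1 of row BAND: limits of windows without connectedness (helper36).
-/
import Pool.Agent.Lib.QLN.LIM
import Pool.Agent.Lib.QLN.RowsB

set_option autoImplicit false

namespace Pool.Agent.QLN

open Pool.Agent.SCH

/-- The functions `T s` look in the window `|x| ≤ K` like permutations with displacement at most `D`,
trivial outside `Ω`, with exponent `n`. -/
structure BWin {ι : Type} (inv : ι → ι) (n D K : ℕ) (T : ι → ℤ → ℤ) (Ω : Set ℤ) : Prop where
  inv_left : ∀ s i, |i| ≤ (K : ℤ) → T (inv s) (T s i) = i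
  inv_right : ∀ s i, |i| ≤ (K : ℤ) → T s (T (inv s) i) = i
  disp : ∀ s i, |i| ≤ (K : ℤ) → |T s i - i| ≤ (D : ℤ)
  supp : ∀ s i, |i| ≤ (K : ℤ) → i ∉ Ω → T s i = i
  exp : ∀ (w : List ι) (i : ℤ), |i| + D * n * w.length ≤ (K : ℤ) → (wf T w)^[n] i = i

/-- Permutations of the integers with displacement at most `D`, trivial outside `Ω`, with exponent
`n`. -/
structure BPre {ι : Type} (inv : ι → ι) (n D : ℕ) (τ : ι → Equiv.Perm ℤ) (Ω : Set ℤ) : Prop where
  inv : ∀ s, τ (inv s) = (τ s)⁻¹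
  disp : ∀ s i, |τ s i - i| ≤ (D : ℤ)
  supp : ∀ s i, i ∉ Ω → τ s i = i
  exp : ∀ w : List ι, wd τ w ^ n = 1

theorem BPre.mem {ι : Type} {inv : ι → ι} {n D : ℕ} {τ : ι → Equiv.Perm ℤ} {Ω : Set ℤ}
    (h : BPre inv n D τ Ω) (s : ι) {i : ℤ} (hi : i ∈ Ω) : τ s i ∈ Ω := by
  by_contra hc
  have h1 := h.supp s _ hc
  have h2 := (τ s).injective h1
  rw [h2] at hc
  exact hc hi

theorem BPre.wd_mem {ι : Type} {inv : ι → ι} {n D : ℕ} {τ : ι → Equiv.Perm ℤ} {Ω : Set ℤ}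
    (h : BPre inv n D τ Ω) (w : List ι) {i : ℤ} (hi : i ∈ Ω) : wd τ w i ∈ Ω := by
  induction w with
  | nil => simpa [wd_nil] using hi
  | cons s w ih => rw [wd_cons, Equiv.Perm.mul_apply]; exact h.mem s ih

theorem BPre.wd_supp {ι : Type} {inv : ι → ι} {n D : ℕ} {τ : ι → Equiv.Perm ℤ} {Ω : Set ℤ}
    (h : BPre inv n D τ Ω) (w : List ι) {i : ℤ} (hi : i ∉ Ω) : wd τ w i = i := by
  induction w with
  | nil => simp [wd_nil]
  | cons s w ih => rw [wd_cons, Equiv.Perm.mul_apply, ih]; exact h.supp s i hi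

theorem BPre.wd_disp {ι : Type} {inv : ι → ι} {n D : ℕ} {τ : ι → Equiv.Perm ℤ} {Ω : Set ℤ}
    (h : BPre inv n D τ Ω) (w : List ι) (i : ℤ) : |wd τ w i - i| ≤ D * w.length := by
  induction w with
  | nil => simp [wd_nil]
  | cons s w ih =>
    rw [wd_cons, Equiv.Perm.mul_apply, List.length_cons]
    have h1 := abs_le.1 ih
    have h2 := abs_le.1 (h.disp s (wd τ w i))
    rw [abs_le]
    push_cast
    constructor <;> nlinarith [h1.1, h1.2, h2.1, h2.2]

/-- a system is a window system for every `K` -/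
theorem BPre.win {ι : Type} {inv : ι → ι} {n D : ℕ} {τ : ι → Equiv.Perm ℤ} {Ω : Set ℤ}
    (h : BPre inv n D τ Ω) (K : ℕ) : BWin inv n D K (fun s i => τ s i) Ω := by
  refine ⟨fun s i _ => ?_, fun s i _ => ?_, fun s i _ => h.disp s i, fun s i _ => h.supp s i,
    fun w i _ => ?_⟩
  · show τ (inv s) (τ s i) = i
    rw [h.inv]; exact (τ s).symm_apply_apply i
  · show τ s (τ (inv s) i) = i
    rw [h.inv]; exact (τ s).apply_symm_apply i
  · have h1 : wf (fun s i => τ s i) w = wd τ w := by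
      funext j; exact (wd_eq_wf τ w j).symm
    rw [h1, Equiv.Perm.iterate_eq_pow, h.exp w]
    rfl

/-- translating a system -/
theorem BPre.shift {ι : Type} {inv : ι → ι} {n D : ℕ} {τ : ι → Equiv.Perm ℤ} {Ω : Set ℤ}
    (h : BPre inv n D τ Ω) (a : ℤ) :
    BPre inv n D (fun s => (Equiv.addLeft a).trans ((τ s).trans (Equiv.addLeft (-a))))
      {i | a + i ∈ Ω} ∧
    ∀ (w : List ι) (i : ℤ),
      wd (fun s => (Equiv.addLeft a).trans ((τ s).trans (Equiv.addLeft (-a)))) w i =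
        wd τ w (a + i) - a := by
  have hw : ∀ (w : List ι) (i : ℤ),
      wd (fun s => (Equiv.addLeft a).trans ((τ s).trans (Equiv.addLeft (-a)))) w i =
        wd τ w (a + i) - a := by
    intro w i
    induction w with
    | nil => simp [wd_nil]
    | cons s w ih =>
      rw [wd_cons, Equiv.Perm.mul_apply, ih, wd_cons, Equiv.Perm.mul_apply]
      simp only [Equiv.trans_apply, Equiv.coe_addLeft]
      rw [show a + (wd τ w (a + i) - a) = wd τ w (a + i) by ring]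
      ring
  refine ⟨⟨fun s => ?_, fun s i => ?_, fun s i hi => ?_, fun w => ?_⟩, hw⟩
  · ext i
    rw [Equiv.Perm.inv_def, Equiv.eq_symm_apply]
    simp only [Equiv.trans_apply, Equiv.coe_addLeft, h.inv]
    rw [show a + (-a + (τ s)⁻¹ (a + i)) = (τ s)⁻¹ (a + i) by ring,
      show τ s ((τ s)⁻¹ (a + i)) = a + i from (τ s).apply_symm_apply (a + i)]
    ring
  · simp only [Equiv.trans_apply, Equiv.coe_addLeft]
    have := h.disp s (a + i)
    rwa [show -a + τ s (a + i) - i = τ s (a + i) - (a + i) by ring]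
  · simp only [Equiv.trans_apply, Equiv.coe_addLeft]
    rw [h.supp s (a + i) hi]
    ring
  · ext i
    have h1 : ∀ k : ℕ,
        (wd (fun s => (Equiv.addLeft a).trans ((τ s).trans (Equiv.addLeft (-a)))) w ^ k) i =
          (wd τ w ^ k) (a + i) - a := by
      intro k
      induction k with
      | zero => simp
      | succ k ih =>
        rw [pow_succ', Equiv.Perm.mul_apply, ih, hw, pow_succ', Equiv.Perm.mul_apply]
        congr 2
        ring
    rw [h1, h.exp w]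
    simp

open Filter in
/-- limits of windows, with a finite family of marked sets `S K k` -/
theorem limB {ι κ : Type} [Finite ι] [Finite κ] (inv : ι → ι) (n D : ℕ) (T : ℕ → ι → ℤ → ℤ)
    (Ω : ℕ → Set ℤ) (S : ℕ → κ → Set ℤ) (hW : ∀ K, BWin inv n D K (T K) (Ω K)) :
    ∃ (τ : ι → Equiv.Perm ℤ) (Ω' : Set ℤ) (S' : κ → Set ℤ), BPre inv n D τ Ω' ∧
      ∀ R m : ℕ, ∃ K, m ≤ K ∧ (∀ i : ℤ, |i| ≤ (R : ℤ) →
        (∀ s, τ s i = T K s i) ∧ (i ∈ Ω' ↔ i ∈ Ω K) ∧ ∀ k, (i ∈ S' k ↔ i ∈ S K k)) ∧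
        ∀ (w : List ι) (i : ℤ), |i| + D * w.length ≤ (R : ℤ) → wd τ w i = wf (T K) w i := by
  classical
  let U : Ultrafilter ℕ := Filter.hyperfilter ℕ
  have hUle : (U : Filter ℕ) ≤ Filter.atTop := by
    have := Filter.hyperfilter_le_cofinite (α := ℕ)
    rwa [Nat.cofinite_eq_atTop] at this
  have hge : ∀ m : ℕ, ∀ᶠ K in (U : Filter ℕ), m ≤ K := fun m =>
    hUle (Filter.eventually_ge_atTop m)
  have hge' : ∀ i : ℤ, ∀ᶠ K : ℕ in (U : Filter ℕ), |i| ≤ (K : ℤ) := fun i => by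
    filter_upwards [hge i.natAbs] with K hK
    rw [Int.abs_eq_natAbs]; exact_mod_cast hK
  have hd : ∀ s i, ∃ v : ℤ, |v - i| ≤ (D : ℤ) ∧ ∀ᶠ K in (U : Filter ℕ), T K s i = v := by
    intro s i
    have h1 : ∀ᶠ K in (U : Filter ℕ), ∃ v ∈ Set.Icc (i - D) (i + D), T K s i = v := by
      filter_upwards [hge' i] with K hK
      obtain ⟨h2, h3⟩ := abs_le.1 ((hW K).disp s i hK)
      exact ⟨T K s i, ⟨by linarith, by linarith⟩, rfl⟩
    obtain ⟨v, hv, h2⟩ := (Ultrafilter.eventually_exists_mem_iff (Set.finite_Icc _ _)).1 h1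
    exact ⟨v, abs_le.2 ⟨by linarith [hv.1], by linarith [hv.2]⟩, h2⟩
  choose T' hT1 hT2 using hd
  have hset : ∀ A : ℕ → Set ℤ, ∀ i, ∀ᶠ K in (U : Filter ℕ),
      (i ∈ {i | ∀ᶠ K in (U : Filter ℕ), i ∈ A K} ↔ i ∈ A K) := by
    intro A i
    by_cases hi : ∀ᶠ K in (U : Filter ℕ), i ∈ A K
    · filter_upwards [hi] with K hK
      exact ⟨fun _ => hK, fun _ => hi⟩
    · have h1 := Ultrafilter.eventually_not.2 hi
      filter_upwards [h1] with K hK
      exact ⟨fun h => absurd h hi, fun h => absurd h hK⟩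
  let Ω' : Set ℤ := {i | ∀ᶠ K in (U : Filter ℕ), i ∈ Ω K}
  let S' : κ → Set ℤ := fun k => {i | ∀ᶠ K in (U : Filter ℕ), i ∈ S K k}
  have hagree : ∀ R : ℕ, ∀ᶠ K in (U : Filter ℕ), ∀ i : ℤ, |i| ≤ (R : ℤ) →
      (∀ s, T' s i = T K s i) ∧ (i ∈ Ω' ↔ i ∈ Ω K) ∧ ∀ k, (i ∈ S' k ↔ i ∈ S K k) := by
    intro R
    have hfin : (Set.Icc (-(R : ℤ)) R).Finite := Set.finite_Icc _ _
    have := (Filter.eventually_all_finite (l := (U : Filter ℕ))
      (p := fun i K => (∀ s, T' s i = T K s i) ∧ (i ∈ Ω' ↔ i ∈ Ω K) ∧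
        ∀ k, (i ∈ S' k ↔ i ∈ S K k)) hfin).2
      (fun i _ => by
        have h1 : ∀ᶠ K in (U : Filter ℕ), ∀ s, T' s i = T K s i :=
          Filter.eventually_all.2 fun s => by
            filter_upwards [hT2 s i] with K hK
            exact hK.symm
        have h2 : ∀ᶠ K in (U : Filter ℕ), ∀ k, (i ∈ S' k ↔ i ∈ S K k) :=
          Filter.eventually_all.2 fun k => hset (fun K => S K k) i
        filter_upwards [h1, hset Ω i, h2] with K h1 h2 h3
        exact ⟨h1, h2, h3⟩)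
    filter_upwards [this] with K hK i hi
    exact hK i (abs_le.1 hi)
  have hgood : ∀ R m : ℕ, ∃ K, m ≤ K ∧ R ≤ K ∧ ∀ i : ℤ, |i| ≤ (R : ℤ) →
      (∀ s, T' s i = T K s i) ∧ (i ∈ Ω' ↔ i ∈ Ω K) ∧ ∀ k, (i ∈ S' k ↔ i ∈ S K k) := by
    intro R m
    obtain ⟨K, h1, h2, h3⟩ := ((hagree R).and ((hge m).and (hge R))).exists
    exact ⟨K, h2, h3, h1⟩
  -- the functions are permutations
  have hl : ∀ s i, T' (inv s) (T' s i) = i := by
    intro s i
    obtain ⟨K, _, h2, h3⟩ := hgood (i.natAbs + (T' s i).natAbs) 0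
    have h4 : |i| ≤ ((i.natAbs + (T' s i).natAbs : ℕ) : ℤ) := by push_cast; simp
    have h5 : |T' s i| ≤ ((i.natAbs + (T' s i).natAbs : ℕ) : ℤ) := by push_cast; simp
    have h6 : ((i.natAbs + (T' s i).natAbs : ℕ) : ℤ) ≤ K := by exact_mod_cast h2
    rw [(h3 _ h5).1 (inv s), (h3 _ h4).1 s]
    exact (hW K).inv_left s i (h4.trans h6)
  have hr : ∀ s i, T' s (T' (inv s) i) = i := by
    intro s i
    obtain ⟨K, _, h2, h3⟩ := hgood (i.natAbs + (T' (inv s) i).natAbs) 0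
    have h4 : |i| ≤ ((i.natAbs + (T' (inv s) i).natAbs : ℕ) : ℤ) := by push_cast; simp
    have h5 : |T' (inv s) i| ≤ ((i.natAbs + (T' (inv s) i).natAbs : ℕ) : ℤ) := by
      push_cast; simp
    have h6 : ((i.natAbs + (T' (inv s) i).natAbs : ℕ) : ℤ) ≤ K := by exact_mod_cast h2
    rw [(h3 _ h5).1 s, (h3 _ h4).1 (inv s)]
    exact (hW K).inv_right s i (h4.trans h6)
  let τ : ι → Equiv.Perm ℤ := fun s => ⟨T' s, T' (inv s), hl s, hr s⟩
  have hτ : ∀ s i, τ s i = T' s i := fun s i => rfl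
  have hwd : ∀ w i, wd τ w i = wf T' w i := fun w i => wd_eq_wf τ w i
  refine ⟨τ, Ω', S', ⟨fun s => ?_, hT1, fun s i hi => ?_, fun w => ?_⟩, fun R m => ?_⟩
  · ext i
    rfl
  · obtain ⟨K, _, h2, h3⟩ := hgood i.natAbs 0
    have h4 : |i| ≤ ((i.natAbs : ℕ) : ℤ) := by simp
    have h6 : ((i.natAbs : ℕ) : ℤ) ≤ K := by exact_mod_cast h2
    obtain ⟨h7, h8, _⟩ := h3 i h4
    rw [hτ, h7 s]
    exact (hW K).supp s i (h4.trans h6) (fun h => hi (h8.2 h))
  · ext i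
    have h1 : (wd τ w ^ n) i = (wf T' w)^[n] i := by
      rw [← Equiv.Perm.iterate_eq_pow]
      have h2 : ∀ k, (wd τ w)^[k] i = (wf T' w)^[k] i := by
        intro k
        induction k with
        | zero => rfl
        | succ k ih => rw [Function.iterate_succ_apply', Function.iterate_succ_apply', ih, hwd]
      exact h2 n
    obtain ⟨K, _, h2, h3⟩ := hgood (i.natAbs + D * n * w.length) 0
    have h6 : ((i.natAbs + D * n * w.length : ℕ) : ℤ) ≤ K := by exact_mod_cast h2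
    push_cast at h6
    rw [h1, ← wf_wpow, (agreeW hT1 (fun s i hi => (h3 i hi).1 s) (wpow w n) i ?_).1, wf_wpow]
    · exact (hW K).exp w i h6
    · rw [length_wpow]
      push_cast
      have : (D : ℤ) * (n * w.length) = D * n * w.length := by ring
      linarith
  · obtain ⟨K, h1, _, h3⟩ := hgood R m
    refine ⟨K, h1, h3, fun w i hi => ?_⟩
    rw [hwd]
    exact (agreeW hT1 (fun s i hi => (h3 i hi).1 s) w i hi).1

/-- **Row B1** -/
theorem rowB1 : RowB1 := by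
  intro ι _ inv n D T Ω A hW
  obtain ⟨τ, Ω', S', h1, h2⟩ := limB (κ := Unit) inv n D T Ω (fun K _ => A K)
    (fun K => ⟨(hW K).inv_left, (hW K).inv_right, (hW K).disp, (hW K).supp, (hW K).exp⟩)
  refine ⟨τ, Ω', S' (), ⟨h1.inv, h1.disp, h1.supp, h1.exp⟩, fun R m => ?_⟩
  obtain ⟨K, h3, h4, _⟩ := h2 R m
  exact ⟨K, h3, fun i hi => ⟨(h4 i hi).1, (h4 i hi).2.1, (h4 i hi).2.2 ()⟩⟩

end Pool.Agent.QLN
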