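/-
Row B1 in the form of RowsB.
-/
import Pool.Agent.Lib.QLN.B1
import Pool.Agent.Lib.QLN.RowsB

set_option autoImplicit false

namespace Pool.Agent.QLN

open Pool.Agent.SCH

theorem rowB1Z : RowB1 := by
  intro ι _ inv n D T Ω A hW
  obtain ⟨τ, Ω', S', h1, h2⟩ := rowB1 (κ := Unit) inv n D T Ω (fun K _ => A K) fun K =>
    ⟨(hW K).inv_left, (hW K).inv_right, (hW K).disp, (hW K).supp, (hW K).exp⟩
  refine ⟨τ, Ω', S' (), ⟨h1.inv, h1.disp, h1.supp, h1.exp⟩, fun R m => ?_⟩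
  obtain ⟨K, h3, h4, _⟩ := h2 R m
  exact ⟨K, h3, fun i hi => ⟨(h4 i hi).1, (h4 i hi).2.1, (h4 i hi).2.2 ()⟩⟩

end Pool.Agent.QLN
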