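/-
Piece B2 of row BAND: paths which cross a window.
-/
import Pool.Agent.Lib.QLN.Rows

set_option autoImplicit false

namespace Pool.Agent.QLN

open Pool.Agent.SCH

namespace B2

/-- a segment of a path which goes from `≤ -c` to `≥ c` and stays in between -/
theorem shrink (f : ℕ → ℤ) {a b : ℕ} {D c : ℤ} (hD : 0 ≤ D) (hab : a ≤ b) (hc : 1 ≤ c)
    (ha : f a ≤ -c) (hb : c ≤ f b) (hstep : ∀ k, a ≤ k → k < b → |f (k + 1) - f k| ≤ D) :
    ∃ a' b', a ≤ a' ∧ a' ≤ b' ∧ b' ≤ b ∧ f a' ≤ -c ∧ c ≤ f b' ∧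
      ∀ j, a' ≤ j → j ≤ b' → |f j| ≤ c - 1 + D := by
  classical
  have hex : ∃ k, a ≤ k ∧ c ≤ f k := ⟨b, hab, hb⟩
  set b' := Nat.find hex with hb'
  obtain ⟨h1, h2⟩ := Nat.find_spec hex
  have hbb : b' ≤ b := Nat.find_min' hex ⟨hab, hb⟩
  have hlt : ∀ j, a ≤ j → j < b' → f j ≤ c - 1 := by
    intro j hj hjb
    have := Nat.find_min hex hjb
    push Not at this
    have := this hj
    linarith
  set a' := Nat.findGreatest (fun k => a ≤ k ∧ f k ≤ -c) b' with ha'
  have hPa : a ≤ a' ∧ f a' ≤ -c :=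
    Nat.findGreatest_spec (P := fun k => a ≤ k ∧ f k ≤ -c) h1 ⟨le_refl a, ha⟩
  have ha'b : a' ≤ b' := Nat.findGreatest_le b'
  have hgt : ∀ j, a' < j → j ≤ b' → -c + 1 ≤ f j := by
    intro j hj hjb
    have h3 := Nat.findGreatest_is_greatest hj hjb
    push Not at h3
    have := h3 (hPa.1.trans hj.le)
    linarith
  have hne : a' < b' := by
    rcases ha'b.lt_or_eq with h | h
    · exact h
    · exfalso
      have h3 := hPa.2
      rw [h] at h3
      linarith
  refine ⟨a', b', hPa.1, ha'b, hbb, hPa.2, h2, fun j hj hjb => ?_⟩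
  have hup : f j ≤ c - 1 + D := by
    rcases hjb.lt_or_eq with h | h
    · have := hlt j (hPa.1.trans hj) h
      linarith
    · obtain ⟨m, hm⟩ : ∃ m, j = m + 1 := ⟨j - 1, by omega⟩
      have h3 := hlt m (by omega) (by omega)
      have h4 := (abs_le.1 (hstep m (by omega) (by omega))).2
      rw [hm]
      linarith
  have hlo : -(c - 1 + D) ≤ f j := by
    rcases hj.lt_or_eq with h | h
    · have := hgt j h hjb
      linarith
    · have h3 := hgt (j + 1) (by omega) (by omega)
      have h4 := (abs_le.1 (hstep j (by omega) (by omega))).2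
      linarith
  exact abs_le.2 ⟨hlo, hup⟩

/-- nested segments -/
theorem nested (f : ℕ → ℤ) {n D M : ℕ} (hD : 1 ≤ D) (hDM : D ≤ M) (h0 : f 0 ≤ -(M : ℤ))
    (hn : (M : ℤ) ≤ f n) (hstep : ∀ k < n, |f (k + 1) - f k| ≤ (D : ℤ)) (t : ℕ) (ht : t ≤ M - D) :
    ∃ a b, a ≤ b ∧ b ≤ n ∧ f a ≤ -((M - t : ℕ) - D + 1 : ℤ) ∧ ((M - t : ℕ) - D + 1 : ℤ) ≤ f b ∧
      ∀ N : ℕ, M - t ≤ N → N ≤ M → ∃ a' b', a' ≤ a ∧ b ≤ b' ∧ b' ≤ n ∧
        f a' ≤ -((N : ℤ) - D + 1) ∧ (N : ℤ) - D + 1 ≤ f b' ∧
        ∀ j, a' ≤ j → j ≤ b' → |f j| ≤ (N : ℤ) := by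
  induction t with
  | zero =>
    obtain ⟨a', b', h1, h2, h3, h4, h5, h6⟩ := shrink f (a := 0) (b := n) (D := D)
      (c := (M : ℤ) - D + 1) (by omega) (Nat.zero_le n) (by omega) (by omega) (by omega)
      (fun k _ hk => hstep k hk)
    refine ⟨a', b', h2, h3, by simpa using h4, by simpa using h5, fun N hN hNM => ?_⟩
    have hNe : N = M := by omega
    subst hNe
    refine ⟨a', b', le_refl _, le_refl _, h3, h4, h5, fun j hj hjb => ?_⟩
    have := h6 j hj hjb
    linarith
  | succ t ih =>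
    obtain ⟨a, b, h1, h2, h3, h4, h5⟩ := ih (by omega)
    have hc : ((M - (t + 1) : ℕ) : ℤ) = ((M - t : ℕ) : ℤ) - 1 := by omega
    obtain ⟨a', b', g1, g2, g3, g4, g5, g6⟩ := shrink f (a := a) (b := b) (D := D)
      (c := ((M - (t + 1) : ℕ) : ℤ) - D + 1) (by omega) h1 (by omega) (by omega) (by omega)
      (fun k _ hk => hstep k (by omega))
    refine ⟨a', b', g2, g3.trans h2, g4, g5, fun N hN hNM => ?_⟩
    rcases Nat.lt_or_ge N (M - t) with hlt | hge
    · have hNe : N = M - (t + 1) := by omega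
      refine ⟨a', b', le_refl _, le_refl _, g3.trans h2, ?_, ?_, fun j hj hjb => ?_⟩
      · rw [hNe]; exact g4
      · rw [hNe]; exact g5
      · have := g6 j hj hjb
        rw [hNe]
        linarith
    · obtain ⟨c, d, e1, e2, e3, e4, e5, e6⟩ := h5 N hge hNM
      exact ⟨c, d, e1.trans g1, g3.trans e2, e3, e4, e5, e6⟩

/-- the crossing lemma -/
theorem crossing (f : ℕ → ℤ) {n D M : ℕ} (hD : 1 ≤ D) (hDM : D ≤ M) (h0 : f 0 ≤ -(M : ℤ))
    (hn : (M : ℤ) ≤ f n) (hstep : ∀ k < n, |f (k + 1) - f k| ≤ (D : ℤ)) :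
    ∃ k ≤ n, 0 ≤ f k ∧ f k < D ∧ ∀ N : ℕ, D ≤ N → N ≤ M → ∃ a b, a ≤ k ∧ k ≤ b ∧ b ≤ n ∧
      f a ≤ -((N : ℤ) - D + 1) ∧ (N : ℤ) - D + 1 ≤ f b ∧ ∀ j, a ≤ j → j ≤ b → |f j| ≤ (N : ℤ) := by
  classical
  obtain ⟨a, b, h1, h2, h3, h4, h5⟩ := nested f hD hDM h0 hn hstep (M - D) (le_refl _)
  have hM : ((M - (M - D) : ℕ) : ℤ) = D := by omega
  rw [hM] at h3 h4
  have hex : ∃ k, a ≤ k ∧ 0 ≤ f k := ⟨b, h1, by linarith⟩
  obtain ⟨g1, g2⟩ := Nat.find_spec hex
  have hkb : Nat.find hex ≤ b := Nat.find_min' hex ⟨h1, by linarith⟩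
  have hne : a ≠ Nat.find hex := by
    intro h
    rw [← h] at g2
    linarith
  obtain ⟨m, hm⟩ : ∃ m, Nat.find hex = m + 1 := ⟨Nat.find hex - 1, by omega⟩
  have hmin := Nat.find_min hex (m := m) (by omega)
  push Not at hmin
  have h6 := hmin (by omega)
  have h7 := (abs_le.1 (hstep m (by omega))).2
  refine ⟨Nat.find hex, hkb.trans h2, g2, ?_, fun N hN hNM => ?_⟩
  · rw [hm]; linarith
  · obtain ⟨a', b', e1, e2, e3, e4, e5, e6⟩ := h5 N (by omega) hNM
    exact ⟨a', b', by omega, by omega, e3, e4, e5, e6⟩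

/-- `x` and `y` are joined by a word whose path stays in `A` -/
def Join {ι : Type*} (T : ι → ℤ → ℤ) (A : Set ℤ) (x y : ℤ) : Prop :=
  ∃ w : List ι, (∀ k, wf T (w.drop k) x ∈ A) ∧ wf T w x = y

variable {ι : Type*} {T : ι → ℤ → ℤ} {A A' : Set ℤ} {x y z : ℤ}

theorem Join.mono (h : Join T A x y) (hA : A ⊆ A') : Join T A' x y := by
  obtain ⟨w, h1, h2⟩ := h
  exact ⟨w, fun k => hA (h1 k), h2⟩

theorem Join.left (h : Join T A x y) : x ∈ A := by
  obtain ⟨w, h1, h2⟩ := h
  have := h1 w.length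
  rwa [List.drop_length] at this

theorem Join.right (h : Join T A x y) : y ∈ A := by
  obtain ⟨w, h1, h2⟩ := h
  have := h1 0
  rwa [List.drop_zero, h2] at this

theorem Join.refl (hx : x ∈ A) : Join T A x x :=
  ⟨[], fun k => by simpa [wf] using hx, by simp [wf]⟩

theorem Join.cons (h : Join T A x y) (s : ι) (hs : T s y ∈ A) : Join T A x (T s y) := by
  obtain ⟨w, h1, h2⟩ := h
  refine ⟨s :: w, fun k => ?_, by rw [wf, h2]⟩
  cases k with
  | zero => rw [List.drop_zero, wf, h2]; exact hs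
  | succ k => rw [List.drop_succ_cons]; exact h1 k

theorem Join.trans (h : Join T A x y) (h' : Join T A y z) : Join T A x z := by
  obtain ⟨w, h1, h2⟩ := h'
  subst h2
  induction w with
  | nil => simpa [wf] using h
  | cons s w ih =>
    rw [wf]
    refine (ih fun k => ?_).cons s ?_
    · have := h1 (k + 1)
      rwa [List.drop_succ_cons] at this
    · have := h1 0
      rwa [List.drop_zero, wf] at this

theorem Join.symm {inv : ι → ι} (hinv : ∀ s, ∀ i ∈ A, T (inv s) (T s i) = i)
    (h : Join T A x y) : Join T A y x := by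
  obtain ⟨w, h1, h2⟩ := h
  subst h2
  induction w with
  | nil =>
    have := h1 0
    exact Join.refl (by simpa [wf] using this)
  | cons s w ih =>
    have h3 : ∀ k, wf T (w.drop k) x ∈ A := fun k => by
      have := h1 (k + 1)
      rwa [List.drop_succ_cons] at this
    have h4 : wf T w x ∈ A := by simpa using h3 0
    have h5 : T s (wf T w x) ∈ A := by
      have := h1 0
      rwa [List.drop_zero, wf] at this
    have h6 : Join T A (T s (wf T w x)) (T (inv s) (T s (wf T w x))) :=
      (Join.refl h5).cons (inv s) (by rw [hinv s _ h4]; exact h4)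
    rw [hinv s _ h4] at h6
    rw [wf]
    exact h6.trans (ih h3)

/-- short words: points joined in a set with `h` elements are joined by a word of length `< h` -/
theorem Join.short (F : Finset ℤ) (hF : A ⊆ F) (h : Join T A x y) :
    ∃ w : List ι, w.length < F.card ∧ (∀ k, wf T (w.drop k) x ∈ A) ∧ wf T w x = y := by
  classical
  have hex : ∃ m, ∃ w : List ι, w.length = m ∧ (∀ k, wf T (w.drop k) x ∈ A) ∧ wf T w x = y := by
    obtain ⟨w, h1, h2⟩ := h
    exact ⟨w.length, w, rfl, h1, h2⟩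
  obtain ⟨w, hw, h1, h2⟩ := Nat.find_spec hex
  refine ⟨w, ?_, h1, h2⟩
  have hinj : Set.InjOn (fun k => wf T (w.drop k) x) (Finset.range (w.length + 1)) := by
    have key : ∀ i j, i < j → j ≤ w.length → wf T (w.drop i) x ≠ wf T (w.drop j) x := by
      intro i j hij hj heq
      have h3 : wf T (w.take i ++ w.drop j) x = y := by
        rw [wf_append, ← heq, ← wf_append, List.take_append_drop, h2]
      refine Nat.find_min hex (m := (w.take i ++ w.drop j).length) ?_
        ⟨w.take i ++ w.drop j, rfl, fun k => ?_, h3⟩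
      · rw [← hw, List.length_append, List.length_take, List.length_drop]
        omega
      · rcases Nat.lt_or_ge k i with hk | hk
        · have h4 : (w.take i ++ w.drop j).drop k = (w.take i).drop k ++ w.drop j := by
            rw [List.drop_append_of_le_length]
            rw [List.length_take]
            omega
          have h5 : w.drop k = (w.take i).drop k ++ w.drop i := by
            conv_lhs => rw [← List.take_append_drop i w]
            rw [List.drop_append_of_le_length]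
            rw [List.length_take]
            omega
          have h6 := h1 k
          rw [h5, wf_append, heq] at h6
          rw [h4, wf_append]
          exact h6
        · have h4 : (w.take i ++ w.drop j).drop k = w.drop (j + (k - i)) := by
            rw [List.drop_append, List.drop_eq_nil_of_le (by rw [List.length_take]; omega),
              List.nil_append, List.drop_drop, List.length_take]
            congr 1
            omega
          rw [h4]
          exact h1 _
    intro i hi j hj heq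
    rw [Finset.coe_range, Set.mem_Iio] at hi hj
    rcases lt_trichotomy i j with h3 | h3 | h3
    · exact absurd heq (key i j h3 (by omega))
    · exact h3
    · exact absurd heq.symm (key j i h3 (by omega))
  have h3 : (Finset.range (w.length + 1)).card ≤ F.card := by
    refine Finset.card_le_card_of_injOn _ (fun k _ => hF (h1 k)) hinj
  rw [Finset.card_range] at h3
  omega

/-- the crossing lemma for words -/
theorem cross {inv : ι → ι} {D M K : ℕ} (hD : 1 ≤ D) (hDM : D ≤ M) (hMK : M ≤ K)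
    (hinv : ∀ s i, |i| ≤ (K : ℤ) → T (inv s) (T s i) = i) (w : List ι) (x : ℤ)
    (hstep : ∀ k < w.length, |wf T (w.drop k) x - wf T (w.drop (k + 1)) x| ≤ (D : ℤ))
    (hx : x ≤ -(M : ℤ)) (hy : (M : ℤ) ≤ wf T w x) :
    ∃ k ≤ w.length, 0 ≤ wf T (w.drop k) x ∧ wf T (w.drop k) x < D ∧
      ∀ N : ℕ, D ≤ N → N ≤ M →
        (∃ z, (N : ℤ) - D + 1 ≤ z ∧ Join T {i | |i| ≤ (N : ℤ)} (wf T (w.drop k) x) z) ∧
        (∃ z, z ≤ -((N : ℤ) - D + 1) ∧ Join T {i | |i| ≤ (N : ℤ)} (wf T (w.drop k) x) z) := by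
  obtain ⟨k, hk, h1, h2, h3⟩ := crossing (fun k => wf T (w.drop (w.length - k)) x)
    (n := w.length) hD hDM (by simpa [wf] using hx) (by simpa using hy) (by
      intro k hk
      have := hstep (w.length - (k + 1)) (by omega)
      rwa [show w.length - (k + 1) + 1 = w.length - k by omega] at this)
  have hseg : ∀ {N : ℕ} {a b : ℕ}, a ≤ b → b ≤ w.length →
      (∀ j, a ≤ j → j ≤ b → |wf T (w.drop (w.length - j)) x| ≤ (N : ℤ)) →
      Join T {i | |i| ≤ (N : ℤ)} (wf T (w.drop (w.length - a)) x)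
        (wf T (w.drop (w.length - b)) x) := by
    intro N a b hab hb hall
    induction b, hab using Nat.le_induction with
    | base => exact Join.refl (hall a (le_refl _) (le_refl _))
    | succ b hab ih =>
      have h4 := ih (by omega) (fun j hj hjb => hall j hj (by omega))
      have hlt : w.length - (b + 1) < w.length := by omega
      have h5 : w.drop (w.length - (b + 1)) =
          w[w.length - (b + 1)] :: w.drop (w.length - b) := by
        rw [List.drop_eq_getElem_cons hlt]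
        congr 2
        omega
      have h6 := hall (b + 1) (by omega) (le_refl _)
      rw [h5, wf] at h6 ⊢
      exact h4.cons _ h6
  refine ⟨w.length - k, by omega, h1, h2, fun N hN hNM => ?_⟩
  obtain ⟨a, b, g1, g2, g3, g4, g5, g6⟩ := h3 N hN hNM
  refine ⟨⟨_, g5, hseg g2 g3 fun j hj hjb => g6 j (g1.trans hj) hjb⟩, ⟨_, g4, ?_⟩⟩
  refine Join.symm (inv := inv) (fun s i hi => hinv s i ?_)
    (hseg g1 (g2.trans g3) fun j hj hjb => g6 j hj (hjb.trans g2))
  have : |i| ≤ (N : ℤ) := hi
  have hNK : (N : ℤ) ≤ K := by exact_mod_cast hNM.trans hMK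
  exact this.trans hNK

end B2

end Pool.Agent.QLN
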