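/-
Piece of row CONN: near points joined by short words, dense set => uniformly connected.
-/
import Pool.Agent.Lib.QLN.RowsB

set_option autoImplicit false

namespace Pool.Agent.QLN

open Pool.Agent.SCH

namespace B3a

/-- If the points of a dense set at distance at most `2 D` are joined by words of length at most
`r₀`, then all points are joined by words of length at most `r₀ (|x - y| + 1)`. -/
theorem conn_of_near {ι : Type*} {τ : ι → Equiv.Perm ℤ} {Ω : Set ℤ} {D r₀ : ℕ} (hD : 0 < D)
    (hdense : ∀ t : ℤ, ∃ y ∈ Ω, t ≤ y ∧ y < t + D)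
    (hnear : ∀ x ∈ Ω, ∀ y ∈ Ω, |x - y| ≤ 2 * (D : ℤ) →
      ∃ w : List ι, w.length ≤ r₀ ∧ wd τ w x = y) :
    ∃ r : ℕ, ∀ x ∈ Ω, ∀ y ∈ Ω, ∃ w : List ι,
      (w.length : ℤ) ≤ r * (|x - y| + 1) ∧ wd τ w x = y := by
  refine ⟨r₀, ?_⟩
  have hD1 : (1 : ℤ) ≤ D := by exact_mod_cast hD
  have hr : (0 : ℤ) ≤ r₀ := by positivity
  have main : ∀ N : ℕ, ∀ x ∈ Ω, ∀ y ∈ Ω, (x - y).natAbs ≤ N → ∃ w : List ι,
      (w.length : ℤ) ≤ r₀ * (|x - y| + 1) ∧ wd τ w x = y := by
    intro N
    induction N with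
    | zero =>
      intro x hx y hy h
      have hxy : x = y := by omega
      subst hxy
      exact ⟨[], by simp, by simp [wd_nil]⟩
    | succ N ih =>
      intro x hx y hy h
      by_cases h2 : |x - y| ≤ 2 * (D : ℤ)
      · obtain ⟨w, h3, h4⟩ := hnear x hx y hy h2
        refine ⟨w, ?_, h4⟩
        have h5 : (w.length : ℤ) ≤ r₀ := by exact_mod_cast h3
        have h6 : (r₀ : ℤ) * 1 ≤ r₀ * (|x - y| + 1) :=
          mul_le_mul_of_nonneg_left (by have := abs_nonneg (x - y); linarith) hr
        linarith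
      · push Not at h2
        obtain ⟨z, hz, h3, h4, h5⟩ : ∃ z ∈ Ω, |x - z| ≤ 2 * (D : ℤ) ∧
            |z - y| ≤ |x - y| - D ∧ (z - y).natAbs ≤ N := by
          rcases le_total x y with hxy | hxy
          · obtain ⟨z, hz, h3, h4⟩ := hdense (x + D)
            rw [abs_sub_comm, abs_of_nonneg (by linarith : (0 : ℤ) ≤ y - x)] at h2
            refine ⟨z, hz, ?_, ?_, ?_⟩
            · rw [abs_sub_comm, abs_of_nonneg (by linarith)]; linarith
            · rw [abs_sub_comm z y, abs_of_nonneg (by linarith : (0 : ℤ) ≤ y - z),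
                abs_sub_comm x y, abs_of_nonneg (by linarith : (0 : ℤ) ≤ y - x)]
              linarith
            · omega
          · obtain ⟨z, hz, h3, h4⟩ := hdense (x - 2 * D)
            rw [abs_of_nonneg (by linarith : (0 : ℤ) ≤ x - y)] at h2
            refine ⟨z, hz, ?_, ?_, ?_⟩
            · rw [abs_of_nonneg (by linarith)]; linarith
            · rw [abs_of_nonneg (by linarith : (0 : ℤ) ≤ z - y),
                abs_of_nonneg (by linarith : (0 : ℤ) ≤ x - y)]
              linarith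
            · omega
        obtain ⟨w, hw, hw2⟩ := hnear x hx z hz h3
        obtain ⟨v, hv, hv2⟩ := ih z hz y hy h5
        refine ⟨v ++ w, ?_, by rw [wd_append, Equiv.Perm.mul_apply, hw2, hv2]⟩
        have h6 : (w.length : ℤ) ≤ r₀ := by exact_mod_cast hw
        have h7 : (r₀ : ℤ) * (|z - y| + 1) ≤ r₀ * (|x - y| - D + 1) :=
          mul_le_mul_of_nonneg_left (by linarith) hr
        have h8 : (r₀ : ℤ) * (|x - y| - D + 1) + r₀ * 1 ≤ r₀ * (|x - y| + 1) := by
          have h9 : (r₀ : ℤ) * 1 ≤ r₀ * D := mul_le_mul_of_nonneg_left hD1 hr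
          have h10 : (r₀ : ℤ) * (|x - y| - D + 1) = r₀ * (|x - y| + 1) - r₀ * D := by ring
          linarith
        rw [List.length_append]
        push_cast
        linarith
  exact fun x hx y hy => main _ x hx y hy le_rfl

end B3a

end Pool.Agent.QLN
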