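/-
Reflection and restriction of systems on the integers (helper lemmas for the pieces of BAND).
-/
import Pool.Agent.Lib.QLN.RowsB
import Pool.Agent.Lib.QLN.Main

set_option autoImplicit false

namespace Pool.Agent.QLN

open Pool.Agent.SCH

variable {ι : Type} {inv : ι → ι} {n D j C : ℕ} {τ : ι → Equiv.Perm ℤ} {Ω : Set ℤ}

theorem ZSys.reflect (h : ZSys inv n D τ Ω) : ZSys inv n D (rfl' τ) {x | -x ∈ Ω} where
  inv s := by
    refine Equiv.ext fun x => ?_
    have h1 : (τ (inv s)) (-x) = (τ s)⁻¹ (-x) := by rw [h.inv]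
    change -(τ (inv s)) (-x) = ((rfl' τ s)⁻¹) x
    rw [h1, Equiv.Perm.eq_inv_iff_eq]
    change -(τ s) (- -(τ s)⁻¹ (-x)) = x
    simp
  disp s i := by
    change |-(τ s) (-i) - i| ≤ _
    have := h.disp s (-i)
    rw [abs_le] at this ⊢
    constructor <;> linarith [this.1, this.2]
  supp s i hi := by
    change -(τ s) (-i) = i
    rw [h.supp s (-i) hi, neg_neg]
  exp w := by
    refine Equiv.ext fun x => ?_
    rw [wd_rfl'_pow, h.exp]
    simp

theorem Unb.reflect {x : ℤ} (h : Unb τ x) : Unb (rfl' τ) (-x) := by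
  intro M
  obtain ⟨u, hu⟩ := h M
  refine ⟨u, ?_⟩
  rw [wd_rfl', neg_neg]
  have e : -wd τ u x - -x = -(wd τ u x - x) := by ring
  rw [e, abs_neg]
  exact hu

theorem Two.reflect {x : ℤ} (h : Two τ x) : Two (rfl' τ) (-x) := by
  refine ⟨fun M => ?_, fun M => ?_⟩
  · obtain ⟨u, hu⟩ := h.2 M
    refine ⟨u, ?_⟩
    rw [wd_rfl', neg_neg]
    linarith
  · obtain ⟨u, hu⟩ := h.1 M
    refine ⟨u, ?_⟩
    rw [wd_rfl', neg_neg]
    linarith

theorem rfl'_rfl' (τ : ι → Equiv.Perm ℤ) : rfl' (rfl' τ) = τ := by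
  funext s
  refine Equiv.ext fun x => ?_
  change -(-(τ s) (- -x)) = τ s x
  simp

theorem BSys.reflect (h : BSys inv n D j C τ Ω) : BSys inv n D j C (rfl' τ) {x | -x ∈ Ω} where
  toZSys := h.toZSys.reflect
  dense t := by
    obtain ⟨y, hy, h1, h2⟩ := h.dense (-t - D + 1)
    exact ⟨-y, by simpa using hy, by linarith, by linarith⟩
  unb x hx := by
    have := (h.unb _ hx).reflect
    rwa [neg_neg] at this
  den x m := by
    have h1 := h.den (-x - m + 1) m
    have e : {x | -x ∈ Ω} ∩ Set.Ico x (x + m) =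
        (fun y : ℤ => -y) '' (Ω ∩ Set.Ico (-x - m + 1) (-x - m + 1 + m)) := by
      ext y
      constructor
      · rintro ⟨h2, h3, h4⟩
        exact ⟨-y, ⟨h2, by linarith, by linarith⟩, neg_neg y⟩
      · rintro ⟨z, ⟨h2, h3, h4⟩, rfl⟩
        refine ⟨by simpa using h2, ?_, ?_⟩
        · change x ≤ -z
          linarith
        · change -z < x + m
          linarith
    rw [e, Set.ncard_image_of_injective _ neg_injective]
    exact h1

/-- the orbit of `x` -/
def orb (τ : ι → Equiv.Perm ℤ) (x : ℤ) : Set ℤ := {y | ∃ u : List ι, wd τ u x = y}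

theorem self_mem_orb (τ : ι → Equiv.Perm ℤ) (x : ℤ) : x ∈ orb τ x := ⟨[], by simp [wd_nil]⟩

theorem orb_inv (τ : ι → Equiv.Perm ℤ) (x : ℤ) (s : ι) {y : ℤ} (hy : y ∈ orb τ x) :
    τ s y ∈ orb τ x := by
  obtain ⟨u, rfl⟩ := hy
  exact ⟨s :: u, by rw [wd_cons, Equiv.Perm.mul_apply]⟩

theorem ZSys.orb_symm (h : ZSys inv n D τ Ω) {x y : ℤ} (hy : y ∈ orb τ x) : x ∈ orb τ y := by
  obtain ⟨u, rfl⟩ := hy
  refine ⟨winv inv u, ?_⟩
  rw [wd_winv h.inv]
  exact (wd τ u).symm_apply_apply x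

theorem orb_trans {x y z : ℤ} (hy : y ∈ orb τ x) (hz : z ∈ orb τ y) : z ∈ orb τ x := by
  obtain ⟨u, rfl⟩ := hy
  obtain ⟨v, rfl⟩ := hz
  exact ⟨v ++ u, by rw [wd_append, Equiv.Perm.mul_apply]⟩

theorem ZSys.mem (h : ZSys inv n D τ Ω) (s : ι) {i : ℤ} (hi : i ∈ Ω) : τ s i ∈ Ω := by
  by_contra hc
  have h1 := h.supp s _ hc
  have h2 := (τ s).injective h1
  rw [h2] at hc
  exact hc hi

theorem ZSys.wd_mem (h : ZSys inv n D τ Ω) (w : List ι) {i : ℤ} (hi : i ∈ Ω) :
    wd τ w i ∈ Ω := by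
  induction w with
  | nil => simpa [wd_nil] using hi
  | cons s w ih => rw [wd_cons, Equiv.Perm.mul_apply]; exact h.mem s ih

theorem ZSys.orb_sub (h : ZSys inv n D τ Ω) {x : ℤ} (hx : x ∈ Ω) : orb τ x ⊆ Ω := by
  rintro _ ⟨u, rfl⟩
  exact h.wd_mem u hx

theorem ZSys.wd_disp (h : ZSys inv n D τ Ω) (w : List ι) (i : ℤ) :
    |wd τ w i - i| ≤ D * w.length := by
  induction w with
  | nil => simp [wd_nil]
  | cons s w ih =>
    rw [wd_cons, Equiv.Perm.mul_apply, List.length_cons]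
    have h1 := abs_le.1 ih
    have h2 := abs_le.1 (h.disp s (wd τ w i))
    rw [abs_le]
    push_cast
    constructor <;> nlinarith [h1.1, h1.2, h2.1, h2.2]

open Classical in
/-- restriction to an invariant set -/
noncomputable def res (inv : ι → ι) (τ : ι → Equiv.Perm ℤ) (A : Set ℤ)
    (hinv : ∀ s, τ (inv s) = (τ s)⁻¹) (hA : ∀ s x, x ∈ A → τ s x ∈ A) (s : ι) : Equiv.Perm ℤ where
  toFun x := if x ∈ A then τ s x else x
  invFun x := if x ∈ A then τ (inv s) x else x
  left_inv x := by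
    dsimp only
    by_cases hx : x ∈ A
    · rw [if_pos hx, if_pos (hA s x hx), hinv]
      exact (τ s).symm_apply_apply x
    · rw [if_neg hx, if_neg hx]
  right_inv x := by
    dsimp only
    by_cases hx : x ∈ A
    · rw [if_pos hx, if_pos (hA (inv s) x hx), hinv]
      exact (τ s).apply_symm_apply x
    · rw [if_neg hx, if_neg hx]

section

variable {A : Set ℤ} (hinv : ∀ s, τ (inv s) = (τ s)⁻¹) (hA : ∀ s x, x ∈ A → τ s x ∈ A)

theorem res_mem {s : ι} {x : ℤ} (hx : x ∈ A) : res inv τ A hinv hA s x = τ s x := if_pos hx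

theorem res_not {s : ι} {x : ℤ} (hx : x ∉ A) : res inv τ A hinv hA s x = x := if_neg hx

include hA in
theorem wd_memA (w : List ι) {x : ℤ} (hx : x ∈ A) : wd τ w x ∈ A := by
  induction w with
  | nil => simpa [wd_nil] using hx
  | cons s w ih => rw [wd_cons, Equiv.Perm.mul_apply]; exact hA s _ ih

theorem wd_res_mem (w : List ι) {x : ℤ} (hx : x ∈ A) :
    wd (res inv τ A hinv hA) w x = wd τ w x := by
  induction w with
  | nil => simp [wd_nil]
  | cons s w ih =>
    rw [wd_cons, Equiv.Perm.mul_apply, ih, wd_cons, Equiv.Perm.mul_apply,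
      res_mem hinv hA (wd_memA hA w hx)]

theorem wd_res_not (w : List ι) {x : ℤ} (hx : x ∉ A) :
    wd (res inv τ A hinv hA) w x = x := by
  induction w with
  | nil => simp [wd_nil]
  | cons s w ih => rw [wd_cons, Equiv.Perm.mul_apply, ih, res_not hinv hA hx]

end

theorem ZSys.restrict (h : ZSys inv n D τ Ω) {A : Set ℤ} (hA : ∀ s x, x ∈ A → τ s x ∈ A) :
    ZSys inv n D (res inv τ A h.inv hA) A where
  inv s := by
    refine Equiv.ext fun x => ?_
    rw [Equiv.Perm.eq_inv_iff_eq]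
    by_cases hx : x ∈ A
    · rw [res_mem h.inv hA hx, res_mem h.inv hA (hA _ _ hx), h.inv]
      exact (τ s).apply_symm_apply x
    · rw [res_not h.inv hA hx, res_not h.inv hA hx]
  disp s i := by
    by_cases hi : i ∈ A
    · rw [res_mem h.inv hA hi]; exact h.disp s i
    · rw [res_not h.inv hA hi]; simp
  supp s i hi := res_not h.inv hA hi
  exp w := by
    refine Equiv.ext fun x => ?_
    rw [← wd_wpow]
    by_cases hx : x ∈ A
    · rw [wd_res_mem h.inv hA _ hx, wd_wpow, h.exp]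
    · rw [wd_res_not h.inv hA _ hx]; rfl

theorem ZSys.unb_restrict (h : ZSys inv n D τ Ω) {A : Set ℤ} (hA : ∀ s x, x ∈ A → τ s x ∈ A) {x : ℤ}
    (hx : x ∈ A) (hu : Unb τ x) : Unb (res inv τ A h.inv hA) x := by
  intro M
  obtain ⟨u, hu⟩ := hu M
  exact ⟨u, by rwa [wd_res_mem h.inv hA u hx]⟩

theorem ZSys.two_restrict (h : ZSys inv n D τ Ω) {A : Set ℤ} (hA : ∀ s x, x ∈ A → τ s x ∈ A) {x : ℤ}
    (hx : x ∈ A) (hu : Two τ x) : Two (res inv τ A h.inv hA) x := by
  refine ⟨fun M => ?_, fun M => ?_⟩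
  · obtain ⟨u, hu⟩ := hu.1 M
    exact ⟨u, by rwa [wd_res_mem h.inv hA u hx]⟩
  · obtain ⟨u, hu⟩ := hu.2 M
    exact ⟨u, by rwa [wd_res_mem h.inv hA u hx]⟩

/-- a shifted system is a window of every size -/
theorem ZSys.shift (h : ZSys inv n D τ Ω) (m : ℤ) (K : ℕ) :
    ZWin inv n D K (fun s i => τ s (m + i) - m) {i | m + i ∈ Ω} where
  inv_left s i _ := by
    change τ (inv s) (m + (τ s (m + i) - m)) - m = i
    have e : m + (τ s (m + i) - m) = τ s (m + i) := by ring
    have e2 : (τ s)⁻¹ (τ s (m + i)) = m + i := (τ s).symm_apply_apply _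
    rw [e, h.inv, e2]
    ring
  inv_right s i _ := by
    change τ s (m + (τ (inv s) (m + i) - m)) - m = i
    have e : m + (τ (inv s) (m + i) - m) = τ (inv s) (m + i) := by ring
    have e2 : τ s ((τ s)⁻¹ (m + i)) = m + i := (τ s).apply_symm_apply _
    rw [e, h.inv, e2]
    ring
  disp s i _ := by
    have := h.disp s (m + i)
    have e : τ s (m + i) - m - i = τ s (m + i) - (m + i) := by ring
    rw [e]; exact this
  supp s i _ hi := by
    change τ s (m + i) - m = i
    rw [h.supp s (m + i) hi]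
    ring
  exp w i _ := by
    have key : ∀ (w : List ι) (i : ℤ), wf (fun s i => τ s (m + i) - m) w i = wd τ w (m + i) - m := by
      intro w
      induction w with
      | nil => intro i; simp [wf, wd_nil]
      | cons s w ih =>
        intro i
        rw [wf, ih, wd_cons, Equiv.Perm.mul_apply]
        congr 2
        ring
    rw [← wf_wpow, key, wd_wpow, h.exp]
    simp

end Pool.Agent.QLN
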