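/-
Row BAND from its pieces.
-/
import Pool.Agent.Lib.QLN.BLEM

set_option autoImplicit false

namespace Pool.Agent.QLN

open Pool.Agent.SCH

theorem rowBAND_of.{u} (h0 : RowB0.{u}) (hS : RowSTART) (hT : RowTWO) (hC : RowCONN) :
    RowBAND.{u} := by
  classical
  intro X ι _ inv n K σ hn hinv hexp hballs
  obtain ⟨D, τ, Ω, hD, h, hx, hu⟩ := h0 X ι inv n K σ hn hinv hexp hballs
  obtain ⟨τ1, Ω1, h1⟩ := hS ι inv n D τ Ω hD h hx hu
  have hex : ∃ j : ℕ, ∃ (C : ℕ) (τ : ι → Equiv.Perm ℤ) (Ω : Set ℤ), BSys inv n D j C τ Ω :=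
    ⟨D, 0, τ1, Ω1, h1⟩
  obtain ⟨C, τ2, Ω2, h2⟩ := Nat.find_spec hex
  have hmin : ∀ (j' C' : ℕ) (τ' : ι → Equiv.Perm ℤ) (Ω' : Set ℤ), BSys inv n D j' C' τ' Ω' →
      Nat.find hex ≤ j' := fun j' C' τ' Ω' h' => Nat.find_min' hex ⟨C', τ', Ω', h'⟩
  obtain ⟨τ3, Ω3, q, h3, hq, htwo, horb⟩ := hT ι inv n D _ C τ2 Ω2 hD h2
  obtain ⟨r, hr⟩ := hC ι inv n D _ C τ3 Ω3 q hD h3 hq htwo horb hmin
  refine ⟨D, r, 2 * D, 1, τ3, Ω3, ⟨⟨h3.inv, h3.disp, h3.supp, hr, h3.exp, ?_⟩, ?_⟩⟩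
  · intro x _ R
    have hsub : ball τ3 x R ⊆ Set.Icc (x - D * R) (x + D * R) := by
      rintro y ⟨w, hw, rfl⟩
      have h4 := abs_le.1 (h3.toZSys.wd_disp w x)
      have h5 : (D : ℤ) * w.length ≤ D * R := by
        have : ((w.length : ℕ) : ℤ) ≤ R := by exact_mod_cast hw
        exact mul_le_mul_of_nonneg_left this (by positivity)
      constructor <;> linarith [h4.1, h4.2]
    refine (Set.encard_le_encard hsub).trans ?_
    rw [← Finset.coe_Icc, Set.encard_coe_eq_coe_finsetCard, Int.card_Icc]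
    have h6 : (x + D * R + 1 - (x - D * R)).toNat = 2 * D * R + 1 := by
      have : x + (D : ℤ) * R + 1 - (x - D * R) = ((2 * D * R + 1 : ℕ) : ℤ) := by push_cast; ring
      rw [this, Int.toNat_natCast]
    rw [h6]
  · intro x
    obtain ⟨y, hy, h4, h5⟩ := h3.dense x
    exact ⟨y, hy, by rw [abs_le]; constructor <;> linarith⟩

end Pool.Agent.QLN
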