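/-
QLN, row DIM: there are few harmonic functions.
-/
import Pool.Agent.Lib.QLN.Rows
import Pool.Agent.Lib.SCH.SEP

set_option autoImplicit false

namespace Pool.Agent.QLN

open Pool.Agent.SCH

/-- the maximum principle -/
theorem max_princ {Y : Type} (adj : Y → Y → Prop) (N : Y → Finset Y) (A : Set Y) (hA : A.Finite)
    (hinf : Infinite Y) (conn : ∀ x y, Relation.ReflTransGen adj x y)
    (mem : ∀ x y, y ∈ N x ↔ adj x y) (F : Y → ℝ) (hF : ∀ x, ∑ y ∈ N x, (F x - F y) = 0)
    (hb : ∀ x ∈ A, ∀ y, adj x y → y ∉ A → F y = 0) : ∀ x ∈ A, F x ≤ 0 := by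
  intro x hx
  by_contra hc
  rw [not_le] at hc
  obtain ⟨x₀, hx₀, hmax⟩ := Set.exists_max_image A F hA ⟨x, hx⟩
  have hM : 0 < F x₀ := hc.trans_le (hmax x hx)
  have key : ∀ y, Relation.ReflTransGen adj x₀ y → y ∈ A ∧ F y = F x₀ := by
    intro y hy
    induction hy with
    | refl => exact ⟨hx₀, rfl⟩
    | @tail a b _ hab ih =>
      obtain ⟨haA, haF⟩ := ih
      have h1 : ∀ z ∈ N a, 0 ≤ F a - F z := by
        intro z hz
        rw [sub_nonneg, haF]
        by_cases hzA : z ∈ A
        · exact hmax z hzA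
        · rw [hb a haA z ((mem a z).mp hz) hzA]
          exact hM.le
      have h2 := (Finset.sum_eq_zero_iff_of_nonneg h1).mp (hF a) b ((mem a b).mpr hab)
      have h3 : F b = F x₀ := by rw [← haF]; linarith
      refine ⟨?_, h3⟩
      by_contra hbA
      have h4 := hb a haA b hab hbA
      linarith
  have h5 : (Set.univ : Set Y) ⊆ A := fun y _ => (key y (conn x₀ y)).1
  exact Set.infinite_univ (hA.subset h5)

theorem rowDIM : RowDIM := by
  classical
  intro Y H _ _ adj N pos P n hV m f hli hf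
  by_contra hm
  rw [not_le] at hm
  obtain ⟨P₀, hP₀⟩ := exists_sep f hli
  obtain ⟨R, hR⟩ : ∃ R : ℕ, ∀ y ∈ P₀, |pos y| ≤ (R : ℤ) := by
    refine ⟨P₀.sup fun y => (pos y).natAbs, ?_⟩
    intro y hy
    have h : (pos y).natAbs ≤ P₀.sup fun y => (pos y).natAbs :=
      Finset.le_sup (f := fun y => (pos y).natAbs) hy
    rw [Int.abs_eq_natAbs]
    exact_mod_cast h
  let T : Finset ℤ := Finset.Icc (-((R : ℤ) + P)) (-((R : ℤ) + 1)) ∪
    Finset.Icc ((R : ℤ) + 1) ((R : ℤ) + P)
  have hT : T.card ≤ 2 * P := by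
    refine (Finset.card_union_le _ _).trans ?_
    rw [Int.card_Icc, Int.card_Icc]
    omega
  let g : Matrix T (Fin m) ℝ := Matrix.of fun t j =>
    if h : ∃ y, pos y = t.1 then f j h.choose else 0
  have hker : LinearMap.ker (Matrix.mulVecLin g) ≠ ⊥ := by
    apply LinearMap.ker_ne_bot_of_finrank_lt
    rw [Module.finrank_fintype_fun_eq_card, Module.finrank_fintype_fun_eq_card, Fintype.card_fin,
      Fintype.card_coe]
    omega
  obtain ⟨c, hc, hc0⟩ := (Submodule.ne_bot_iff _).mp hker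
  have hst : ∀ y, (R : ℤ) < |pos y| → |pos y| ≤ (R : ℤ) + P → ∑ j, c j * f j y = 0 := by
    intro y h1 h2
    have hyT : pos y ∈ T := by
      rw [Finset.mem_union, Finset.mem_Icc, Finset.mem_Icc]
      rcases abs_cases (pos y) with ⟨h3, _⟩ | ⟨h3, _⟩
      · right
        constructor <;> omega
      · left
        constructor <;> omega
    have h3 := congrFun (LinearMap.mem_ker.mp hc) ⟨pos y, hyT⟩
    rw [Matrix.mulVecLin_apply, Matrix.mulVec, dotProduct, Pi.zero_apply] at h3
    rw [← h3]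
    apply Finset.sum_congr rfl
    intro j _
    have hex : ∃ y', pos y' = pos y := ⟨y, rfl⟩
    have h4 : g ⟨pos y, hyT⟩ j = f j y := by
      show (if h : ∃ y', pos y' = pos y then f j h.choose else 0) = f j y
      rw [dif_pos hex]
      congr 1
      exact hV.inj hex.choose_spec
    rw [h4, mul_comm]
  have hA : ({y | |pos y| ≤ (R : ℤ)} : Set Y).Finite := by
    apply ((Set.finite_Icc (-(R : ℤ)) R).preimage (hV.inj.injOn)).subset
    intro y hy
    exact abs_le.mp hy
  have hharm : ∀ e : Fin m → ℝ, ∀ x,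
      ∑ y ∈ N x, ((∑ j, e j * f j x) - ∑ j, e j * f j y) = 0 := by
    intro e x
    have h1 : ∀ y ∈ N x, (∑ j, e j * f j x) - ∑ j, e j * f j y
        = ∑ j, e j * (f j x - f j y) := by
      intro y _
      rw [← Finset.sum_sub_distrib]
      exact Finset.sum_congr rfl fun j _ => by ring
    rw [Finset.sum_congr rfl h1, Finset.sum_comm]
    apply Finset.sum_eq_zero
    intro j _
    rw [← Finset.mul_sum, hf j x, mul_zero]
  have hbd : ∀ x ∈ ({y | |pos y| ≤ (R : ℤ)} : Set Y), ∀ y, adj x y →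
      y ∉ ({y | |pos y| ≤ (R : ℤ)} : Set Y) → ∑ j, c j * f j y = 0 := by
    intro x hx y hxy hy
    have h1 : |pos x| ≤ (R : ℤ) := hx
    have h2 : (R : ℤ) < |pos y| := not_le.mp hy
    apply hst y h2
    have h3 := hV.len x y hxy
    have h4 := abs_sub_abs_le_abs_sub (pos y) (pos x)
    rw [abs_sub_comm] at h4
    omega
  have h1 := max_princ adj N _ hA hV.inf hV.conn hV.mem (fun y => ∑ j, c j * f j y) (hharm c) hbd
  have h2 := max_princ adj N _ hA hV.inf hV.conn hV.mem (fun y => ∑ j, (-c) j * f j y)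
    (hharm (-c)) (by
      intro x hx y hxy hy
      have h3 := hbd x hx y hxy hy
      simp only [Pi.neg_apply, neg_mul, Finset.sum_neg_distrib, h3, neg_zero])
  apply hc0
  apply hP₀
  intro x hx
  have h3 := h1 x (hR x hx)
  have h4 := h2 x (hR x hx)
  simp only [Pi.neg_apply, neg_mul, Finset.sum_neg_distrib] at h4
  have h5 : (∑ j, c j * f j x) ≤ 0 := h3
  linarith

end Pool.Agent.QLN
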