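/-
Row START: from one unbounded orbit to a dense set of unbounded orbits (helper62).
-/
import Pool.Agent.Lib.QLN.BLEM
import Pool.Agent.Lib.QLN.B2

set_option autoImplicit false

namespace Pool.Agent.QLN

open Pool.Agent.SCH

namespace Start

variable {ι : Type} {inv : ι → ι} {n D : ℕ} {τ : ι → Equiv.Perm ℤ} {Ω : Set ℤ}

theorem wf_eq (τ : ι → Equiv.Perm ℤ) (w : List ι) (x : ℤ) :
    wf (fun s i => τ s i) w x = wd τ w x := by
  induction w with
  | nil => simp [wf, wd_nil]
  | cons s w ih => rw [wf, ih, wd_cons, Equiv.Perm.mul_apply]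

/-- INFL: an unbounded orbit is left by words of linear length. -/
theorem infl (τ : ι → Equiv.Perm ℤ) {x : ℤ} (hx : Unb τ x) (M : ℕ) :
    ∃ u : List ι, u.length ≤ 2 * M + 1 ∧ (M : ℤ) < |wd τ u x - x| := by
  classical
  obtain ⟨w, hw⟩ := hx M
  -- the shortest suffix which leaves the interval
  have hex : ∃ k, ∃ s : ι, ∃ v : List ι, v.length = k ∧ (M : ℤ) < |wd τ (s :: v) x - x| := by
    cases w with
    | nil =>
      rw [wd_nil, Equiv.Perm.one_apply, sub_self, abs_zero] at hw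
      have : (0 : ℤ) ≤ M := by positivity
      linarith
    | cons s w => exact ⟨w.length, s, w, rfl, hw⟩
  obtain ⟨s, v, hv, hs⟩ := Nat.find_spec hex
  have hmin : ∀ k, wf (fun s i => τ s i) (v.drop k) x ∈ {y : ℤ | |y - x| ≤ (M : ℤ)} := by
    intro k
    rw [Set.mem_ofPred_eq, wf_eq]
    by_contra hc
    push Not at hc
    cases hk : v.drop k with
    | nil =>
      rw [hk, wd_nil, Equiv.Perm.one_apply, sub_self, abs_zero] at hc
      have : (0 : ℤ) ≤ M := by positivity
      linarith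
    | cons t u =>
      rw [hk] at hc
      have hlen : (v.drop k).length = u.length + 1 := by rw [hk, List.length_cons]
      rw [List.length_drop] at hlen
      exact Nat.find_min hex (m := u.length) (by omega) ⟨t, u, rfl, hc⟩
  have hJ : B2.Join (fun s i => τ s i) {y : ℤ | |y - x| ≤ (M : ℤ)} x
      (wf (fun s i => τ s i) v x) := ⟨v, hmin, rfl⟩
  obtain ⟨v', h1, h2, h3⟩ := hJ.short (Finset.Icc (x - M) (x + M)) (by
    intro y hy
    rw [Set.mem_ofPred_eq, abs_le] at hy
    rw [Finset.coe_Icc, Set.mem_Icc]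
    constructor <;> linarith [hy.1, hy.2])
  rw [Int.card_Icc] at h1
  refine ⟨s :: v', ?_, ?_⟩
  · rw [List.length_cons]
    omega
  · rw [wd_cons, Equiv.Perm.mul_apply, ← wf_eq τ v', h3, wf_eq, ← Equiv.Perm.mul_apply, ← wd_cons]
    exact hs

/-- unboundedness along an orbit -/
theorem unb_orb (h : ZSys inv n D τ Ω) {x y : ℤ} (hx : Unb τ x) (hy : y ∈ orb τ x) : Unb τ y := by
  intro M
  obtain ⟨v, rfl⟩ := hy
  obtain ⟨u, hu⟩ := hx (M + (wd τ v x - x).natAbs)
  refine ⟨u ++ winv inv v, ?_⟩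
  have h1 : (wd τ (winv inv v)) (wd τ v x) = x := by
    rw [wd_winv h.inv]
    exact (wd τ v).symm_apply_apply x
  rw [wd_append, Equiv.Perm.mul_apply, h1]
  push_cast at hu
  have h2 : |wd τ u x - x| ≤ |wd τ u x - wd τ v x| + |wd τ v x - x| := by
    have e : wd τ u x - x = (wd τ u x - wd τ v x) + (wd τ v x - x) := by ring
    rw [e]
    exact abs_add_le _ _
  linarith

/-- an orbit which is unbounded to the right meets all intervals of length `D` to the right -/
theorem meets (h : ZSys inv n D τ Ω) (hD : 0 < D) (hr : ∀ M : ℕ, ∃ u : List ι, (M : ℤ) < wd τ u 0)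
    {t : ℤ} (ht : 0 ≤ t) : ∃ y ∈ orb τ 0, t ≤ y ∧ y < t + D := by
  obtain ⟨u, hu⟩ := hr t.toNat
  rw [Int.toNat_of_nonneg ht] at hu
  induction u with
  | nil =>
    rw [wd_nil, Equiv.Perm.one_apply] at hu
    linarith
  | cons s u ih =>
    by_cases h1 : t < wd τ u 0
    · exact ih h1
    · push Not at h1
      rcases h1.lt_or_eq with h2 | h2
      · refine ⟨wd τ (s :: u) 0, ⟨_, rfl⟩, hu.le, ?_⟩
        have h3 := (abs_le.1 (h.disp s (wd τ u 0))).2
        rw [wd_cons, Equiv.Perm.mul_apply]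
        linarith
      · exact ⟨wd τ u 0, ⟨_, rfl⟩, h2.ge, by rw [h2]; have : (0 : ℤ) < D := by exact_mod_cast hD
                                             linarith⟩

/-- words of two systems which agree near the origin -/
theorem wagree {τ' : ι → Equiv.Perm ℤ} {Ω' : Set ℤ} (h : ZSys inv n D τ' Ω') {m R : ℤ}
    (hR : ∀ i, |i| ≤ R → ∀ s, τ' s i = τ s (m + i) - m) (w : List ι) (i : ℤ)
    (hi : |i| + D * w.length ≤ R) : wd τ' w i = wd τ w (m + i) - m := by
  induction w with
  | nil => simp [wd_nil]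
  | cons s w ih =>
    rw [List.length_cons] at hi
    push_cast at hi
    have hD : (0 : ℤ) ≤ D := by positivity
    have h1 := ih (by nlinarith)
    have h2 := h.wd_disp w i
    have h3 : |wd τ' w i| ≤ R := by
      have := abs_sub_abs_le_abs_sub (wd τ' w i) i
      nlinarith
    rw [wd_cons, Equiv.Perm.mul_apply, hR _ h3 s, h1, wd_cons, Equiv.Perm.mul_apply]
    congr 2
    ring

/-- the case of an orbit unbounded to the right -/
theorem right [Finite ι] (hB1 : RowB1) (hD : 0 < D) (h : ZSys inv n D τ Ω) (hu : Unb τ 0)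
    (hr : ∀ M : ℕ, ∃ u : List ι, (M : ℤ) < wd τ u 0) :
    ∃ (τ' : ι → Equiv.Perm ℤ) (Ω' : Set ℤ), BSys inv n D D 0 τ' Ω' := by
  have hA : ∀ s x, x ∈ orb τ 0 → τ s x ∈ orb τ 0 := fun s x hx => orb_inv τ 0 s hx
  have hO := h.restrict hA
  obtain ⟨τ', Ω', A', hZ, happ⟩ := hB1 ι inv n D
    (fun K s i => res inv τ (orb τ 0) h.inv hA s ((K : ℤ) + i) - K) (fun K => {i | (K : ℤ) + i ∈ orb τ 0})
    (fun _ => ∅) (fun K => hO.shift (K : ℤ) K)
  refine ⟨τ', Ω', ⟨hZ, ?_, ?_, ?_⟩⟩
  · intro t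
    obtain ⟨K, hK, hag⟩ := happ (t.natAbs + D) (t.natAbs)
    have hKt : 0 ≤ (K : ℤ) + t := by
      have : (t.natAbs : ℤ) ≤ K := by exact_mod_cast hK
      have h1 : |t| ≤ (K : ℤ) := by rwa [Int.abs_eq_natAbs]
      linarith [(abs_le.1 h1).1]
    obtain ⟨y, hy, h1, h2⟩ := meets h hD hr hKt
    refine ⟨y - K, ?_, by linarith, by linarith⟩
    have h3 : |y - K| ≤ ((t.natAbs + D : ℕ) : ℤ) := by
      push_cast
      rw [abs_le]
      have h4 := abs_le.1 (le_refl |t|)
      constructor <;> linarith [h4.1, h4.2]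
    rw [(hag _ h3).2.1]
    show (K : ℤ) + (y - K) ∈ orb τ 0
    rwa [add_sub_cancel]
  · intro x hx M
    obtain ⟨K, -, hag⟩ := happ (x.natAbs + D * (2 * M + 1)) 0
    have hxr : |x| ≤ ((x.natAbs + D * (2 * M + 1) : ℕ) : ℤ) := by
      push_cast
      have : (0 : ℤ) ≤ D * (2 * M + 1) := by positivity
      linarith
    have hxK : (K : ℤ) + x ∈ orb τ 0 := ((hag x hxr).2.1).1 hx
    obtain ⟨u, hul, hum⟩ := infl (res inv τ (orb τ 0) h.inv hA)
      (h.unb_restrict hA hxK (unb_orb h hu hxK)) M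
    refine ⟨u, ?_⟩
    have h1 := wagree (τ := res inv τ (orb τ 0) h.inv hA) hZ (m := (K : ℤ))
      (R := ((x.natAbs + D * (2 * M + 1) : ℕ) : ℤ)) (fun i hi => (hag i hi).1) u x (by
        push_cast
        have h2 : (u.length : ℤ) ≤ 2 * M + 1 := by exact_mod_cast hul
        have h3 : (0 : ℤ) ≤ D := by positivity
        nlinarith)
    rw [h1]
    have e : wd (res inv τ (orb τ 0) h.inv hA) u (K + x) - K - x =
      wd (res inv τ (orb τ 0) h.inv hA) u (K + x) - (K + x) := by ring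
    rw [e]
    exact hum
  · intro x m
    have h1 : (Ω' ∩ Set.Ico x (x + m)).ncard ≤ m := by
      refine (Set.ncard_le_ncard Set.inter_subset_right (Set.finite_Ico _ _)).trans ?_
      rw [← Finset.coe_Ico, Set.ncard_coe_finset, Int.card_Ico]
      omega
    rw [add_zero]
    exact Nat.mul_le_mul_left D h1

end Start

/-- Row START. -/
theorem rowSTART (hB1 : RowB1) : RowSTART := by
  intro ι _ inv n D τ Ω hD h _ hu
  by_cases hr : ∀ M : ℕ, ∃ u : List ι, (M : ℤ) < wd τ u 0
  · exact Start.right hB1 hD h hu hr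
  · have h0 : Unb (rfl' τ) 0 := by
      have := hu.reflect
      rwa [neg_zero] at this
    refine Start.right hB1 hD h.reflect h0 fun M => ?_
    push Not at hr
    obtain ⟨M₀, hM₀⟩ := hr
    obtain ⟨u, hu'⟩ := hu (M + M₀)
    refine ⟨u, ?_⟩
    rw [wd_rfl', neg_zero]
    rw [sub_zero] at hu'
    push_cast at hu'
    have h1 := hM₀ u
    rcases lt_abs.1 hu' with h2 | h2
    · have : (0 : ℤ) ≤ M := by positivity
      linarith
    · have : (0 : ℤ) ≤ M₀ := by positivity
      linarith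

end Pool.Agent.QLN
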