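/-
Row T2 (helper98).
-/
import Pool.Agent.Lib.QLN.TREE2
import Pool.Agent.Lib.QLN.FinalT

set_option autoImplicit false

namespace Pool.Agent.QLN

open Pool.Agent.SCH

universe u

/-- **Row T2** -/
theorem rowT2 : RowT2.{u} := fun _ _ _ _ _ h hinv H => TRE.quasi hinv h H

end Pool.Agent.QLN
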