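/-
Row TWO: a system with the same density whose set is one two-sided orbit.
-/
import Pool.Agent.Lib.QLN.RowsB
import Pool.Agent.Lib.QLN.B2

set_option autoImplicit false

namespace Pool.Agent.QLN

open Pool.Agent.SCH

namespace Z

variable {ι : Type} {inv : ι → ι} {n D : ℕ} {τ : ι → Equiv.Perm ℤ} {Ω : Set ℤ}

theorem inv_ap (e : Equiv.Perm ℤ) (x : ℤ) : e⁻¹ (e x) = x := e.symm_apply_apply x

theorem ap_inv (e : Equiv.Perm ℤ) (x : ℤ) : e (e⁻¹ x) = x := e.apply_symm_apply x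

theorem mem (h : ZSys inv n D τ Ω) (s : ι) {i : ℤ} (hi : i ∈ Ω) : τ s i ∈ Ω := by
  by_contra hc
  have h1 := h.supp s _ hc
  have h2 := (τ s).injective h1
  rw [h2] at hc
  exact hc hi

theorem wd_mem (h : ZSys inv n D τ Ω) (w : List ι) {i : ℤ} (hi : i ∈ Ω) : wd τ w i ∈ Ω := by
  induction w with
  | nil => simpa [wd_nil] using hi
  | cons s w ih => rw [wd_cons, Equiv.Perm.mul_apply]; exact mem h s ih

/-- the shifted system -/
theorem wf_shift (τ : ι → Equiv.Perm ℤ) (p : ℤ) (w : List ι) (i : ℤ) :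
    wf (fun s i => τ s (p + i) - p) w i = wd τ w (p + i) - p := by
  induction w with
  | nil => simp [wf, wd_nil]
  | cons s w ih =>
    rw [wf, ih, wd_cons, Equiv.Perm.mul_apply]
    congr 2
    ring

theorem win (h : ZSys inv n D τ Ω) (p : ℤ) (K : ℕ) :
    ZWin inv n D K (fun s i => τ s (p + i) - p) {i | p + i ∈ Ω} where
  inv_left s i _ := by
    show τ (inv s) (p + (τ s (p + i) - p)) - p = i
    rw [show p + (τ s (p + i) - p) = τ s (p + i) by ring, h.inv, Z.inv_ap]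
    ring
  inv_right s i _ := by
    show τ s (p + (τ (inv s) (p + i) - p)) - p = i
    rw [show p + (τ (inv s) (p + i) - p) = τ (inv s) (p + i) by ring, h.inv,
      Z.ap_inv]
    ring
  disp s i _ := by
    have := h.disp s (p + i)
    rwa [show τ s (p + i) - p - i = τ s (p + i) - (p + i) by ring]
  supp s i _ hi := by
    have := h.supp s (p + i) hi
    show τ s (p + i) - p = i
    rw [this]; ring
  exp w i _ := by
    have h1 : ∀ k, (wf (fun s i => τ s (p + i) - p) w)^[k] i = (wd τ w ^ k) (p + i) - p := by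
      intro k
      induction k with
      | zero => simp
      | succ k ih =>
        rw [Function.iterate_succ_apply', ih, wf_shift, pow_succ', Equiv.Perm.mul_apply]
        congr 2
        ring
    rw [h1, h.exp]
    simp

/-- restriction to an invariant set -/
theorem restrict (h : ZSys inv n D τ Ω) (O : Set ℤ) (hO : ∀ s i, i ∈ O → τ s i ∈ O) :
    ∃ τ' : ι → Equiv.Perm ℤ, ZSys inv n D τ' O ∧ (∀ w, ∀ i ∈ O, wd τ' w i = wd τ w i) := by
  classical
  have hinv : ∀ s i, i ∈ O → (τ s)⁻¹ i ∈ O := by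
    intro s i hi
    rw [← h.inv]
    exact hO _ _ hi
  have hiff : ∀ s i, τ s i ∈ O ↔ i ∈ O := fun s i => ⟨fun hi => by
    have := hinv s _ hi
    rwa [Z.inv_ap] at this, hO s i⟩
  let τ' : ι → Equiv.Perm ℤ := fun s => Equiv.Perm.ofSubtype ((τ s).subtypePerm (hiff s))
  have h1 : ∀ s, ∀ i ∈ O, τ' s i = τ s i := by
    intro s i hi
    show Equiv.Perm.ofSubtype ((τ s).subtypePerm (hiff s)) i = _
    rw [Equiv.Perm.ofSubtype_apply_of_mem _ hi]
    rfl
  have h2 : ∀ s, ∀ i ∉ O, τ' s i = i := by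
    intro s i hi
    exact Equiv.Perm.ofSubtype_apply_of_not_mem _ hi
  have h3 : ∀ w, ∀ i ∈ O, wd τ' w i = wd τ w i ∧ wd τ w i ∈ O := by
    intro w i hi
    induction w with
    | nil => simpa [wd_nil] using hi
    | cons s w ih =>
      rw [wd_cons, wd_cons, Equiv.Perm.mul_apply, Equiv.Perm.mul_apply, ih.1, h1 s _ ih.2]
      exact ⟨rfl, hO s _ ih.2⟩
  have h4 : ∀ w, ∀ i ∉ O, wd τ' w i = i := by
    intro w i hi
    induction w with
    | nil => simp [wd_nil]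
    | cons s w ih => rw [wd_cons, Equiv.Perm.mul_apply, ih, h2 s i hi]
  have h5 : ∀ w (k : ℕ), ∀ i ∈ O, (wd τ' w ^ k) i = (wd τ w ^ k) i ∧ (wd τ w ^ k) i ∈ O := by
    intro w k i hi
    induction k with
    | zero => simpa using hi
    | succ k ih =>
      rw [pow_succ', pow_succ', Equiv.Perm.mul_apply, Equiv.Perm.mul_apply, ih.1,
        (h3 w _ ih.2).1]
      exact ⟨rfl, (h3 w _ ih.2).2⟩
  refine ⟨τ', ⟨fun s => ?_, fun s i => ?_, h2, fun w => ?_⟩, fun w i hi => (h3 w i hi).1⟩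
  · refine Equiv.ext fun i => ?_
    by_cases hi : i ∈ O
    · rw [h1 _ i hi, h.inv, Equiv.Perm.eq_inv_iff_eq, h1 s _ (hinv s i hi),
        Z.ap_inv]
    · rw [h2 _ i hi, Equiv.Perm.eq_inv_iff_eq, h2 s i hi]
  · by_cases hi : i ∈ O
    · rw [h1 s i hi]; exact h.disp s i
    · rw [h2 s i hi]; simp
  · refine Equiv.ext fun i => ?_
    by_cases hi : i ∈ O
    · rw [(h5 w n i hi).1, h.exp]
    · have : ∀ k : ℕ, (wd τ' w ^ k) i = i := by
        intro k
        induction k with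
        | zero => simp
        | succ k ih => rw [pow_succ', Equiv.Perm.mul_apply, ih, h4 w i hi]
      rw [this n]
      rfl

/-- an orbit which is unbounded on both sides is dense -/
theorem first (h : ∀ s i, |τ s i - i| ≤ (D : ℤ)) (w : List ι) (x t : ℤ) (hx : x < t)
    (hw : t ≤ wd τ w x) : ∃ v, t ≤ wd τ v x ∧ wd τ v x < t + D := by
  induction w with
  | nil =>
    rw [wd_nil] at hw
    exact absurd hw (not_le.2 hx)
  | cons s w ih =>
    by_cases h1 : t ≤ wd τ w x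
    · exact ih h1
    · push Not at h1
      refine ⟨s :: w, hw, ?_⟩
      rw [wd_cons, Equiv.Perm.mul_apply]
      have := (abs_le.1 (h s (wd τ w x))).2
      linarith

theorem join_wd {T : ι → ℤ → ℤ} {A : Set ℤ} (h : ∀ s, ∀ i ∈ A, τ s i = T s i) {x z : ℤ}
    (hJ : B2.Join T A x z) : ∃ w, wd τ w x = z := by
  obtain ⟨w, h1, h2⟩ := hJ
  refine ⟨w, ?_⟩
  subst h2
  induction w with
  | nil => simp [wd_nil, wf]
  | cons s w ih =>
    have h3 := ih fun k => by
      have := h1 (k + 1)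
      rwa [List.drop_succ_cons] at this
    rw [wd_cons, Equiv.Perm.mul_apply, h3, wf]
    refine h s _ ?_
    have := h1 1
    rwa [List.drop_succ_cons, List.drop_zero] at this

end Z

theorem rowTWO (hB1 : RowB1) : RowTWO := by
  intro ι _ inv n D j C τ Ω hD hB
  have hZ := hB.toZSys
  have key : ∀ K : ℕ, ∃ p q : ℤ, D ≤ K → 0 ≤ q ∧ q < D ∧ p + q ∈ Ω ∧
      ∀ N : ℕ, D ≤ N → N ≤ K →
        (∃ z, (N : ℤ) - D + 1 ≤ z ∧
          B2.Join (fun s i => τ s (p + i) - p) {i | |i| ≤ (N : ℤ)} q z) ∧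
        (∃ z, z ≤ -((N : ℤ) - D + 1) ∧
          B2.Join (fun s i => τ s (p + i) - p) {i | |i| ≤ (N : ℤ)} q z) := by
    intro K
    obtain ⟨x, hx, -, -⟩ := hB.dense 0
    obtain ⟨u, hu⟩ := hB.unb x hx (2 * K)
    push_cast at hu
    obtain ⟨p, y, w, hy, h1, h2⟩ : ∃ (p y : ℤ) (w : List ι), y ∈ Ω ∧ y ≤ p - K ∧
        p + K ≤ wd τ w y := by
      rcases lt_abs.1 hu with h | h
      · exact ⟨x + K, x, u, hx, by linarith, by linarith⟩
      · refine ⟨x - K, wd τ u x, winv inv u, Z.wd_mem hZ u hx, by linarith, ?_⟩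
        rw [wd_winv hZ.inv, Z.inv_ap]
        linarith
    by_cases hDK : D ≤ K
    · obtain ⟨k, hk, g1, g2, g3⟩ := B2.cross (T := fun s i => τ s (p + i) - p) (inv := inv)
        (D := D) (M := K) (K := K) hD hDK (le_refl _) (Z.win hZ p K).inv_left w (y - p)
        (by
          intro k hk
          rw [List.drop_eq_getElem_cons hk, wf]
          have h3 := hZ.disp w[k] (p + wf (fun s i => τ s (p + i) - p) (w.drop (k + 1)) (y - p))
          rwa [show ∀ a b : ℤ, a - (p + b) = a - p - b by intros; ring] at h3)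
        (by linarith) (by rw [Z.wf_shift, show p + (y - p) = y by ring]; linarith)
      refine ⟨p, _, fun _ => ⟨g1, g2, ?_, g3⟩⟩
      rw [Z.wf_shift, show ∀ a : ℤ, p + (a - p) = a by intro a; ring,
        show p + (y - p) = y by ring]
      exact Z.wd_mem hZ _ hy
    · exact ⟨0, 0, fun h => absurd h hDK⟩
  choose p q hpq using key
  obtain ⟨τ', Ω', A', hZ', hlim⟩ := hB1 ι inv n D (fun K s i => τ s (p K + i) - p K)
    (fun K => {i | p K + i ∈ Ω}) (fun K => {q K}) (fun K => Z.win hZ (p K) K)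
  obtain ⟨K₀, hK₀, hag₀⟩ := hlim D D
  obtain ⟨a1, a2, a3, a4⟩ := hpq K₀ hK₀
  set q₀ := q K₀ with hq₀
  have hq₀abs : |q₀| ≤ (D : ℤ) := by rw [abs_of_nonneg a1]; exact a2.le
  have hqA : q₀ ∈ A' := (hag₀ q₀ hq₀abs).2.2.2 rfl
  have hqΩ : q₀ ∈ Ω' := (hag₀ q₀ hq₀abs).2.1.2 a3
  have hq : ∀ R m : ℕ, D ≤ R → ∃ K, m ≤ K ∧ D ≤ K ∧ q K = q₀ ∧ ∀ i : ℤ, |i| ≤ (R : ℤ) →
      (∀ s, τ' s i = τ s (p K + i) - p K) ∧ (i ∈ Ω' ↔ p K + i ∈ Ω) := by
    intro R m hR
    obtain ⟨K, hK, hag⟩ := hlim R (max m D)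
    refine ⟨K, (le_max_left _ _).trans hK, (le_max_right _ _).trans hK, ?_, fun i hi =>
      ⟨(hag i hi).1, (hag i hi).2.1⟩⟩
    have hR' : (D : ℤ) ≤ R := by exact_mod_cast hR
    exact ((hag q₀ (hq₀abs.trans hR')).2.2.1 hqA).symm
  have hTwo : Two τ' q₀ := by
    constructor
    · intro M
      obtain ⟨K, h1, h2, h3, h4⟩ := hq (M + D) (M + D) (by omega)
      obtain ⟨-, -, -, h5⟩ := hpq K h2
      obtain ⟨⟨z, hz, hJ⟩, -⟩ := h5 (M + D) (by omega) h1
      rw [h3] at hJ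
      obtain ⟨w, hw⟩ := Z.join_wd (τ := τ') (fun s i hi => (h4 i hi).1 s) hJ
      refine ⟨w, ?_⟩
      rw [hw]
      push_cast at hz
      linarith
    · intro M
      obtain ⟨K, h1, h2, h3, h4⟩ := hq (M + D) (M + D) (by omega)
      obtain ⟨-, -, -, h5⟩ := hpq K h2
      obtain ⟨-, z, hz, hJ⟩ := h5 (M + D) (by omega) h1
      rw [h3] at hJ
      obtain ⟨w, hw⟩ := Z.join_wd (τ := τ') (fun s i hi => (h4 i hi).1 s) hJ
      refine ⟨w, ?_⟩
      rw [hw]
      push_cast at hz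
      linarith
  set O : Set ℤ := {y | ∃ u : List ι, wd τ' u q₀ = y} with hO
  have hOinv : ∀ s i, i ∈ O → τ' s i ∈ O := by
    rintro s i ⟨u, rfl⟩
    exact ⟨s :: u, by rw [wd_cons, Equiv.Perm.mul_apply]⟩
  have hqO : q₀ ∈ O := ⟨[], by simp [wd_nil]⟩
  obtain ⟨τ'', hZ'', hwd⟩ := Z.restrict hZ' O hOinv
  have hTwo'' : Two τ'' q₀ := by
    refine ⟨fun M => ?_, fun M => ?_⟩
    · obtain ⟨u, hu⟩ := hTwo.1 M
      exact ⟨u, by rw [hwd u _ hqO]; exact hu⟩
    · obtain ⟨u, hu⟩ := hTwo.2 M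
      exact ⟨u, by rw [hwd u _ hqO]; exact hu⟩
  refine ⟨τ'', O, q₀, ⟨hZ'', ?_, ?_, ?_⟩, hqO, hTwo'', ?_⟩
  · intro t
    obtain ⟨u, hu⟩ := hTwo''.2 t.natAbs
    obtain ⟨v, hv⟩ := hTwo''.1 t.natAbs
    have h1 : wd τ'' u q₀ < t := by omega
    have h2 : t ≤ wd τ'' (v ++ winv inv u) (wd τ'' u q₀) := by
      rw [wd_append, Equiv.Perm.mul_apply, wd_winv hZ''.inv, Z.inv_ap]
      omega
    obtain ⟨w, hw1, hw2⟩ := Z.first hZ''.disp _ _ t h1 h2
    exact ⟨_, Z.wd_mem hZ'' w (Z.wd_mem hZ'' u hqO), hw1, hw2⟩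
  · rintro x ⟨u, hu⟩ M
    have hx : wd τ'' u q₀ = x := by rw [hwd u _ hqO]; exact hu
    obtain ⟨v, hv⟩ := hTwo''.1 (M + x.natAbs)
    refine ⟨v ++ winv inv u, ?_⟩
    have h2 : wd τ'' (v ++ winv inv u) x = wd τ'' v q₀ := by
      rw [wd_append, Equiv.Perm.mul_apply, wd_winv hZ''.inv, ← hx,
        Z.inv_ap]
    rw [h2, lt_abs]
    left
    push_cast at hv
    have h3 := le_abs_self x
    linarith
  · intro x m
    obtain ⟨K, -, -, -, h4⟩ := hq (D + x.natAbs + m) 0 (by omega)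
    have hsub : O ⊆ Ω' := by
      rintro y ⟨u, rfl⟩
      exact Z.wd_mem hZ' u hqΩ
    have h5 : (O ∩ Set.Ico x (x + m)).ncard ≤
        (Ω ∩ Set.Ico (p K + x) (p K + x + m)).ncard := by
      refine Set.ncard_le_ncard_of_injOn (fun i => p K + i) ?_ ?_ ?_
      · rintro i ⟨hi, hi2⟩
        rw [Set.mem_Ico] at hi2
        refine ⟨(h4 i ?_).2.1 (hsub hi), ?_⟩
        · have h6 := neg_abs_le x
          have h7 := le_abs_self x
          rw [abs_le]
          push_cast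
          constructor <;> linarith [hi2.1, hi2.2, (Nat.cast_nonneg D : (0 : ℤ) ≤ D),
            (Nat.cast_nonneg m : (0 : ℤ) ≤ m)]
        · rw [Set.mem_Ico]; omega
      · intro i _ i' _ h
        simpa using h
      · exact (Set.finite_Ico _ _).subset Set.inter_subset_right
    exact (Nat.mul_le_mul_left D h5).trans (hB.den _ _)
  · rintro y ⟨u, hu⟩
    exact ⟨u, by rw [hwd u _ hqO]; exact hu⟩

end Pool.Agent.QLN
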